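import Mathlib
import Pool.Agent.Helper95.RX.Comb
import Pool.Agent.Helper95.RX.ConeV
import Pool.Agent.Helper95.RX.KickA

/-! Project RP (random parameters): definitions.  Everything of `Helper95.RX` is used. -/

set_option autoImplicit false
open MeasureTheory Real Set
open scoped ComplexConjugate

namespace Pool.Agent.Helper95.RP

open Pool.Agent.Helper95.RX

export Pool.Agent.Helper53.SM (T2)
export Pool.Agent.Helper78.SM (snn csn snn_coe csn_coe std std_isStd mk2 mp_mk2 Sw L phi Phi Phi_coe)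

attribute [local instance] Pool.Agent.Helper53.SM.instProbU Pool.Agent.Helper53.SM.instProbT2

/-! ### smooth functions on `T2 × Z` (smooth in the first factor) -/

/-- bounded, measurable, continuous in the first factor -/
def CB {Z : Type} [MeasurableSpace Z] (F : T2 × Z → ℂ) : Prop :=
  BM F ∧ ∀ z, Continuous fun p : T2 => F (p, z)

/-- `F'` is `(2πi)⁻¹ ∂F/∂x` -/
def HX {Z : Type} (F F' : T2 × Z → ℂ) : Prop := ∀ (x y : ℝ) (z : Z),
  HasDerivAt (fun t : ℝ => F (mk2 (t, y), z)) (2 * π * Complex.I * F' (mk2 (x, y), z)) x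

/-- `F'` is `(2πi)⁻¹ ∂F/∂y` -/
def HY {Z : Type} (F F' : T2 × Z → ℂ) : Prop := ∀ (x y : ℝ) (z : Z),
  HasDerivAt (fun t : ℝ => F (mk2 (x, t), z)) (2 * π * Complex.I * F' (mk2 (x, y), z)) y

/-- continuously differentiable with derivatives `Fx`, `Fy` (normalized by `(2πi)⁻¹`) -/
structure C1 {Z : Type} [MeasurableSpace Z] (F Fx Fy : T2 × Z → ℂ) : Prop where
  b : CB F
  bx : CB Fx
  by' : CB Fy
  hx : HX F Fx
  hy : HY F Fy

/-- `C¹` with a continuous mixed second derivative -/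
structure CM {Z : Type} [MeasurableSpace Z] (F Fx Fy Fxy : T2 × Z → ℂ) : Prop where
  c : C1 F Fx Fy
  bxy : CB Fxy
  hxy : HY Fx Fxy
  hyx : HX Fy Fxy

/-- `C²` -/
def C2 {Z : Type} [MeasurableSpace Z] (F Fx Fy : T2 × Z → ℂ) : Prop :=
  C1 F Fx Fy ∧ ∃ Fxx Fxy Fyy : T2 × Z → ℂ, C1 Fx Fxx Fxy ∧ C1 Fy Fxy Fyy

/-- smooth multiplier with bound `K` -/
def Mu {Z : Type} [MeasurableSpace Z] (K : ℝ) (M : T2 × Z → ℂ) : Prop :=
  ∃ Mx My : T2 × Z → ℂ, C1 M Mx My ∧ ∀ w, ‖M w‖ ≤ K ∧ ‖Mx w‖ ≤ K ∧ ‖My w‖ ≤ K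

/-! ### the standard map with parameter `a` -/

/-- the standard map `(x, y) ↦ (2x - y + a sin 2πx, x)` -/
noncomputable def sf (a : ℝ) (p : T2) : T2 := (bb a p.1 - p.2, p.1)

/-- its inverse -/
noncomputable def sfi (a : ℝ) (q : T2) : T2 := (q.2, bb a q.2 - q.1)

/-! ### smallness of `g` against classes of functions; `N2 g ≤ 1` -/

/-- `g` is small against `csn y · φ_x` -/
def HH {Z : Type} [MeasurableSpace Z] (μ : Measure Z) (g : T2 × Z → ℂ) (ε : ℝ) : Prop :=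
  ∀ φ φx φy φxy : T2 × Z → ℂ, CM φ φx φy φxy → ∀ C : ℝ,
    N2 ((volume : Measure T2).prod μ) φ ≤ C → N2 ((volume : Measure T2).prod μ) φx ≤ C →
    N2 ((volume : Measure T2).prod μ) φy ≤ C →
    ‖IP ((volume : Measure T2).prod μ) g (fun w => (csn w.1.2 : ℂ) * φx w)‖ ≤ ε * C

/-- `g` is small against functions of `(x, z)` -/
def ZZ {Z : Type} [MeasurableSpace Z] (μ : Measure Z) (g : T2 × Z → ℂ) (ε : ℝ) : Prop :=
  ∀ ρ : T2 × Z → ℂ, CB ρ → (∀ x y y' z, ρ ((x, y), z) = ρ ((x, y'), z)) →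
    ‖IP ((volume : Measure T2).prod μ) g ρ‖ ≤ ε * N2 ((volume : Measure T2).prod μ) ρ

/-- `g` is small against `csn y · M · ψ_x` for smooth multipliers `M` -/
def KK {Z : Type} [MeasurableSpace Z] (μ : Measure Z) (g : T2 × Z → ℂ) (ε : ℝ) : Prop :=
  ∀ (M : T2 × Z → ℂ) (K : ℝ), Mu K M → ∀ ψ ψx ψy ψxy : T2 × Z → ℂ, CM ψ ψx ψy ψxy → ∀ C : ℝ,
    N2 ((volume : Measure T2).prod μ) ψ ≤ C → N2 ((volume : Measure T2).prod μ) ψx ≤ C →
    N2 ((volume : Measure T2).prod μ) ψy ≤ C →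
    ‖IP ((volume : Measure T2).prod μ) g (fun w => (csn w.1.2 : ℂ) * (M w * ψx w))‖ ≤
      ε * (K * C)

/-- one step: `g ≈ g' ∘ (sf a × θ)` and `g ≈ g' ∘ (sf a' × θ')` -/
structure St {Z : Type} [MeasurableSpace Z] (μ : Measure Z) (g g' : T2 × Z → ℂ) (a a' e : ℝ) :
    Prop where
  bm : BM g
  bm' : BM g'
  ex : ∃ θ : Z ≃ᵐ Z, MeasurePreserving θ μ μ ∧ rl μ g' g (sf a) θ e
  ex' : ∃ θ : Z ≃ᵐ Z, MeasurePreserving θ μ μ ∧ rl μ g' g (sf a') θ e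

/-- multiplication of the coefficients of a trigonometric polynomial -/
def cm {Z : Type} (r : ℤ × ℤ → ℝ) (c : ℤ × ℤ → Z → ℂ) : ℤ × ℤ → Z → ℂ := fun ξ z => (r ξ : ℂ) * c ξ z

/-- slope `l / k` -/
noncomputable def Lr (ξ : ℤ × ℤ) : ℝ := (ξ.2 : ℝ) / ξ.1

/-- `ξ = (k, l)` with `k ≠ 0`, `|l| ≤ |k|` -/
def Cone (S : Finset (ℤ × ℤ)) : Prop := ∀ ξ ∈ S, ξ.1 ≠ 0 ∧ |ξ.2| ≤ |ξ.1|

/-! ### the averaging operators -/

/-- the pair map -/
noncomputable def pm {Z : Type} [MeasurableSpace Z] {μ : Measure Z} (H : Sys Z μ)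
    (i : ℕ) (c : ℝ) (w : T2 × Z) : T2 × Z := (sf c w.1, H.h i c w.2)

/-- good pairs of parameters -/
def GG (B s : ℝ) : Set (ℝ × ℝ) :=
  {t | s ≤ |t.1 - t.2| ∧ s ≤ |Real.sin (2 * π * t.1)| ∧ |t.1| ≤ B}

/-- the hypothesis on a law -/
def Spr (B s q : ℝ) (ν : Measure ℝ) : Prop := q ≤ (ν.prod ν).real (GG B s)

/-- the gap: `L²` contraction for every second factor -/
def Gap (η : ℝ) (ν : ℕ → Measure ℝ) : Prop :=
  ∀ {Z : Type} [MeasurableSpace Z] (μ : Measure Z) [IsProbabilityMeasure μ] (H : Sys Z μ)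
    (g : T2 × Z → ℂ), BM g → (∀ z, ∫ p : T2, g (p, z) = 0) → ∀ n : ℕ,
    N2 ((volume : Measure T2).prod μ) (Qn n (pm H) ν g) ^ 2 ≤
      (1 - η) ^ (n / 6) * N2 ((volume : Measure T2).prod μ) g ^ 2

end Pool.Agent.Helper95.RP
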