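import Mathlib
import Pool.Agent.Helper95.RP.Defs

/-! RP-CALA: calculus of `CB`. -/

set_option autoImplicit false
open MeasureTheory Real Set Filter Topology
open scoped ComplexConjugate ENNReal

namespace Pool.Agent.Helper95.RP

open Pool.Agent.Helper95.RX

attribute [local instance] Pool.Agent.Helper53.SM.instProbU Pool.Agent.Helper53.SM.instProbT2

variable {Z : Type} [MeasurableSpace Z]

section CB
variable {F G : T2 × Z → ℂ}

lemma CB.add (hF : CB F) (hG : CB G) : CB (fun w => F w + G w) := by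
  exact ⟨BM.add hF.1 hG.1, fun z => (hF.2 z).add (hG.2 z)⟩

lemma CB.sub (hF : CB F) (hG : CB G) : CB (fun w => F w - G w) := by
  exact ⟨BM.sub hF.1 hG.1, fun z => (hF.2 z).sub (hG.2 z)⟩

lemma CB.mul (hF : CB F) (hG : CB G) : CB (fun w => F w * G w) := by
  exact ⟨BM.mul hF.1 hG.1, fun z => (hF.2 z).mul (hG.2 z)⟩

lemma CB.const (r : ℂ) : CB (fun _ : T2 × Z => r) := by
  exact ⟨BM.const r, fun _ => continuous_const⟩

lemma CB.smul (r : ℂ) (hF : CB F) : CB (fun w => r * F w) := by
  exact CB.mul (CB.const r) hF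

lemma CB.neg (hF : CB F) : CB (fun w => -F w) := by
  have h := CB.smul (-1) hF
  simpa only [neg_mul, one_mul] using h

/-- continuous functions on the torus -/
lemma CB.of_torus {f : T2 → ℂ} (hf : Continuous f) : CB (fun w : T2 × Z => f w.1) := by
  obtain ⟨C, hC⟩ := isCompact_univ.exists_bound_of_continuousOn hf.continuousOn
  exact ⟨⟨hf.measurable.comp measurable_fst, C, fun w => hC _ (mem_univ _)⟩, fun _ => hf⟩

lemma CB.comp {φ : T2 → T2} (hφ : Continuous φ) {θ : Z → Z} (hθ : Measurable θ) (hF : CB F) :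
    CB (fun w => F (φ w.1, θ w.2)) := by
  exact ⟨BM.comp ((hφ.measurable.comp measurable_fst).prodMk (hθ.comp measurable_snd)) hF.1,
    fun z => (hF.2 (θ z)).comp hφ⟩

lemma CB.swp (hF : CB F) : CB (fun w => F (sw w)) := by
  exact CB.comp (φ := Prod.swap) continuous_swap (θ := id) measurable_id hF

end CB

end Pool.Agent.Helper95.RP
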