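import Mathlib
import Pool.Agent.Helper95.RP.CalA

/-! RP-CAL: calculus of `C1`, `CM`. -/

set_option autoImplicit false
open MeasureTheory Real Set Filter Topology
open scoped ComplexConjugate ENNReal

namespace Pool.Agent.Helper95.RP

open Pool.Agent.Helper95.RX

attribute [local instance] Pool.Agent.Helper53.SM.instProbU Pool.Agent.Helper53.SM.instProbT2

variable {Z : Type} [MeasurableSpace Z]

variable {F Fx Fy G Gx Gy : T2 × Z → ℂ}

lemma C1.add (hF : C1 F Fx Fy) (hG : C1 G Gx Gy) :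
    C1 (fun w => F w + G w) (fun w => Fx w + Gx w) (fun w => Fy w + Gy w) where
  b := hF.b.add hG.b
  bx := hF.bx.add hG.bx
  by' := hF.by'.add hG.by'
  hx x y z := by
    exact ((hF.hx x y z).fun_add (hG.hx x y z)).congr_deriv (by ring)
  hy x y z := by
    exact ((hF.hy x y z).fun_add (hG.hy x y z)).congr_deriv (by ring)

lemma C1.sub (hF : C1 F Fx Fy) (hG : C1 G Gx Gy) :
    C1 (fun w => F w - G w) (fun w => Fx w - Gx w) (fun w => Fy w - Gy w) where
  b := hF.b.sub hG.b
  bx := hF.bx.sub hG.bx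
  by' := hF.by'.sub hG.by'
  hx x y z := by
    exact ((hF.hx x y z).fun_sub (hG.hx x y z)).congr_deriv (by ring)
  hy x y z := by
    exact ((hF.hy x y z).fun_sub (hG.hy x y z)).congr_deriv (by ring)

lemma C1.mul (hF : C1 F Fx Fy) (hG : C1 G Gx Gy) :
    C1 (fun w => F w * G w) (fun w => Fx w * G w + F w * Gx w)
      (fun w => Fy w * G w + F w * Gy w) where
  b := hF.b.mul hG.b
  bx := (hF.bx.mul hG.b).add (hF.b.mul hG.bx)
  by' := (hF.by'.mul hG.b).add (hF.b.mul hG.by')
  hx x y z := by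
    exact ((hF.hx x y z).fun_mul (hG.hx x y z)).congr_deriv (by ring)
  hy x y z := by
    exact ((hF.hy x y z).fun_mul (hG.hy x y z)).congr_deriv (by ring)

lemma C1.const (r : ℂ) : C1 (fun _ : T2 × Z => r) (fun _ => 0) (fun _ => 0) where
  b := CB.const r
  bx := CB.const 0
  by' := CB.const 0
  hx x y z := by
    exact (hasDerivAt_const x r).congr_deriv (by ring)
  hy x y z := by
    exact (hasDerivAt_const y r).congr_deriv (by ring)

lemma C1.smul (r : ℂ) (hF : C1 F Fx Fy) :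
    C1 (fun w => r * F w) (fun w => r * Fx w) (fun w => r * Fy w) where
  b := hF.b.smul r
  bx := hF.bx.smul r
  by' := hF.by'.smul r
  hx x y z := by
    exact ((hF.hx x y z).const_mul r).congr_deriv (by ring)
  hy x y z := by
    exact ((hF.hy x y z).const_mul r).congr_deriv (by ring)

lemma C1.neg (hF : C1 F Fx Fy) : C1 (fun w => -F w) (fun w => -Fx w) (fun w => -Fy w) where
  b := hF.b.neg
  bx := hF.bx.neg
  by' := hF.by'.neg
  hx x y z := by
    exact ((hF.hx x y z).fun_neg).congr_deriv (by ring)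
  hy x y z := by
    exact ((hF.hy x y z).fun_neg).congr_deriv (by ring)

private lemma cb_inv62 {f : T2 × Z → ℝ} (hF : CB (fun w => (f w : ℂ))) {κ : ℝ} (hκ : 0 < κ)
    (hf : ∀ w, κ ≤ f w) (n : ℕ) : CB (fun w => ((1 / f w ^ n : ℝ) : ℂ)) := by
  obtain ⟨⟨h1, -⟩, h2⟩ := hF
  have hm : Measurable f := by
    have := Complex.measurable_re.comp h1
    exact this
  have hc : ∀ z, Continuous fun p : T2 => f (p, z) := fun z => by
    have := Complex.continuous_re.comp (h2 z)
    exact this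
  refine ⟨⟨Complex.measurable_ofReal.comp ((hm.pow_const n).const_div 1), 1 / κ ^ n, fun w => ?_⟩,
    fun z => ?_⟩
  · have h3 : κ ^ n ≤ f w ^ n := pow_le_pow_left₀ hκ.le (hf w) n
    have h4 : 0 < κ ^ n := pow_pos hκ n
    rw [Complex.norm_real, Real.norm_of_nonneg (one_div_pos.2 (lt_of_lt_of_le h4 h3)).le]
    exact one_div_le_one_div_of_le h4 h3
  · refine Complex.continuous_ofReal.comp (continuous_const.div ((hc z).pow n) fun p => ?_)
    exact (pow_pos (lt_of_lt_of_le hκ (hf _)) n).ne'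

/-- inverse of a real function bounded below -/
lemma C1.inv {f : T2 × Z → ℝ} (hF : C1 (fun w => (f w : ℂ)) Fx Fy) {κ : ℝ} (hκ : 0 < κ)
    (hf : ∀ w, κ ≤ f w) :
    C1 (fun w => ((1 / f w : ℝ) : ℂ)) (fun w => -(Fx w * ((1 / f w ^ 2 : ℝ) : ℂ)))
      (fun w => -(Fy w * ((1 / f w ^ 2 : ℝ) : ℂ))) where
  b := by
    have := cb_inv62 hF.b hκ hf 1
    simpa only [pow_one] using this
  bx := (hF.bx.mul (cb_inv62 hF.b hκ hf 2)).neg
  by' := (hF.by'.mul (cb_inv62 hF.b hκ hf 2)).neg
  hx x y z := by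
    have h0 : (f (mk2 (x, y), z) : ℂ) ≠ 0 := by
      have := lt_of_lt_of_le hκ (hf (mk2 (x, y), z))
      exact_mod_cast this.ne'
    have h := (hF.hx x y z).fun_inv h0
    have e : (fun t : ℝ => ((1 / f (mk2 (t, y), z) : ℝ) : ℂ)) =
        fun t : ℝ => ((f (mk2 (t, y), z) : ℝ) : ℂ)⁻¹ := by
      funext t
      push_cast
      rw [one_div]
    change HasDerivAt (fun t : ℝ => ((1 / f (mk2 (t, y), z) : ℝ) : ℂ)) _ x
    rw [e]
    refine h.congr_deriv ?_
    push_cast
    field_simp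
  hy x y z := by
    have h0 : (f (mk2 (x, y), z) : ℂ) ≠ 0 := by
      have := lt_of_lt_of_le hκ (hf (mk2 (x, y), z))
      exact_mod_cast this.ne'
    have h := (hF.hy x y z).fun_inv h0
    have e : (fun t : ℝ => ((1 / f (mk2 (x, t), z) : ℝ) : ℂ)) =
        fun t : ℝ => ((f (mk2 (x, t), z) : ℝ) : ℂ)⁻¹ := by
      funext t
      push_cast
      rw [one_div]
    change HasDerivAt (fun t : ℝ => ((1 / f (mk2 (x, t), z) : ℝ) : ℂ)) _ y
    rw [e]
    refine h.congr_deriv ?_
    push_cast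
    field_simp

/-- exchange of coordinates -/
lemma C1.swp (hF : C1 F Fx Fy) :
    C1 (fun w => F (sw w)) (fun w => Fy (sw w)) (fun w => Fx (sw w)) where
  b := hF.b.swp
  bx := hF.by'.swp
  by' := hF.bx.swp
  hx x y z := hF.hy y x z
  hy x y z := hF.hx y x z

lemma CM.swp {Fxy : T2 × Z → ℂ} (hF : CM F Fx Fy Fxy) :
    CM (fun w => F (sw w)) (fun w => Fy (sw w)) (fun w => Fx (sw w)) (fun w => Fxy (sw w)) where
  c := hF.c.swp
  bxy := hF.bxy.swp
  hxy x y z := hF.hyx y x z
  hyx x y z := hF.hxy y x z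

lemma C2.toCM (hF : C2 F Fx Fy) : ∃ Fxy : T2 × Z → ℂ, CM F Fx Fy Fxy := by
  obtain ⟨h, Fxx, Fxy, Fyy, h1, h2⟩ := hF
  exact ⟨Fxy, h, h1.by', h1.hy, h2.hx⟩

private lemma cont_csn62 : Continuous (fun θ : UnitAddCircle => (csn θ : ℂ)) :=
  Complex.continuous_ofReal.comp (Complex.continuous_re.comp
    (continuous_subtype_val.comp AddCircle.continuous_toCircle))

private lemma cont_snn62 : Continuous (fun θ : UnitAddCircle => (snn θ : ℂ)) :=
  Complex.continuous_ofReal.comp (Complex.continuous_im.comp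
    (continuous_subtype_val.comp AddCircle.continuous_toCircle))

private lemma der_csn62 (x : ℝ) : HasDerivAt (fun t : ℝ => ((csn (t : UnitAddCircle) : ℝ) : ℂ))
    (2 * π * Complex.I * (Complex.I * ((snn (x : UnitAddCircle) : ℝ) : ℂ))) x := by
  have h1 : HasDerivAt (fun t : ℝ => 2 * π * t) (2 * π) x := by
    simpa using (hasDerivAt_id x).const_mul (2 * π)
  have h2 := (h1.cos).ofReal_comp
  convert h2 using 1
  · funext t
    rw [csn_coe]
  · rw [snn_coe]
    push_cast
    linear_combination (2 * (π : ℂ) * Complex.sin (2 * π * x)) * Complex.I_mul_I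

/-- `cos 2πx` -/
lemma C1.csnX : C1 (fun w : T2 × Z => (csn w.1.1 : ℂ)) (fun w => Complex.I * (snn w.1.1 : ℂ))
    (fun _ => 0) where
  b := CB.of_torus (f := fun p : T2 => (csn p.1 : ℂ)) (cont_csn62.comp continuous_fst)
  bx := CB.of_torus (f := fun p : T2 => Complex.I * (snn p.1 : ℂ))
    (continuous_const.mul (cont_snn62.comp continuous_fst))
  by' := CB.const 0
  hx x y z := der_csn62 x
  hy x y z := by
    exact (hasDerivAt_const y ((csn (x : UnitAddCircle) : ℝ) : ℂ)).congr_deriv (by ring)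

lemma C1.csnY : C1 (fun w : T2 × Z => (csn w.1.2 : ℂ)) (fun _ => 0)
    (fun w => Complex.I * (snn w.1.2 : ℂ)) :=
  C1.swp (C1.csnX (Z := Z))

/-- `Phi a x = 2 + 2πa cos 2πx` -/
lemma C1.PhiX (a : ℝ) : C1 (fun w : T2 × Z => (Phi a w.1.1 : ℂ))
    (fun w => 2 * π * a * Complex.I * (snn w.1.1 : ℂ)) (fun _ => 0) := by
  have h := (C1.const (Z := Z) (2 : ℂ)).add (C1.smul (2 * π * a : ℂ) (C1.csnX (Z := Z)))
  convert h using 1
  · funext w
    unfold Pool.Agent.Helper78.SM.Phi
    push_cast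
    ring
  · funext w
    ring
  · funext w
    ring

end Pool.Agent.Helper95.RP
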