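import Mathlib
import Pool.Agent.Helper95.RP.Defs

/-! RP-CURVE: chain rule along a curve for `C1` functions. -/

set_option autoImplicit false
open MeasureTheory Real Set Filter Topology
open scoped ComplexConjugate ENNReal

namespace Pool.Agent.Helper95.RP

open Pool.Agent.Helper95.RX

attribute [local instance] Pool.Agent.Helper53.SM.instProbU Pool.Agent.Helper53.SM.instProbT2

variable {Z : Type} [MeasurableSpace Z]

private lemma curve_core6 {G Gx Gy : ℝ × ℝ → ℂ} (hx : ∀ a b : ℝ, HasDerivAt (fun t : ℝ => G (t, b)) (Gx (a, b)) a)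
    (hy : ∀ a b : ℝ, HasDerivAt (fun t : ℝ => G (a, t)) (Gy (a, b)) b)
    (cx : Continuous Gx) (cy : Continuous Gy) {x y : ℝ → ℝ} {x' y' t : ℝ}
    (h1 : HasDerivAt x x' t) (h2 : HasDerivAt y y' t) :
    HasDerivAt (fun u => G (x u, y u)) (x' * Gx (x t, y t) + y' * Gy (x t, y t)) t := by
  let f : ℝ → ℝ → ℂ := fun a b => G (a, b)
  let f₁ : ℝ → ℝ → ℝ →L[ℝ] ℂ := fun a b => ContinuousLinearMap.toSpanSingletonCLE (Gx (a, b))
  let f₂ : ℝ → ℝ → ℝ →L[ℝ] ℂ := fun a b => ContinuousLinearMap.toSpanSingletonCLE (Gy (a, b))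
  have c1 : Continuous (Function.HasUncurry.uncurry f₁ : ℝ × ℝ → ℝ →L[ℝ] ℂ) :=
    (ContinuousLinearMap.toSpanSingletonCLE (𝕜 := ℝ) (E := ℂ)).continuous.comp cx
  have c2 : Continuous (Function.HasUncurry.uncurry f₂ : ℝ × ℝ → ℝ →L[ℝ] ℂ) :=
    (ContinuousLinearMap.toSpanSingletonCLE (𝕜 := ℝ) (E := ℂ)).continuous.comp cy
  have hs := hasStrictFDerivAt_uncurry_coprod (𝕜 := ℝ) (u := (x t, y t)) (f := f) (f₁ := f₁)
    (f₂ := f₂) (Eventually.of_forall fun v => (hx v.1 v.2).hasFDerivAt)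
    (Eventually.of_forall fun v => (hy v.1 v.2).hasFDerivAt) c1.continuousAt c2.continuousAt
  have h3 : HasFDerivAt (fun p : ℝ × ℝ => G p) _ (x t, y t) := hs.hasFDerivAt
  have h4 := h3.comp_hasDerivAt t (h1.prodMk h2)
  refine h4.congr_deriv ?_
  show x' • Gx (x t, y t) + y' • Gy (x t, y t) = _
  rw [Complex.real_smul, Complex.real_smul]

/-- chain rule along a curve: continuous partial derivatives.  Write
`F (x(u), y(u)) - F (x(t), y(t)) = (F (x(u), y(u)) - F (x(t), y(u))) + (F (x(t), y(u)) - F (x(t), y(t)))`;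
the first bracket is `∫_{x(t)}^{x(u)} 2πi Fx (ξ, y(u)) dξ` and `Fx` is continuous on the torus; or use
that the lift of `F` to the plane has continuous partial derivatives, hence is strictly
differentiable. -/
lemma hasDerivAt_curve {F Fx Fy : T2 × Z → ℂ} (h : C1 F Fx Fy) {x y : ℝ → ℝ} {x' y' t : ℝ}
    (hx : HasDerivAt x x' t) (hy : HasDerivAt y y' t) (z : Z) :
    HasDerivAt (fun u => F (mk2 (x u, y u), z))
      (2 * π * Complex.I * (x' * Fx (mk2 (x t, y t), z) + y' * Fy (mk2 (x t, y t), z))) t := by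
  have hm : Continuous (mk2 : ℝ × ℝ → T2) := by
    refine Continuous.prodMk ?_ ?_
    · exact (AddCircle.continuous_mk' 1).comp continuous_fst
    · exact (AddCircle.continuous_mk' 1).comp continuous_snd
  have c1 : Continuous fun p : ℝ × ℝ => 2 * π * Complex.I * Fx (mk2 p, z) :=
    continuous_const.mul ((h.bx.2 z).comp hm)
  have c2 : Continuous fun p : ℝ × ℝ => 2 * π * Complex.I * Fy (mk2 p, z) :=
    continuous_const.mul ((h.by'.2 z).comp hm)
  have h1 := curve_core6 (G := fun p : ℝ × ℝ => F (mk2 p, z)) (fun a b => h.hx a b z)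
    (fun a b => h.hy a b z) c1 c2 hx hy
  refine h1.congr_deriv ?_
  ring

end Pool.Agent.Helper95.RP
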