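import Mathlib
import Pool.Agent.Helper95.RP.Cal
import Pool.Agent.Helper95.RP.Curve

/-! RP-COMP: composition with the standard map, trigonometric polynomials. -/

set_option autoImplicit false
open MeasureTheory Real Set Filter Topology
open scoped ComplexConjugate ENNReal

namespace Pool.Agent.Helper95.RP

open Pool.Agent.Helper95.RX

attribute [local instance] Pool.Agent.Helper53.SM.instProbU Pool.Agent.Helper53.SM.instProbT2

variable {Z : Type} [MeasurableSpace Z]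

lemma continuous_sf (a : ℝ) : Continuous (sf a) := by
  unfold sf
  exact (((continuous_bb a).comp continuous_fst).sub continuous_snd).prodMk continuous_fst

private lemma sf_mk2_h85 (a x y : ℝ) :
    sf a (mk2 (x, y)) = mk2 (2 * x - y + a * Real.sin (2 * π * x), x) := by
  unfold sf bb Pool.Agent.Helper78.SM.mk2
  refine Prod.ext ?_ rfl
  simp only [snn_coe]
  rw [← AddCircle.coe_add, ← AddCircle.coe_add, ← AddCircle.coe_sub]
  congr 1
  ring

private lemma continuous_Phi_h85 (a : ℝ) : Continuous (fun p : T2 => (Phi a p.1 : ℂ)) := by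
  unfold Pool.Agent.Helper78.SM.Phi
  exact Complex.continuous_ofReal.comp (continuous_const.add (continuous_const.mul
    (Pool.Agent.Helper78.SM.continuous_csn.comp continuous_fst)))

/-- `∂x (F ∘ S) = Φ_a(x) Fx ∘ S + Fy ∘ S`, `∂y (F ∘ S) = - Fx ∘ S`: `hasDerivAt_curve` along
`t ↦ (2t - y + a sin 2πt, t)` and `t ↦ (2x - t + a sin 2πx, x)` -/
lemma C1.comp {F Fx Fy : T2 × Z → ℂ} (h : C1 F Fx Fy) (a : ℝ) {θ : Z → Z} (hθ : Measurable θ) :
    C1 (fun w => F (sf a w.1, θ w.2))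
      (fun w => (Phi a w.1.1 : ℂ) * Fx (sf a w.1, θ w.2) + Fy (sf a w.1, θ w.2))
      (fun w => -Fx (sf a w.1, θ w.2)) := by
  refine ⟨h.b.comp (continuous_sf a) hθ,
    ((CB.of_torus (continuous_Phi_h85 a)).mul (h.bx.comp (continuous_sf a) hθ)).add
      (h.by'.comp (continuous_sf a) hθ), (h.bx.comp (continuous_sf a) hθ).neg, ?_, ?_⟩
  · intro x y z
    have h1 : HasDerivAt (fun t : ℝ => 2 * t - y + a * Real.sin (2 * π * t)) (phi a x) x := by
      have h2 : HasDerivAt (fun t : ℝ => 2 * π * t) (2 * π) x := by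
        simpa using (hasDerivAt_id x).const_mul (2 * π)
      have h3 := (h2.sin).const_mul a
      have h4 : HasDerivAt (fun t : ℝ => 2 * t - y) 2 x := by
        simpa using ((hasDerivAt_id x).const_mul 2).sub_const y
      have h5 := h4.add h3
      have h6 : 2 + a * (Real.cos (2 * π * x) * (2 * π)) = phi a x := by
        unfold Pool.Agent.Helper78.SM.phi
        ring
      rw [h6] at h5
      exact h5
    have h7 := hasDerivAt_curve h h1 (hasDerivAt_id x) (θ z)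
    simp only [sf_mk2_h85]
    have h8 : (Phi a (mk2 (x, y)).1 : ℂ) = (phi a x : ℂ) := by
      have := Phi_coe a x
      exact congrArg _ this
    rw [h8]
    simp only [id, Complex.ofReal_one, one_mul] at h7
    exact h7
  · intro x y z
    have h1 : HasDerivAt (fun t : ℝ => 2 * x - t + a * Real.sin (2 * π * x)) (-1) y := by
      simpa using ((hasDerivAt_id y).const_sub (2 * x)).add_const (a * Real.sin (2 * π * x))
    have h7 := hasDerivAt_curve h h1 (hasDerivAt_const y x) (θ z)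
    simp only [sf_mk2_h85]
    simp only [Complex.ofReal_zero, zero_mul, add_zero, Complex.ofReal_neg, Complex.ofReal_one,
      neg_mul, one_mul] at h7
    exact h7

/-- from `C1.comp`, `C1.mul`, `C1.PhiX` -/
lemma C2.comp {F Fx Fy : T2 × Z → ℂ} (h : C2 F Fx Fy) (a : ℝ) {θ : Z → Z} (hθ : Measurable θ) :
    C2 (fun w => F (sf a w.1, θ w.2))
      (fun w => (Phi a w.1.1 : ℂ) * Fx (sf a w.1, θ w.2) + Fy (sf a w.1, θ w.2))
      (fun w => -Fx (sf a w.1, θ w.2)) := by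
  obtain ⟨h0, Fxx, Fxy, Fyy, h1, h2⟩ := h
  have k1 := h1.comp a hθ
  have k2 := h2.comp a hθ
  have k3 := ((C1.PhiX a).mul k1).add k2
  have k4 := k1.neg
  have e1 : (fun w : T2 × Z => -((Phi a w.1.1 : ℂ) * Fxx (sf a w.1, θ w.2) +
      Fxy (sf a w.1, θ w.2))) = fun w : T2 × Z =>
      (fun _ => (0 : ℂ)) w * Fx (sf a w.1, θ w.2) + (Phi a w.1.1 : ℂ) * -Fxx (sf a w.1, θ w.2) +
        -Fxy (sf a w.1, θ w.2) := by
    funext w
    simp only
    ring
  rw [e1] at k4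
  exact ⟨h0.comp a hθ, _, _, _, k3, k4⟩

private lemma CB_tp_h85 (S : Finset (ℤ × ℤ)) {c : ℤ × ℤ → Z → ℂ} (hc : ∀ ξ, BM (c ξ)) :
    CB (tp S c) := by
  refine ⟨BM_tp S fun ξ _ => hc ξ, fun z => ?_⟩
  unfold tp
  refine continuous_finsetSum S fun ξ _ => ?_
  have h1 : Continuous (fun p : T2 => (fourier ξ.1 p.1 : ℂ)) :=
    (fourier ξ.1).continuous.comp continuous_fst
  have h2 : Continuous (fun p : T2 => (fourier ξ.2 p.2 : ℂ)) :=
    (fourier ξ.2).continuous.comp continuous_snd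
  have h3 : Continuous (fun p : T2 => c ξ z * (fourier ξ.1 p.1 * fourier ξ.2 p.2)) := by
    fun_prop
  exact h3

private lemma BM_cm_h85 {r : ℤ × ℤ → ℝ} {c : ℤ × ℤ → Z → ℂ} (hc : ∀ ξ, BM (c ξ)) :
    ∀ ξ, BM (cm r c ξ) := fun ξ => (hc ξ).smul _

private lemma der_h85 (n : ℤ) (x : ℝ) : HasDerivAt (fun t : ℝ => (fourier n (t : UnitAddCircle) : ℂ))
    (2 * π * Complex.I * ((n : ℝ) * fourier n (x : UnitAddCircle))) x := by
  have h := hasDerivAt_fourier 1 n x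
  have e : 2 * ↑π * Complex.I * ↑n / ↑(1 : ℝ) * fourier n (x : UnitAddCircle) =
    2 * π * Complex.I * ((n : ℝ) * fourier n (x : UnitAddCircle)) := by
    push_cast
    ring
  rw [e] at h
  exact h

/-- `∂x e(kx + ly) = k e(kx + ly)` in the normalization by `(2πi)⁻¹` -/
lemma C1.trig (S : Finset (ℤ × ℤ)) {c : ℤ × ℤ → Z → ℂ} (hc : ∀ ξ, BM (c ξ)) :
    C1 (tp S c) (tp S (cm (fun ξ => (ξ.1 : ℝ)) c)) (tp S (cm (fun ξ => (ξ.2 : ℝ)) c)) := by
  refine ⟨CB_tp_h85 S hc, CB_tp_h85 S (BM_cm_h85 hc), CB_tp_h85 S (BM_cm_h85 hc), ?_, ?_⟩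
  · intro x y z
    unfold tp
    have h1 := HasDerivAt.fun_sum (u := S) (x := x)
      (A := fun ξ t => c ξ z * (fourier ξ.1 (t : UnitAddCircle) * fourier ξ.2 (y : UnitAddCircle)))
      (A' := fun ξ => c ξ z * (2 * π * Complex.I * ((ξ.1 : ℝ) * fourier ξ.1 (x : UnitAddCircle)) *
        fourier ξ.2 (y : UnitAddCircle)))
      (fun ξ _ => ((der_h85 ξ.1 x).mul_const _).const_mul _)
    have e : (∑ ξ ∈ S, c ξ z * (2 * π * Complex.I * ((ξ.1 : ℝ) * fourier ξ.1 (x : UnitAddCircle)) *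
        fourier ξ.2 (y : UnitAddCircle))) = 2 * π * Complex.I *
        ∑ ξ ∈ S, cm (fun ξ => (ξ.1 : ℝ)) c ξ z * (fourier ξ.1 (x : UnitAddCircle) *
          fourier ξ.2 (y : UnitAddCircle)) := by
      rw [Finset.mul_sum]
      refine Finset.sum_congr rfl fun ξ _ => ?_
      unfold cm
      ring
    rw [e] at h1
    exact h1
  · intro x y z
    unfold tp
    have h1 := HasDerivAt.fun_sum (u := S) (x := y)
      (A := fun ξ t => c ξ z * (fourier ξ.1 (x : UnitAddCircle) * fourier ξ.2 (t : UnitAddCircle)))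
      (A' := fun ξ => c ξ z * (fourier ξ.1 (x : UnitAddCircle) *
        (2 * π * Complex.I * ((ξ.2 : ℝ) * fourier ξ.2 (y : UnitAddCircle)))))
      (fun ξ _ => ((der_h85 ξ.2 y).const_mul _).const_mul _)
    have e : (∑ ξ ∈ S, c ξ z * (fourier ξ.1 (x : UnitAddCircle) *
        (2 * π * Complex.I * ((ξ.2 : ℝ) * fourier ξ.2 (y : UnitAddCircle))))) =
        2 * π * Complex.I *
        ∑ ξ ∈ S, cm (fun ξ => (ξ.2 : ℝ)) c ξ z * (fourier ξ.1 (x : UnitAddCircle) *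
          fourier ξ.2 (y : UnitAddCircle)) := by
      rw [Finset.mul_sum]
      refine Finset.sum_congr rfl fun ξ _ => ?_
      unfold cm
      ring
    rw [e] at h1
    exact h1

lemma BM_cm {r : ℤ × ℤ → ℝ} {c : ℤ × ℤ → Z → ℂ} (hc : ∀ ξ, BM (c ξ)) : ∀ ξ, BM (cm r c ξ) := by
  exact BM_cm_h85 hc

private lemma tp_congr_h85 {S : Finset (ℤ × ℤ)} {c c' : ℤ × ℤ → Z → ℂ}
    (h : ∀ ξ ∈ S, ∀ z, c ξ z = c' ξ z) : tp S c = tp S c' := by
  funext w
  unfold tp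
  exact Finset.sum_congr rfl fun ξ hξ => by rw [h ξ hξ]

/-- the primitive `∑ (c/k) e(kx + ly)` on the cone -/
lemma C2.prim {S : Finset (ℤ × ℤ)} (hS : Cone S) {c : ℤ × ℤ → Z → ℂ} (hc : ∀ ξ, BM (c ξ)) :
    C2 (tp S (cm (fun ξ => 1 / (ξ.1 : ℝ)) c)) (tp S c) (tp S (cm Lr c)) := by
  have hne : ∀ ξ ∈ S, ((ξ.1 : ℝ) : ℂ) ≠ 0 := by
    intro ξ hξ
    have := (hS ξ hξ).1
    exact_mod_cast this
  have k0 := C1.trig S (BM_cm_h85 (r := fun ξ => 1 / (ξ.1 : ℝ)) hc)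
  have k1 := C1.trig S hc
  have k2 := C1.trig S (BM_cm_h85 (r := Lr) hc)
  have e1 : tp S (cm (fun ξ => (ξ.1 : ℝ)) (cm (fun ξ => 1 / (ξ.1 : ℝ)) c)) = tp S c := by
    refine tp_congr_h85 fun ξ hξ z => ?_
    unfold cm
    have := hne ξ hξ
    push_cast
    rw [Complex.ofReal_intCast] at this
    field_simp
  have e2 : tp S (cm (fun ξ => (ξ.2 : ℝ)) (cm (fun ξ => 1 / (ξ.1 : ℝ)) c)) = tp S (cm Lr c) := by
    refine tp_congr_h85 fun ξ hξ z => ?_
    unfold cm Lr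
    push_cast
    ring
  have e3 : tp S (cm (fun ξ => (ξ.1 : ℝ)) (cm Lr c)) = tp S (cm (fun ξ => (ξ.2 : ℝ)) c) := by
    refine tp_congr_h85 fun ξ hξ z => ?_
    unfold cm Lr
    have := hne ξ hξ
    push_cast
    rw [Complex.ofReal_intCast] at this
    field_simp
  rw [e1, e2] at k0
  rw [e3] at k2
  exact ⟨k0, _, _, _, k1, k2⟩

variable {μ : Measure Z} [IsProbabilityMeasure μ]

lemma ns_cm_le {S : Finset (ℤ × ℤ)} {c : ℤ × ℤ → Z → ℂ} (hc : ∀ ξ, BM (c ξ)) {r : ℤ × ℤ → ℝ} {R : ℝ}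
    (hR : 0 ≤ R) (hr : ∀ ξ ∈ S, |r ξ| ≤ R) : ns μ S (cm r c) ≤ R ^ 2 * ns μ S c := by
  unfold ns
  rw [Finset.mul_sum]
  refine Finset.sum_le_sum fun ξ hξ => ?_
  have h1 : ∀ z, ‖cm r c ξ z‖ ^ 2 = r ξ ^ 2 * ‖c ξ z‖ ^ 2 := by
    intro z
    unfold cm
    rw [norm_mul, Complex.norm_real, Real.norm_eq_abs, mul_pow, sq_abs]
  simp_rw [h1]
  rw [integral_const_mul]
  refine mul_le_mul_of_nonneg_right ?_ (integral_nonneg fun z => sq_nonneg _)
  rw [← sq_abs (r ξ)]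
  exact pow_le_pow_left₀ (abs_nonneg _) (hr ξ hξ) 2

lemma tp_cm_add (S : Finset (ℤ × ℤ)) (c : ℤ × ℤ → Z → ℂ) {r₁ r₂ r₃ : ℤ × ℤ → ℝ} {x₁ x₂ : ℝ}
    (h : ∀ ξ ∈ S, r₃ ξ = x₁ * r₁ ξ + x₂ * r₂ ξ) (w : T2 × Z) :
    tp S (cm r₃ c) w = x₁ * tp S (cm r₁ c) w + x₂ * tp S (cm r₂ c) w := by
  unfold tp
  rw [Finset.mul_sum, Finset.mul_sum, ← Finset.sum_add_distrib]
  refine Finset.sum_congr rfl fun ξ hξ => ?_
  unfold cm
  rw [h ξ hξ]
  push_cast
  ring

end Pool.Agent.Helper95.RP
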