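import Mathlib
import Pool.Agent.Helper95.RP.Comp

/-! RP-MUA: multipliers, closure. -/

set_option autoImplicit false
open MeasureTheory Real Set Filter Topology
open scoped ComplexConjugate ENNReal

namespace Pool.Agent.Helper95.RP

open Pool.Agent.Helper95.RX

attribute [local instance] Pool.Agent.Helper53.SM.instProbU Pool.Agent.Helper53.SM.instProbT2

variable {Z : Type} [MeasurableSpace Z] {M N : T2 × Z → ℂ} {K K' : ℝ}

private lemma snn_abs31 (θ : UnitAddCircle) : |snn θ| ≤ 1 := by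
  induction θ using QuotientAddGroup.induction_on with
  | H x =>
    have h := snn_coe x
    change |snn ((x : ℝ) : UnitAddCircle)| ≤ 1
    rw [h]
    exact Real.abs_sin_le_one _

private lemma csn_abs31 (θ : UnitAddCircle) : |csn θ| ≤ 1 := Pool.Agent.Helper78.SM.abs_csn_le θ

private lemma isnn31 (θ : UnitAddCircle) : ‖Complex.I * (snn θ : ℂ)‖ ≤ 1 := by
  rw [norm_mul, Complex.norm_I, one_mul, Complex.norm_real]
  exact snn_abs31 θ

lemma Mu.nonneg [Nonempty Z] (hM : Mu K M) : 0 ≤ K := by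
  obtain ⟨Mx, My, -, h⟩ := hM
  obtain ⟨z⟩ := (inferInstance : Nonempty Z)
  exact (norm_nonneg _).trans (h ((0, 0), z)).1

lemma Mu.mono (hM : Mu K M) (h : K ≤ K') : Mu K' M := by
  obtain ⟨Mx, My, h1, h2⟩ := hM
  exact ⟨Mx, My, h1, fun w => ⟨(h2 w).1.trans h, (h2 w).2.1.trans h, (h2 w).2.2.trans h⟩⟩

lemma Mu.congr (hM : Mu K M) (h : ∀ w, N w = M w) : Mu K N := by
  have h1 : N = M := funext h
  rwa [h1]

lemma Mu.add (hM : Mu K M) (hN : Mu K' N) : Mu (K + K') (fun w => M w + N w) := by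
  obtain ⟨Mx, My, h1, h2⟩ := hM
  obtain ⟨Nx, Ny, h3, h4⟩ := hN
  refine ⟨_, _, h1.add h3, fun w => ⟨?_, ?_, ?_⟩⟩
  · exact (norm_add_le _ _).trans (add_le_add (h2 w).1 (h4 w).1)
  · exact (norm_add_le _ _).trans (add_le_add (h2 w).2.1 (h4 w).2.1)
  · exact (norm_add_le _ _).trans (add_le_add (h2 w).2.2 (h4 w).2.2)

lemma Mu.sub (hM : Mu K M) (hN : Mu K' N) : Mu (K + K') (fun w => M w - N w) := by
  obtain ⟨Mx, My, h1, h2⟩ := hM
  obtain ⟨Nx, Ny, h3, h4⟩ := hN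
  refine ⟨_, _, h1.sub h3, fun w => ⟨?_, ?_, ?_⟩⟩
  · exact (norm_sub_le _ _).trans (add_le_add (h2 w).1 (h4 w).1)
  · exact (norm_sub_le _ _).trans (add_le_add (h2 w).2.1 (h4 w).2.1)
  · exact (norm_sub_le _ _).trans (add_le_add (h2 w).2.2 (h4 w).2.2)

lemma Mu.mul (hK : 0 ≤ K) (hK' : 0 ≤ K') (hM : Mu K M) (hN : Mu K' N) :
    Mu (2 * K * K') (fun w => M w * N w) := by
  obtain ⟨Mx, My, h1, h2⟩ := hM
  obtain ⟨Nx, Ny, h3, h4⟩ := hN
  have h0 : 0 ≤ K * K' := mul_nonneg hK hK'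
  have key : ∀ a b : ℂ, ‖a‖ ≤ K → ‖b‖ ≤ K' → ‖a * b‖ ≤ K * K' := by
    intro a b ha hb
    rw [norm_mul]
    exact mul_le_mul ha hb (norm_nonneg _) hK
  refine ⟨_, _, h1.mul h3, fun w => ⟨?_, ?_, ?_⟩⟩
  · exact (key _ _ (h2 w).1 (h4 w).1).trans (by linarith)
  · refine (norm_add_le _ _).trans ?_
    have e1 := key _ _ (h2 w).2.1 (h4 w).1
    have e2 := key _ _ (h2 w).1 (h4 w).2.1
    linarith
  · refine (norm_add_le _ _).trans ?_
    have e1 := key _ _ (h2 w).2.2 (h4 w).1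
    have e2 := key _ _ (h2 w).1 (h4 w).2.2
    linarith

lemma Mu.smul (r : ℂ) (hM : Mu K M) : Mu (‖r‖ * K) (fun w => r * M w) := by
  obtain ⟨Mx, My, h1, h2⟩ := hM
  have key : ∀ a : ℂ, ‖a‖ ≤ K → ‖r * a‖ ≤ ‖r‖ * K := by
    intro a ha
    rw [norm_mul]
    exact mul_le_mul_of_nonneg_left ha (norm_nonneg _)
  exact ⟨_, _, h1.smul r, fun w => ⟨key _ (h2 w).1, key _ (h2 w).2.1, key _ (h2 w).2.2⟩⟩

lemma Mu.csnX : Mu 1 (fun w : T2 × Z => (csn w.1.1 : ℂ)) := by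
  refine ⟨_, _, C1.csnX, fun w => ⟨?_, isnn31 _, ?_⟩⟩
  · rw [Complex.norm_real]
    exact csn_abs31 _
  · rw [norm_zero]
    exact zero_le_one

lemma Mu.csnY : Mu 1 (fun w : T2 × Z => (csn w.1.2 : ℂ)) := by
  refine ⟨_, _, C1.csnY, fun w => ⟨?_, ?_, isnn31 _⟩⟩
  · rw [Complex.norm_real]
    exact csn_abs31 _
  · rw [norm_zero]
    exact zero_le_one

/-- composition with the standard map (`C1.comp`, `|Phi a| ≤ 2 + 2πB`) -/
lemma Mu.comp {a B : ℝ} (ha : |a| ≤ B) (hM : Mu K M) {θ : Z → Z} (hθ : Measurable θ) :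
    Mu ((3 + 2 * π * B) * K) (fun w => M (sf a w.1, θ w.2)) := by
  obtain ⟨Mx, My, h1, h2⟩ := hM
  have hB : 0 ≤ B := (abs_nonneg a).trans ha
  have hpi := Real.pi_pos
  have hpB : 0 ≤ 2 * π * B := by positivity
  refine ⟨_, _, h1.comp a hθ, fun w => ?_⟩
  have hb := h2 (sf a w.1, θ w.2)
  have hK : 0 ≤ K := (norm_nonneg _).trans hb.1
  have hKB : 0 ≤ 2 * π * B * K := mul_nonneg hpB hK
  have hPhi : ‖(Phi a w.1.1 : ℂ)‖ ≤ 2 + 2 * π * B := by
    rw [Complex.norm_real, Real.norm_eq_abs]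
    have e1 : Phi a w.1.1 = 2 + 2 * π * a * csn w.1.1 := rfl
    rw [e1]
    refine (abs_add_le _ _).trans ?_
    rw [abs_of_pos (by norm_num : (0 : ℝ) < 2), abs_mul, abs_mul, abs_mul,
      abs_of_pos hpi, abs_of_pos (by norm_num : (0 : ℝ) < 2)]
    have e2 : 2 * π * |a| * |csn w.1.1| ≤ 2 * π * B * 1 :=
      mul_le_mul (mul_le_mul_of_nonneg_left ha (by positivity)) (csn_abs31 _) (abs_nonneg _) hpB
    linarith
  refine ⟨?_, ?_, ?_⟩
  · nlinarith [hb.1]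
  · refine (norm_add_le _ _).trans ?_
    rw [norm_mul]
    have e1 : ‖(Phi a w.1.1 : ℂ)‖ * ‖Mx (sf a w.1, θ w.2)‖ ≤ (2 + 2 * π * B) * K :=
      mul_le_mul hPhi hb.2.1 (norm_nonneg _) (by linarith)
    have e2 := hb.2.2
    linarith
  · rw [norm_neg]
    nlinarith [hb.2.1]

end Pool.Agent.Helper95.RP
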