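import Mathlib
import Pool.Agent.Helper95.RP.MuA

/-! RP-TR: transport of `KK` by one step. -/

set_option autoImplicit false
open MeasureTheory Real Set Filter Topology
open scoped ComplexConjugate ENNReal

namespace Pool.Agent.Helper95.RP

open Pool.Agent.Helper95.RX

attribute [local instance] Pool.Agent.Helper53.SM.instProbU Pool.Agent.Helper53.SM.instProbT2

variable {Z : Type} [MeasurableSpace Z] {μ : Measure Z} [IsProbabilityMeasure μ]

lemma mp_sf (a : ℝ) : MeasurePreserving (sf a) (volume : Measure T2) volume := by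
  have h : sf a = kf a 0 := by
    funext p
    rw [kf_eq, AddCircle.coe_zero, add_zero]
    rfl
  rw [h]
  exact mp_kf a 0

lemma N2_sf (a : ℝ) {θ : Z → Z} (hθ : MeasurePreserving θ μ μ) {F : T2 × Z → ℂ} (hF : BM F) :
    N2 ((volume : Measure T2).prod μ) (fun w => F (sf a w.1, θ w.2)) =
      N2 ((volume : Measure T2).prod μ) F :=
  N2_comp (φ := fun w : T2 × Z => (sf a w.1, θ w.2)) ((mp_sf a).prod hθ) hF.1

/-- if `g ≈ g' ∘ (sf a × θ)` then `⟨g', F⟩ ≈ ⟨g, F ∘ (sf a × θ)⟩` -/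
lemma IP_sf {a : ℝ} {θ : Z → Z} (hθ : MeasurePreserving θ μ μ) {g g' F : T2 × Z → ℂ}
    (hg : BM g) (hg' : BM g') (hF : BM F) {e : ℝ} (h : rl μ g' g (sf a) θ e) :
    ‖IP ((volume : Measure T2).prod μ) g' F -
        IP ((volume : Measure T2).prod μ) g (fun w => F (sf a w.1, θ w.2))‖ ≤
      e * N2 ((volume : Measure T2).prod μ) F := by
  have hmp : MeasurePreserving (fun w : T2 × Z => (sf a w.1, θ w.2))
      ((volume : Measure T2).prod μ) ((volume : Measure T2).prod μ) := (mp_sf a).prod hθ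
  have b1 : BM (fun w : T2 × Z => g' (sf a w.1, θ w.2)) :=
    BM.comp (φ := fun w : T2 × Z => (sf a w.1, θ w.2)) hmp.measurable hg'
  have b2 : BM (fun w : T2 × Z => F (sf a w.1, θ w.2)) :=
    BM.comp (φ := fun w : T2 × Z => (sf a w.1, θ w.2)) hmp.measurable hF
  have h1 : IP ((volume : Measure T2).prod μ) (fun w : T2 × Z => g' (sf a w.1, θ w.2))
      (fun w : T2 × Z => F (sf a w.1, θ w.2)) = IP ((volume : Measure T2).prod μ) g' F :=
    IP_comp (φ := fun w : T2 × Z => (sf a w.1, θ w.2)) hmp hg'.1 hF.1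
  rw [← h1, ← IP_sub_left b1 hg b2]
  refine (IP_le (b1.sub hg) b2).trans ?_
  rw [N2_sf a hθ hF]
  exact mul_le_mul_of_nonneg_right h (N2_nonneg _)

/-- transport: `F = c₃ M (Φ_a(y) ψx + ψy)` has `F ∘ Ŝ = csn(y) (M ∘ Ŝ) ∂x(ψ ∘ Ŝ)` since
`c₃ ∘ sf a = csn y` (`bb a x - (bb a x - y) = y`); `Mu.comp`, `C2.comp`, `C2.toCM`, `IP_sf` -/
lemma kk_transport {a B : ℝ} (hB : 0 ≤ B) (ha : |a| ≤ B) {θ : Z → Z} (hθ : MeasurePreserving θ μ μ)
    {g g' : T2 × Z → ℂ} (hg : BM g) (hg' : BM g') {e ε : ℝ} (h : rl μ g' g (sf a) θ e)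
    (hK : KK μ g ε) {M : T2 × Z → ℂ} {K : ℝ} (hM : Mu K M) {ψ ψx ψy : T2 × Z → ℂ}
    (hψ : C2 ψ ψx ψy) {C : ℝ} (h0 : N2 ((volume : Measure T2).prod μ) ψ ≤ C)
    (h1 : N2 ((volume : Measure T2).prod μ) ψx ≤ C)
    (h2 : N2 ((volume : Measure T2).prod μ) ψy ≤ C) :
    ‖IP ((volume : Measure T2).prod μ) g' (fun w => (csn (bb a w.1.2 - w.1.1) : ℂ) *
        (M w * ((Phi a w.1.2 : ℂ) * ψx w + ψy w)))‖ ≤
      (ε + e) * ((3 + 2 * π * B) ^ 2 * (K * C)) := by
  have hZ : Nonempty Z := by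
    by_contra hcon
    rw [not_nonempty_iff] at hcon
    have := measure_univ (μ := μ)
    rw [Set.univ_eq_empty_iff.2 hcon, measure_empty] at this
    exact zero_ne_one this
  have hK0 : 0 ≤ K := hM.nonneg
  have hC0 : 0 ≤ C := (N2_nonneg _).trans h0
  have he0 : 0 ≤ e := (N2_nonneg _).trans h
  have hpi := Real.pi_pos
  set R : ℝ := 3 + 2 * π * B with hR
  have hR1 : 1 ≤ R := by
    have : 0 ≤ 2 * π * B := by positivity
    linarith
  obtain ⟨Fxx, Fxy, Fyy, hxx, hyy⟩ := hψ.2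
  have bψ : BM ψ := hψ.1.b.1
  have bψx : BM ψx := hψ.1.bx.1
  have bψy : BM ψy := hψ.1.by'.1
  have bM : BM M := by
    obtain ⟨Mx, My, h1, _⟩ := hM
    exact h1.b.1
  have hPhi : ∀ t : UnitAddCircle, ‖((Phi a t : ℝ) : ℂ)‖ ≤ R - 1 := by
    intro t
    rw [Complex.norm_real, Real.norm_eq_abs]
    have e1 : Phi a t = 2 + 2 * π * a * csn t := rfl
    rw [e1]
    have h3 := Pool.Agent.Helper78.SM.abs_csn_le t
    calc |2 + 2 * π * a * csn t| ≤ |(2:ℝ)| + |2 * π * a * csn t| := abs_add_le _ _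
      _ = 2 + 2 * π * |a| * |csn t| := by
          rw [abs_mul, abs_mul, abs_mul, abs_of_pos hpi]
          norm_num
      _ ≤ 2 + 2 * π * B * 1 := by gcongr
      _ = R - 1 := by rw [hR]; ring
  have bPhiY : BM (fun w : T2 × Z => ((Phi a w.1.2 : ℝ) : ℂ)) :=
    ⟨Complex.measurable_ofReal.comp ((Pool.Agent.Helper78.SM.measurable_Phi a).comp
      (measurable_snd.comp measurable_fst)), R - 1, fun w => hPhi _⟩
  have bc3 : BM (fun w : T2 × Z => ((csn (bb a w.1.2 - w.1.1) : ℝ) : ℂ)) := by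
    refine ⟨Complex.measurable_ofReal.comp (Pool.Agent.Helper78.SM.measurable_csn.comp
      ((((continuous_bb a).comp (continuous_snd (X := UnitAddCircle) (Y := UnitAddCircle))).sub
        continuous_fst).measurable.comp measurable_fst)), 1, fun w => ?_⟩
    rw [Complex.norm_real, Real.norm_eq_abs]
    exact Pool.Agent.Helper78.SM.abs_csn_le _
  set F : T2 × Z → ℂ := fun w => (csn (bb a w.1.2 - w.1.1) : ℂ) *
        (M w * ((Phi a w.1.2 : ℂ) * ψx w + ψy w)) with hFdef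
  have bF : BM F := bc3.mul (bM.mul ((bPhiY.mul bψx).add bψy))
  have key := IP_sf (a := a) hθ hg hg' bF h
  -- norm of `F`
  have nF : N2 ((volume : Measure T2).prod μ) F ≤ K * (R * C) := by
    have bin : BM (fun w : T2 × Z => ((Phi a w.1.2 : ℝ) : ℂ) * ψx w + ψy w) :=
      (bPhiY.mul bψx).add bψy
    have hMK : ∀ w, ‖M w‖ ≤ K := by
      obtain ⟨Mx, My, _, h4⟩ := hM
      exact fun w => (h4 w).1
    have s1 := N2_mul_le (μ := (volume : Measure T2).prod μ) (bM.mul bin) bc3 (C := 1) (fun w => by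
      rw [Complex.norm_real, Real.norm_eq_abs]
      exact Pool.Agent.Helper78.SM.abs_csn_le _)
    have s2 := N2_mul_le (μ := (volume : Measure T2).prod μ) bin bM (C := K) hMK
    have s3 := N2_add_le (μ := (volume : Measure T2).prod μ) (bPhiY.mul bψx) bψy
    have s4 := N2_mul_le (μ := (volume : Measure T2).prod μ) bψx bPhiY (C := R - 1) (fun w => hPhi _)
    have s5 : N2 ((volume : Measure T2).prod μ)
        (fun w : T2 × Z => ((Phi a w.1.2 : ℝ) : ℂ) * ψx w + ψy w) ≤ R * C := by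
      refine s3.trans ?_
      have s6 : (R - 1) * N2 ((volume : Measure T2).prod μ) ψx ≤ (R - 1) * C :=
        mul_le_mul_of_nonneg_left h1 (by linarith)
      linarith
    refine s1.trans ?_
    rw [one_mul]
    exact s2.trans (mul_le_mul_of_nonneg_left s5 hK0)
  -- the main term
  have c2 := hψ.comp a hθ.measurable
  obtain ⟨ψxy, cm2⟩ := c2.toCM
  have mu2 := hM.comp ha hθ.measurable
  have m0 : N2 ((volume : Measure T2).prod μ) (fun w : T2 × Z => ψ (sf a w.1, θ w.2)) ≤ R * C := by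
    rw [N2_sf a hθ bψ]
    nlinarith
  have m2 : N2 ((volume : Measure T2).prod μ) (fun w : T2 × Z => -ψx (sf a w.1, θ w.2)) ≤ R * C := by
    have e2 : (fun w : T2 × Z => -ψx (sf a w.1, θ w.2)) =
        fun w : T2 × Z => (-1 : ℂ) * ψx (sf a w.1, θ w.2) := by
      funext w; ring
    rw [e2, N2_smul, N2_sf a hθ bψx]
    simp only [norm_neg, norm_one, one_mul]
    nlinarith
  have m1 : N2 ((volume : Measure T2).prod μ) (fun w : T2 × Z =>
      (Phi a w.1.1 : ℂ) * ψx (sf a w.1, θ w.2) + ψy (sf a w.1, θ w.2)) ≤ R * C := by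
    have hmp : Measurable (fun w : T2 × Z => (sf a w.1, θ w.2)) :=
      ((mp_sf a).prod hθ).measurable
    have b1 : BM (fun w : T2 × Z => ψx (sf a w.1, θ w.2)) :=
      BM.comp (φ := fun w : T2 × Z => (sf a w.1, θ w.2)) hmp bψx
    have b2 : BM (fun w : T2 × Z => ψy (sf a w.1, θ w.2)) :=
      BM.comp (φ := fun w : T2 × Z => (sf a w.1, θ w.2)) hmp bψy
    have bPhiX : BM (fun w : T2 × Z => ((Phi a w.1.1 : ℝ) : ℂ)) :=
      ⟨Complex.measurable_ofReal.comp ((Pool.Agent.Helper78.SM.measurable_Phi a).comp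
        (measurable_fst.comp measurable_fst)), R - 1, fun w => hPhi _⟩
    have s3 := N2_add_le (μ := (volume : Measure T2).prod μ) (bPhiX.mul b1) b2
    have s4 := N2_mul_le (μ := (volume : Measure T2).prod μ) b1 bPhiX (C := R - 1) (fun w => hPhi _)
    rw [N2_sf a hθ bψx] at s4
    rw [N2_sf a hθ bψy] at s3
    have s6 : (R - 1) * N2 ((volume : Measure T2).prod μ) ψx ≤ (R - 1) * C :=
      mul_le_mul_of_nonneg_left h1 (by linarith)
    refine s3.trans ?_
    linarith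
  have key2 := hK _ _ mu2 _ _ _ _ cm2 (R * C) m0 m1 m2
  have e3 : (fun w : T2 × Z => F (sf a w.1, θ w.2)) = fun w : T2 × Z => (csn w.1.2 : ℂ) *
      (M (sf a w.1, θ w.2) * ((Phi a w.1.1 : ℂ) * ψx (sf a w.1, θ w.2) +
        ψy (sf a w.1, θ w.2))) := by
    funext w
    simp only [hFdef, sf, sub_sub_cancel]
  rw [e3] at key
  have t1 : ‖IP ((volume : Measure T2).prod μ) g' F‖ ≤ ε * (R * K * (R * C)) + e * (K * (R * C)) := by
    have t2 := norm_sub_norm_le (IP ((volume : Measure T2).prod μ) g' F)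
      (IP ((volume : Measure T2).prod μ) g (fun w : T2 × Z => (csn w.1.2 : ℂ) *
      (M (sf a w.1, θ w.2) * ((Phi a w.1.1 : ℂ) * ψx (sf a w.1, θ w.2) +
        ψy (sf a w.1, θ w.2)))))
    have t3 : e * N2 ((volume : Measure T2).prod μ) F ≤ e * (K * (R * C)) :=
      mul_le_mul_of_nonneg_left nF he0
    linarith
  refine t1.trans ?_
  have t4 : 0 ≤ K * C := mul_nonneg hK0 hC0
  have t5 : e * (K * (R * C)) ≤ e * (R ^ 2 * (K * C)) := by
    apply mul_le_mul_of_nonneg_left _ he0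
    nlinarith [mul_nonneg (sub_nonneg.2 hR1) t4, mul_nonneg (mul_nonneg (sub_nonneg.2 hR1) t4)
      (zero_le_one.trans hR1)]
  have t6 : ε * (R * K * (R * C)) = ε * (R ^ 2 * (K * C)) := by ring
  rw [t6]
  linarith

end Pool.Agent.Helper95.RP
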