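import Mathlib
import Pool.Agent.Helper95.RP.Tr
import Pool.Agent.Helper95.RX.Near

/-! RP-WORDS: shears from one step; exchange of coordinates reverses time. -/

set_option autoImplicit false
open MeasureTheory Real Set Filter Topology
open scoped ComplexConjugate ENNReal

namespace Pool.Agent.Helper95.RP

open Pool.Agent.Helper95.RX

attribute [local instance] Pool.Agent.Helper53.SM.instProbU Pool.Agent.Helper53.SM.instProbT2

variable {Z : Type} [MeasurableSpace Z] {μ : Measure Z} [IsProbabilityMeasure μ]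

lemma sf_sfi (a : ℝ) (q : T2) : sf a (sfi a q) = q := by
  refine Prod.ext ?_ rfl
  change bb a q.2 - (bb a q.2 - q.1) = q.1
  exact sub_sub_cancel _ _

lemma sfi_sf (a : ℝ) (p : T2) : sfi a (sf a p) = p := by
  refine Prod.ext rfl ?_
  change bb a p.1 - (bb a p.1 - p.2) = p.2
  exact sub_sub_cancel _ _

lemma continuous_sfi (a : ℝ) : Continuous (sfi a) :=
  continuous_snd.prodMk (((continuous_bb a).comp continuous_snd).sub continuous_fst)

lemma mp_sfi (a : ℝ) : MeasurePreserving (sfi a) (volume : Measure T2) volume := by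
  let E : T2 ≃ᵐ T2 :=
    { toFun := sf a
      invFun := sfi a
      left_inv := sfi_sf a
      right_inv := sf_sfi a
      measurable_toFun := (mp_sf a).measurable
      measurable_invFun := (continuous_sfi a).measurable }
  exact MeasurePreserving.symm E (mp_sf a)

/-- `S_{a'} S_a⁻¹ = (X + (a' - a) sin 2πY, Y)` -/
lemma sf_sfi_ne (a a' : ℝ) (q : T2) : sf a' (sfi a q) = hm (a' - a) 0 q := by
  refine Prod.ext ?_ rfl
  change bb a' q.2 - (bb a q.2 - q.1) = q.1 + (((a' - a) * snn (q.2 + 0) : ℝ) : UnitAddCircle)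
  unfold bb
  rw [add_zero, sub_mul, AddCircle.coe_sub]
  abel

/-- `S_a⁻¹ S_{a'} = (x, y + (a - a') sin 2πx)` -/
lemma sfi_sf_ne (a a' : ℝ) (p : T2) : sfi a (sf a' p) = vm (a - a') 0 p := by
  refine Prod.ext rfl ?_
  change bb a p.1 - (bb a' p.1 - p.2) = p.2 + (((a - a') * snn (p.1 + 0) : ℝ) : UnitAddCircle)
  unfold bb
  rw [add_zero, sub_mul, AddCircle.coe_sub]
  abel

/-- `RX.nr_target` -/
lemma st_hm {g g' : T2 × Z → ℂ} {a a' e : ℝ} (h : St μ g g' a a' e) :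
    nr μ g' (hm (a' - a) 0) (2 * e) := by
  obtain ⟨θ, hθ, h1⟩ := h.ex
  obtain ⟨θ', hθ', h2⟩ := h.ex'
  exact nr_congr (nr_target h.bm h.bm' (mp_sf a) (mp_sfi a) (mp_sf a') (sf_sfi a) θ θ' hθ hθ'
    h1 h2) (fun p => (sf_sfi_ne a a' p).symm)

/-- `RX.nr_source` -/
lemma st_vm {g g' : T2 × Z → ℂ} {a a' e : ℝ} (h : St μ g g' a a' e) :
    nr μ g (vm (a - a') 0) (2 * e) := by
  obtain ⟨θ, hθ, h1⟩ := h.ex
  obtain ⟨θ', hθ', h2⟩ := h.ex'
  exact nr_congr (nr_source h.bm h.bm' (mp_sf a) (mp_sfi a) (mp_sf a') (sf_sfi a) θ θ' hθ hθ'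
    h1 h2) (fun p => (sfi_sf_ne a a' p).symm)

private lemma rl_rev_h60 {g g' : T2 × Z → ℂ} (hg : BM g) (hg' : BM g') {a e : ℝ}
    (h : ∃ θ : Z ≃ᵐ Z, MeasurePreserving θ μ μ ∧ rl μ g' g (sf a) θ e) :
    ∃ θ : Z ≃ᵐ Z, MeasurePreserving θ μ μ ∧
      rl μ (fun w => g (sw w)) (fun w => g' (sw w)) (sf a) θ e := by
  obtain ⟨θ, hθ, h1⟩ := h
  refine ⟨θ.symm, hθ.symm, ?_⟩
  have h5 : rl μ g g' (sfi a) θ.symm e := rl_symm hg' hg (mp_sf a).measurable (mp_sfi a)
    θ.measurable hθ.symm (sf_sfi a) (fun z => θ.apply_symm_apply z) h1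
  have hm : Measurable (fun w : T2 × Z => (sfi a w.1, θ.symm w.2)) :=
    ((continuous_sfi a).measurable.comp measurable_fst).prodMk
      (θ.symm.measurable.comp measurable_snd)
  have b1 : BM (fun w : T2 × Z => g (sfi a w.1, θ.symm w.2)) := BM.comp hm hg
  have h6 := N2_comp (g := fun w : T2 × Z => g (sfi a w.1, θ.symm w.2) - g' w)
    (mp_sw (μ := μ)) (b1.sub hg').1
  have h7 : N2 ((volume : Measure T2).prod μ)
      (fun w : T2 × Z => g (sw (sf a w.1, θ.symm w.2)) - g' (sw w)) =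
      N2 ((volume : Measure T2).prod μ)
        (fun w : T2 × Z => g (sfi a w.1, θ.symm w.2) - g' w) := h6
  unfold rl
  rw [h7]
  exact h5

/-- reversal: `g' ∘ sw ≈ (g ∘ sw) ∘ (sf a × θ⁻¹)` since `S_a⁻¹ ∘ swap = swap ∘ S_a` -/
lemma st_rev {g g' : T2 × Z → ℂ} {a a' e : ℝ} (h : St μ g g' a a' e) :
    St μ (fun w => g' (sw w)) (fun w => g (sw w)) a a' e :=
  ⟨BM.comp (mp_sw (μ := μ)).measurable h.bm', BM.comp (mp_sw (μ := μ)).measurable h.bm,
    rl_rev_h60 h.bm h.bm' h.ex, rl_rev_h60 h.bm h.bm' h.ex'⟩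

end Pool.Agent.Helper95.RP
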