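import Mathlib
import Pool.Agent.Helper95.RP.Words
import Pool.Agent.Helper95.RP.SelG
import Pool.Agent.Helper95.RX.Var
import Pool.Agent.Helper95.RX.BMf

/-! RP-PM: the pair maps (see `RX.PMp`). -/

set_option autoImplicit false
open MeasureTheory Real Set Filter Topology
open scoped ComplexConjugate ENNReal

namespace Pool.Agent.Helper95.RP

open Pool.Agent.Helper95.RX

attribute [local instance] Pool.Agent.Helper53.SM.instProbU Pool.Agent.Helper53.SM.instProbT2

variable {Z : Type} [MeasurableSpace Z] {μ : Measure Z} [IsProbabilityMeasure μ]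

private lemma continuous_snn_h36 : Continuous snn := by
  unfold Pool.Agent.Helper78.SM.snn
  have h : Continuous (fun z : Circle => (z : ℂ)) := by fun_prop
  exact Complex.continuous_im.comp (h.comp AddCircle.continuous_toCircle)

private lemma continuous_coe_h36 : Continuous ((↑) : ℝ → UnitAddCircle) :=
  AddCircle.continuous_mk' 1

/-- jointly continuous in the parameter and the point -/
lemma continuous_sf2 : Continuous (fun q : ℝ × T2 => sf q.1 q.2) := by
  have h1 : Continuous (fun q : ℝ × T2 => q.2.1) := continuous_fst.comp continuous_snd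
  have h2 : Continuous (fun q : ℝ × T2 => ((q.1 * snn q.2.1 : ℝ) : UnitAddCircle)) :=
    continuous_coe_h36.comp (continuous_fst.mul (continuous_snn_h36.comp h1))
  exact (((h1.add h1).add h2).sub (continuous_snd.comp continuous_snd)).prodMk h1

private lemma sf_eq_kf_h36 (a : ℝ) : sf a = kf a 0 := by
  funext p
  rw [kf_eq, QuotientAddGroup.mk_zero, add_zero]
  rfl

private lemma mp_sf_h36 (a : ℝ) : MeasurePreserving (sf a) (volume : Measure T2) volume := by
  rw [sf_eq_kf_h36]
  exact mp_kf a 0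

/-- the standard map as a measurable equivalence -/
noncomputable def sE (a : ℝ) : T2 ≃ᵐ T2 where
  toFun := sf a
  invFun := sfi a
  left_inv := sfi_sf a
  right_inv := sf_sfi a
  measurable_toFun := (continuous_sf a).measurable
  measurable_invFun := (continuous_sfi a).measurable

omit [IsProbabilityMeasure μ] in
lemma meas_pm (H : Sys Z μ) (i : ℕ) :
    Measurable (fun q : ℝ × (T2 × Z) => pm H i q.1 q.2) := by
  unfold pm
  have h1 : Measurable (fun q : ℝ × T2 => sf q.1 q.2) := continuous_sf2.measurable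
  have h2 := H.meas i
  have h3 : Measurable (fun q : ℝ × (T2 × Z) => (q.1, q.2.1)) :=
    measurable_fst.prodMk (measurable_fst.comp measurable_snd)
  have h4 : Measurable (fun q : ℝ × (T2 × Z) => (q.1, q.2.2)) :=
    measurable_fst.prodMk (measurable_snd.comp measurable_snd)
  exact (h1.comp h3).prodMk (h2.comp h4)

lemma mp_pm (H : Sys Z μ) (i : ℕ) (c : ℝ) :
    MeasurePreserving (pm H i c) ((volume : Measure T2).prod μ) ((volume : Measure T2).prod μ) :=
  (mp_sf_h36 c).prod (H.mp i c)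

private lemma int_comp_aux (φ : T2 → T2) (h : MeasurePreserving φ (volume : Measure T2) volume)
    (hE : MeasurableEmbedding φ) (g : T2 → ℂ) : ∫ p : T2, g (φ p) = ∫ p : T2, g p :=
  h.integral_comp hE g

private lemma emb_sf (c : ℝ) : MeasurableEmbedding (sf c) := by
  have h := (sE c).measurableEmbedding
  exact h

omit [IsProbabilityMeasure μ] in
private lemma bm_aux (H : Sys Z μ) (i : ℕ) {g : T2 × Z → ℂ} (hg : BM g) (z : Z) :
    BM (Function.uncurry fun (p : T2) (c : ℝ) => g (pm H i c (p, z))) := by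
  have h0 : Measurable (fun q : T2 × ℝ => (q.2, ((q.1, z) : T2 × Z))) :=
    measurable_snd.prodMk (measurable_fst.prodMk measurable_const)
  have h2 := BM.comp ((meas_pm H i).comp h0) hg
  exact h2

private lemma swap_aux (ν : Measure ℝ) [IsProbabilityMeasure ν] (g : T2 → ℝ → ℂ)
    (h : BM (Function.uncurry g)) : ∫ p, (∫ c, g p c ∂ν) = ∫ c, (∫ p, g p c) ∂ν := by
  have h2 : Integrable (Function.uncurry g) ((volume : Measure T2).prod ν) := h.integrable
  exact integral_integral_swap h2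

omit [IsProbabilityMeasure μ] in
private lemma zero_aux (H : Sys Z μ) (i : ℕ) {g : T2 × Z → ℂ}
    (hmean : ∀ z, ∫ p : T2, g (p, z) = 0) (z : Z) (c : ℝ) :
    ∫ p : T2, g (pm H i c (p, z)) = 0 := by
  have h5 := int_comp_aux (sf c) (mp_sf_h36 c) (emb_sf c) (fun p => g (p, H.h i c z))
  rw [hmean] at h5
  exact h5

omit [IsProbabilityMeasure μ] in
/-- the fibre means stay zero -/
lemma mean_Qop (H : Sys Z μ) (i : ℕ) (ν : Measure ℝ) [IsProbabilityMeasure ν]
    {g : T2 × Z → ℂ} (hg : BM g) (hmean : ∀ z, ∫ p : T2, g (p, z) = 0) :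
    ∀ z, ∫ p : T2, Qop (pm H i) ν g (p, z) = 0 := by
  intro z
  have h1 := swap_aux ν (fun (p : T2) (c : ℝ) => g (pm H i c (p, z))) (bm_aux H i hg z)
  have h2 : ∫ c, (∫ p, g (pm H i c (p, z))) ∂ν = 0 := by
    simp only [zero_aux H i hmean z, integral_zero]
  exact h1.trans h2

/-- a step from the selection -/
lemma st_of_select {B s q e η : ℝ} (H : Sys Z μ) (i : ℕ) {ν : Measure ℝ} [IsProbabilityMeasure ν]
    {g : T2 × Z → ℂ} (hg : BM g) (he : 0 < e) (hsp : Spr B s q ν)
    (hη : N2 ((volume : Measure T2).prod μ) g ^ 2 -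
      N2 ((volume : Measure T2).prod μ) (Qop (pm H i) ν g) ^ 2 ≤ η) (hq : 2 * η < q * e ^ 2) :
    ∃ a a' : ℝ, (s ≤ |a - a'| ∧ s ≤ |Real.sin (2 * π * a)| ∧ |a| ≤ B) ∧
      St μ (Qop (pm H i) ν g) g a a' e := by
  obtain ⟨t, ht, h2, h3⟩ := select_gen (meas_pm H i) (mp_pm H i) hg he hsp hη hq
  exact ⟨t.1, t.2, ht, BM_Qop (meas_pm H i) hg, hg, ⟨H.h i t.1, H.mp i t.1, h2⟩,
    ⟨H.h i t.2, H.mp i t.2, h3⟩⟩

lemma BM_Qn {ν : ℕ → Measure ℝ} (hν : ∀ i, IsProbabilityMeasure (ν i))
    (H : Sys Z μ) {g : T2 × Z → ℂ} (hg : BM g) (n : ℕ) : BM (Qn n (pm H) ν g) := by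
  induction n generalizing ν H with
  | zero => exact hg
  | succ n ih =>
    show BM (Qop (pm H 0) (ν 0) (Qn n (fun i => pm H (i + 1)) (fun i => ν (i + 1)) g))
    apply BM_Qop (meas_pm H 0)
    exact ih (ν := fun i => ν (i + 1)) (fun i => hν (i + 1)) (H.shift 1)

lemma mean_Qn {ν : ℕ → Measure ℝ} (hν : ∀ i, IsProbabilityMeasure (ν i))
    (H : Sys Z μ) {g : T2 × Z → ℂ} (hg : BM g) (hmean : ∀ z, ∫ p : T2, g (p, z) = 0) (n : ℕ) :
    ∀ z, ∫ p : T2, Qn n (pm H) ν g (p, z) = 0 := by
  induction n generalizing ν H with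
  | zero => exact hmean
  | succ n ih =>
    have h1 := ih (ν := fun i => ν (i + 1)) (fun i => hν (i + 1)) (H.shift 1)
    have h2 := BM_Qn (ν := fun i => ν (i + 1)) (fun i => hν (i + 1)) (H.shift 1) hg n
    exact mean_Qop H 0 (ν 0) h2 h1

lemma N2_Qn_le {ν : ℕ → Measure ℝ} (hν : ∀ i, IsProbabilityMeasure (ν i))
    (H : Sys Z μ) {g : T2 × Z → ℂ} (hg : BM g) (n : ℕ) :
    N2 ((volume : Measure T2).prod μ) (Qn n (pm H) ν g) ≤
      N2 ((volume : Measure T2).prod μ) g := by
  induction n generalizing ν H with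
  | zero => exact le_refl _
  | succ n ih =>
    have h1 := ih (ν := fun i => ν (i + 1)) (fun i => hν (i + 1)) (H.shift 1)
    have h2 := BM_Qn (ν := fun i => ν (i + 1)) (fun i => hν (i + 1)) (H.shift 1) hg n
    exact (N2_Qop_le (ν := ν 0) (meas_pm H 0) (mp_pm H 0) h2).trans h1

end Pool.Agent.Helper95.RP
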