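import Mathlib
import Pool.Agent.Helper95.RP.Que

/-! RP-LIFT: lifts to the plane and derivatives. -/

set_option autoImplicit false
open MeasureTheory Real Set Filter Topology
open scoped ComplexConjugate ENNReal

namespace Pool.Agent.Helper95.RP

open Pool.Agent.Helper95.RX

attribute [local instance] Pool.Agent.Helper53.SM.instProbU Pool.Agent.Helper53.SM.instProbT2

lemma sf_eq_std (a : ℝ) (p : T2) : sf a p = std a p := by
  unfold sf Pool.Agent.Helper78.SM.std bb
  refine Prod.ext ?_ rfl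
  simp only
  abel

/-- the lift of the random composition -/
noncomputable def YL (ω : ℕ → ℝ) : ℕ → ℝ × ℝ → ℝ × ℝ
  | 0, q => q
  | n + 1, q => Pool.Agent.Helper78.SM.F (ω n) (YL ω n q)

/-- its derivative -/
noncomputable def DY (ω : ℕ → ℝ) : ℕ → ℝ × ℝ → (ℝ × ℝ →L[ℝ] ℝ × ℝ)
  | 0, _ => ContinuousLinearMap.id ℝ (ℝ × ℝ)
  | n + 1, q => (L (phi (ω n) (YL ω n q).1)).comp (DY ω n q)

lemma mk2_YL (ω : ℕ → ℝ) (n : ℕ) (q : ℝ × ℝ) :
    mk2 (YL ω n q) = XT ω n (mk2 q) := by
  induction n with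
  | zero => rfl
  | succ n ih =>
    show mk2 (Pool.Agent.Helper78.SM.F (ω n) (YL ω n q)) = sf (ω n) (XT ω n (mk2 q))
    rw [← ih, sf_eq_std, ← Pool.Agent.Helper78.SM.mk2_F (std_isStd (ω n))]

lemma hasFDerivAt_YL (ω : ℕ → ℝ) (n : ℕ) (q : ℝ × ℝ) :
    HasFDerivAt (YL ω n) (DY ω n q) q := by
  induction n with
  | zero => exact hasFDerivAt_id q
  | succ n ih =>
    exact (Pool.Agent.Helper78.SM.hasFDerivAt_F (ω n) (YL ω n q)).comp q ih

/-- jointly continuous -/
lemma continuous_YL (n : ℕ) :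
    Continuous (fun q : (ℕ → ℝ) × (ℝ × ℝ) => YL q.1 n q.2) := by
  induction n with
  | zero => exact continuous_snd
  | succ n ih =>
    have h1 : Continuous (fun q : (ℕ → ℝ) × (ℝ × ℝ) => (YL q.1 n q.2).1) := continuous_fst.comp ih
    have h2 : Continuous (fun q : (ℕ → ℝ) × (ℝ × ℝ) => (YL q.1 n q.2).2) :=
      continuous_snd.comp ih
    have h3 : Continuous (fun q : (ℕ → ℝ) × (ℝ × ℝ) => q.1 n) :=
      (continuous_apply n).comp continuous_fst
    show Continuous (fun q : (ℕ → ℝ) × (ℝ × ℝ) =>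
      (2 * (YL q.1 n q.2).1 - (YL q.1 n q.2).2 +
        q.1 n * Real.sin (2 * π * (YL q.1 n q.2).1), (YL q.1 n q.2).1))
    exact (((continuous_const.mul h1).sub h2).add
      (h3.mul (Real.continuous_sin.comp (continuous_const.mul h1)))).prodMk h1

private lemma L_eq95 (t : ℝ) : L t = t • (ContinuousLinearMap.fst ℝ ℝ ℝ).prod 0 +
    (-ContinuousLinearMap.snd ℝ ℝ ℝ).prod (ContinuousLinearMap.fst ℝ ℝ ℝ) := by
  refine ContinuousLinearMap.ext fun h => ?_
  rw [Pool.Agent.Helper78.SM.L_apply]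
  ext
  · simp
    ring
  · simp

lemma continuous_L : Continuous (fun t : ℝ => L t) := by
  simp only [L_eq95]
  exact (continuous_id.smul continuous_const).add continuous_const

lemma continuous_DY (n : ℕ) :
    Continuous (fun q : (ℕ → ℝ) × (ℝ × ℝ) => DY q.1 n q.2) := by
  induction n with
  | zero => exact continuous_const
  | succ n ih =>
    have h1 : Continuous (fun q : (ℕ → ℝ) × (ℝ × ℝ) => (YL q.1 n q.2).1) :=
      continuous_fst.comp (continuous_YL n)
    have h3 : Continuous (fun q : (ℕ → ℝ) × (ℝ × ℝ) => q.1 n) :=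
      (continuous_apply n).comp continuous_fst
    have h2 : Continuous (fun q : (ℕ → ℝ) × (ℝ × ℝ) => phi (q.1 n) (YL q.1 n q.2).1) := by
      unfold phi
      exact continuous_const.add ((continuous_const.mul h3).mul
        (Real.continuous_cos.comp (continuous_const.mul h1)))
    exact (continuous_L.comp h2).clm_comp ih

private lemma YL_add95 (ω : ℕ → ℝ) (n : ℕ) (q : ℝ × ℝ) (m m' : ℤ) :
    ∃ k k' : ℤ, YL ω n (q.1 + m, q.2 + m') = ((YL ω n q).1 + k, (YL ω n q).2 + k') := by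
  induction n with
  | zero => exact ⟨m, m', rfl⟩
  | succ n ih =>
    obtain ⟨k, k', h⟩ := ih
    refine ⟨2 * k - k', k, ?_⟩
    show Pool.Agent.Helper78.SM.F (ω n) (YL ω n (q.1 + m, q.2 + m')) =
      ((Pool.Agent.Helper78.SM.F (ω n) (YL ω n q)).1 + ((2 * k - k' : ℤ) : ℝ),
        (Pool.Agent.Helper78.SM.F (ω n) (YL ω n q)).2 + (k : ℝ))
    rw [h]
    unfold Pool.Agent.Helper78.SM.F
    simp only
    have e1 : 2 * π * ((YL ω n q).1 + (k : ℝ)) =
        2 * π * (YL ω n q).1 + k * (2 * π) := by ring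
    rw [e1, Real.sin_add_int_mul_two_pi]
    refine Prod.ext ?_ ?_
    · simp only
      push_cast
      ring
    · simp only

/-- periodicity of the derivative -/
lemma DY_add_int (ω : ℕ → ℝ) (n : ℕ) (q : ℝ × ℝ) (m m' : ℤ) :
    DY ω n (q.1 + m, q.2 + m') = DY ω n q := by
  induction n with
  | zero => rfl
  | succ n ih =>
    obtain ⟨k, k', h⟩ := YL_add95 ω n q m m'
    show (L (phi (ω n) (YL ω n (q.1 + m, q.2 + m')).1)).comp
      (DY ω n (q.1 + m, q.2 + m')) = (L (phi (ω n) (YL ω n q).1)).comp (DY ω n q)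
    rw [ih, h]
    congr 2
    unfold phi
    have e1 : 2 * π * ((YL ω n q).1 + (k : ℝ)) =
        2 * π * (YL ω n q).1 + k * (2 * π) := by ring
    simp only
    rw [e1, Real.cos_add_int_mul_two_pi]

/-- the determinant is one -/
lemma det_DY (ω : ℕ → ℝ) (n : ℕ) (q : ℝ × ℝ) :
    (DY ω n q (1, 0)).1 * (DY ω n q (0, 1)).2 - (DY ω n q (0, 1)).1 * (DY ω n q (1, 0)).2
      = 1 := by
  induction n with
  | zero =>
    show (1 : ℝ) * 1 - 0 * 0 = 1
    norm_num
  | succ n ih =>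
    have h1 : ∀ v, DY ω (n + 1) q v = L (phi (ω n) (YL ω n q).1) (DY ω n q v) :=
      fun v => rfl
    rw [h1, h1, Pool.Agent.Helper78.SM.L_apply, Pool.Agent.Helper78.SM.L_apply]
    simp only
    linear_combination ih

lemma norm_DY_pos (ω : ℕ → ℝ) (n : ℕ) (q : ℝ × ℝ) : 0 < ‖DY ω n q‖ := by
  rw [norm_pos_iff]
  intro h
  have h1 := det_DY ω n q
  rw [h] at h1
  simp at h1

end Pool.Agent.Helper95.RP
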