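import Mathlib
import Pool.Agent.Helper95.RP.One
import Pool.Agent.Helper95.RP.Lift

/-! RP-DT: the derivative as a function on the torus. -/

set_option autoImplicit false
open MeasureTheory Real Set Filter Topology
open scoped ComplexConjugate ENNReal

namespace Pool.Agent.Helper95.RP

open Pool.Agent.Helper95.RX

attribute [local instance] Pool.Agent.Helper53.SM.instProbU Pool.Agent.Helper53.SM.instProbT2

/-- the derivative as a function on the torus -/
noncomputable def DT (ω : ℕ → ℝ) : ℕ → T2 → (ℝ × ℝ →L[ℝ] ℝ × ℝ)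
  | 0, _ => ContinuousLinearMap.id ℝ (ℝ × ℝ)
  | n + 1, p => (L (Phi (ω n) (XT ω n p).1)).comp (DT ω n p)

lemma DT_mk2 (ω : ℕ → ℝ) (n : ℕ) (q : ℝ × ℝ) : DT ω n (mk2 q) = DY ω n q := by
  induction n with
  | zero => rfl
  | succ n ih =>
    have h1 : (XT ω n (mk2 q)).1 = (((YL ω n q).1 : ℝ) : UnitAddCircle) := by
      rw [← mk2_YL]
      rfl
    rw [DT, DY, ih, h1, Phi_coe]

private lemma dt_continuous_XT (n : ℕ) : Continuous (fun x : (ℕ → ℝ) × T2 => XT x.1 n x.2) := by
  induction n with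
  | zero => exact continuous_snd
  | succ n ih =>
    have h1 : Continuous (fun x : (ℕ → ℝ) × T2 => ((x.1 n, XT x.1 n x.2) : ℝ × T2)) :=
      ((continuous_apply n).comp continuous_fst).prodMk ih
    exact continuous_sf2.comp h1

private lemma dt_continuous (n : ℕ) : Continuous (fun x : (ℕ → ℝ) × T2 => DT x.1 n x.2) := by
  induction n with
  | zero => exact continuous_const
  | succ n ih =>
    have h1 : Continuous (fun x : (ℕ → ℝ) × T2 => Phi (x.1 n) (XT x.1 n x.2).1) := by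
      unfold Pool.Agent.Helper78.SM.Phi
      have h3 : Continuous (fun x : (ℕ → ℝ) × T2 => x.1 n) :=
        (continuous_apply n).comp continuous_fst
      exact continuous_const.add ((continuous_const.mul h3).mul
        (Pool.Agent.Helper78.SM.continuous_csn.comp (continuous_fst.comp (dt_continuous_XT n))))
    exact (continuous_L.comp h1).clm_comp ih

lemma measurable_DT (n : ℕ) : Measurable (fun x : (ℕ → ℝ) × T2 => ‖DT x.1 n x.2‖) :=
  (dt_continuous n).norm.measurable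

private lemma dt_mk2_surj (p : T2) : ∃ q : ℝ × ℝ, mk2 q = p := by
  obtain ⟨x, hx⟩ := QuotientAddGroup.mk_surjective p.1
  obtain ⟨y, hy⟩ := QuotientAddGroup.mk_surjective p.2
  exact ⟨(x, y), Prod.ext hx hy⟩

/-- determinant one and the sup norm -/
lemma one_le_norm_DT (ω : ℕ → ℝ) (n : ℕ) (p : T2) : 1 ≤ ‖DT ω n p‖ := by
  obtain ⟨q, rfl⟩ := dt_mk2_surj p
  rw [DT_mk2]
  have hdet := det_DY ω n q
  set M := DY ω n q with hM
  have key : ∀ s t : ℝ, |s| ≤ 1 → |t| ≤ 1 →
      |s * (M (1, 0)).1 + t * (M (0, 1)).1| ≤ ‖M‖ ∧ |s * (M (1, 0)).2 + t * (M (0, 1)).2| ≤ ‖M‖ := by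
    intro s t hs ht
    have h1 : M (s, t) = s • M (1, 0) + t • M (0, 1) := by
      rw [← map_smul, ← map_smul, ← map_add]
      congr 1
      ext <;> simp
    have h2 := M.le_opNorm (s, t)
    have h3 : ‖((s, t) : ℝ × ℝ)‖ ≤ 1 := by
      rw [Prod.norm_def]
      exact max_le hs ht
    have h4 : ‖M (s, t)‖ ≤ ‖M‖ := by
      refine h2.trans ?_
      calc ‖M‖ * ‖((s, t) : ℝ × ℝ)‖ ≤ ‖M‖ * 1 := by gcongr
        _ = ‖M‖ := mul_one _
    rw [h1, Prod.norm_def] at h4
    exact ⟨(le_max_left _ _).trans h4, (le_max_right _ _).trans h4⟩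
  have e1 : |(M (1, 0)).1| + |(M (0, 1)).1| ≤ ‖M‖ := by
    have h1 := (key 1 1 (by simp) (by simp)).1
    have h2 := (key 1 (-1) (by simp) (by simp)).1
    rw [one_mul, one_mul, abs_le] at h1
    rw [one_mul, neg_one_mul, abs_le] at h2
    rcases abs_cases (M (1, 0)).1 with h3 | h3 <;> rcases abs_cases (M (0, 1)).1 with h4 | h4 <;>
      linarith
  have e2 : |(M (1, 0)).2| + |(M (0, 1)).2| ≤ ‖M‖ := by
    have h1 := (key 1 1 (by simp) (by simp)).2
    have h2 := (key 1 (-1) (by simp) (by simp)).2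
    rw [one_mul, one_mul, abs_le] at h1
    rw [one_mul, neg_one_mul, abs_le] at h2
    rcases abs_cases (M (1, 0)).2 with h3 | h3 <;> rcases abs_cases (M (0, 1)).2 with h4 | h4 <;>
      linarith
  have h5 : (1 : ℝ) ≤ |(M (1, 0)).1| * |(M (0, 1)).2| + |(M (0, 1)).1| * |(M (1, 0)).2| := by
    calc (1 : ℝ) = |(M (1, 0)).1 * (M (0, 1)).2 - (M (0, 1)).1 * (M (1, 0)).2| := by
          rw [hdet, abs_one]
      _ ≤ |(M (1, 0)).1 * (M (0, 1)).2| + |(M (0, 1)).1 * (M (1, 0)).2| := abs_sub _ _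
      _ = _ := by rw [abs_mul, abs_mul]
  have h6 : (1 : ℝ) ≤ ‖M‖ * ‖M‖ := by
    have h7 : |(M (1, 0)).1| * |(M (0, 1)).2| + |(M (0, 1)).1| * |(M (1, 0)).2| ≤
        (|(M (1, 0)).1| + |(M (0, 1)).1|) * (|(M (1, 0)).2| + |(M (0, 1)).2|) := by
      have a1 := abs_nonneg (M (1, 0)).1
      have a2 := abs_nonneg (M (0, 1)).1
      have a3 := abs_nonneg (M (1, 0)).2
      have a4 := abs_nonneg (M (0, 1)).2
      nlinarith [mul_nonneg a1 a3, mul_nonneg a2 a4]
    refine h5.trans (h7.trans ?_)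
    exact mul_le_mul e1 e2 (by positivity) (norm_nonneg _)
  by_contra hc
  push Not at hc
  have h0 := norm_nonneg M
  nlinarith

lemma norm_DT_le {B : ℝ} (hB : 0 ≤ B) {ω : ℕ → ℝ} (hω : ∀ i, |ω i| ≤ B) (n : ℕ) (p : T2) :
    ‖DT ω n p‖ ≤ (3 + 2 * π * B) ^ n := by
  induction n with
  | zero =>
    rw [DT, pow_zero]
    exact ContinuousLinearMap.norm_id_le
  | succ n ih =>
    rw [DT, pow_succ, mul_comm]
    refine (ContinuousLinearMap.opNorm_comp_le _ _).trans ?_
    have h1 : ∀ θ : UnitAddCircle, ‖L (Phi (ω n) θ)‖ ≤ 3 + 2 * π * B := by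
      intro θ
      refine (Pool.Agent.Helper78.SM.norm_L_le _).trans ?_
      have h2 : |Phi (ω n) θ| ≤ 2 + 2 * π * B := by
        unfold Pool.Agent.Helper78.SM.Phi
        have h3 := Pool.Agent.Helper78.SM.abs_csn_le θ
        have h4 : |2 * π * ω n * csn θ| ≤ 2 * π * B := by
          rw [abs_mul, abs_mul, abs_of_pos (by positivity : (0 : ℝ) < 2 * π)]
          calc 2 * π * |ω n| * |csn θ| ≤ 2 * π * B * 1 := by
                gcongr
                exact hω n
            _ = _ := mul_one _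
        calc |2 + 2 * π * ω n * csn θ| ≤ |(2 : ℝ)| + |2 * π * ω n * csn θ| := abs_add_le _ _
          _ ≤ 2 + 2 * π * B := by
            rw [abs_of_pos (by norm_num : (0 : ℝ) < 2)]
            linarith
      linarith
    exact mul_le_mul (h1 _) ih (norm_nonneg _) (by positivity)

lemma DT_add (n m : ℕ) (x : (ℕ → ℝ) × T2) :
    DT x.1 (n + m) x.2 = (DT (FS^[n] x).1 m (FS^[n] x).2).comp (DT x.1 n x.2) := by
  rw [FS_iter]
  induction m with
  | zero => rfl
  | succ m ih =>
    have h1 : XT (fun i => x.1 (i + n)) m (XT x.1 n x.2) = XT x.1 (n + m) x.2 :=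
      (cmp_add (fun _ c => sf c) x.1 n m x.2).symm
    have h2 : n + (m + 1) = (n + m) + 1 := rfl
    rw [h2, DT, ih]
    change _ = ((L _).comp _).comp _
    rw [h1, ContinuousLinearMap.comp_assoc, add_comm n m]

end Pool.Agent.Helper95.RP
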