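import Mathlib
import Pool.Agent.Helper95.RP.Que
import Pool.Agent.Helper95.RX.Diag

/-! RP-DIAG: the two-point bound for the neighbourhood of the diagonal. -/

set_option autoImplicit false
open MeasureTheory Real Set Filter Topology
open scoped ComplexConjugate ENNReal

namespace Pool.Agent.Helper95.RP

open Pool.Agent.Helper95.RX

attribute [local instance] Pool.Agent.Helper53.SM.instProbU Pool.Agent.Helper53.SM.instProbT2

variable {η : ℝ} {ν : ℕ → Measure ℝ} [∀ i, IsProbabilityMeasure (ν i)]

/-- two-point bound for the neighbourhood of the diagonal: `two_point` with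
`G = K = 1_{AA ε} - 4ε²` -/
lemma diag_bound (hη0 : 0 < η) (hη1 : η ≤ 1 / 2) (hgap : Gap η ν)
    {ε : ℝ} (hε : 0 < ε) (hε2 : ε < 1 / 2) (n : ℕ) :
    ∫ ω, (volume : Measure (T2 × T2)).real
        (AA ε ∩ {w | (XT ω n w.1, XT ω n w.2) ∈ AA ε}) ∂(PP ν) ≤
      16 * ε ^ 4 + rho η n * (4 * ε ^ 2) := by
  classical
  set c : ℝ := 4 * ε ^ 2 with hc
  have hc0 : 0 < c := by rw [hc]; positivity
  have hc1 : c < 1 := by rw [hc]; nlinarith
  have hrho := rho_nonneg η n
  have hAm := measurableSet_AA ε
  have hI : ∀ {B : Set (T2 × T2)}, MeasurableSet B → Integrable (B.indicator (1 : T2 × T2 → ℝ)) (volume : Measure (T2 × T2)) :=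
    fun {B} hB => (integrable_const (1:ℝ)).indicator hB
  set G : T2 × T2 → ℝ := fun w => (AA ε).indicator (1 : T2 × T2 → ℝ) w - c with hG
  have hGm : Measurable G := (measurable_one.indicator hAm).sub_const c
  have hGb : ∃ C, ∀ w, |G w| ≤ C := by
    refine ⟨1, fun w => ?_⟩
    rw [hG]
    simp only [indicator, Pi.one_apply]
    split_ifs
    · rw [abs_le]; constructor <;> linarith
    · rw [abs_le]; constructor <;> linarith
  have hmean : ∀ z, ∫ p : T2, G (p, z) = 0 := by
    intro z
    have h1 : ∀ p : T2, G (p, z) = ({p | (p, z) ∈ AA ε} : Set T2).indicator (1 : T2 → ℝ) p - c := by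
      intro p
      rw [hG]
      simp only [indicator, mem_ofPred_eq, Pi.one_apply]
    have hms : MeasurableSet {p : T2 | (p, z) ∈ AA ε} := hAm.preimage (measurable_id.prodMk measurable_const)
    have hI1 : Integrable (({p : T2 | (p, z) ∈ AA ε} : Set T2).indicator (1 : T2 → ℝ)) (volume : Measure T2) :=
      (integrable_const (1:ℝ)).indicator hms
    simp_rw [h1]
    rw [integral_sub hI1 (integrable_const c), integral_indicator_one hms,
      vol_AA_fibre hε hε2, integral_const]
    simp [hc]
  have hGsq : ∫ w, G w ^ 2 = c - c ^ 2 := by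
    have h1 : ∀ w : T2 × T2, G w ^ 2 = (1 - 2 * c) * (AA ε).indicator (1 : T2 × T2 → ℝ) w + c ^ 2 := by
      intro w
      rw [hG]
      simp only [indicator, Pi.one_apply]
      split_ifs <;> ring
    simp_rw [h1]
    rw [integral_add ((hI hAm).const_mul _) (integrable_const _), integral_const_mul, integral_indicator_one hAm,
      vol_AA hε hε2, integral_const]
    simp only [probReal_univ, smul_eq_mul, one_mul]
    rw [hc]; ring
  have h2p := two_point hη0 hη1 hgap hGm hGb hGm hGb hmean n
  rw [hGsq, mul_assoc, Real.mul_self_sqrt (by nlinarith)] at h2p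
  -- the inner integral
  set f : (ℕ → ℝ) → ℝ := fun ω => (volume : Measure (T2 × T2)).real
        (AA ε ∩ {w | (XT ω n w.1, XT ω n w.2) ∈ AA ε}) with hf
  have hin : ∀ ω : ℕ → ℝ, ∫ w : T2 × T2, G (XT ω n w.1, XT ω n w.2) * G w = f ω - c ^ 2 := by
    intro ω
    have hmpp : MeasurePreserving (fun w : T2 × T2 => (XT ω n w.1, XT ω n w.2)) (volume : Measure (T2 × T2)) volume :=
      (mp_XT ω n).prod (mp_XT ω n)
    have hBm : MeasurableSet {w : T2 × T2 | (XT ω n w.1, XT ω n w.2) ∈ AA ε} := hmpp.measurable hAm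
    have hBv : (volume : Measure (T2 × T2)).real {w : T2 × T2 | (XT ω n w.1, XT ω n w.2) ∈ AA ε} = c := by
      have h3 := hmpp.measure_preimage hAm.nullMeasurableSet
      rw [hc, ← vol_AA hε hε2, measureReal_def, measureReal_def, ← h3]
      rfl
    have h1 : ∀ w : T2 × T2, G (XT ω n w.1, XT ω n w.2) * G w =
        (AA ε ∩ {w | (XT ω n w.1, XT ω n w.2) ∈ AA ε}).indicator (1 : T2 × T2 → ℝ) w -
          c * ({w : T2 × T2 | (XT ω n w.1, XT ω n w.2) ∈ AA ε} : Set (T2 × T2)).indicator (1 : T2 × T2 → ℝ) w -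
          c * (AA ε).indicator (1 : T2 × T2 → ℝ) w + c ^ 2 := by
      intro w
      rw [hG]
      simp only [indicator, Pi.one_apply, mem_inter_iff, mem_ofPred_eq]
      by_cases hw1 : w ∈ AA ε <;> by_cases hw2 : (XT ω n w.1, XT ω n w.2) ∈ AA ε <;> simp [hw1, hw2] <;> ring
    simp_rw [h1]
    rw [integral_add, integral_sub, integral_sub, integral_const_mul, integral_const_mul,
      integral_indicator_one (hAm.inter hBm), integral_indicator_one hBm, integral_indicator_one hAm, hBv, vol_AA hε hε2, integral_const]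
    · simp only [probReal_univ, smul_eq_mul, one_mul]
      rw [hf, hc]; ring
    · exact hI (hAm.inter hBm)
    · exact (hI hBm).const_mul _
    · exact (hI (hAm.inter hBm)).sub ((hI hBm).const_mul _)
    · exact (hI hAm).const_mul _
    · exact ((hI (hAm.inter hBm)).sub ((hI hBm).const_mul _)).sub ((hI hAm).const_mul _)
    · exact integrable_const _
  simp_rw [hin] at h2p
  by_cases hfi : Integrable f (PP ν)
  · rw [integral_sub hfi (integrable_const _), integral_const] at h2p
    simp only [probReal_univ, smul_eq_mul, one_mul] at h2p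
    have h3 := (abs_le.1 h2p).2
    have h4 : c ^ 2 = 16 * ε ^ 4 := by rw [hc]; ring
    have h5 : rho η n * (c - c ^ 2) ≤ rho η n * c := by
      apply mul_le_mul_of_nonneg_left _ hrho
      nlinarith [sq_nonneg c]
    rw [← h4]
    linarith
  · rw [integral_undef hfi]
    positivity

end Pool.Agent.Helper95.RP
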