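import Mathlib
import Pool.Agent.Helper95.RP.Diag

/-! RP-DIAGP: the neighbourhood of the diagonal in the plane. -/

set_option autoImplicit false
open MeasureTheory Real Set Filter Topology
open scoped ComplexConjugate ENNReal

namespace Pool.Agent.Helper95.RP

open Pool.Agent.Helper95.RX

attribute [local instance] Pool.Agent.Helper53.SM.instProbU Pool.Agent.Helper53.SM.instProbT2

/-- the same set in the plane, rescaled: `p = mk2 x`, `x ∈ (0,1]²`, `p' = mk2 (x + ε v)` -/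
lemma diag_plane {ε : ℝ} (hε : 0 < ε) (hε2 : ε < 1 / 2) (ω : ℕ → ℝ) (n : ℕ) :
    ENNReal.ofReal (ε ^ 2) * ∫⁻ x in Ioc (0:ℝ) 1 ×ˢ Ioc (0:ℝ) 1, volume {v : ℝ × ℝ | ‖v‖ < 1 ∧
        (XT ω n (mk2 x), XT ω n (mk2 (x + ε • v))) ∈ AA ε} =
      (volume : Measure (T2 × T2)) (AA ε ∩ {w | (XT ω n w.1, XT ω n w.2) ∈ AA ε}) := by
  have hXm : Measurable (XT ω n) := (mp_XT ω n).measurable
  have hmp : Measurable (fun w : T2 × T2 => (XT ω n w.1, XT ω n w.2)) :=
    (hXm.comp measurable_fst).prodMk (hXm.comp measurable_snd)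
  set S : Set (T2 × T2) := AA ε ∩ {w | (XT ω n w.1, XT ω n w.2) ∈ AA ε} with hS
  have hSm : MeasurableSet S := (measurableSet_AA ε).inter ((measurableSet_AA ε).preimage hmp)
  -- fibres
  have hfib : ∀ x : ℝ × ℝ, ENNReal.ofReal (ε ^ 2) * volume {v : ℝ × ℝ | ‖v‖ < 1 ∧
        (XT ω n (mk2 x), XT ω n (mk2 (x + ε • v))) ∈ AA ε} = (volume : Measure T2) (Prod.mk (mk2 x) ⁻¹' S) := by
    intro x
    have hm : MeasurableSet (Prod.mk (mk2 x) ⁻¹' S) := measurable_prodMk_left hSm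
    rw [fund x hm]
    have h1 := Measure.addHaar_smul (volume : Measure (ℝ × ℝ)) ε {v : ℝ × ℝ | ‖v‖ < 1 ∧
        (XT ω n (mk2 x), XT ω n (mk2 (x + ε • v))) ∈ AA ε}
    have hfr : Module.finrank ℝ (ℝ × ℝ) = 2 := by simp
    rw [hfr, abs_of_pos (by positivity)] at h1
    rw [← h1]
    congr 1
    ext u
    rw [mem_smul_set_iff_inv_smul_mem₀ hε.ne']
    have e1 : ε • ε⁻¹ • u = u := by rw [smul_smul, mul_inv_cancel₀ hε.ne', one_smul]
    simp only [mem_ofPred_eq, e1, mem_preimage, hS, mem_inter_iff]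
    have e2 : ((mk2 (x + u)).1 - (mk2 x).1 : UnitAddCircle) = ((u.1 : ℝ) : UnitAddCircle) := by
      unfold mk2
      rw [← AddCircle.coe_sub]
      congr 1
      simp
    have e3 : ((mk2 (x + u)).2 - (mk2 x).2 : UnitAddCircle) = ((u.2 : ℝ) : UnitAddCircle) := by
      unfold mk2
      rw [← AddCircle.coe_sub]
      congr 1
      simp
    have e4 : (‖ε⁻¹ • u‖ < 1) ↔ |u.1| < ε ∧ |u.2| < ε := by
      rw [norm_smul, norm_inv, Real.norm_of_nonneg hε.le, inv_mul_lt_iff₀ hε, mul_one, Prod.norm_def, max_lt_iff,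
        Real.norm_eq_abs, Real.norm_eq_abs]
    have e5 : (mk2 x, mk2 (x + u)) ∈ AA ε ↔ ‖(u.1 : UnitAddCircle)‖ < ε ∧ ‖(u.2 : UnitAddCircle)‖ < ε := by
      show ‖(mk2 (x + u)).1 - (mk2 x).1‖ < ε ∧ ‖(mk2 (x + u)).2 - (mk2 x).2‖ < ε ↔ _
      rw [e2, e3]
    rw [e4, e5]
    constructor
    · rintro ⟨⟨h2, h3⟩, h4⟩
      have h5 := abs_lt.1 h2
      have h6 := abs_lt.1 h3
      refine ⟨⟨⟨by linarith [h5.1], by linarith [h5.2]⟩, by linarith [h6.1], by linarith [h6.2]⟩, ⟨?_, ?_⟩, h4⟩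
      · rw [nrm_coe (by linarith)]; exact h2
      · rw [nrm_coe (by linarith)]; exact h3
    · rintro ⟨⟨⟨h5, h6⟩, h7, h8⟩, ⟨h2, h3⟩, h4⟩
      rw [nrm_coe (abs_le.2 ⟨by linarith, by linarith⟩)] at h2
      rw [nrm_coe (abs_le.2 ⟨by linarith, by linarith⟩)] at h3
      exact ⟨⟨h2, h3⟩, h4⟩
  rw [← lintegral_const_mul' _ _ ENNReal.ofReal_ne_top]
  simp_rw [hfib]
  have hmm : Measurable (fun p : T2 => (volume : Measure T2) (Prod.mk p ⁻¹' S)) := measurable_measure_prodMk_left hSm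
  rw [mp_mk2.lintegral_comp hmm]
  exact (Measure.prod_apply (μ := (volume : Measure T2)) (ν := (volume : Measure T2)) hSm).symm

end Pool.Agent.Helper95.RP
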