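import Mathlib
import Pool.Agent.Helper95.RP.DiagP
import Pool.Agent.Helper95.RP.Fat
import Pool.Agent.Helper95.RX.Area

/-! RP-GROW: exponential growth of the derivative. -/

set_option autoImplicit false
open MeasureTheory Real Set Filter Topology
open scoped ComplexConjugate ENNReal

namespace Pool.Agent.Helper95.RP

open Pool.Agent.Helper95.RX

attribute [local instance] Pool.Agent.Helper53.SM.instProbU Pool.Agent.Helper53.SM.instProbT2

variable {η : ℝ} {ν : ℕ → Measure ℝ} [∀ i, IsProbabilityMeasure (ν i)]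

/-- the rescaled area -/
private noncomputable def Vv (n : ℕ) (ε : ℝ) (p : (ℕ → ℝ) × (ℝ × ℝ)) : ℝ≥0∞ :=
  volume {v : ℝ × ℝ | ‖v‖ < 1 ∧ (XT p.1 n (mk2 p.2), XT p.1 n (mk2 (p.2 + ε • v))) ∈ AA ε}

private lemma measurable_Vv (n : ℕ) (ε : ℝ) : Measurable (Vv n ε) := by
  have hX := measurable_XT n
  have hmk : Measurable mk2 := mp_mk2.measurable
  have hs : MeasurableSet {q : ((ℕ → ℝ) × (ℝ × ℝ)) × (ℝ × ℝ) | ‖q.2‖ < 1 ∧
      (XT q.1.1 n (mk2 q.1.2), XT q.1.1 n (mk2 (q.1.2 + ε • q.2))) ∈ AA ε} := by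
    refine (measurableSet_lt (measurable_norm.comp measurable_snd) measurable_const).inter ?_
    refine (measurableSet_AA ε).preimage ?_
    have h1 : Measurable (fun q : ((ℕ → ℝ) × (ℝ × ℝ)) × (ℝ × ℝ) => q.1.1) := measurable_fst.comp measurable_fst
    have h2 : Measurable (fun q : ((ℕ → ℝ) × (ℝ × ℝ)) × (ℝ × ℝ) => mk2 q.1.2) := hmk.comp (measurable_snd.comp measurable_fst)
    have h3 : Measurable (fun q : ((ℕ → ℝ) × (ℝ × ℝ)) × (ℝ × ℝ) => mk2 (q.1.2 + ε • q.2)) :=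
      hmk.comp ((measurable_snd.comp measurable_fst).add (measurable_snd.const_smul ε))
    exact (hX.comp (h1.prodMk h2)).prodMk (hX.comp (h1.prodMk h3))
  exact measurable_measure_prodMk_left hs

private lemma eps_bound (hη0 : 0 < η) (hη1 : η ≤ 1 / 2) (hgap : Gap η ν) (n : ℕ) {ε : ℝ}
    (hε : 0 < ε) (hε2 : ε < 1 / 2) :
    ∫⁻ ω, (∫⁻ x in Ioc (0:ℝ) 1 ×ˢ Ioc (0:ℝ) 1, Vv n ε (ω, x)) ∂(PP ν) ≤
      ENNReal.ofReal (16 * ε ^ 2 + 4 * rho η n) := by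
  have hrho := rho_nonneg η n
  have h1 := diag_bound hη0 hη1 hgap hε hε2 n
  have hX := measurable_XT n
  set f : (ℕ → ℝ) → ℝ≥0∞ := fun ω => (volume : Measure (T2 × T2)) (AA ε ∩ {w | (XT ω n w.1, XT ω n w.2) ∈ AA ε}) with hf
  have hfm : Measurable f := by
    have hs : MeasurableSet {q : (ℕ → ℝ) × (T2 × T2) | q.2 ∈ AA ε ∧ (XT q.1 n q.2.1, XT q.1 n q.2.2) ∈ AA ε} := by
      refine ((measurableSet_AA ε).preimage measurable_snd).inter ((measurableSet_AA ε).preimage ?_)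
      exact (hX.comp (measurable_fst.prodMk (measurable_fst.comp measurable_snd))).prodMk
        (hX.comp (measurable_fst.prodMk (measurable_snd.comp measurable_snd)))
    exact measurable_measure_prodMk_left hs
  have hf1 : ∀ ω, f ω ≤ 1 := fun ω => prob_le_one
  have hfr : ∀ ω, (volume : Measure (T2 × T2)).real (AA ε ∩ {w | (XT ω n w.1, XT ω n w.2) ∈ AA ε}) = (f ω).toReal := fun ω => rfl
  simp_rw [hfr] at h1
  have h2 : ∫⁻ ω, f ω ∂(PP ν) ≤ ENNReal.ofReal (16 * ε ^ 4 + rho η n * (4 * ε ^ 2)) := by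
    have h3 : ∫⁻ ω, f ω ∂(PP ν) ≠ ⊤ := by
      refine ne_top_of_le_ne_top ENNReal.one_ne_top ?_
      calc ∫⁻ ω, f ω ∂(PP ν) ≤ ∫⁻ _, 1 ∂(PP ν) := lintegral_mono hf1
        _ = 1 := by simp
    rw [integral_toReal hfm.aemeasurable (Eventually.of_forall fun ω => lt_of_le_of_lt (hf1 ω) ENNReal.one_lt_top)] at h1
    rw [← ENNReal.ofReal_toReal h3]
    exact ENNReal.ofReal_le_ofReal h1
  have hε20 : 0 < ε ^ 2 := by positivity
  have h4 : ENNReal.ofReal (ε ^ 2) * ∫⁻ ω, (∫⁻ x in Ioc (0:ℝ) 1 ×ˢ Ioc (0:ℝ) 1, Vv n ε (ω, x)) ∂(PP ν) ≤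
      ENNReal.ofReal (ε ^ 2) * ENNReal.ofReal (16 * ε ^ 2 + 4 * rho η n) := by
    rw [← lintegral_const_mul' _ _ ENNReal.ofReal_ne_top, ← ENNReal.ofReal_mul hε20.le]
    have h5 : ∀ ω, ENNReal.ofReal (ε ^ 2) * (∫⁻ x in Ioc (0:ℝ) 1 ×ˢ Ioc (0:ℝ) 1, Vv n ε (ω, x)) = f ω := fun ω =>
      diag_plane hε hε2 ω n
    simp_rw [h5]
    refine h2.trans (le_of_eq ?_)
    congr 1
    ring
  exact (ENNReal.mul_le_mul_iff_right (by simpa using hε.ne') ENNReal.ofReal_ne_top).1 h4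

/-- expectation of `1/‖D‖` -/
theorem int_inv_norm (hη0 : 0 < η) (hη1 : η ≤ 1 / 2) (hgap : Gap η ν) (n : ℕ) :
    ∫⁻ ω, (∫⁻ x in Ioc (0:ℝ) 1 ×ˢ Ioc (0:ℝ) 1, ENNReal.ofReal (1 / ‖DY ω n x‖)) ∂(PP ν) ≤
      ENNReal.ofReal (4 * rho η n) := by
  set ε : ℕ → ℝ := fun k => 1 / ((k : ℝ) + 3) with hε
  have hε0 : ∀ k, 0 < ε k := fun k => by rw [hε]; positivity
  have hε2 : ∀ k, ε k < 1 / 2 := fun k => by
    rw [hε]
    show 1 / ((k : ℝ) + 3) < 1 / 2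
    have hk : (0:ℝ) ≤ k := Nat.cast_nonneg k
    rw [div_lt_div_iff₀ (by positivity) (by norm_num)]
    linarith
  have hεt : Tendsto ε atTop (𝓝 0) := by
    have h1 : Tendsto (fun k : ℕ => (k : ℝ) + 3) atTop atTop := tendsto_natCast_atTop_atTop.atTop_add tendsto_const_nhds
    exact (tendsto_const_nhds (x := (1:ℝ))).div_atTop h1
  calc ∫⁻ ω, (∫⁻ x in Ioc (0:ℝ) 1 ×ˢ Ioc (0:ℝ) 1, ENNReal.ofReal (1 / ‖DY ω n x‖)) ∂(PP ν)
      ≤ ∫⁻ ω, (∫⁻ x in Ioc (0:ℝ) 1 ×ˢ Ioc (0:ℝ) 1, liminf (fun k => Vv n (ε k) (ω, x)) atTop) ∂(PP ν) := by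
        apply lintegral_mono
        intro ω
        apply lintegral_mono
        intro x
        exact (area (det_DY ω n x)).trans (fatou_plane ω n x hε0 hεt)
    _ ≤ ∫⁻ ω, liminf (fun k => ∫⁻ x in Ioc (0:ℝ) 1 ×ˢ Ioc (0:ℝ) 1, Vv n (ε k) (ω, x)) atTop ∂(PP ν) := by
        apply lintegral_mono
        intro ω
        exact lintegral_liminf_le fun k => (measurable_Vv n (ε k)).comp measurable_prodMk_left
    _ ≤ liminf (fun k => ∫⁻ ω, (∫⁻ x in Ioc (0:ℝ) 1 ×ˢ Ioc (0:ℝ) 1, Vv n (ε k) (ω, x)) ∂(PP ν)) atTop :=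
        lintegral_liminf_le fun k => (measurable_Vv n (ε k)).lintegral_prod_right'
    _ ≤ liminf (fun k => ENNReal.ofReal (16 * ε k ^ 2 + 4 * rho η n)) atTop := by
        refine liminf_le_liminf ?_ (by isBoundedDefault) (by isBoundedDefault)
        exact Eventually.of_forall fun k => eps_bound hη0 hη1 hgap n (hε0 k) (hε2 k)
    _ = ENNReal.ofReal (4 * rho η n) := by
        apply Tendsto.liminf_eq
        apply ENNReal.tendsto_ofReal
        have h1 := ((hεt.pow 2).const_mul 16).add_const (4 * rho η n)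
        simpa using h1

/-- almost sure growth (Borel–Cantelli and `DY_add_int`) -/
theorem growth (hη0 : 0 < η) (hη1 : η ≤ 1 / 2) (hgap : Gap η ν) :
    ∀ᵐ ω ∂(PP ν), ∀ᵐ x : ℝ × ℝ, ∀ᶠ n : ℕ in atTop,
      Real.exp (2 * η / 3 / 64 * n) ≤ ‖DY ω n x‖ := by
  set κ : ℝ := 2 * η / 3 with hκ
  have hκ0 : 0 < κ := by rw [hκ]; positivity
  set sq : Set (ℝ × ℝ) := Ioc (0:ℝ) 1 ×ˢ Ioc (0:ℝ) 1 with hsq
  have hDm : ∀ n, Measurable (fun p : (ℕ → ℝ) × (ℝ × ℝ) => ENNReal.ofReal (1 / ‖DY p.1 n p.2‖)) := fun n =>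
    ENNReal.measurable_ofReal.comp (measurable_const.div (continuous_DY n).norm.measurable)
  set μ : Measure ((ℕ → ℝ) × (ℝ × ℝ)) := (PP ν).prod ((volume : Measure (ℝ × ℝ)).restrict sq) with hμ
  set B : ℕ → Set ((ℕ → ℝ) × (ℝ × ℝ)) := fun n =>
    {p | ENNReal.ofReal (Real.exp (-(κ / 64 * n))) ≤ ENNReal.ofReal (1 / ‖DY p.1 n p.2‖)} with hB
  have hBn : ∀ n, μ (B n) ≤ ENNReal.ofReal (4 * Real.sqrt 2 * Real.exp (-(7 * κ / 64)) ^ n) := by
    intro n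
    have h1 := meas_ge_le_lintegral_div (μ := μ) (hDm n).aemeasurable
      (ε := ENNReal.ofReal (Real.exp (-(κ / 64 * n)))) (by simpa using Real.exp_pos _) ENNReal.ofReal_ne_top
    refine h1.trans ?_
    have h2 : ∫⁻ p, ENNReal.ofReal (1 / ‖DY p.1 n p.2‖) ∂μ ≤ ENNReal.ofReal (4 * rho η n) := by
      rw [hμ, lintegral_prod _ (hDm n).aemeasurable]
      exact int_inv_norm hη0 hη1 hgap n
    have h3 := rho_le hη0 hη1 n
    rw [← hκ] at h3
    calc (∫⁻ p, ENNReal.ofReal (1 / ‖DY p.1 n p.2‖) ∂μ) / ENNReal.ofReal (Real.exp (-(κ / 64 * n)))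
        ≤ ENNReal.ofReal (4 * rho η n) / ENNReal.ofReal (Real.exp (-(κ / 64 * n))) := by gcongr
      _ = ENNReal.ofReal (4 * rho η n / Real.exp (-(κ / 64 * n))) := by
          rw [ENNReal.ofReal_div_of_pos (Real.exp_pos _)]
      _ ≤ ENNReal.ofReal (4 * Real.sqrt 2 * Real.exp (-(7 * κ / 64)) ^ n) := by
          apply ENNReal.ofReal_le_ofReal
          rw [div_le_iff₀ (Real.exp_pos _), ← Real.exp_nat_mul, mul_assoc, ← Real.exp_add]
          have h4 : (n : ℝ) * -(7 * κ / 64) + -(κ / 64 * n) = -(κ * n / 8) := by ring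
          rw [h4]
          calc 4 * rho η n ≤ 4 * (Real.sqrt 2 * Real.exp (-(κ * n / 8))) := by gcongr
            _ = _ := by ring
  have hsum : ∑' n, μ (B n) ≠ ⊤ := by
    have hs : Summable (fun n : ℕ => 4 * Real.sqrt 2 * Real.exp (-(7 * κ / 64)) ^ n) := by
      apply Summable.mul_left
      apply summable_geometric_of_lt_one (Real.exp_pos _).le
      rw [Real.exp_lt_one_iff]
      linarith
    exact ne_top_of_le_ne_top hs.tsum_ofReal_ne_top (ENNReal.tsum_le_tsum hBn)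
  have hae := ae_eventually_notMem hsum
  have hae2 := Measure.ae_ae_of_ae_prod hae
  filter_upwards [hae2] with ω hω
  -- periodicity
  set Nn : Set (ℝ × ℝ) := {x | ¬ ∀ᶠ n : ℕ in atTop, Real.exp (κ / 64 * n) ≤ ‖DY ω n x‖} with hN
  have hN0 : volume (Nn ∩ sq) = 0 := by
    have hsqm : MeasurableSet sq := measurableSet_Ioc.prod measurableSet_Ioc
    rw [ae_restrict_iff' hsqm] at hω
    have h5 : {x | ¬ (x ∈ sq → ∀ᶠ n : ℕ in atTop, (ω, x) ∉ B n)} ⊇ Nn ∩ sq := by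
      rintro x ⟨hx1, hx2⟩ hcon
      apply hx1
      filter_upwards [hcon hx2] with n hn
      rw [hB] at hn
      have h6 : ENNReal.ofReal (1 / ‖DY ω n x‖) < ENNReal.ofReal (Real.exp (-(κ / 64 * n))) := not_le.1 hn
      have h7 := (ENNReal.ofReal_lt_ofReal_iff (Real.exp_pos _)).1 h6
      have hpos := norm_DY_pos ω n x
      rw [div_lt_iff₀ hpos, Real.exp_neg] at h7
      have h8 := mul_lt_mul_of_pos_left h7 (Real.exp_pos (κ / 64 * n))
      rw [mul_one, ← mul_assoc, mul_inv_cancel₀ (Real.exp_pos _).ne', one_mul] at h8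
      exact h8.le
    exact measure_mono_null h5 hω
  have hsub : Nn ⊆ ⋃ m : ℤ × ℤ, (fun x : ℝ × ℝ => x + (-(m.1 : ℝ), -(m.2 : ℝ))) ⁻¹' (Nn ∩ sq) := by
    intro x hx
    rw [mem_iUnion]
    refine ⟨(⌈x.1⌉ - 1, ⌈x.2⌉ - 1), ?_, ?_⟩
    · show ¬ ∀ᶠ n : ℕ in atTop, Real.exp (κ / 64 * n) ≤ ‖DY ω n (x + (-((⌈x.1⌉ - 1 : ℤ) : ℝ), -((⌈x.2⌉ - 1 : ℤ) : ℝ)))‖
      intro hcon
      apply hx
      filter_upwards [hcon] with n hn
      have h6 := DY_add_int ω n x (-(⌈x.1⌉ - 1)) (-(⌈x.2⌉ - 1))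
      have h7 : x + (-((⌈x.1⌉ - 1 : ℤ) : ℝ), -((⌈x.2⌉ - 1 : ℤ) : ℝ)) =
          (x.1 + ((-(⌈x.1⌉ - 1) : ℤ) : ℝ), x.2 + ((-(⌈x.2⌉ - 1) : ℤ) : ℝ)) := by
        apply Prod.ext <;> simp
      rw [h7, h6] at hn
      exact hn
    · have h1 := Int.ceil_lt_add_one x.1
      have h2 := Int.le_ceil x.1
      have h3 := Int.ceil_lt_add_one x.2
      have h4 := Int.le_ceil x.2
      refine ⟨⟨?_, ?_⟩, ?_, ?_⟩
      · show 0 < x.1 + -((⌈x.1⌉ - 1 : ℤ) : ℝ)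
        push_cast; linarith
      · show x.1 + -((⌈x.1⌉ - 1 : ℤ) : ℝ) ≤ 1
        push_cast; linarith
      · show 0 < x.2 + -((⌈x.2⌉ - 1 : ℤ) : ℝ)
        push_cast; linarith
      · show x.2 + -((⌈x.2⌉ - 1 : ℤ) : ℝ) ≤ 1
        push_cast; linarith
  have hnull : volume Nn = 0 := by
    refine measure_mono_null hsub (measure_iUnion_null fun m => ?_)
    rw [measure_preimage_add_right]
    exact hN0
  exact hnull

end Pool.Agent.Helper95.RP
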