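import Mathlib
import Pool.Agent.Helper95.RP.One

/-! RP-CYL: correlations with cylinder functions. -/

set_option autoImplicit false
open MeasureTheory Real Set Filter Topology
open scoped ComplexConjugate ENNReal

namespace Pool.Agent.Helper95.RP

open Pool.Agent.Helper95.RX

attribute [local instance] Pool.Agent.Helper53.SM.instProbU Pool.Agent.Helper53.SM.instProbT2

variable {η : ℝ} {ν : Measure ℝ} [IsProbabilityMeasure ν]

/-- the inverse is jointly continuous -/
lemma continuous_sfi2 : Continuous (fun q : ℝ × T2 => sfi q.1 q.2) := by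
  have h1 : Continuous (fun q : ℝ × T2 => sf q.1 (q.2.2, q.2.1)) := by
    have := continuous_sf2.comp ((continuous_fst.prodMk ((continuous_snd.comp continuous_snd).prodMk
      (continuous_fst.comp continuous_snd))) : Continuous fun q : ℝ × T2 => (q.1, (q.2.2, q.2.1)))
    exact this
  have h2 : (fun q : ℝ × T2 => sfi q.1 q.2) = fun q : ℝ × T2 => (sf q.1 (q.2.2, q.2.1)).swap := by
    funext q
    rfl
  rw [h2]
  exact continuous_swap.comp h1

/-- functions of the first `k` parameters and the point -/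
def DepK (k : ℕ) (φ : (ℕ → ℝ) × T2 → ℝ) : Prop :=
  ∀ (ω ω' : ℕ → ℝ) (p : T2), (∀ i, i < k → ω i = ω' i) → φ (ω, p) = φ (ω', p)

private lemma itg {W : Type} [MeasurableSpace W] {μ : Measure W} [IsFiniteMeasure μ] {u : W → ℝ}
    (hu : Measurable u) {C : ℝ} (hC : ∀ x, |u x| ≤ C) : Integrable u μ :=
  Integrable.of_bound hu.aestronglyMeasurable C (Filter.Eventually.of_forall hC)

private lemma abs_int_le {W : Type} [MeasurableSpace W] {μ : Measure W} [IsProbabilityMeasure μ]
    {u : W → ℝ} {C : ℝ} (hC : ∀ x, |u x| ≤ C) : |∫ x, u x ∂μ| ≤ C := by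
  have := norm_integral_le_of_norm_le_const (μ := μ) (f := u) (C := C)
    (Filter.Eventually.of_forall hC)
  simpa using this

private lemma sq_int_le {W : Type} [MeasurableSpace W] {μ : Measure W} [IsProbabilityMeasure μ]
    {u : W → ℝ} (hu : Measurable u) {C : ℝ} (hC : ∀ x, |u x| ≤ C) :
    (∫ x, u x ∂μ) ^ 2 ≤ ∫ x, u x ^ 2 ∂μ := by
  set m := ∫ x, u x ∂μ with hm
  have i1 : Integrable (fun x => u x ^ 2) μ := itg (hu.pow_const 2) (C := C ^ 2) fun x => by
    show |u x ^ 2| ≤ C ^ 2
    rw [abs_pow]; exact pow_le_pow_left₀ (abs_nonneg _) (hC x) 2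
  have i2 : Integrable u μ := itg hu hC
  have i3 : Integrable (fun x => 2 * m * u x - m ^ 2) μ :=
    (i2.const_mul _).sub (integrable_const _)
  have h0 : 0 ≤ ∫ x, (u x - m) ^ 2 ∂μ := integral_nonneg fun x => sq_nonneg _
  have e : ∀ x, (u x - m) ^ 2 = u x ^ 2 - (2 * m * u x - m ^ 2) := fun x => by ring
  simp_rw [e] at h0
  rw [integral_sub i1 i3, integral_sub (i2.const_mul _) (integrable_const _),
    integral_const_mul, integral_const, probReal_univ, one_smul, ← hm] at h0
  nlinarith

/-- splitting off the first kick in an integral -/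
private lemma split_one {u : (ℕ → ℝ) → ℝ} (hu : Measurable u) {C : ℝ} (hC : ∀ x, |u x| ≤ C) :
    ∫ ω, u ω ∂(PP (fun _ => ν)) = ∫ c, (∫ ω, u (cns (c, ω)) ∂(PP (fun _ => ν))) ∂ν := by
  have h1 : MeasurePreserving cns (ν.prod (PP (fun _ => ν))) (PP (fun _ => ν)) :=
    mp_cns (fun _ => ν)
  rw [← h1.map_eq, integral_map h1.measurable.aemeasurable hu.aestronglyMeasurable]
  rw [h1.map_eq]
  exact integral_prod _ (itg (hu.comp h1.measurable) fun x => hC _)

/-- the shifted sequence and the random composition are independent -/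
private lemma indep (n : ℕ) {f : (ℕ → ℝ) × T2 → ℝ} (hf : Measurable f) (hf1 : ∀ x, |f x| ≤ 1)
    (p : T2) :
    ∫ ω, f (FS^[n] (ω, p)) ∂(PP (fun _ => ν)) =
      ∫ ω, (∫ ω', f (ω', XT ω n p) ∂(PP (fun _ => ν))) ∂(PP (fun _ => ν)) := by
  have hbar : Measurable fun p : T2 => ∫ ω', f (ω', p) ∂(PP (fun _ => ν)) := by
    have : StronglyMeasurable (Function.uncurry fun (p : T2) (ω' : ℕ → ℝ) => f (ω', p)) :=
      (hf.comp (measurable_snd.prodMk measurable_fst)).stronglyMeasurable
    exact this.integral_prod_right.measurable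
  have hFSm : Measurable FS := (mp_FS (ν := ν)).measurable
  have hcx : ∀ p : T2, Measurable fun ω : ℕ → ℝ => ((ω, p) : (ℕ → ℝ) × T2) := fun p =>
    measurable_id.prodMk measurable_const
  have hXm : ∀ (N : ℕ) (p : T2), Measurable fun ω : ℕ → ℝ => XT ω N p := fun N p =>
    (measurable_XT N).comp (hcx p)
  induction n generalizing p with
  | zero =>
    show ∫ ω, f (ω, p) ∂(PP (fun _ => ν)) =
      ∫ ω, (∫ ω', f (ω', p) ∂(PP (fun _ => ν))) ∂(PP (fun _ => ν))
    rw [integral_const, probReal_univ, one_smul]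
  | succ n ih =>
    have m1 : Measurable fun ω : ℕ → ℝ => f (FS^[n + 1] (ω, p)) :=
      hf.comp ((hFSm.iterate (n + 1)).comp (hcx p))
    have m2 : Measurable fun ω : ℕ → ℝ => XT ω (n + 1) p := hXm (n + 1) p
    have m3 : Measurable fun ω : ℕ → ℝ => ∫ ω', f (ω', XT ω (n + 1) p)
      ∂(PP (fun _ => ν)) := hbar.comp m2
    have hL := split_one (ν := ν) m1 (C := 1) (fun ω => hf1 _)
    have hR := split_one (ν := ν) m3 (C := 1) (fun ω => abs_int_le fun x => hf1 _)
    refine hL.trans (Eq.trans ?_ hR.symm)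
    refine integral_congr_ae (Filter.Eventually.of_forall fun c => ?_)
    show ∫ ω, f (FS^[n + 1] (cns (c, ω), p)) ∂(PP (fun _ => ν)) =
      ∫ ω, (∫ ω', f (ω', XT (cns (c, ω)) (n + 1) p) ∂(PP (fun _ => ν)))
        ∂(PP (fun _ => ν))
    have e1 : ∀ ω : ℕ → ℝ, FS^[n + 1] (cns (c, ω), p) = FS^[n] (ω, sf c p) := by
      intro ω
      rw [Function.iterate_succ_apply]
      rfl
    have e2 : ∀ ω : ℕ → ℝ, XT (cns (c, ω)) (n + 1) p =
        XT ω n (sf c p) := by
      intro ω
      exact cmp_cns (fun _ c => sf c) c ω n p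
    simp_rw [e1, e2]
    exact ih (sf c p)

/-- correlations with cylinder functions, by induction on `k`: for `k = 0` this is `one_point` for
`f̄ - ∫ f`, `f̄(p) = ∫ f(ω, p) dP(ω)`; the step splits off the first kick (`mp_cns`) and substitutes
`p = f_c⁻¹ p'` -/
theorem cyl_bound (hη0 : 0 < η) (hη1 : η ≤ 1 / 2) (hgap : Gap η (fun _ => ν)) (k n : ℕ)
    {φ f : (ℕ → ℝ) × T2 → ℝ} (hφ : Measurable φ) (hφ1 : ∀ x, |φ x| ≤ 1) (hk : DepK k φ)
    (hf : Measurable f) (hf1 : ∀ x, |f x| ≤ 1) :
    |(∫ x, φ x * f (FS^[n + k] x) ∂((PP (fun _ => ν)).prod (volume : Measure T2))) -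
      (∫ x, φ x ∂((PP (fun _ => ν)).prod (volume : Measure T2))) *
        ∫ x, f x ∂((PP (fun _ => ν)).prod (volume : Measure T2))| ≤ rho η n := by
  have hFSm : Measurable FS := (mp_FS (ν := ν)).measurable
  have hcx : ∀ p : T2, Measurable fun ω : ℕ → ℝ => ((ω, p) : (ℕ → ℝ) × T2) := fun p =>
    measurable_id.prodMk measurable_const
  induction k generalizing φ with
  | zero =>
    -- the function of the point
    set φ0 : T2 → ℝ := fun p => φ (fun _ => 0, p) with hφ0
    have hφ0m : Measurable φ0 := hφ.comp (measurable_const.prodMk measurable_id)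
    have hφe : ∀ x, φ x = φ0 x.2 := fun x => hk x.1 _ x.2 (fun i hi => absurd hi (Nat.not_lt_zero i))
    set fb : T2 → ℝ := fun p => ∫ ω', f (ω', p) ∂(PP (fun _ => ν)) with hfb
    have hbar : Measurable fb := by
      have : StronglyMeasurable (Function.uncurry fun (p : T2) (ω' : ℕ → ℝ) => f (ω', p)) :=
        (hf.comp (measurable_snd.prodMk measurable_fst)).stronglyMeasurable
      exact this.integral_prod_right.measurable
    have hfb1 : ∀ p, |fb p| ≤ 1 := fun p => abs_int_le fun x => hf1 _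
    set m : ℝ := ∫ x, f x ∂((PP (fun _ => ν)).prod (volume : Measure T2)) with hm
    have hmfb : ∫ p, fb p = m := by
      rw [hm, integral_prod_symm _ (itg hf hf1)]
    have hm1 : |m| ≤ 1 := abs_int_le hf1
    have hφm : ∫ x, φ x ∂((PP (fun _ => ν)).prod (volume : Measure T2)) = ∫ p, φ0 p := by
      rw [integral_prod_symm _ (itg hφ hφ1)]
      refine integral_congr_ae (Filter.Eventually.of_forall fun p => ?_)
      show ∫ ω, φ (ω, p) ∂(PP (fun _ => ν)) = φ0 p
      have : ∀ ω : ℕ → ℝ, φ (ω, p) = φ0 p := fun ω => hφe (ω, p)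
      simp_rw [this]
      rw [integral_const, probReal_univ, one_smul]
    -- the averaged function
    set h : T2 → ℝ := fun p => ∫ ω, (fb (XT ω n p) - m) ∂(PP (fun _ => ν)) with hh
    have hfbX : Measurable (Function.uncurry fun (p : T2) (ω : ℕ → ℝ) =>
        fb (XT ω n p) - m) :=
      ((hbar.comp ((measurable_XT n).comp
        (measurable_snd.prodMk measurable_fst))).sub_const m)
    have hhm : Measurable h := hfbX.stronglyMeasurable.integral_prod_right.measurable
    have hfbm : ∀ p, |fb p - m| ≤ 2 := fun p => (abs_sub _ _).trans (by linarith [hfb1 p])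
    have hh2 : ∀ p, |h p| ≤ 2 := fun p => abs_int_le fun ω => hfbm _
    have hcor : (∫ x, φ x * f (FS^[n + 0] x) ∂((PP (fun _ => ν)).prod (volume : Measure T2))) -
        (∫ p, φ0 p) * m = ∫ p, φ0 p * h p := by
      have e1 : ∫ x, φ x * f (FS^[n + 0] x) ∂((PP (fun _ => ν)).prod (volume : Measure T2)) =
          ∫ p, φ0 p * ∫ ω, fb (XT ω n p) ∂(PP (fun _ => ν)) := by
        have hmm : Measurable fun x => φ x * f (FS^[n + 0] x) :=
          hφ.mul (hf.comp (hFSm.iterate _))
        rw [integral_prod_symm (fun x => φ x * f (FS^[n + 0] x)) (itg hmm (C := 1) fun x => by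
          show |φ x * f _| ≤ 1
          rw [abs_mul]
          exact mul_le_one₀ (hφ1 _) (abs_nonneg _) (hf1 _))]
        refine integral_congr_ae (Filter.Eventually.of_forall fun p => ?_)
        show ∫ ω, φ (ω, p) * f (FS^[n + 0] (ω, p)) ∂(PP (fun _ => ν)) = _
        have : ∀ ω : ℕ → ℝ, φ (ω, p) * f (FS^[n + 0] (ω, p)) =
            φ0 p * f (FS^[n] (ω, p)) := fun ω => by
          rw [hφe (ω, p)]; rfl
        simp_rw [this]
        rw [integral_const_mul, indep n hf hf1 p]
      have e2 : ∀ p, h p = (∫ ω, fb (XT ω n p) ∂(PP (fun _ => ν))) - m := by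
        intro p
        rw [hh]
        show ∫ ω, (fb (XT ω n p) - m) ∂(PP (fun _ => ν)) = _
        have hmm : Measurable fun ω => fb (XT ω n p) :=
          hbar.comp ((measurable_XT n).comp (hcx p))
        rw [integral_sub (itg hmm (fun ω => hfb1 _)) (integrable_const _), integral_const,
          probReal_univ, one_smul]
      have e3 : ∀ p, φ0 p * ∫ ω, fb (XT ω n p) ∂(PP (fun _ => ν)) =
          φ0 p * h p + φ0 p * m := by
        intro p; rw [e2 p]; ring
      rw [e1]
      simp_rw [e3]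
      rw [integral_add, integral_mul_const]
      · ring
      · exact itg (hφ0m.mul hhm) (C := 2) fun p => by
          show |φ0 p * h p| ≤ 2
          rw [abs_mul]
          calc |φ0 p| * |h p| ≤ 1 * 2 := mul_le_mul (hφ1 _) (hh2 p) (abs_nonneg _) zero_le_one
            _ = 2 := by norm_num
      · exact (itg hφ0m (C := 1) fun p => hφ1 _).mul_const m
    rw [hφm, hcor]
    -- Cauchy-Schwarz
    have h1 := one_point (ν := fun _ => ν) hη0 hη1 hgap (f := fun p => fb p - m) (hbar.sub_const m)
      ⟨2, hfbm⟩ (by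
        rw [integral_sub (itg hbar hfb1) (integrable_const _), integral_const, probReal_univ,
          one_smul, hmfb, sub_self]) n
    have h2 : ∫ p, (fb p - m) ^ 2 ≤ 1 := by
      have e : ∀ p, (fb p - m) ^ 2 = fb p ^ 2 - (2 * m * fb p - m ^ 2) := fun p => by ring
      simp_rw [e]
      have i1 : Integrable (fun p => fb p ^ 2) (volume : Measure T2) :=
        itg (hbar.pow_const 2) (C := 1) fun p => by
          show |fb p ^ 2| ≤ 1
          rw [abs_pow]; exact pow_le_one₀ (abs_nonneg _) (hfb1 p)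
      have i2 : Integrable fb (volume : Measure T2) := itg hbar hfb1
      have i3 : Integrable (fun p => 2 * m * fb p - m ^ 2) (volume : Measure T2) :=
        (i2.const_mul _).sub (integrable_const _)
      rw [integral_sub i1 i3, integral_sub (i2.const_mul _) (integrable_const _),
        integral_const_mul, integral_const, probReal_univ, one_smul, hmfb]
      have h4 : ∫ p, fb p ^ 2 ≤ 1 := by
        have := integral_mono i1 (integrable_const (1 : ℝ)) (fun p => by
          show fb p ^ 2 ≤ 1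
          rw [← sq_abs]; exact pow_le_one₀ (abs_nonneg _) (hfb1 p))
        simpa using this
      nlinarith [sq_nonneg m]
    have hη2 : η ≤ 1 / 2 := hη1
    have hb : (0:ℝ) ≤ (1 - η) ^ (n / 6) := pow_nonneg (by linarith) _
    have h3 : ∫ p, h p ^ 2 ≤ (1 - η) ^ (n / 6) :=
      h1.trans (by nlinarith)
    have hu2 : ∀ p, |φ0 p * h p| ≤ 2 := fun p => by
      rw [abs_mul]
      calc |φ0 p| * |h p| ≤ 1 * 2 := mul_le_mul (hφ1 _) (hh2 p) (abs_nonneg _) zero_le_one
        _ = 2 := by norm_num
    have h4 := sq_int_le (μ := (volume : Measure T2)) (u := fun p => φ0 p * h p) (hφ0m.mul hhm) hu2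
    have h5 : ∫ p, (φ0 p * h p) ^ 2 ≤ ∫ p, h p ^ 2 := by
      refine integral_mono (itg ((hφ0m.mul hhm).pow_const 2) (C := 4) fun p => ?_)
        (itg (hhm.pow_const 2) (C := 4) fun p => ?_) fun p => ?_
      · show |(φ0 p * h p) ^ 2| ≤ 4
        rw [abs_pow]
        calc |φ0 p * h p| ^ 2 ≤ 2 ^ 2 := pow_le_pow_left₀ (abs_nonneg _) (hu2 p) 2
          _ = 4 := by norm_num
      · show |h p ^ 2| ≤ 4
        rw [abs_pow]
        calc |h p| ^ 2 ≤ 2 ^ 2 := pow_le_pow_left₀ (abs_nonneg _) (hh2 p) 2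
          _ = 4 := by norm_num
      · show (φ0 p * h p) ^ 2 ≤ h p ^ 2
        rw [mul_pow]
        have : φ0 p ^ 2 ≤ 1 := by
          rw [← sq_abs]; exact pow_le_one₀ (abs_nonneg _) (hφ1 _)
        nlinarith [sq_nonneg (h p)]
    unfold rho
    rw [← Real.sqrt_sq_eq_abs]
    exact Real.sqrt_le_sqrt (h4.trans (h5.trans h3))
  | succ k ih =>
    -- the functions with the first kick fixed, after the substitution
    set Φ : ℝ → (ℕ → ℝ) × T2 → ℝ := fun c x => φ (cns (c, x.1), sfi c x.2) with hΦ
    have hkfi : Measurable fun x : ℝ × ((ℕ → ℝ) × T2) => sfi x.1 x.2.2 := by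
      have := continuous_sfi2.measurable.comp
        ((measurable_fst.prodMk (measurable_snd.comp measurable_snd)) :
          Measurable fun x : ℝ × ((ℕ → ℝ) × T2) => (x.1, x.2.2))
      exact this
    have hΦm : Measurable fun x : ℝ × ((ℕ → ℝ) × T2) => Φ x.1 x.2 :=
      hφ.comp ((measurable_cns.comp
        (measurable_fst.prodMk (measurable_fst.comp measurable_snd))).prodMk hkfi)
    have hΦ1 : ∀ c x, |Φ c x| ≤ 1 := fun c x => hφ1 _
    have hΦk : ∀ c, DepK k (Φ c) := by
      intro c ω ω' p h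
      refine hk _ _ _ fun i hi => ?_
      rcases i with _ | i
      · rfl
      · exact h i (by omega)
    have hΦc : ∀ c, Measurable (Φ c) := fun c => hΦm.comp (measurable_const.prodMk measurable_id)
    -- splitting of an integral
    have hsplit : ∀ u : (ℕ → ℝ) × T2 → ℝ, Measurable u → (∀ x, |u x| ≤ 1) →
        ∫ x, u x ∂((PP (fun _ => ν)).prod (volume : Measure T2)) =
          ∫ c, (∫ x, u (cns (c, x.1), sfi c x.2)
            ∂((PP (fun _ => ν)).prod (volume : Measure T2))) ∂ν := by
      intro u hu hu1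
      have ucx : ∀ p : T2, Measurable fun ω : ℕ → ℝ => u (ω, p) := fun p => hu.comp (hcx p)
      rw [integral_prod_symm _ (itg hu hu1)]
      have e1 : ∀ p : T2, ∫ ω, u (ω, p) ∂(PP (fun _ => ν)) =
          ∫ c, (∫ ω, u (cns (c, ω), p) ∂(PP (fun _ => ν))) ∂ν := fun p =>
        split_one (ucx p) (C := 1) fun ω => hu1 _
      simp_rw [e1]
      have hm3 : Measurable fun y : (T2 × ℝ) × (ℕ → ℝ) => u (cns (y.1.2, y.2), y.1.1) :=
        hu.comp ((measurable_cns.comp ((measurable_snd.comp measurable_fst).prodMk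
          measurable_snd)).prodMk (measurable_fst.comp measurable_fst))
      have hm2 : Measurable (Function.uncurry fun (p : T2) (c : ℝ) =>
          ∫ ω, u (cns (c, ω), p) ∂(PP (fun _ => ν))) :=
        (hm3.stronglyMeasurable.integral_prod_right).measurable
      rw [integral_integral_swap (itg hm2 (C := 1) fun x => abs_int_le fun ω => hu1 _)]
      refine integral_congr_ae (Filter.Eventually.of_forall fun c => ?_)
      show ∫ p, (∫ ω, u (cns (c, ω), p) ∂(PP (fun _ => ν))) =
        ∫ x, u (cns (c, x.1), sfi c x.2) ∂((PP (fun _ => ν)).prod (volume : Measure T2))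
      have hm4 : Measurable fun x : (ℕ → ℝ) × T2 => u (cns (c, x.1), sfi c x.2) := by
        have h1 : Measurable fun x : (ℕ → ℝ) × T2 => sfi c x.2 :=
          hkfi.comp ((measurable_const.prodMk measurable_id) :
            Measurable fun x : (ℕ → ℝ) × T2 => (c, x))
        exact hu.comp ((measurable_cns.comp (measurable_const.prodMk measurable_fst)).prodMk h1)
      rw [integral_prod_symm _ (itg hm4 fun x => hu1 _)]
      have hm5 : Measurable fun p : T2 => ∫ ω, u (cns (c, ω), p) ∂(PP (fun _ => ν)) :=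
        hm2.comp (measurable_id.prodMk measurable_const)
      have hmp := mp_sfi c
      have hch := integral_map (μ := (volume : Measure T2)) (φ := sfi c)
        hmp.measurable.aemeasurable hm5.aestronglyMeasurable
      rw [hmp.map_eq] at hch
      exact hch
    set m : ℝ := ∫ x, f x ∂((PP (fun _ => ν)).prod (volume : Measure T2)) with hm
    have hprod1 : ∀ x, |φ x * f (FS^[n + (k + 1)] x)| ≤ 1 := fun x => by
      rw [abs_mul]
      exact mul_le_one₀ (hφ1 _) (abs_nonneg _) (hf1 _)
    have hmm : Measurable fun x => φ x * f (FS^[n + (k + 1)] x) :=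
      hφ.mul (hf.comp (hFSm.iterate _))
    rw [hsplit (fun x => φ x * f (FS^[n + (k + 1)] x)) hmm hprod1, hsplit _ hφ hφ1]
    have e1 : ∀ c (x : (ℕ → ℝ) × T2), FS^[n + (k + 1)] (cns (c, x.1), sfi c x.2) =
        FS^[n + k] x := by
      intro c x
      have h1 : FS^[n + (k + 1)] (cns (c, x.1), sfi c x.2) =
          FS^[n + k] (FS (cns (c, x.1), sfi c x.2)) :=
        Function.iterate_succ_apply FS (n + k) _
      have h2 : FS (cns (c, x.1), sfi c x.2) = x := by
        show (x.1, sf c (sfi c x.2)) = x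
        rw [sf_sfi]
      rw [h1, h2]
    simp_rw [e1]
    set J1 : ℝ → ℝ := fun c => ∫ x, Φ c x * f (FS^[n + k] x)
      ∂((PP (fun _ => ν)).prod (volume : Measure T2)) with hJ1
    set J2 : ℝ → ℝ := fun c => ∫ x, Φ c x ∂((PP (fun _ => ν)).prod (volume : Measure T2)) with hJ2
    have hJ1m : Measurable J1 := by
      have : Measurable (Function.uncurry fun (c : ℝ) (x : (ℕ → ℝ) × T2) =>
          Φ c x * f (FS^[n + k] x)) := hΦm.mul (hf.comp ((hFSm.iterate _).comp measurable_snd))
      exact (this.stronglyMeasurable.integral_prod_right).measurable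
    have hJ2m : Measurable J2 := by
      have : Measurable (Function.uncurry fun (c : ℝ) (x : (ℕ → ℝ) × T2) => Φ c x) := hΦm
      exact (this.stronglyMeasurable.integral_prod_right).measurable
    have hJ1b : ∀ c, |J1 c| ≤ 1 := fun c => abs_int_le fun x => by
      rw [abs_mul]
      exact mul_le_one₀ (hΦ1 _ _) (abs_nonneg _) (hf1 _)
    have hJ2b : ∀ c, |J2 c| ≤ 1 := fun c => abs_int_le fun x => hΦ1 _ _
    have hfin : (∫ c, J1 c ∂ν) - (∫ c, J2 c ∂ν) * m = ∫ c, (J1 c - J2 c * m) ∂ν := by
      rw [integral_sub (itg hJ1m hJ1b) ((itg hJ2m hJ2b).mul_const m), integral_mul_const]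
    show |(∫ c, J1 c ∂ν) - (∫ c, J2 c ∂ν) * m| ≤ rho η n
    rw [hfin]
    exact abs_int_le fun c => ih (hΦc c) (hΦ1 c) (hΦk c)

end Pool.Agent.Helper95.RP
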