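import Mathlib
import Pool.Agent.Helper95.RP.Cyl

/-! RP-MIX: the skew product over the shift is mixing. -/

set_option autoImplicit false
open MeasureTheory Real Set Filter Topology
open scoped ComplexConjugate ENNReal

namespace Pool.Agent.Helper95.RP

open Pool.Agent.Helper95.RX

attribute [local instance] Pool.Agent.Helper53.SM.instProbU Pool.Agent.Helper53.SM.instProbT2

/-- mixing on a generating π-system implies mixing -/
lemma mix_of_pi {Ω : Type} [mΩ : MeasurableSpace Ω] {μ : Measure Ω} [IsProbabilityMeasure μ]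
    {T : Ω → Ω} (hT : MeasurePreserving T μ μ) {C : Set (Set Ω)}
    (hgen : mΩ = MeasurableSpace.generateFrom C) (hpi : IsPiSystem C) {B : Set Ω}
    (hB : MeasurableSet B)
    (h : ∀ U ∈ C, Tendsto (fun n : ℕ => μ.real (U ∩ T^[n] ⁻¹' B)) atTop
      (𝓝 (μ.real U * μ.real B))) :
    ∀ U, MeasurableSet U → Tendsto (fun n : ℕ => μ.real (U ∩ T^[n] ⁻¹' B)) atTop
      (𝓝 (μ.real U * μ.real B)) := by
  have hTn : ∀ n : ℕ, MeasurableSet (T^[n] ⁻¹' B) := fun n => (hT.iterate n).measurable hB
  have hTB : ∀ n : ℕ, μ.real (T^[n] ⁻¹' B) = μ.real B := fun n => by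
    rw [measureReal_def, measureReal_def, (hT.iterate n).measure_preimage hB.nullMeasurableSet]
  refine MeasurableSpace.induction_on_inter (C := fun U _ => Tendsto
    (fun n : ℕ => μ.real (U ∩ T^[n] ⁻¹' B)) atTop (𝓝 (μ.real U * μ.real B))) hgen hpi
    ?_ h ?_ ?_
  · simp
  · intro U hU ih
    have h1 : ∀ n : ℕ, μ.real (Uᶜ ∩ T^[n] ⁻¹' B) = μ.real B - μ.real (U ∩ T^[n] ⁻¹' B) := by
      intro n
      have h2 := measureReal_inter_add_sdiff (μ := μ) (s := T^[n] ⁻¹' B) (t := U) hU
      rw [hTB] at h2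
      have h3 : Uᶜ ∩ T^[n] ⁻¹' B = T^[n] ⁻¹' B \ U := by
        ext x
        simp [and_comm]
      rw [h3, Set.inter_comm]
      linarith
    simp_rw [h1]
    have h2 : μ.real Uᶜ = 1 - μ.real U := by
      rw [measureReal_compl hU]
      simp
    rw [h2, sub_mul, one_mul]
    exact tendsto_const_nhds.sub ih
  · intro f hd hf ih
    have h1 : ∀ S : Set Ω, MeasurableSet S → μ.real ((⋃ i, f i) ∩ S) = ∑' i, μ.real (f i ∩ S) := by
      intro S hS
      rw [measureReal_def, Set.iUnion_inter, measure_iUnion]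
      · rw [ENNReal.tsum_toReal_eq (fun i => measure_ne_top μ _)]
        rfl
      · intro i j hij
        exact (hd hij).mono Set.inter_subset_left Set.inter_subset_left
      · exact fun i => (hf i).inter hS
    have h2 : μ.real (⋃ i, f i) = ∑' i, μ.real (f i) := by
      have := h1 Set.univ MeasurableSet.univ
      simpa using this
    have hsum : Summable (fun i => μ.real (f i)) := by
      refine ENNReal.summable_toReal ?_
      rw [← measure_iUnion hd hf]
      exact measure_ne_top μ _
    rw [h2, ← tsum_mul_right]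
    simp_rw [h1 _ (hTn _)]
    refine tendsto_tsum_of_dominated_convergence (bound := fun i => μ.real (f i)) hsum ih ?_
    refine Filter.Eventually.of_forall fun n i => ?_
    rw [Real.norm_eq_abs, abs_of_nonneg measureReal_nonneg]
    exact measureReal_mono Set.inter_subset_left

lemma tendsto_rho {η : ℝ} (hη0 : 0 < η) (hη1 : η ≤ 1 / 2) : Tendsto (rho η) atTop (𝓝 0) := by
  have hη2 : η ≤ 1 / 2 := hη1
  have h1 : Tendsto (fun n : ℕ => (1 - η) ^ (n / 6)) atTop (𝓝 0) :=
    (tendsto_pow_atTop_nhds_zero_of_lt_one (by linarith) (by linarith)).comp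
      (Nat.tendsto_div_const_atTop (by norm_num))
  have h2 := (Real.continuous_sqrt.tendsto 0).comp h1
  rw [Real.sqrt_zero] at h2
  exact h2

/-- the sets depending on the first `k` kicks and the point -/
def CylC : Set (Set ((ℕ → ℝ) × T2)) :=
  {U | MeasurableSet U ∧ ∃ k : ℕ, ∀ (ω ω' : ℕ → ℝ) (p : T2), (∀ i, i < k → ω i = ω' i) →
    ((ω, p) ∈ U ↔ (ω', p) ∈ U)}

lemma isPiSystem_CylC : IsPiSystem CylC := by
  rintro U ⟨hU, k, hk⟩ V ⟨hV, l, hl⟩ _
  refine ⟨hU.inter hV, max k l, fun ω ω' p h => ?_⟩
  exact and_congr (hk ω ω' p fun i hi => h i (lt_max_of_lt_left hi))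
    (hl ω ω' p fun i hi => h i (lt_max_of_lt_right hi))

lemma generateFrom_CylC : (inferInstance : MeasurableSpace ((ℕ → ℝ) × T2)) =
    MeasurableSpace.generateFrom CylC := by
  refine le_antisymm ?_ (MeasurableSpace.generateFrom_le fun U hU => hU.1)
  refine sup_le ?_ ?_
  · rw [← measurable_iff_comap_le]
    refine @measurable_pi_lambda _ _ _ (MeasurableSpace.generateFrom CylC) _ _ fun i => ?_
    intro S hS
    refine MeasurableSpace.measurableSet_generateFrom ⟨?_, i + 1, fun ω ω' p h => ?_⟩
    · exact (measurable_pi_apply i).comp measurable_fst hS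
    · simp only [Set.mem_preimage]
      rw [h i (Nat.lt_succ_self i)]
  · rw [← measurable_iff_comap_le]
    intro S hS
    refine MeasurableSpace.measurableSet_generateFrom ⟨measurable_snd hS, 0, fun ω ω' p _ => ?_⟩
    simp only [Set.mem_preimage]

variable {η : ℝ} {ν : Measure ℝ} [IsProbabilityMeasure ν]

/-- mixing: for a fixed `B` the class of all `U` with the limit below is a λ-system (complements,
countable disjoint unions by `tendsto_tsum_of_dominated_convergence`) containing the π-system of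
the sets depending on finitely many kicks, which generates -/
theorem mixing_FS (hη0 : 0 < η) (hη1 : η ≤ 1 / 2) (hgap : Gap η (fun _ => ν))
    {U B : Set ((ℕ → ℝ) × T2)} (hU : MeasurableSet U) (hB : MeasurableSet B) :
    Tendsto (fun n : ℕ => ((PP (fun _ => ν)).prod (volume : Measure T2)).real
        (U ∩ FS^[n] ⁻¹' B)) atTop
      (𝓝 (((PP (fun _ => ν)).prod (volume : Measure T2)).real U *
        ((PP (fun _ => ν)).prod (volume : Measure T2)).real B)) := by
  refine mix_of_pi mp_FS generateFrom_CylC isPiSystem_CylC hB ?_ U hU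
  rintro V ⟨hV, k, hk⟩
  set M : Measure ((ℕ → ℝ) × T2) := (PP (fun _ => ν)).prod (volume : Measure T2) with hM
  rw [← tendsto_add_atTop_iff_nat k, tendsto_iff_dist_tendsto_zero]
  have hTm : ∀ n : ℕ, Measurable FS^[n] := fun n => ((mp_FS (ν := ν)).iterate n).measurable
  refine squeeze_zero (fun n => dist_nonneg) (fun n => ?_) (tendsto_rho hη0 hη1)
  have h1 := cyl_bound (ν := ν) hη0 hη1 hgap k n (φ := V.indicator fun _ => (1 : ℝ)) (f := B.indicator fun _ => (1 : ℝ))
    (measurable_const.indicator hV) (fun x => by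
      by_cases hx : x ∈ V <;> simp [hx]) (fun ω ω' p h => by
      have h2 := hk ω ω' p h
      by_cases hx : (ω, p) ∈ V
      · rw [Set.indicator_of_mem hx, Set.indicator_of_mem (h2.1 hx)]
      · rw [Set.indicator_of_notMem hx, Set.indicator_of_notMem (fun h3 => hx (h2.2 h3))])
    (measurable_const.indicator hB) (fun x => by
      by_cases hx : x ∈ B <;> simp [hx])
  rw [← hM] at h1
  have e1 : ∀ S : Set ((ℕ → ℝ) × T2), MeasurableSet S →
      ∫ x, S.indicator (fun _ => (1 : ℝ)) x ∂M = M.real S := by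
    intro S hS
    rw [integral_indicator_const (1 : ℝ) hS]
    simp
  have e2 : (fun x => V.indicator (fun _ => (1 : ℝ)) x *
      B.indicator (fun _ => (1 : ℝ)) (FS^[n + k] x)) =
      (V ∩ FS^[n + k] ⁻¹' B).indicator (fun _ => (1 : ℝ)) := by
    funext x
    by_cases h2 : x ∈ V <;> by_cases h3 : FS^[n + k] x ∈ B <;>
      simp [h2, h3, Set.indicator]
  rw [e2, e1 _ hV, e1 _ hB, e1 _ (hV.inter (hTm _ hB))] at h1
  rw [Real.dist_eq]
  exact h1

theorem ergodic_FS (hη0 : 0 < η) (hη1 : η ≤ 1 / 2) (hgap : Gap η (fun _ => ν)) :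
    Ergodic FS ((PP (fun _ => ν)).prod (volume : Measure T2)) := by
  refine { mp_FS with aeconst_set := ?_ }
  intro S hS hinv
  set M : Measure ((ℕ → ℝ) × T2) := (PP (fun _ => ν)).prod (volume : Measure T2) with hM
  have h1 := mixing_FS hη0 hη1 hgap hS hS
  rw [← hM] at h1
  have h2 : ∀ n : ℕ, FS^[n] ⁻¹' S = S := by
    intro n
    induction n with
    | zero => rfl
    | succ n ih =>
      rw [Function.iterate_succ, Set.preimage_comp, ih, hinv]
  simp_rw [h2, Set.inter_self] at h1
  have h3 := tendsto_nhds_unique tendsto_const_nhds h1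
  have h4 : M.real S = 0 ∨ M.real S = 1 := by
    have h5 : M.real S * (1 - M.real S) = 0 := by linarith
    rcases mul_eq_zero.1 h5 with h | h
    · exact Or.inl h
    · exact Or.inr (by linarith)
  rw [eventuallyConst_set']
  rcases h4 with h | h
  · left
    rw [ae_eq_empty]
    exact (measureReal_eq_zero_iff (measure_ne_top M S)).1 h
  · right
    rw [ae_eq_univ]
    have h5 : M.real Sᶜ = 0 := by
      rw [measureReal_compl hS, h]
      simp
    exact (measureReal_eq_zero_iff (measure_ne_top M Sᶜ)).1 h5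

end Pool.Agent.Helper95.RP
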