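import Mathlib
import Pool.Agent.Helper95.RP.MixT
import Pool.Agent.Helper95.RP.Grow
import Pool.Agent.Helper95.RP.DTl
import Pool.Agent.Helper18.SD.King

/-! RP-LAM: identically distributed kicks, the exponent exists. -/

set_option autoImplicit false
open MeasureTheory Real Set Filter Topology
open scoped ComplexConjugate ENNReal

namespace Pool.Agent.Helper95.RP

open Pool.Agent.Helper95.RX

attribute [local instance] Pool.Agent.Helper53.SM.instProbU Pool.Agent.Helper53.SM.instProbT2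

variable {η : ℝ} {ν : Measure ℝ} [IsProbabilityMeasure ν]

/-- almost everywhere statements on the torus lift to the plane -/
private lemma lam_ae_mk2 {p : T2 → Prop} (h : ∀ᵐ x : T2, p x) : ∀ᵐ x : ℝ × ℝ, p (mk2 x) := by
  have hU : (⋃ i : ℤ × ℤ, Ioc (i.1 : ℝ) (i.1 + 1) ×ˢ Ioc (i.2 : ℝ) (i.2 + 1)) = univ := by
    refine eq_univ_of_forall fun x => mem_iUnion.2 ⟨(⌈x.1⌉ - 1, ⌈x.2⌉ - 1), ?_⟩
    have h1 := Int.ceil_lt_add_one x.1
    have h2 := Int.le_ceil x.1
    have h3 := Int.ceil_lt_add_one x.2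
    have h4 := Int.le_ceil x.2
    refine ⟨⟨?_, ?_⟩, ⟨?_, ?_⟩⟩ <;> push_cast <;> linarith
  rw [← Measure.restrict_univ (μ := (volume : Measure (ℝ × ℝ))), ← hU, ae_restrict_iUnion_iff]
  intro i
  have h1 := (UnitAddCircle.measurePreserving_mk (i.1 : ℝ)).prod
    (UnitAddCircle.measurePreserving_mk (i.2 : ℝ))
  rw [Measure.prod_restrict] at h1
  exact h1.quasiMeasurePreserving.ae h

/-- the sequences bounded by `B` -/
private def Gd95 (B : ℝ) : Set ((ℕ → ℝ) × T2) := {x | ∀ i, |x.1 i| ≤ B}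

private lemma meas_Gd95 (B : ℝ) : MeasurableSet (Gd95 B) := by
  have : Gd95 B = ⋂ i : ℕ, {x : (ℕ → ℝ) × T2 | |x.1 i| ≤ B} := by
    ext x
    simp [Gd95]
  rw [this]
  refine MeasurableSet.iInter fun i => ?_
  exact measurableSet_le (((measurable_pi_apply i).comp measurable_fst).abs) measurable_const

private lemma ae_Gd95 {B : ℝ} (hb : ∀ᵐ c ∂ν, |c| ≤ B) :
    ∀ᵐ x ∂((PP (fun _ => ν)).prod (volume : Measure T2)), x ∈ Gd95 B := by
  have h1 : ∀ᵐ ω ∂(PP (fun _ => ν)), ∀ i, |ω i| ≤ B := by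
    rw [ae_all_iff]
    intro i
    have h2 := measurePreserving_eval_infinitePi (fun _ : ℕ => ν) i
    exact h2.quasiMeasurePreserving.ae hb
  exact (measurePreserving_fst (μ := PP (fun _ => ν)) (ν := (volume : Measure T2))).quasiMeasurePreserving.ae h1

private lemma FS_Gd95 {B : ℝ} (n : ℕ) {x : (ℕ → ℝ) × T2} (hx : x ∈ Gd95 B) : FS^[n] x ∈ Gd95 B := by
  rw [FS_iter]
  exact fun i => hx (i + n)

/-- `kingman_bdd` for `log ‖DT‖` (set to zero outside the sequences bounded by `B`), ergodicity,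
`growth`; then from the torus to the plane -/
theorem exists_lambda (hη0 : 0 < η) (hη1 : η ≤ 1 / 2) (hgap : Gap η (fun _ => ν)) {B : ℝ}
    (hB : 0 ≤ B) (hb : ∀ᵐ c ∂ν, |c| ≤ B) :
    ∃ l : ℝ, 2 * η / 3 / 64 ≤ l ∧ ∀ᵐ ω ∂(PP (fun _ => ν)), ∀ᵐ x : ℝ × ℝ,
      Tendsto (fun n : ℕ => Real.log ‖DY ω n x‖ / n) atTop (𝓝 l) := by
  classical
  have herg := ergodic_FS hη0 hη1 hgap
  have hB1 : 1 ≤ 3 + 2 * π * B := by
    have : 0 ≤ 2 * π * B := by positivity
    linarith
  have hg0 : ∀ (n : ℕ) (x : (ℕ → ℝ) × T2), 0 ≤ Real.log ‖DT x.1 n x.2‖ := fun n x =>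
    Real.log_nonneg (one_le_norm_DT x.1 n x.2)
  set g : ℕ → (ℕ → ℝ) × T2 → ℝ := fun n x => (Gd95 B).indicator
    (fun x => Real.log ‖DT x.1 n x.2‖) x with hg
  have hg1 : ∀ n x, 0 ≤ g n x := fun n x => Set.indicator_nonneg (fun x _ => hg0 n x) x
  obtain ⟨G, hGm, -, hGinv, hGlim, -⟩ := Pool.Agent.Helper18.SD.kingman_bdd
    (μ := (PP (fun _ => ν)).prod (volume : Measure T2)) (T := FS) herg.toMeasurePreserving
    (g := g)
    (fun n => (Real.measurable_log.comp (measurable_DT n)).indicator (meas_Gd95 B))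
    (C := Real.log (3 + 2 * π * B))
    (by
      intro n x
      rw [abs_of_nonneg (hg1 n x), mul_comm, ← Real.log_pow]
      by_cases hx : x ∈ Gd95 B
      · rw [hg]
        simp only
        rw [Set.indicator_of_mem hx]
        exact Real.log_le_log (by linarith [one_le_norm_DT x.1 n x.2]) (norm_DT_le hB hx n x.2)
      · rw [hg]
        simp only
        rw [Set.indicator_of_notMem hx]
        exact Real.log_nonneg (one_le_pow₀ hB1))
    (by
      intro n m x
      by_cases hx : x ∈ Gd95 B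
      · have h1 := one_le_norm_DT x.1 n x.2
        have h2 := one_le_norm_DT (FS^[n] x).1 m (FS^[n] x).2
        have h3 := one_le_norm_DT x.1 (n + m) x.2
        have hx' : FS^[n] x ∈ Gd95 B := FS_Gd95 n hx
        rw [hg]
        simp only
        rw [Set.indicator_of_mem hx, Set.indicator_of_mem hx, Set.indicator_of_mem hx']
        rw [← Real.log_mul (by linarith) (by linarith)]
        refine Real.log_le_log (by linarith) ?_
        rw [DT_add n m x, mul_comm]
        exact ContinuousLinearMap.opNorm_comp_le _ _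
      · have h1 : g (n + m) x = 0 := by
          rw [hg]
          simp only
          rw [Set.indicator_of_notMem hx]
        rw [h1]
        exact add_nonneg (hg1 _ _) (hg1 _ _))
  obtain ⟨l, hl⟩ := herg.ae_eq_const_of_ae_eq_comp_ae hGm.aestronglyMeasurable hGinv
  have hlim : ∀ᵐ x ∂((PP (fun _ => ν)).prod (volume : Measure T2)),
      Tendsto (fun n : ℕ => Real.log ‖DT x.1 n x.2‖ / n) atTop (𝓝 l) := by
    filter_upwards [hGlim, hl, ae_Gd95 hb] with x h1 h2 h3
    rw [h2] at h1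
    have h4 : ∀ n, g n x = Real.log ‖DT x.1 n x.2‖ := by
      intro n
      rw [hg]
      simp only
      rw [Set.indicator_of_mem h3]
    simp_rw [h4] at h1
    exact h1
  have hpl : ∀ᵐ ω ∂(PP (fun _ => ν)), ∀ᵐ x : ℝ × ℝ,
      Tendsto (fun n : ℕ => Real.log ‖DY ω n x‖ / n) atTop (𝓝 l) := by
    filter_upwards [Measure.ae_ae_of_ae_prod hlim] with ω hω
    filter_upwards [lam_ae_mk2 hω] with x hx
    refine hx.congr fun n => ?_
    rw [DT_mk2]
  refine ⟨l, ?_, hpl⟩
  have hgr := growth (ν := fun _ => ν) hη0 hη1 hgap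
  obtain ⟨ω, h1, h2⟩ := (hpl.and hgr).exists
  obtain ⟨x, h3, h4⟩ := (h1.and h2).exists
  refine ge_of_tendsto h3 ?_
  filter_upwards [h4, eventually_gt_atTop 0] with n hn hn0
  have hn0' : (0 : ℝ) < n := by exact_mod_cast hn0
  rw [le_div_iff₀ hn0']
  exact (Real.le_log_iff_exp_le ((Real.exp_pos _).trans_le hn)).2 hn

end Pool.Agent.Helper95.RP
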