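import Mathlib
import Pool.Agent.Helper95.RX.Grid
import Pool.Agent.Helper95.RP.Que
import Pool.Agent.Helper95.RP.Que

/-! RX-LIPD: approximation of Lipschitz functions by functions constant on cells. -/

set_option autoImplicit false
open MeasureTheory Real Set Filter Topology
open scoped ComplexConjugate ENNReal

namespace Pool.Agent.Helper95.RP

open Pool.Agent.Helper95.RX

attribute [local instance] Pool.Agent.Helper53.SM.instProbU Pool.Agent.Helper53.SM.instProbT2

/-- the total defect of independence of the cells -/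
noncomputable def DD (N n : ℕ) (ω : ℕ → ℝ) : ℝ :=
  ∑ i ∈ Finset.range N ×ˢ Finset.range N, ∑ j ∈ Finset.range N ×ˢ Finset.range N,
    |(volume : Measure T2).real ((XT ω n) ⁻¹' Cel N i ∩ Cel N j) - 1 / (N:ℝ) ^ 4|

/-- the value of `φ` at some point of the cell -/
private noncomputable def cv53 (N : ℕ) (φ : T2 → ℝ) (i : ℕ × ℕ) : ℝ := by
  classical
  exact if h : ∃ p, cel N p = i then φ h.choose else 0

private lemma cv53_bd {N : ℕ} {φ : T2 → ℝ} (h1 : ∀ p, |φ p| ≤ 1) (i : ℕ × ℕ) : |cv53 N φ i| ≤ 1 := by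
  unfold cv53
  split_ifs with h
  · exact h1 _
  · simp

private lemma cv53_near {N : ℕ} (hN : 1 ≤ N) {φ : T2 → ℝ} (h : LipschitzWith 1 φ) (p : T2) :
    |φ p - cv53 N φ (cel N p)| ≤ 1 / N := by
  have hex : ∃ p', cel N p' = cel N p := ⟨p, rfl⟩
  have e : cv53 N φ (cel N p) = φ hex.choose := by
    unfold cv53
    rw [dif_pos hex]
  rw [e, ← Real.dist_eq]
  have h1 := h.dist_le_mul p hex.choose
  rw [NNReal.coe_one, one_mul] at h1
  exact h1.trans (dist_Cel hN hex.choose_spec.symm)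

private lemma cv53_meas (N : ℕ) (φ : T2 → ℝ) : Measurable (fun p : T2 => cv53 N φ (cel N p)) :=
  (measurable_of_countable (cv53 N φ)).comp (measurable_cel N)

private lemma int53 {f : T2 → ℝ} (hf : Measurable f) {C : ℝ} (hC : ∀ p, |f p| ≤ C) :
    Integrable f (volume : Measure T2) :=
  Integrable.of_bound hf.aestronglyMeasurable C (ae_of_all _ fun p => by rw [Real.norm_eq_abs]; exact hC p)

private lemma prod53 {x y x' y' e : ℝ} (hy : |y| ≤ 1) (hx' : |x'| ≤ 1) (h1 : |x - x'| ≤ e) (h2 : |y - y'| ≤ e) :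
    |x * y - x' * y'| ≤ 2 * e := by
  have e0 : 0 ≤ e := (abs_nonneg _).trans h1
  have h3 : x * y - x' * y' = (x - x') * y + x' * (y - y') := by ring
  rw [h3]
  have h4 : |(x - x') * y| ≤ e * 1 := by
    rw [abs_mul]
    exact mul_le_mul h1 hy (abs_nonneg _) e0
  have h5 : |x' * (y - y')| ≤ 1 * e := by
    rw [abs_mul]
    exact mul_le_mul hx' h2 (abs_nonneg _) zero_le_one
  linarith [abs_add_le ((x - x') * y) (x' * (y - y'))]

private lemma int_near53 {f g : T2 → ℝ} (hf : Integrable f (volume : Measure T2)) (hg : Integrable g (volume : Measure T2)) {e : ℝ}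
    (h : ∀ p, |f p - g p| ≤ e) : |(∫ p, f p) - ∫ p, g p| ≤ e := by
  rw [← integral_sub hf hg]
  have h1 := norm_integral_le_of_norm_le_const (μ := (volume : Measure T2)) (f := fun p => f p - g p) (C := e)
    (ae_of_all _ fun p => by rw [Real.norm_eq_abs]; exact h p)
  rw [Real.norm_eq_abs, probReal_univ, mul_one] at h1
  exact h1

/-- approximation of Lipschitz functions by functions constant on cells -/
lemma lip_DD {N : ℕ} (hN : 1 ≤ N) (n : ℕ) (ω : ℕ → ℝ) {φ ψ : T2 → ℝ}
    (hφ : LipschitzWith 1 φ) (hψ : LipschitzWith 1 ψ) (hφ1 : ∀ p, |φ p| ≤ 1) (hψ1 : ∀ p, |ψ p| ≤ 1) :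
    |(∫ p : T2, φ (XT ω n p) * ψ p) - (∫ p, φ p) * ∫ p, ψ p| ≤ DD N n ω + 4 / N := by
  obtain ⟨X, hX⟩ : ∃ X : T2 → T2, X = XT ω n := ⟨_, rfl⟩
  have hmp : MeasurePreserving X (volume : Measure T2) volume := by rw [hX]; exact mp_XT ω n
  have hXm : Measurable X := hmp.measurable
  obtain ⟨c, hc⟩ : ∃ c : ℕ × ℕ → ℝ, c = cv53 N φ := ⟨_, rfl⟩
  obtain ⟨d, hd⟩ : ∃ d : ℕ × ℕ → ℝ, d = cv53 N ψ := ⟨_, rfl⟩
  have hN0 : (0 : ℝ) < N := by exact_mod_cast hN
  have hcb : ∀ i, |c i| ≤ 1 := by rw [hc]; exact cv53_bd hφ1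
  have hdb : ∀ i, |d i| ≤ 1 := by rw [hd]; exact cv53_bd hψ1
  have hcn : ∀ p, |φ p - c (cel N p)| ≤ 1 / N := by rw [hc]; exact cv53_near hN hφ
  have hdn : ∀ p, |ψ p - d (cel N p)| ≤ 1 / N := by rw [hd]; exact cv53_near hN hψ
  have hcm : Measurable (fun p : T2 => c (cel N p)) := by rw [hc]; exact cv53_meas N φ
  have hdm : Measurable (fun p : T2 => d (cel N p)) := by rw [hd]; exact cv53_meas N ψ
  have hφm : Measurable φ := hφ.continuous.measurable
  have hψm : Measurable ψ := hψ.continuous.measurable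
  have b2 : ∀ {x y : ℝ}, |x| ≤ 1 → |y| ≤ 1 → |x * y| ≤ 1 := by
    intro x y hx hy
    rw [abs_mul]
    calc |x| * |y| ≤ 1 * 1 := mul_le_mul hx hy (abs_nonneg _) zero_le_one
      _ = 1 := one_mul 1
  -- step functions
  have I1 : Integrable (fun p : T2 => φ (X p) * ψ p) := int53 ((hφm.comp hXm).mul hψm) (C := 1) fun p => b2 (hφ1 _) (hψ1 _)
  have I2 : Integrable (fun p : T2 => c (cel N (X p)) * d (cel N p)) := int53 ((hcm.comp hXm).mul hdm) (C := 1) fun p => b2 (hcb _) (hdb _)
  have E1 : |(∫ p : T2, φ (X p) * ψ p) - ∫ p : T2, c (cel N (X p)) * d (cel N p)| ≤ 2 * (1 / N) :=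
    int_near53 I1 I2 fun p => prod53 (hψ1 p) (hcb _) (hcn _) (hdn _)
  have J1 : |(∫ p, φ p) - ∫ p, c (cel N p)| ≤ 1 / N :=
    int_near53 (int53 hφm hφ1) (int53 hcm fun p => hcb _) hcn
  have J2 : |(∫ p, ψ p) - ∫ p, d (cel N p)| ≤ 1 / N :=
    int_near53 (int53 hψm hψ1) (int53 hdm fun p => hdb _) hdn
  have one53 : ∀ f : T2 → ℝ, (∀ p, |f p| ≤ 1) → |∫ p, f p| ≤ 1 := by
    intro f hf
    have h1 := norm_integral_le_of_norm_le_const (μ := (volume : Measure T2)) (f := f) (C := 1)
      (ae_of_all _ fun p => by rw [Real.norm_eq_abs]; exact hf p)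
    rw [Real.norm_eq_abs, probReal_univ, mul_one] at h1
    exact h1
  have E2 : |(∫ p, φ p) * (∫ p, ψ p) - (∫ p, c (cel N p)) * ∫ p, d (cel N p)| ≤ 2 * (1 / N) :=
    prod53 (one53 _ hψ1) (one53 _ fun p => hcb _) J1 J2
  -- the integrals of the step functions
  have hG : ∀ p, cel N p ∈ Finset.range N ×ˢ Finset.range N := cel_lt hN
  have S1 : (∫ p : T2, c (cel N (X p)) * d (cel N p)) = ∑ i ∈ Finset.range N ×ˢ Finset.range N,
      ∑ j ∈ Finset.range N ×ˢ Finset.range N, (c i * d j) * (volume : Measure T2).real (X ⁻¹' Cel N i ∩ Cel N j) := by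
    have e1 : (fun p : T2 => c (cel N (X p)) * d (cel N p)) = fun p => ∑ i ∈ Finset.range N ×ˢ Finset.range N,
        ∑ j ∈ Finset.range N ×ˢ Finset.range N, (X ⁻¹' Cel N i ∩ Cel N j).indicator (fun _ => c i * d j) p := by
      funext p
      rw [Finset.sum_eq_single (cel N (X p)), Finset.sum_eq_single (cel N p)]
      · rw [Set.indicator_of_mem]
        exact ⟨rfl, rfl⟩
      · intro j _ hj
        rw [Set.indicator_of_notMem]
        rintro ⟨_, h2⟩
        exact hj h2.symm
      · intro h; exact absurd (hG p) h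
      · intro i _ hi
        refine Finset.sum_eq_zero fun j _ => ?_
        rw [Set.indicator_of_notMem]
        rintro ⟨h1, _⟩
        exact hi h1.symm
      · intro h; exact absurd (hG (X p)) h
    have hms : ∀ i j, MeasurableSet (X ⁻¹' Cel N i ∩ Cel N j) := fun i j =>
      (hXm (measurableSet_Cel N i)).inter (measurableSet_Cel N j)
    rw [e1, integral_finsetSum]
    · refine Finset.sum_congr rfl fun i _ => ?_
      rw [integral_finsetSum]
      · refine Finset.sum_congr rfl fun j _ => ?_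
        rw [integral_indicator_const _ (hms i j), smul_eq_mul, mul_comm]
      · intro j _
        exact (integrable_const _).indicator (hms i j)
    · intro i _
      refine integrable_finsetSum _ fun j _ => ?_
      exact (integrable_const _).indicator (hms i j)
  have S2 : ∀ c : ℕ × ℕ → ℝ, (∫ p : T2, c (cel N p)) = ∑ i ∈ Finset.range N ×ˢ Finset.range N, c i * (1 / (N : ℝ) ^ 2) := by
    intro c
    have e1 : (fun p : T2 => c (cel N p)) = fun p => ∑ i ∈ Finset.range N ×ˢ Finset.range N,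
        (Cel N i).indicator (fun _ => c i) p := by
      funext p
      rw [Finset.sum_eq_single (cel N p)]
      · rw [Set.indicator_of_mem]
        exact rfl
      · intro j _ hj
        rw [Set.indicator_of_notMem]
        intro h2
        exact hj (Eq.symm h2)
      · intro h; exact absurd (hG p) h
    rw [e1, integral_finsetSum]
    · refine Finset.sum_congr rfl fun i hi => ?_
      rw [integral_indicator_const _ (measurableSet_Cel N i), smul_eq_mul, mul_comm, vol_Cel hN hi]
    · intro i _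
      exact (integrable_const _).indicator (measurableSet_Cel N i)
  have E3 : |(∫ p : T2, c (cel N (X p)) * d (cel N p)) - (∫ p, c (cel N p)) * ∫ p, d (cel N p)| ≤ DD N n ω := by
    rw [S1, S2 c, S2 d, Finset.sum_mul_sum, ← Finset.sum_sub_distrib]
    unfold DD
    refine (Finset.abs_sum_le_sum_abs _ _).trans (Finset.sum_le_sum fun i _ => ?_)
    rw [← Finset.sum_sub_distrib]
    refine (Finset.abs_sum_le_sum_abs _ _).trans (Finset.sum_le_sum fun j _ => ?_)
    rw [← hX]
    have e2 : (c i * d j) * (volume : Measure T2).real (X ⁻¹' Cel N i ∩ Cel N j) -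
        c i * (1 / (N : ℝ) ^ 2) * (d j * (1 / (N : ℝ) ^ 2)) =
        (c i * d j) * ((volume : Measure T2).real (X ⁻¹' Cel N i ∩ Cel N j) - 1 / (N : ℝ) ^ 4) := by
      have : (1 / (N : ℝ) ^ 2) * (1 / (N : ℝ) ^ 2) = 1 / (N : ℝ) ^ 4 := by
        rw [div_mul_div_comm, one_mul, ← pow_add]
      rw [← this]
      ring
    rw [e2, abs_mul]
    calc |c i * d j| * _ ≤ 1 * |(volume : Measure T2).real (X ⁻¹' Cel N i ∩ Cel N j) - 1 / (N : ℝ) ^ 4| :=
          mul_le_mul_of_nonneg_right (b2 (hcb i) (hdb j)) (abs_nonneg _)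
      _ = _ := one_mul _
  rw [hX] at E1 E3
  have e4 : (4 : ℝ) / N = 2 * (1 / N) + 2 * (1 / N) := by ring
  rw [e4]
  rw [abs_le] at E1 E2 E3 ⊢
  constructor
  · linarith [E1.1, E2.2, E3.1]
  · linarith [E1.2, E2.1, E3.2]

lemma measurable_DD (N n : ℕ) : Measurable (DD N n) := by
  unfold DD
  refine Finset.measurable_fun_sum _ fun i _ => Finset.measurable_fun_sum _ fun j _ => ?_
  have h1 : MeasurableSet {q : (ℕ → ℝ) × T2 | XT q.1 n q.2 ∈ Cel N i ∧ q.2 ∈ Cel N j} :=
    ((measurable_XT n) (measurableSet_Cel N i)).inter (measurable_snd (measurableSet_Cel N j))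
  have h2 := measurable_measure_prodMk_left (ν := (volume : Measure T2)) h1
  have h3 : Measurable (fun ω : ℕ → ℝ => (volume : Measure T2).real ((XT ω n) ⁻¹' Cel N i ∩ Cel N j)) := h2.ennreal_toReal
  exact (h3.sub_const _).abs

end Pool.Agent.Helper95.RP
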