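import Mathlib
import Pool.Agent.Helper95.RP.LipD

/-! RP-LIPB: almost sure exponential mixing for all Lipschitz functions at once. -/

set_option autoImplicit false
open MeasureTheory Real Set Filter Topology
open scoped ComplexConjugate ENNReal

namespace Pool.Agent.Helper95.RP

open Pool.Agent.Helper95.RX

attribute [local instance] Pool.Agent.Helper53.SM.instProbU Pool.Agent.Helper53.SM.instProbT2

variable {η : ℝ} {ν : ℕ → Measure ℝ} [∀ i, IsProbabilityMeasure (ν i)]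

private lemma measurable_vol (n : ℕ) {C C' : Set T2} (hC : MeasurableSet C) (hC' : MeasurableSet C') :
    Measurable (fun ω : ℕ → ℝ => (volume : Measure T2).real ((XT ω n) ⁻¹' C ∩ C')) := by
  have hs : MeasurableSet {q : (ℕ → ℝ) × T2 | XT q.1 n q.2 ∈ C ∧ q.2 ∈ C'} :=
    (hC.preimage (measurable_XT n)).inter (hC'.preimage measurable_snd)
  exact ENNReal.measurable_toReal.comp (measurable_measure_prodMk_left hs)

/-- Jensen -/
private lemma jensen {Ω : Type} [MeasurableSpace Ω] {μ : Measure Ω} [IsProbabilityMeasure μ] {f : Ω → ℝ} (hf : Measurable f)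
    {C : ℝ} (hC : ∀ ω, |f ω| ≤ C) : ∫ ω, |f ω| ∂μ ≤ Real.sqrt (∫ ω, f ω ^ 2 ∂μ) := by
  have hi1 : Integrable (fun ω => |f ω|) μ := Integrable.of_bound hf.norm.aestronglyMeasurable C
    (ae_of_all _ fun ω => by rw [Real.norm_eq_abs, abs_abs]; exact hC ω)
  have hi2 : Integrable (fun ω => f ω ^ 2) μ := Integrable.of_bound (hf.pow_const 2).aestronglyMeasurable (C ^ 2)
    (ae_of_all _ fun ω => by
      rw [Real.norm_eq_abs, abs_pow]
      exact pow_le_pow_left₀ (abs_nonneg _) (hC ω) 2)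
  apply Real.le_sqrt_of_sq_le
  set m : ℝ := ∫ ω, |f ω| ∂μ with hm
  have h1 : 0 ≤ ∫ ω, (|f ω| - m) ^ 2 ∂μ := integral_nonneg fun ω => sq_nonneg _
  have h2 : ∀ ω, (|f ω| - m) ^ 2 = f ω ^ 2 - (2 * m) * |f ω| + m ^ 2 := by
    intro ω
    rw [sub_sq, sq_abs]
    ring
  simp_rw [h2] at h1
  have hi3 : Integrable (fun ω => f ω ^ 2 - 2 * m * |f ω|) μ := hi2.sub (hi1.const_mul _)
  rw [integral_add hi3 (integrable_const _), integral_sub hi2 (hi1.const_mul _), integral_const_mul,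
    integral_const] at h1
  simp only [probReal_univ, smul_eq_mul, one_mul] at h1
  rw [← hm] at h1
  nlinarith

/-- expectation of the defect: Jensen and `quench` for indicators of cells -/
lemma int_DD (hη0 : 0 < η) (hη1 : η ≤ 1 / 2) (hgap : Gap η ν)
    {N : ℕ} (hN : 1 ≤ N) (n : ℕ) :
    ∫ ω, DD N n ω ∂(PP ν) ≤ (N:ℝ) ^ 2 * Real.sqrt (rho η n) := by
  classical
  have hN0 : (0:ℝ) < N := by exact_mod_cast hN
  have hrho := rho_nonneg η n
  -- one term
  have hterm : ∀ i ∈ Finset.range N ×ˢ Finset.range N, ∀ j ∈ Finset.range N ×ˢ Finset.range N,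
      Integrable (fun ω => |(volume : Measure T2).real ((XT ω n) ⁻¹' Cel N i ∩ Cel N j) - 1 / (N:ℝ) ^ 4|) (PP ν) ∧
      ∫ ω, |(volume : Measure T2).real ((XT ω n) ⁻¹' Cel N i ∩ Cel N j) - 1 / (N:ℝ) ^ 4| ∂(PP ν) ≤
        Real.sqrt (rho η n) / (N:ℝ) ^ 2 := by
    intro i hi j hj
    have hCi := measurableSet_Cel N i
    have hCj := measurableSet_Cel N j
    have hm := (measurable_vol n hCi hCj).sub_const (1 / (N:ℝ) ^ 4)
    have hb : ∀ ω : ℕ → ℝ, |(volume : Measure T2).real ((XT ω n) ⁻¹' Cel N i ∩ Cel N j) - 1 / (N:ℝ) ^ 4| ≤ 1 := by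
      intro ω
      have h1 : (volume : Measure T2).real ((XT ω n) ⁻¹' Cel N i ∩ Cel N j) ≤ 1 := measureReal_le_one
      have h2 : 0 ≤ (volume : Measure T2).real ((XT ω n) ⁻¹' Cel N i ∩ Cel N j) := measureReal_nonneg
      have h3 : 1 / (N:ℝ) ^ 4 ≤ 1 := by
        rw [div_le_one (by positivity)]
        exact one_le_pow₀ (by exact_mod_cast hN)
      have h4 : 0 ≤ 1 / (N:ℝ) ^ 4 := by positivity
      rw [abs_le]
      constructor <;> linarith
    refine ⟨Integrable.of_bound hm.norm.aestronglyMeasurable 1 (ae_of_all _ fun ω => by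
      rw [Real.norm_eq_abs, abs_abs]; exact hb ω), ?_⟩
    refine (jensen hm hb).trans ?_
    have hI : ∀ {C : Set T2}, MeasurableSet C → Measurable (C.indicator (1 : T2 → ℝ)) := fun hC => measurable_one.indicator hC
    have hIb : ∀ C : Set T2, ∃ K : ℝ, ∀ p, |C.indicator (1 : T2 → ℝ) p| ≤ K := by
      intro C
      refine ⟨1, fun p => ?_⟩
      by_cases hp : p ∈ C <;> simp [hp]
    have h1 := quench hη0 hη1 hgap (hI hCi) (hIb _) (hI hCj) (hIb _) n
    have h2 : ∀ k ∈ Finset.range N ×ˢ Finset.range N, ∫ p : T2, (Cel N k).indicator (1 : T2 → ℝ) p = 1 / (N:ℝ) ^ 2 := by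
      intro k hk
      rw [integral_indicator_one (measurableSet_Cel N k)]
      exact vol_Cel hN hk
    have h3 : ∀ k ∈ Finset.range N ×ˢ Finset.range N, ∫ p : T2, (Cel N k).indicator (1 : T2 → ℝ) p ^ 2 = 1 / (N:ℝ) ^ 2 := by
      intro k hk
      rw [← h2 k hk]
      congr 1
      funext p
      by_cases hp : p ∈ Cel N k <;> simp [hp]
    have h4 : ∀ ω : ℕ → ℝ, ∫ p : T2, (Cel N i).indicator (1 : T2 → ℝ) (XT ω n p) * (Cel N j).indicator (1 : T2 → ℝ) p =
        (volume : Measure T2).real ((XT ω n) ⁻¹' Cel N i ∩ Cel N j) := by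
      intro ω
      have hXm : Measurable (XT ω n) := (mp_XT ω n).measurable
      rw [← integral_indicator_one ((hXm hCi).inter hCj)]
      congr 1
      funext p
      by_cases hp : p ∈ Cel N j <;> by_cases hp2 : XT ω n p ∈ Cel N i <;> simp [hp, hp2]
    simp_rw [h4] at h1
    rw [h2 i hi, h2 j hj, h3 i hi, h3 j hj] at h1
    have h5 : 1 / (N:ℝ) ^ 2 * (1 / (N:ℝ) ^ 2) = 1 / (N:ℝ) ^ 4 := by field_simp
    rw [h5] at h1
    calc Real.sqrt (∫ ω, ((volume : Measure T2).real ((XT ω n) ⁻¹' Cel N i ∩ Cel N j) - 1 / (N:ℝ) ^ 4) ^ 2 ∂(PP ν))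
        ≤ Real.sqrt (rho η n * (1 / (N:ℝ) ^ 2) * (1 / (N:ℝ) ^ 2)) := Real.sqrt_le_sqrt h1
      _ = Real.sqrt (rho η n) / (N:ℝ) ^ 2 := by
          rw [mul_assoc, ← sq, Real.sqrt_mul hrho, Real.sqrt_sq (by positivity)]
          ring
  unfold DD
  rw [integral_finsetSum _ (fun i hi => integrable_finsetSum _ fun j hj => (hterm i hi j hj).1)]
  calc ∑ i ∈ Finset.range N ×ˢ Finset.range N, ∫ ω, ∑ j ∈ Finset.range N ×ˢ Finset.range N,
        |(volume : Measure T2).real ((XT ω n) ⁻¹' Cel N i ∩ Cel N j) - 1 / (N:ℝ) ^ 4| ∂(PP ν)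
      ≤ ∑ _i ∈ Finset.range N ×ˢ Finset.range N, ∑ _j ∈ Finset.range N ×ˢ Finset.range N, Real.sqrt (rho η n) / (N:ℝ) ^ 2 := by
        apply Finset.sum_le_sum
        intro i hi
        rw [integral_finsetSum _ (fun j hj => (hterm i hi j hj).1)]
        exact Finset.sum_le_sum fun j hj => (hterm i hi j hj).2
    _ = (N:ℝ) ^ 2 * Real.sqrt (rho η n) := by
        rw [Finset.sum_const, Finset.sum_const, Finset.card_product, Finset.card_range]
        simp only [nsmul_eq_mul]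
        push_cast
        field_simp

private lemma DD_nonneg (N n : ℕ) (ω : ℕ → ℝ) : 0 ≤ DD N n ω :=
  Finset.sum_nonneg fun _ _ => Finset.sum_nonneg fun _ _ => abs_nonneg _

private lemma DD_int (N n : ℕ) : Integrable (DD N n) (PP ν) := by
  unfold DD
  refine integrable_finsetSum _ fun i _ => integrable_finsetSum _ fun j _ => ?_
  have hm := (measurable_vol n (measurableSet_Cel N i) (measurableSet_Cel N j)).sub_const (1 / (N:ℝ) ^ 4)
  refine Integrable.of_bound hm.norm.aestronglyMeasurable (1 + 1 / (N:ℝ) ^ 4) (ae_of_all _ fun ω => ?_)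
  rw [Real.norm_eq_abs, abs_abs]
  refine (abs_sub _ _).trans ?_
  rw [abs_of_nonneg (measureReal_nonneg), abs_of_nonneg (by positivity)]
  have h1 : (volume : Measure T2).real ((XT ω n) ⁻¹' Cel N i ∩ Cel N j) ≤ 1 := measureReal_le_one
  linarith

/-- Borel–Cantelli with `N_n = ⌈exp (κ n / 64)⌉` -/
theorem quenched_lip (hη0 : 0 < η) (hη1 : η ≤ 1 / 2) (hgap : Gap η ν) :
    ∀ᵐ ω ∂(PP ν), ∃ C : ℝ, ∀ n : ℕ, ∀ φ ψ : T2 → ℝ, LipschitzWith 1 φ → LipschitzWith 1 ψ →
      (∀ p, |φ p| ≤ 1) → (∀ p, |ψ p| ≤ 1) →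
      |(∫ p : T2, φ (XT ω n p) * ψ p) - (∫ p, φ p) * ∫ p, ψ p| ≤
        C * Real.exp (-(2 * η / 3 / 64 * n)) := by
  set κ : ℝ := 2 * η / 3 with hκ
  have hκ0 : 0 < κ := by rw [hκ]; positivity
  set NN : ℕ → ℕ := fun n => ⌈Real.exp (κ / 64 * n)⌉₊ with hNN
  have hNN1 : ∀ n, 1 ≤ NN n := fun n => Nat.one_le_ceil_iff.2 (Real.exp_pos _)
  have hNNge : ∀ n : ℕ, Real.exp (κ / 64 * n) ≤ NN n := fun n => Nat.le_ceil _
  have hNNle : ∀ n : ℕ, (NN n : ℝ) ≤ 2 * Real.exp (κ / 64 * n) := by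
    intro n
    have h1 : (NN n : ℝ) < Real.exp (κ / 64 * n) + 1 := Nat.ceil_lt_add_one (Real.exp_pos _).le
    have h2 : 1 ≤ Real.exp (κ / 64 * n) := Real.one_le_exp (by positivity)
    linarith
  -- expectation
  have hE : ∀ n, ∫ ω, DD (NN n) n ω ∂(PP ν) ≤ 8 * Real.exp (-(κ / 32 * n)) := by
    intro n
    refine (int_DD hη0 hη1 hgap (hNN1 n) n).trans ?_
    have h1 := rho_le hη0 hη1 n
    rw [← hκ] at h1
    have h2 : Real.sqrt (rho η n) ≤ 2 * Real.exp (-(κ / 16 * n)) := by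
      apply Real.sqrt_le_iff.2
      refine ⟨by positivity, h1.trans ?_⟩
      have h3 : Real.sqrt 2 ≤ 4 := by
        rw [Real.sqrt_le_iff]; norm_num
      have h4 : (2 * Real.exp (-(κ / 16 * n))) ^ 2 = 4 * Real.exp (-(κ * n / 8)) := by
        rw [mul_pow, ← Real.exp_nat_mul]
        congr 1
        · norm_num
        · congr 1; push_cast; ring
      rw [h4]
      gcongr
    calc (NN n : ℝ) ^ 2 * Real.sqrt (rho η n) ≤ (2 * Real.exp (κ / 64 * n)) ^ 2 * (2 * Real.exp (-(κ / 16 * n))) := by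
          gcongr
          exact hNNle n
      _ = 8 * (Real.exp (κ / 64 * n) ^ 2 * Real.exp (-(κ / 16 * n))) := by ring
      _ = 8 * Real.exp (-(κ / 32 * n)) := by
          rw [← Real.exp_nat_mul, ← Real.exp_add]
          congr 2
          push_cast
          ring
  set Bd : ℕ → Set (ℕ → ℝ) := fun n => {ω | Real.exp (-(κ / 64 * n)) ≤ DD (NN n) n ω} with hBd
  have hBn : ∀ n, PP ν (Bd n) ≤ ENNReal.ofReal (8 * Real.exp (-(κ / 64)) ^ n) := by
    intro n
    have h1 := mul_meas_ge_le_integral_of_nonneg (μ := PP ν) (f := DD (NN n) n) (ae_of_all _ fun ω => DD_nonneg (NN n) n ω)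
      (DD_int (NN n) n) (Real.exp (-(κ / 64 * n)))
    have h2 : (PP ν).real (Bd n) ≤ 8 * Real.exp (-(κ / 64)) ^ n := by
      have h3 := h1.trans (hE n)
      have hpos := Real.exp_pos (-(κ / 64 * n))
      have h4 : Real.exp (-(κ / 64 * n)) * (8 * Real.exp (-(κ / 64)) ^ n) = 8 * Real.exp (-(κ / 32 * n)) := by
        rw [← Real.exp_nat_mul, mul_left_comm, ← Real.exp_add]
        congr 2
        ring
      rw [← h4] at h3
      exact le_of_mul_le_mul_left h3 hpos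
    rw [← ENNReal.ofReal_toReal (measure_ne_top (PP ν) (Bd n))]
    exact ENNReal.ofReal_le_ofReal h2
  have hsum : ∑' n, PP ν (Bd n) ≠ ⊤ := by
    have hs : Summable (fun n : ℕ => 8 * Real.exp (-(κ / 64)) ^ n) := by
      apply Summable.mul_left
      apply summable_geometric_of_lt_one (Real.exp_pos _).le
      rw [Real.exp_lt_one_iff]
      linarith
    exact ne_top_of_le_ne_top hs.tsum_ofReal_ne_top (ENNReal.tsum_le_tsum hBn)
  filter_upwards [ae_eventually_notMem hsum] with ω hω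
  obtain ⟨n0, hn0⟩ := eventually_atTop.1 hω
  refine ⟨5 + 2 * Real.exp (κ / 64 * n0), fun n φ ψ hφ hψ hφ1 hψ1 => ?_⟩
  have hexp := Real.exp_pos (-(κ / 64 * n))
  by_cases hn : n0 ≤ n
  · have h1 := hn0 n hn
    rw [hBd] at h1
    have h2 : DD (NN n) n ω < Real.exp (-(κ / 64 * n)) := not_le.1 h1
    have h3 := lip_DD (hNN1 n) n ω hφ hψ hφ1 hψ1
    have h4 : 4 / (NN n : ℝ) ≤ 4 * Real.exp (-(κ / 64 * n)) := by
      rw [Real.exp_neg, ← div_eq_mul_inv]
      gcongr
      exact hNNge n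
    have h5 : 0 ≤ 2 * Real.exp (κ / 64 * n0) * Real.exp (-(κ / 64 * n)) := by positivity
    calc _ ≤ DD (NN n) n ω + 4 / (NN n : ℝ) := h3
      _ ≤ 5 * Real.exp (-(κ / 64 * n)) := by linarith
      _ ≤ _ := by rw [add_mul]; linarith
  · push Not at hn
    have hi : ∀ f : T2 → ℝ, (∀ p, |f p| ≤ 1) → |∫ p, f p| ≤ 1 := by
      intro f hf
      have h1 := norm_integral_le_of_norm_le_const (μ := (volume : Measure T2)) (f := f) (C := 1)
        (ae_of_all _ fun p => by rw [Real.norm_eq_abs]; exact hf p)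
      rw [Real.norm_eq_abs, probReal_univ, mul_one] at h1
      exact h1
    have h1 : |∫ p : T2, φ (XT ω n p) * ψ p| ≤ 1 := hi _ fun p => by
      rw [abs_mul]; exact mul_le_one₀ (hφ1 _) (abs_nonneg _) (hψ1 _)
    have h2 : |(∫ p, φ p) * ∫ p, ψ p| ≤ 1 := by
      rw [abs_mul]; exact mul_le_one₀ (hi φ hφ1) (abs_nonneg _) (hi ψ hψ1)
    have h3 : 1 ≤ Real.exp (κ / 64 * n0) * Real.exp (-(κ / 64 * n)) := by
      rw [← Real.exp_add]
      apply Real.one_le_exp
      have : (n : ℝ) ≤ n0 := by exact_mod_cast hn.le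
      nlinarith
    calc _ ≤ |∫ p : T2, φ (XT ω n p) * ψ p| + |(∫ p, φ p) * ∫ p, ψ p| := abs_sub _ _
      _ ≤ 2 := by linarith
      _ ≤ (5 + 2 * Real.exp (κ / 64 * n0)) * Real.exp (-(κ / 64 * n)) := by
          rw [add_mul, mul_assoc]
          linarith

end Pool.Agent.Helper95.RP
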