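import Mathlib
import Pool.Agent.Helper95.RP.QL2

/-! RP-SH1: sharpness, the abstract argument. -/

set_option autoImplicit false
open MeasureTheory Real Set Filter Topology
open scoped ComplexConjugate ENNReal

namespace Pool.Agent.Helper95.RP

open Pool.Agent.Helper95.RX

attribute [local instance] Pool.Agent.Helper53.SM.instProbU Pool.Agent.Helper53.SM.instProbT2

/-- the best constant in the mean square bound at time `n` is at least one, if near some small sets
the random composition is nearly one fixed map `U⁻¹`: test with `φ = 1_{A k} ∘ U`, `ψ = 1_{A k}`; with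
`r ω` the ratio below, `E (r |A| - |A|²)² ≤ ρ |A|²`, divide by `|A|²` and let `k → ∞` (dominated
convergence, `0 ≤ r ≤ 1`; measurability in `ω` as in `RX.LipB`, `measurable_XT`) -/
lemma sharp_core {ν : ℕ → Measure ℝ} [∀ i, IsProbabilityMeasure (ν i)] (n : ℕ) {U : T2 → T2}
    (hU : MeasurePreserving U (volume : Measure T2) volume) {A : ℕ → Set T2}
    (hA : ∀ k, MeasurableSet (A k)) (hA0 : ∀ k, 0 < (volume : Measure T2).real (A k))
    (hA1 : Tendsto (fun k => (volume : Measure T2).real (A k)) atTop (𝓝 0))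
    (h : ∀ᵐ ω ∂(PP ν), Tendsto (fun k => (volume : Measure T2).real
      (A k ∩ (fun p => U (XT ω n p)) ⁻¹' (A k)) / (volume : Measure T2).real (A k)) atTop (𝓝 1))
    {ρ : ℝ} (hρ : ∀ φ ψ : T2 → ℝ, MemLp φ 2 volume → MemLp ψ 2 volume →
      ∫ ω, ((∫ p : T2, φ (XT ω n p) * ψ p) - (∫ p, φ p) * ∫ p, ψ p) ^ 2 ∂(PP ν) ≤
        ρ * (∫ p, φ p ^ 2) * ∫ p, ψ p ^ 2) : 1 ≤ ρ := by
  have hUA : ∀ k, MeasurableSet (U ⁻¹' A k) := fun k => hU.measurable (hA k)
  obtain ⟨a, ha⟩ : ∃ a : ℕ → ℝ, a = fun k => (volume : Measure T2).real (A k) := ⟨_, rfl⟩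
  have ha' : ∀ k, (volume : Measure T2).real (A k) = a k := fun k => by rw [ha]
  have ha0 : ∀ k, 0 < a k := fun k => by rw [← ha']; exact hA0 k
  have ha1 : ∀ k, a k ≤ 1 := fun k => by rw [← ha']; exact measureReal_le_one
  have haU : ∀ k, (volume : Measure T2).real (U ⁻¹' A k) = a k := fun k => by
    rw [← ha']
    exact hU.measureReal_preimage (hA k).nullMeasurableSet
  have haT : Tendsto a atTop (𝓝 0) := by rw [ha]; exact hA1
  obtain ⟨r, hr⟩ : ∃ r : ℕ → (ℕ → ℝ) → ℝ, r = fun k ω => (volume : Measure T2).real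
      (A k ∩ (fun p => U (XT ω n p)) ⁻¹' (A k)) / a k := ⟨_, rfl⟩
  have hrT : ∀ᵐ ω ∂(PP ν), Tendsto (fun k => r k ω) atTop (𝓝 1) := by
    filter_upwards [h] with ω hω
    rw [hr]
    simp only [← ha']
    exact hω
  have hr0 : ∀ k ω, 0 ≤ r k ω := fun k ω => by
    rw [hr]
    exact div_nonneg measureReal_nonneg (ha0 k).le
  have hr1 : ∀ k ω, r k ω ≤ 1 := fun k ω => by
    rw [hr]
    change _ / a k ≤ 1
    rw [div_le_one (ha0 k), ← ha' k]
    exact measureReal_mono inter_subset_left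
  -- the test functions
  have hφL : ∀ k, MemLp ((U ⁻¹' A k).indicator fun _ => (1 : ℝ)) 2 (volume : Measure T2) :=
    fun k => memLp_indicator_const 2 (hUA k) 1 (Or.inr (measure_ne_top _ _))
  have hψL : ∀ k, MemLp ((A k).indicator fun _ => (1 : ℝ)) 2 (volume : Measure T2) :=
    fun k => memLp_indicator_const 2 (hA k) 1 (Or.inr (measure_ne_top _ _))
  have hφ1 : ∀ k, ∫ p, (U ⁻¹' A k).indicator (fun _ => (1 : ℝ)) p = a k := fun k => by
    rw [integral_indicator_const _ (hUA k), haU, smul_eq_mul, mul_one]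
  have hψ1 : ∀ k, ∫ p, (A k).indicator (fun _ => (1 : ℝ)) p = a k := fun k => by
    rw [integral_indicator_const _ (hA k), ha', smul_eq_mul, mul_one]
  have hsq : ∀ (S : Set T2) (p : T2), (S.indicator (fun _ => (1 : ℝ)) p) ^ 2 =
      S.indicator (fun _ => (1 : ℝ)) p := by
    intro S p
    by_cases hp : p ∈ S
    · rw [indicator_of_mem hp, one_pow]
    · rw [indicator_of_notMem hp]
      norm_num
  have hG : ∀ k ω, ∫ p : T2, (U ⁻¹' A k).indicator (fun _ => (1 : ℝ)) (XT ω n p) *
      (A k).indicator (fun _ => (1 : ℝ)) p = r k ω * a k := by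
    intro k ω
    have hm : MeasurableSet (A k ∩ (fun p => U (XT ω n p)) ⁻¹' (A k)) :=
      (hA k).inter ((hU.measurable.comp (mp_XT ω n).measurable) (hA k))
    have e1 : (fun p : T2 => (U ⁻¹' A k).indicator (fun _ => (1 : ℝ)) (XT ω n p) *
        (A k).indicator (fun _ => (1 : ℝ)) p) =
        (A k ∩ (fun p => U (XT ω n p)) ⁻¹' (A k)).indicator (fun _ => (1 : ℝ)) := by
      funext p
      by_cases h1 : p ∈ A k
      · by_cases h2 : U (XT ω n p) ∈ A k
        · have h3 : p ∈ A k ∩ (fun p => U (XT ω n p)) ⁻¹' (A k) := ⟨h1, h2⟩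
          have h4 : XT ω n p ∈ U ⁻¹' A k := h2
          rw [indicator_of_mem h3, indicator_of_mem h4, indicator_of_mem h1, mul_one]
        · have h3 : p ∉ A k ∩ (fun p => U (XT ω n p)) ⁻¹' (A k) := fun h => h2 h.2
          have h4 : XT ω n p ∉ U ⁻¹' A k := h2
          rw [indicator_of_notMem h3, indicator_of_notMem h4, zero_mul]
      · have h3 : p ∉ A k ∩ (fun p => U (XT ω n p)) ⁻¹' (A k) := fun h => h1 h.1
        rw [indicator_of_notMem h3, indicator_of_notMem h1, mul_zero]
    rw [e1, integral_indicator_const _ hm, smul_eq_mul, mul_one, hr]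
    change _ = _ / a k * a k
    rw [div_mul_cancel₀ _ (ha0 k).ne']
  -- measurability
  have hGm : ∀ k, Measurable (fun ω => r k ω) := by
    intro k
    have h1 : Measurable (fun q : (ℕ → ℝ) × T2 =>
        (U ⁻¹' A k).indicator (fun _ => (1 : ℝ)) (XT q.1 n q.2) *
          (A k).indicator (fun _ => (1 : ℝ)) q.2) :=
      ((measurable_const.indicator (hUA k)).comp (measurable_XT n)).mul
        ((measurable_const.indicator (hA k)).comp measurable_snd)
    have h2 : Measurable (fun ω : ℕ → ℝ => ∫ p : T2,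
        (U ⁻¹' A k).indicator (fun _ => (1 : ℝ)) (XT ω n p) *
          (A k).indicator (fun _ => (1 : ℝ)) p) :=
      (h1.stronglyMeasurable.integral_prod_right').measurable
    have h3 : (fun ω => r k ω) = fun ω => (∫ p : T2,
        (U ⁻¹' A k).indicator (fun _ => (1 : ℝ)) (XT ω n p) *
          (A k).indicator (fun _ => (1 : ℝ)) p) / a k := by
      funext ω
      rw [hG, mul_div_cancel_right₀ _ (ha0 k).ne']
    rw [h3]
    exact h2.div_const _
  -- the inequality for each `k`
  have hk : ∀ k, ∫ ω, (r k ω - a k) ^ 2 ∂(PP ν) ≤ ρ := by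
    intro k
    have h1 := hρ _ _ (hφL k) (hψL k)
    have h2 : ∀ ω : ℕ → ℝ, ((∫ p : T2, (U ⁻¹' A k).indicator (fun _ => (1 : ℝ)) (XT ω n p) *
        (A k).indicator (fun _ => (1 : ℝ)) p) - (∫ p, (U ⁻¹' A k).indicator (fun _ => (1 : ℝ)) p) *
        ∫ p, (A k).indicator (fun _ => (1 : ℝ)) p) ^ 2 = a k ^ 2 * (r k ω - a k) ^ 2 := by
      intro ω
      rw [hG, hφ1, hψ1]
      ring
    simp only [h2, hsq] at h1
    rw [integral_const_mul, hφ1, hψ1] at h1
    have h3 : 0 < a k ^ 2 := pow_pos (ha0 k) 2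
    have h4 : a k ^ 2 * ∫ ω, (r k ω - a k) ^ 2 ∂(PP ν) ≤ a k ^ 2 * ρ := by
      refine h1.trans (le_of_eq ?_)
      ring
    exact le_of_mul_le_mul_left h4 h3
  -- the limit
  have hlim : Tendsto (fun k => ∫ ω, (r k ω - a k) ^ 2 ∂(PP ν)) atTop
      (𝓝 (∫ _ω, (1 : ℝ) ∂(PP ν))) := by
    refine tendsto_integral_of_dominated_convergence (fun _ => (1 : ℝ))
      (fun k => (((hGm k).sub_const _).pow_const 2).aestronglyMeasurable)
      (integrable_const _) (fun k => ae_of_all _ fun ω => ?_) ?_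
    · rw [Real.norm_eq_abs, abs_pow]
      refine pow_le_one₀ (abs_nonneg _) ?_
      rw [abs_le]
      have := hr0 k ω
      have := hr1 k ω
      have := ha0 k
      have := ha1 k
      constructor <;> linarith
    · filter_upwards [hrT] with ω hω
      have h1 := (hω.sub haT).pow 2
      rw [sub_zero, one_pow] at h1
      exact h1
  rw [integral_const, probReal_univ, one_smul] at hlim
  exact le_of_tendsto' hlim hk

end Pool.Agent.Helper95.RP
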