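import Mathlib
import Pool.Agent.Helper95.RP.Sh1
import Pool.Agent.Helper95.RX.Diag

/-! RP-SH2: sharpness for point masses. -/

set_option autoImplicit false
open MeasureTheory Real Set Filter Topology
open scoped ComplexConjugate ENNReal

namespace Pool.Agent.Helper95.RP

open Pool.Agent.Helper95.RX

attribute [local instance] Pool.Agent.Helper53.SM.instProbU Pool.Agent.Helper53.SM.instProbT2

/-- `sharp_core` with `U = (sfi a)^[n]`: almost surely all parameters are `a`, so `U ∘ XT ω n` is the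
identity; `A k = {p | (p, 0) ∈ AA (1/(k+3))}`, of measure `4/(k+3)²` (`vol_AA_fibre`) -/
theorem sharp_dirac {ν : Measure ℝ} [IsProbabilityMeasure ν] {a : ℝ} (hν : ν {a} = 1) (n : ℕ)
    {ρ : ℝ} (hρ : ∀ φ ψ : T2 → ℝ, MemLp φ 2 volume → MemLp ψ 2 volume →
      ∫ ω, ((∫ p : T2, φ (XT ω n p) * ψ p) - (∫ p, φ p) * ∫ p, ψ p) ^ 2 ∂(PP (fun _ => ν)) ≤
        ρ * (∫ p, φ p ^ 2) * ∫ p, ψ p ^ 2) : 1 ≤ ρ := by
  have hae : ∀ᵐ ω ∂(PP (fun _ => ν)), ∀ i, ω i = a := by
    rw [ae_all_iff]
    intro i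
    have h1 : MeasurePreserving (Function.eval i) (PP (fun _ => ν)) ν := by
      unfold PP
      exact measurePreserving_eval_infinitePi (fun _ => ν) i
    have h2 : ∀ᵐ x ∂ν, x = a := by
      have h3 : ({a} : Set ℝ) ∈ ae ν :=
        (mem_ae_iff_prob_eq_one (measurableSet_singleton a)).2 hν
      filter_upwards [h3] with x hx using hx
    exact h1.quasiMeasurePreserving.ae h2
  have hcmp : ∀ ω : ℕ → ℝ, (∀ i, ω i = a) → ∀ (m : ℕ) (p : T2), (sfi a)^[m] (XT ω m p) = p := by
    intro ω hω m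
    induction m with
    | zero => intro p; rfl
    | succ m ih =>
      intro p
      show (sfi a)^[m + 1] (sf (ω m) (XT ω m p)) = p
      rw [Function.iterate_succ_apply, hω, sfi_sf, ih]
  have hvol : ∀ k : ℕ, (volume : Measure T2).real {p | (p, (0 : T2)) ∈ AA (1 / ((k : ℝ) + 3))} =
      4 * (1 / ((k : ℝ) + 3)) ^ 2 := by
    intro k
    apply vol_AA_fibre (by positivity)
    rw [div_lt_div_iff₀ (by positivity) (by norm_num)]
    have : (0 : ℝ) ≤ k := Nat.cast_nonneg k
    linarith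
  refine sharp_core n (U := (sfi a)^[n]) ((mp_sfi a).iterate n)
    (A := fun k => {p | (p, (0 : T2)) ∈ AA (1 / ((k : ℝ) + 3))}) ?_ ?_ ?_ ?_ hρ
  · intro k
    exact (measurableSet_AA _).preimage (measurable_id.prodMk measurable_const)
  · intro k
    rw [hvol]
    positivity
  · simp_rw [hvol]
    have h1 : Tendsto (fun k : ℕ => 1 / ((k : ℝ) + 3)) atTop (𝓝 0) := by
      have h2 : Tendsto (fun k : ℕ => (k : ℝ) + 3) atTop atTop :=
        tendsto_atTop_add_const_right _ _ tendsto_natCast_atTop_atTop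
      simp_rw [one_div]
      exact tendsto_inv_atTop_zero.comp h2
    have h3 := (h1.pow 2).const_mul 4
    simpa using h3
  · filter_upwards [hae] with ω hω
    have h1 : ∀ k : ℕ, ({p | (p, (0 : T2)) ∈ AA (1 / ((k : ℝ) + 3))} ∩
        (fun p => (sfi a)^[n] (XT ω n p)) ⁻¹' {p | (p, (0 : T2)) ∈ AA (1 / ((k : ℝ) + 3))}) =
        {p | (p, (0 : T2)) ∈ AA (1 / ((k : ℝ) + 3))} := by
      intro k
      ext p
      simp only [mem_inter_iff, mem_preimage, hcmp ω hω n p, and_self]
    simp_rw [h1]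
    have h2 : ∀ k : ℕ, (volume : Measure T2).real {p | (p, (0 : T2)) ∈ AA (1 / ((k : ℝ) + 3))} /
        (volume : Measure T2).real {p | (p, (0 : T2)) ∈ AA (1 / ((k : ℝ) + 3))} = 1 := by
      intro k
      apply div_self
      rw [hvol]
      positivity
    simp_rw [h2]
    exact tendsto_const_nhds

end Pool.Agent.Helper95.RP
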