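import Mathlib
import Pool.Agent.Helper95.RX.Diag
import Pool.Agent.Helper95.RP.Defs

/-! RP-SH3: neighbourhoods of the four points `{1/4, 3/4}²`. -/

set_option autoImplicit false
open MeasureTheory Real Set Filter Topology
open scoped ComplexConjugate ENNReal

namespace Pool.Agent.Helper95.RP

open Pool.Agent.Helper95.RX

attribute [local instance] Pool.Agent.Helper53.SM.instProbU Pool.Agent.Helper53.SM.instProbT2

/-- the four points -/
def VV : Set T2 := {v | csn v.1 = 0 ∧ csn v.2 = 0}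

/-- neighbourhood of the four points (squares of side `2r`) -/
def Vs (r : ℝ) : Set T2 := {p | ∃ v ∈ VV, (p, v) ∈ AA r}

private lemma csn_zero_iff (θ : UnitAddCircle) : csn θ = 0 ↔
    (θ = ((1 / 4 : ℝ) : UnitAddCircle) ∨ θ = ((3 / 4 : ℝ) : UnitAddCircle)) := by
  have hint : ∀ m : ℤ, ((m : ℝ) : UnitAddCircle) = 0 := by
    intro m
    rw [AddCircle.coe_eq_zero_iff]
    exact ⟨m, by simp⟩
  induction θ using QuotientAddGroup.induction_on with
  | H x =>
    change csn (x : UnitAddCircle) = 0 ↔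
      ((x : UnitAddCircle) = ((1 / 4 : ℝ) : UnitAddCircle) ∨
        (x : UnitAddCircle) = ((3 / 4 : ℝ) : UnitAddCircle))
    constructor
    · intro h
      rw [csn_coe, Real.cos_eq_zero_iff] at h
      obtain ⟨k, hk⟩ := h
      have hx : x = (2 * (k : ℝ) + 1) / 4 := by
        have hpi : (π : ℝ) ≠ 0 := Real.pi_ne_zero
        have : π * (4 * x) = π * (2 * (k : ℝ) + 1) := by linear_combination 2 * hk
        have h2 := mul_left_cancel₀ hpi this
        linarith
      rcases Int.even_or_odd' k with ⟨m, hm | hm⟩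
      · left
        have e : x = (m : ℝ) + 1 / 4 := by
          rw [hx, hm]
          push_cast
          ring
        rw [e, AddCircle.coe_add, hint, zero_add]
      · right
        have e : x = (m : ℝ) + 3 / 4 := by
          rw [hx, hm]
          push_cast
          ring
        rw [e, AddCircle.coe_add, hint, zero_add]
    · rintro (h | h)
      · rw [h, csn_coe]
        have : 2 * π * (1 / 4) = π / 2 := by ring
        rw [this, Real.cos_pi_div_two]
      · rw [h, csn_coe]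
        have : 2 * π * (3 / 4) = π / 2 + π := by ring
        rw [this, Real.cos_add_pi, Real.cos_pi_div_two, neg_zero]

lemma mem_VV (v : T2) : v ∈ VV ↔
    (v.1 = ((1 / 4 : ℝ) : UnitAddCircle) ∨ v.1 = ((3 / 4 : ℝ) : UnitAddCircle)) ∧
    (v.2 = ((1 / 4 : ℝ) : UnitAddCircle) ∨ v.2 = ((3 / 4 : ℝ) : UnitAddCircle)) := by
  change csn v.1 = 0 ∧ csn v.2 = 0 ↔ _
  rw [csn_zero_iff, csn_zero_iff]

private lemma meas_fib (r : ℝ) (v : T2) : MeasurableSet {p : T2 | (p, v) ∈ AA r} :=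
  (measurableSet_AA r).preimage (measurable_id.prodMk measurable_const)

private lemma Vs_eq (r : ℝ) : Vs r =
    (({p | (p, (((1 / 4 : ℝ) : UnitAddCircle), ((1 / 4 : ℝ) : UnitAddCircle))) ∈ AA r} ∪
      {p | (p, (((1 / 4 : ℝ) : UnitAddCircle), ((3 / 4 : ℝ) : UnitAddCircle))) ∈ AA r}) ∪
    ({p | (p, (((3 / 4 : ℝ) : UnitAddCircle), ((1 / 4 : ℝ) : UnitAddCircle))) ∈ AA r} ∪
      {p | (p, (((3 / 4 : ℝ) : UnitAddCircle), ((3 / 4 : ℝ) : UnitAddCircle))) ∈ AA r})) := by
  ext p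
  simp only [mem_union, mem_ofPred_eq]
  constructor
  · rintro ⟨v, hv, h⟩
    rw [mem_VV] at hv
    obtain ⟨v1, v2⟩ := v
    obtain ⟨h1, h2⟩ := hv
    simp only at h1 h2
    rcases h1 with rfl | rfl <;> rcases h2 with rfl | rfl
    · exact Or.inl (Or.inl h)
    · exact Or.inl (Or.inr h)
    · exact Or.inr (Or.inl h)
    · exact Or.inr (Or.inr h)
  · rintro ((h | h) | (h | h))
    · exact ⟨_, (mem_VV _).mpr ⟨Or.inl rfl, Or.inl rfl⟩, h⟩
    · exact ⟨_, (mem_VV _).mpr ⟨Or.inl rfl, Or.inr rfl⟩, h⟩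
    · exact ⟨_, (mem_VV _).mpr ⟨Or.inr rfl, Or.inl rfl⟩, h⟩
    · exact ⟨_, (mem_VV _).mpr ⟨Or.inr rfl, Or.inr rfl⟩, h⟩

lemma meas_Vs (r : ℝ) : MeasurableSet (Vs r) := by
  rw [Vs_eq]
  exact ((meas_fib r _).union (meas_fib r _)).union ((meas_fib r _).union (meas_fib r _))

private lemma far {r : ℝ} (hr2 : r < 1 / 4) {θ : UnitAddCircle}
    (h1 : ‖((1 / 4 : ℝ) : UnitAddCircle) - θ‖ < r) (h2 : ‖((3 / 4 : ℝ) : UnitAddCircle) - θ‖ < r) :
    False := by
  have h3 : ‖((1 / 2 : ℝ) : UnitAddCircle)‖ = 1 / 2 := by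
    rw [nrm_coe (by rw [abs_of_pos] <;> norm_num), abs_of_pos (by norm_num)]
  have h4 : ((1 / 2 : ℝ) : UnitAddCircle) =
      (((3 / 4 : ℝ) : UnitAddCircle) - θ) - (((1 / 4 : ℝ) : UnitAddCircle) - θ) := by
    rw [sub_sub_sub_cancel_right, ← AddCircle.coe_sub]
    norm_num
  have h5 := norm_sub_le (((3 / 4 : ℝ) : UnitAddCircle) - θ) (((1 / 4 : ℝ) : UnitAddCircle) - θ)
  rw [← h4, h3] at h5
  linarith

/-- four disjoint squares for `r < 1/4`, each of measure `4r²` (`vol_AA_fibre`) -/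
lemma vol_Vs {r : ℝ} (hr : 0 < r) (hr2 : r < 1 / 4) :
    (volume : Measure T2).real (Vs r) = 16 * r ^ 2 := by
  rw [Vs_eq, measureReal_union, measureReal_union, measureReal_union, vol_AA_fibre hr (by linarith),
    vol_AA_fibre hr (by linarith), vol_AA_fibre hr (by linarith), vol_AA_fibre hr (by linarith)]
  · ring
  · rw [Set.disjoint_left]
    rintro p ⟨-, h⟩ ⟨-, h'⟩
    exact far hr2 h h'
  · exact meas_fib r _
  · rw [Set.disjoint_left]
    rintro p ⟨-, h⟩ ⟨-, h'⟩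
    exact far hr2 h h'
  · exact meas_fib r _
  · rw [Set.disjoint_left]
    rintro p (⟨h, -⟩ | ⟨h, -⟩) (⟨h', -⟩ | ⟨h', -⟩) <;> exact far hr2 h h'
  · exact (meas_fib r _).union (meas_fib r _)

end Pool.Agent.Helper95.RP
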