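import Mathlib
import Pool.Agent.Helper95.RP.Sh3
import Pool.Agent.Helper95.RP.Lift

/-! RP-SH4: parameters in `(1/2)ℤ`: the four points are permuted with the same derivative. -/

set_option autoImplicit false
open MeasureTheory Real Set Filter Topology
open scoped ComplexConjugate ENNReal

namespace Pool.Agent.Helper95.RP

open Pool.Agent.Helper95.RX

attribute [local instance] Pool.Agent.Helper53.SM.instProbU Pool.Agent.Helper53.SM.instProbT2

/-- in the plane: the lifts of the four points -/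
def VL : Set (ℝ × ℝ) := {q | Real.cos (2 * π * q.1) = 0 ∧ Real.cos (2 * π * q.2) = 0}

/-- the inverse of the linear map `(x, y) ↦ (2x - y, x)` -/
noncomputable def Pi' : ℝ × ℝ →L[ℝ] ℝ × ℝ :=
  (ContinuousLinearMap.snd ℝ ℝ ℝ).prod
    ((2:ℝ) • ContinuousLinearMap.snd ℝ ℝ ℝ - ContinuousLinearMap.fst ℝ ℝ ℝ)

private lemma cos_two_sub_h85 {x y : ℝ} (hx : Real.cos (2 * π * x) = 0)
    (hy : Real.cos (2 * π * y) = 0) : Real.cos (2 * π * (2 * x - y)) = 0 := by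
  have e : 2 * π * (2 * x - y) = 2 * (2 * π * x) - 2 * π * y := by ring
  rw [e, Real.cos_sub, Real.sin_two_mul, hx, hy]
  ring

private lemma sin_cases_h85 {x : ℝ} (hx : Real.cos x = 0) : Real.sin x = 1 ∨ Real.sin x = -1 := by
  have h := Real.sin_sq_add_cos_sq x
  rw [hx] at h
  have h2 : (Real.sin x - 1) * (Real.sin x + 1) = 0 := by nlinarith
  rcases mul_eq_zero.mp h2 with h3 | h3
  · left; linarith
  · right; linarith

private lemma cos_add_int_h85 {x : ℝ} (hx : Real.cos x = 0) (m : ℤ) :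
    Real.cos (x + m * π) = 0 := by
  rw [Real.cos_add, hx, Real.sin_int_mul_pi]
  ring

/-- half-integer parameters preserve `VL` (`x ∈ 1/4 + (1/2)ℤ` gives `sin 2πx = ±1`) -/
lemma YL_mem_VL {ω : ℕ → ℝ} (hω : ∀ i, ∃ m : ℤ, 2 * ω i = m) (n : ℕ) {q : ℝ × ℝ} (hq : q ∈ VL) :
    YL ω n q ∈ VL := by
  induction n with
  | zero => exact hq
  | succ n ih =>
    obtain ⟨h1, h2⟩ := ih
    obtain ⟨m, hm⟩ := hω n
    refine ⟨?_, h1⟩
    show Real.cos (2 * π * (2 * (YL ω n q).1 - (YL ω n q).2 +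
      ω n * Real.sin (2 * π * (YL ω n q).1))) = 0
    have h3 := cos_two_sub_h85 h1 h2
    rcases sin_cases_h85 h1 with h4 | h4
    · rw [h4]
      have e : 2 * π * (2 * (YL ω n q).1 - (YL ω n q).2 + ω n * 1) =
          2 * π * (2 * (YL ω n q).1 - (YL ω n q).2) + m * π := by
        rw [← hm]
        ring
      rw [e]
      exact cos_add_int_h85 h3 m
    · rw [h4]
      have e : 2 * π * (2 * (YL ω n q).1 - (YL ω n q).2 + ω n * -1) =
          2 * π * (2 * (YL ω n q).1 - (YL ω n q).2) + (-m : ℤ) * π := by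
        push_cast
        rw [← hm]
        ring
      rw [e]
      exact cos_add_int_h85 h3 (-m)

lemma Pi_mem_VL {q : ℝ × ℝ} (hq : q ∈ VL) (n : ℕ) : (Pi')^[n] q ∈ VL := by
  induction n generalizing q with
  | zero => exact hq
  | succ n ih =>
    rw [Function.iterate_succ_apply]
    apply ih
    refine ⟨hq.2, ?_⟩
    show Real.cos (2 * π * (((2:ℝ) • ContinuousLinearMap.snd ℝ ℝ ℝ -
      ContinuousLinearMap.fst ℝ ℝ ℝ) q)) = 0
    have e : ((2:ℝ) • ContinuousLinearMap.snd ℝ ℝ ℝ - ContinuousLinearMap.fst ℝ ℝ ℝ) q =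
        2 * q.2 - q.1 := by simp
    rw [e]
    exact cos_two_sub_h85 hq.2 hq.1

private noncomputable def PiN_h85 : ℕ → (ℝ × ℝ →L[ℝ] ℝ × ℝ)
  | 0 => ContinuousLinearMap.id ℝ (ℝ × ℝ)
  | n + 1 => (PiN_h85 n).comp Pi'

private lemma PiN_apply_h85 (n : ℕ) (q : ℝ × ℝ) : PiN_h85 n q = (Pi')^[n] q := by
  induction n generalizing q with
  | zero => rfl
  | succ n ih =>
    rw [Function.iterate_succ_apply]
    exact ih (Pi' q)

private lemma Pi_L_h85 (v : ℝ × ℝ) : Pi' (L 2 v) = v := by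
  rw [Pool.Agent.Helper78.SM.L_apply]
  unfold Pi'
  ext
  · simp
  · simp

private lemma PiN_DY_h85 {ω : ℕ → ℝ} (hω : ∀ i, ∃ m : ℤ, 2 * ω i = m) (n : ℕ) {q : ℝ × ℝ}
    (hq : q ∈ VL) : (PiN_h85 n).comp (DY ω n q) = ContinuousLinearMap.id ℝ (ℝ × ℝ) := by
  induction n with
  | zero => rfl
  | succ n ih =>
    refine ContinuousLinearMap.ext fun v => ?_
    show PiN_h85 n (Pi' (L (phi (ω n) (YL ω n q).1) (DY ω n q v))) = v
    have h1 : phi (ω n) (YL ω n q).1 = 2 := by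
      unfold Pool.Agent.Helper78.SM.phi
      rw [(YL_mem_VL hω n hq).1]
      ring
    rw [h1, Pi_L_h85]
    exact DFunLike.congr_fun ih v

/-- at a point of `VL` the derivative is `(L 2)^n`, and `Pi'` is the inverse of `L 2` -/
lemma deriv_VL {ω : ℕ → ℝ} (hω : ∀ i, ∃ m : ℤ, 2 * ω i = m) (n : ℕ) {q : ℝ × ℝ} (hq : q ∈ VL) :
    HasFDerivAt (fun u => (Pi')^[n] (YL ω n u)) (ContinuousLinearMap.id ℝ (ℝ × ℝ)) q := by
  have h1 := (PiN_h85 n).hasFDerivAt.comp q (hasFDerivAt_YL ω n q)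
  rw [PiN_DY_h85 hω n hq] at h1
  have e : (PiN_h85 n : ℝ × ℝ → ℝ × ℝ) ∘ YL ω n = fun u => (Pi')^[n] (YL ω n u) := by
    funext u
    exact PiN_apply_h85 n _
  rw [e] at h1
  exact h1

lemma mk2_Pi (n : ℕ) (q : ℝ × ℝ) : mk2 ((Pi')^[n] q) = (sfi 0)^[n] (mk2 q) := by
  induction n generalizing q with
  | zero => rfl
  | succ n ih =>
    rw [Function.iterate_succ_apply, Function.iterate_succ_apply, ih]
    congr 1
    unfold Pi' sfi bb Pool.Agent.Helper78.SM.mk2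
    refine Prod.ext rfl ?_
    have e : ((2:ℝ) • ContinuousLinearMap.snd ℝ ℝ ℝ - ContinuousLinearMap.fst ℝ ℝ ℝ) q =
        q.2 + q.2 - q.1 := by
      simp
      ring
    show (((((2:ℝ) • ContinuousLinearMap.snd ℝ ℝ ℝ - ContinuousLinearMap.fst ℝ ℝ ℝ) q : ℝ)) :
      UnitAddCircle) = (q.2 : UnitAddCircle) + (q.2 : UnitAddCircle) +
        ((0 * snn (q.2 : UnitAddCircle) : ℝ) : UnitAddCircle) - (q.1 : UnitAddCircle)
    rw [e, zero_mul, AddCircle.coe_sub, AddCircle.coe_add, AddCircle.coe_zero, add_zero]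

private lemma exists_rep_h85 (θ : UnitAddCircle) : ∃ h : ℝ, (h : UnitAddCircle) = θ ∧
    |h| = ‖θ‖ := by
  induction θ using QuotientAddGroup.induction_on with
  | H x =>
    refine ⟨x - round x, ?_, ?_⟩
    · rw [AddCircle.coe_sub]
      have h0 : (((round x : ℤ) : ℝ) : UnitAddCircle) = 0 :=
        (AddCircle.coe_eq_zero_iff 1).2 ⟨round x, by simp⟩
      rw [h0, sub_zero]
    · exact (UnitAddCircle.norm_eq (x := x)).symm

private lemma norm_coe_le_h85 (x : ℝ) : ‖(x : UnitAddCircle)‖ ≤ |x| := by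
  rw [UnitAddCircle.norm_eq]
  have h := round_le x 0
  simpa using h

private lemma mk2_mem_VV_h85 {q : ℝ × ℝ} (hq : q ∈ VL) : mk2 q ∈ VV := by
  refine ⟨?_, ?_⟩
  · show csn (q.1 : UnitAddCircle) = 0
    rw [csn_coe]
    exact hq.1
  · show csn (q.2 : UnitAddCircle) = 0
    rw [csn_coe]
    exact hq.2

private noncomputable def qr_h85 (i : Bool) : ℝ := if i then 1 / 4 else 3 / 4

private lemma cos_qr_h85 (i : Bool) : Real.cos (2 * π * qr_h85 i) = 0 := by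
  unfold qr_h85
  cases i
  · have e : 2 * π * (if false = true then (1 / 4 : ℝ) else 3 / 4) = π / 2 + (1 : ℤ) * π := by
      simp only [Bool.false_eq_true, if_false]
      push_cast
      ring
    rw [e]
    exact cos_add_int_h85 Real.cos_pi_div_two 1
  · have e : 2 * π * (if true = true then (1 / 4 : ℝ) else 3 / 4) = π / 2 := by
      simp only [if_true]
      ring
    rw [e]
    exact Real.cos_pi_div_two

private lemma exists_qr_h85 {v : T2} (hv : v ∈ VV) : ∃ i j, v = mk2 (qr_h85 i, qr_h85 j) := by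
  rw [mem_VV] at hv
  obtain ⟨h1, h2⟩ := hv
  have g1 : ∃ i, v.1 = ((qr_h85 i : ℝ) : UnitAddCircle) := by
    rcases h1 with h | h
    · exact ⟨true, h⟩
    · exact ⟨false, h⟩
  have g2 : ∃ i, v.2 = ((qr_h85 i : ℝ) : UnitAddCircle) := by
    rcases h2 with h | h
    · exact ⟨true, h⟩
    · exact ⟨false, h⟩
  obtain ⟨i, hi⟩ := g1
  obtain ⟨j, hj⟩ := g2
  exact ⟨i, j, Prod.ext hi hj⟩

/-- small squares around the four points are mapped into slightly larger ones -/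
lemma map_Vs {ω : ℕ → ℝ} (hω : ∀ i, ∃ m : ℤ, 2 * ω i = m) (n : ℕ) {δ : ℝ} (hδ : 0 < δ) :
    ∃ r₀ : ℝ, 0 < r₀ ∧ ∀ r : ℝ, 0 < r → r < r₀ → ∀ p ∈ Vs (r / (1 + δ)),
      (sfi 0)^[n] (XT ω n p) ∈ Vs r := by
  have key : ∀ i j : Bool, ∃ r₁ : ℝ, 0 < r₁ ∧ ∀ u : ℝ × ℝ, ‖u - (qr_h85 i, qr_h85 j)‖ < r₁ →
      ‖(Pi')^[n] (YL ω n u) - (Pi')^[n] (YL ω n (qr_h85 i, qr_h85 j))‖ ≤
        (1 + δ) * ‖u - (qr_h85 i, qr_h85 j)‖ := by
    intro i j
    have hq : (qr_h85 i, qr_h85 j) ∈ VL := ⟨cos_qr_h85 i, cos_qr_h85 j⟩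
    have h1 := (hasFDerivAt_iff_isLittleO.1 (deriv_VL hω n hq)).def hδ
    obtain ⟨r₁, hr₁, h2⟩ := Metric.eventually_nhds_iff.1 h1
    refine ⟨r₁, hr₁, fun u hu => ?_⟩
    have h3 := h2 (y := u) (by rwa [dist_eq_norm])
    simp only [ContinuousLinearMap.id_apply] at h3
    have h4 : (Pi')^[n] (YL ω n u) - (Pi')^[n] (YL ω n (qr_h85 i, qr_h85 j)) =
        ((Pi')^[n] (YL ω n u) - (Pi')^[n] (YL ω n (qr_h85 i, qr_h85 j)) -
          (u - (qr_h85 i, qr_h85 j))) + (u - (qr_h85 i, qr_h85 j)) := by abel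
    rw [h4]
    refine (norm_add_le _ _).trans ?_
    linarith
  choose R hR hR2 using key
  refine ⟨(R true true ⊓ R true false) ⊓ (R false true ⊓ R false false), ?_, ?_⟩
  · exact lt_inf_iff.2 ⟨lt_inf_iff.2 ⟨hR _ _, hR _ _⟩, lt_inf_iff.2 ⟨hR _ _, hR _ _⟩⟩
  intro r hr hr2 p hp
  obtain ⟨v, hv, hpv⟩ := hp
  obtain ⟨hp1, hp2⟩ : ‖v.1 - p.1‖ < r / (1 + δ) ∧ ‖v.2 - p.2‖ < r / (1 + δ) := hpv
  obtain ⟨i, j, rfl⟩ := exists_qr_h85 hv
  obtain ⟨h1, e1, n1⟩ := exists_rep_h85 ((mk2 (qr_h85 i, qr_h85 j)).1 - p.1)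
  obtain ⟨h2, e2, n2⟩ := exists_rep_h85 ((mk2 (qr_h85 i, qr_h85 j)).2 - p.2)
  set u : ℝ × ℝ := (qr_h85 i - h1, qr_h85 j - h2) with hu
  have hmu : mk2 u = p := by
    refine Prod.ext ?_ ?_
    · show ((qr_h85 i - h1 : ℝ) : UnitAddCircle) = p.1
      rw [AddCircle.coe_sub, e1]
      exact sub_sub_cancel _ _
    · show ((qr_h85 j - h2 : ℝ) : UnitAddCircle) = p.2
      rw [AddCircle.coe_sub, e2]
      exact sub_sub_cancel _ _
  have hle : (R true true ⊓ R true false) ⊓ (R false true ⊓ R false false) ≤ R i j := by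
    cases i <;> cases j
    · exact inf_le_right.trans inf_le_right
    · exact inf_le_right.trans inf_le_left
    · exact inf_le_left.trans inf_le_right
    · exact inf_le_left.trans inf_le_left
  have hd1 : (0:ℝ) < 1 + δ := by linarith
  have hun : ‖u - (qr_h85 i, qr_h85 j)‖ < r / (1 + δ) := by
    rw [Prod.norm_def]
    refine max_lt ?_ ?_
    · show ‖qr_h85 i - h1 - qr_h85 i‖ < _
      rw [sub_sub_cancel_left, norm_neg, Real.norm_eq_abs, n1]
      exact hp1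
    · show ‖qr_h85 j - h2 - qr_h85 j‖ < _
      rw [sub_sub_cancel_left, norm_neg, Real.norm_eq_abs, n2]
      exact hp2
  have hrr : r / (1 + δ) ≤ r := by
    rw [div_le_iff₀ hd1]
    nlinarith
  have h5 := hR2 i j u (lt_of_lt_of_le hun (hrr.trans (hr2.le.trans hle)))
  have h6 : ‖(Pi')^[n] (YL ω n u) - (Pi')^[n] (YL ω n (qr_h85 i, qr_h85 j))‖ < r := by
    refine lt_of_le_of_lt h5 ?_
    have := mul_lt_mul_of_pos_left hun hd1
    rwa [mul_div_cancel₀ _ hd1.ne'] at this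
  have hq : (qr_h85 i, qr_h85 j) ∈ VL := ⟨cos_qr_h85 i, cos_qr_h85 j⟩
  have e3 : (sfi 0)^[n] (XT ω n p) = mk2 ((Pi')^[n] (YL ω n u)) := by
    rw [mk2_Pi, mk2_YL, hmu]
  rw [e3]
  refine ⟨mk2 ((Pi')^[n] (YL ω n (qr_h85 i, qr_h85 j))),
    mk2_mem_VV_h85 (Pi_mem_VL (YL_mem_VL hω n hq) n), ?_, ?_⟩
  · show ‖((((Pi')^[n] (YL ω n (qr_h85 i, qr_h85 j))).1 : ℝ) : UnitAddCircle) -
      ((((Pi')^[n] (YL ω n u)).1 : ℝ) : UnitAddCircle)‖ < r
    rw [← AddCircle.coe_sub, ← norm_neg, ← AddCircle.coe_neg]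
    refine lt_of_le_of_lt (norm_coe_le_h85 _) (lt_of_le_of_lt ?_ h6)
    rw [neg_sub, ← Real.norm_eq_abs]
    exact norm_fst_le ((Pi')^[n] (YL ω n u) - (Pi')^[n] (YL ω n (qr_h85 i, qr_h85 j)))
  · show ‖((((Pi')^[n] (YL ω n (qr_h85 i, qr_h85 j))).2 : ℝ) : UnitAddCircle) -
      ((((Pi')^[n] (YL ω n u)).2 : ℝ) : UnitAddCircle)‖ < r
    rw [← AddCircle.coe_sub, ← norm_neg, ← AddCircle.coe_neg]
    refine lt_of_le_of_lt (norm_coe_le_h85 _) (lt_of_le_of_lt ?_ h6)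
    rw [neg_sub, ← Real.norm_eq_abs]
    exact norm_snd_le ((Pi')^[n] (YL ω n u) - (Pi')^[n] (YL ω n (qr_h85 i, qr_h85 j)))

end Pool.Agent.Helper95.RP
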