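import Mathlib
import Pool.Agent.Helper95.RP.Sh1
import Pool.Agent.Helper95.RP.Sh4

/-! RP-SH5: sharpness for parameters in `(1/2)ℤ`. -/

set_option autoImplicit false
open MeasureTheory Real Set Filter Topology
open scoped ComplexConjugate ENNReal

namespace Pool.Agent.Helper95.RP

open Pool.Agent.Helper95.RX

attribute [local instance] Pool.Agent.Helper53.SM.instProbU Pool.Agent.Helper53.SM.instProbT2

/-- `sharp_core` with `U = (sfi 0)^[n]`, `A k = Vs (1/(k+5))`, `map_Vs`, `vol_Vs`: the ratio is at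
least `(1 + δ)⁻²` eventually, for every `δ > 0` -/
theorem sharp_half {ν : ℕ → Measure ℝ} [∀ i, IsProbabilityMeasure (ν i)]
    (hν : ∀ i, ∀ᵐ c : ℝ ∂(ν i), ∃ m : ℤ, 2 * c = (m : ℝ)) (n : ℕ)
    {ρ : ℝ} (hρ : ∀ φ ψ : T2 → ℝ, MemLp φ 2 volume → MemLp ψ 2 volume →
      ∫ ω, ((∫ p : T2, φ (XT ω n p) * ψ p) - (∫ p, φ p) * ∫ p, ψ p) ^ 2 ∂(PP ν) ≤
        ρ * (∫ p, φ p ^ 2) * ∫ p, ψ p ^ 2) : 1 ≤ ρ := by
  have hr : ∀ k : ℕ, 0 < 1 / ((k : ℝ) + 5) := fun k => by positivity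
  have hr4 : ∀ k : ℕ, 1 / ((k : ℝ) + 5) < 1 / 4 := fun k => by
    have : (0 : ℝ) ≤ k := k.cast_nonneg
    rw [div_lt_div_iff₀ (by positivity) (by norm_num)]
    linarith
  have hV : ∀ k : ℕ, (volume : Measure T2).real (Vs (1 / ((k : ℝ) + 5))) =
      16 * (1 / ((k : ℝ) + 5)) ^ 2 := fun k => vol_Vs (hr k) (hr4 k)
  have hlim : Tendsto (fun k : ℕ => 1 / ((k : ℝ) + 5)) atTop (𝓝 0) := by
    have h1 : Tendsto (fun k : ℕ => (k : ℝ) + 5) atTop atTop :=
      tendsto_atTop_add_const_right _ _ tendsto_natCast_atTop_atTop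
    simp_rw [one_div]
    exact h1.inv_tendsto_atTop
  refine sharp_core (ν := ν) n (U := (sfi 0)^[n]) ((mp_sfi 0).iterate n)
    (A := fun k => Vs (1 / ((k : ℝ) + 5))) (fun k => meas_Vs _) (fun k => ?_) ?_ ?_ hρ
  · rw [hV k]
    have := hr k
    positivity
  · simp_rw [hV]
    have := (hlim.pow 2).const_mul 16
    simpa using this
  · have hae : ∀ᵐ ω ∂(PP ν), ∀ i, ∃ m : ℤ, 2 * ω i = (m : ℝ) := by
      rw [ae_all_iff]
      intro i
      have h1 : MeasurePreserving (Function.eval i) (PP ν) (ν i) :=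
        measurePreserving_eval_infinitePi ν i
      exact h1.quasiMeasurePreserving.ae (hν i)
    filter_upwards [hae] with ω hω
    have hup : ∀ k : ℕ, (volume : Measure T2).real
        (Vs (1 / ((k : ℝ) + 5)) ∩ (fun p => (sfi 0)^[n] (XT ω n p)) ⁻¹' (Vs (1 / ((k : ℝ) + 5)))) /
          (volume : Measure T2).real (Vs (1 / ((k : ℝ) + 5))) ≤ 1 := by
      intro k
      exact div_le_one_of_le₀ (measureReal_mono inter_subset_left) measureReal_nonneg
    rw [Metric.tendsto_atTop]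
    intro ε hε
    have hδ : 0 < ε / 3 := by linarith
    obtain ⟨r₀, hr₀, h0⟩ := map_Vs hω n hδ
    obtain ⟨K, hK⟩ := (Metric.tendsto_atTop.1 hlim) r₀ hr₀
    refine ⟨K, fun k hk => ?_⟩
    have hkr : 1 / ((k : ℝ) + 5) < r₀ := by
      have := hK k hk
      rw [Real.dist_eq, sub_zero, abs_of_pos (hr k)] at this
      exact this
    have hsub : Vs (1 / ((k : ℝ) + 5) / (1 + ε / 3)) ⊆
        Vs (1 / ((k : ℝ) + 5)) ∩ (fun p => (sfi 0)^[n] (XT ω n p)) ⁻¹' (Vs (1 / ((k : ℝ) + 5))) := by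
      intro p hp
      refine ⟨?_, h0 _ (hr k) hkr p hp⟩
      obtain ⟨v, hv, h1, h2⟩ := hp
      have h3 : 1 / ((k : ℝ) + 5) / (1 + ε / 3) ≤ 1 / ((k : ℝ) + 5) :=
        div_le_self (hr k).le (by linarith)
      exact ⟨v, hv, h1.trans_le h3, h2.trans_le h3⟩
    have hlow : 1 - 2 * (ε / 3) ≤ (volume : Measure T2).real
        (Vs (1 / ((k : ℝ) + 5)) ∩ (fun p => (sfi 0)^[n] (XT ω n p)) ⁻¹' (Vs (1 / ((k : ℝ) + 5)))) /
          (volume : Measure T2).real (Vs (1 / ((k : ℝ) + 5))) := by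
      have h1 := measureReal_mono (μ := (volume : Measure T2)) hsub
      have h3 : 1 / ((k : ℝ) + 5) / (1 + ε / 3) ≤ 1 / ((k : ℝ) + 5) :=
        div_le_self (hr k).le (by linarith)
      rw [vol_Vs (div_pos (hr k) (by linarith)) (h3.trans_lt (hr4 k))] at h1
      rw [hV k]
      have hrk := hr k
      generalize 1 / ((k : ℝ) + 5) = r at h1 hrk ⊢
      rw [le_div_iff₀ (by positivity)]
      refine le_trans ?_ h1
      generalize ε / 3 = d at hδ ⊢
      have hd0 : 0 < d := hδ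
      have e1 : 16 * (r / (1 + d)) ^ 2 = 16 * r ^ 2 / (1 + d) ^ 2 := by rw [div_pow]; ring
      rw [e1, le_div_iff₀ (by positivity)]
      have key : (1 - 2 * d) * (1 + d) ^ 2 ≤ 1 := by nlinarith [mul_pos hd0 hd0, mul_pos (mul_pos hd0 hd0) hd0]
      have hr2 : 0 < 16 * r ^ 2 := by positivity
      nlinarith [mul_le_mul_of_nonneg_left key hr2.le]
    rw [Real.dist_eq, abs_sub_comm, abs_of_nonneg (by linarith [hup k])]
    linarith [hup k]

end Pool.Agent.Helper95.RP
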