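import Mathlib
import Pool.Agent.Helper95.RP.Tr

/-! RP-EST: the three estimates at level 2. -/

set_option autoImplicit false
open MeasureTheory Real Set Filter Topology
open scoped ComplexConjugate ENNReal

namespace Pool.Agent.Helper95.RP

open Pool.Agent.Helper95.RX

attribute [local instance] Pool.Agent.Helper53.SM.instProbU Pool.Agent.Helper53.SM.instProbT2

variable {Z : Type} [MeasurableSpace Z] {μ : Measure Z} [IsProbabilityMeasure μ]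

/-- the three estimates for `[w] = w ∘ Ŝ`, `u = Φ_b(x)[w] + [Lw]`, `T = Φ_a(y) u - [w]`;
`a = a₁` (first step), `b = a₂` (second step), `Ŝ = sf b × θ` -/
structure Est (μ : Measure Z) (g : T2 × Z → ℂ) (a b : ℝ) (θ : Z → Z) (δ : ℝ) : Prop where
  e1 : ∀ (S : Finset (ℤ × ℤ)) (c : ℤ × ℤ → Z → ℂ), Cone S → (∀ ξ, BM (c ξ)) →
    ∀ (M : T2 × Z → ℂ) (K : ℝ), Mu K M →
    ‖IP ((volume : Measure T2).prod μ) g (fun w => (csn w.1.1 : ℂ) *
      (M w * tp S c (sf b w.1, θ w.2)))‖ ≤ δ * (K * Real.sqrt (ns μ S c))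
  e2 : ∀ (S : Finset (ℤ × ℤ)) (c : ℤ × ℤ → Z → ℂ), Cone S → (∀ ξ, BM (c ξ)) →
    ∀ (M : T2 × Z → ℂ) (K : ℝ), Mu K M →
    ‖IP ((volume : Measure T2).prod μ) g (fun w => (csn w.1.2 : ℂ) *
      (M w * ((Phi b w.1.1 : ℂ) * tp S c (sf b w.1, θ w.2) +
        tp S (cm Lr c) (sf b w.1, θ w.2))))‖ ≤ δ * (K * Real.sqrt (ns μ S c))
  e3 : ∀ (S : Finset (ℤ × ℤ)) (c : ℤ × ℤ → Z → ℂ), Cone S → (∀ ξ, BM (c ξ)) →
    ∀ (M : T2 × Z → ℂ) (K : ℝ), Mu K M →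
    ‖IP ((volume : Measure T2).prod μ) g (fun w => (csn (bb a w.1.2 - w.1.1) : ℂ) *
      (M w * ((Phi a w.1.2 : ℂ) * ((Phi b w.1.1 : ℂ) * tp S c (sf b w.1, θ w.2) +
        tp S (cm Lr c) (sf b w.1, θ w.2)) - tp S c (sf b w.1, θ w.2))))‖ ≤
      δ * (K * Real.sqrt (ns μ S c))

private lemma Mu_sw6 {M : T2 × Z → ℂ} {K : ℝ} (hM : Mu K M) : Mu K (fun w => M (sw w)) := by
  obtain ⟨Mx, My, h1, h2⟩ := hM
  exact ⟨_, _, h1.swp, fun w => ⟨(h2 _).1, (h2 _).2.2, (h2 _).2.1⟩⟩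

private lemma norm_Phi6 {b B : ℝ} (hb : |b| ≤ B) (x : UnitAddCircle) :
    ‖((Phi b x : ℝ) : ℂ)‖ ≤ 2 + 2 * π * B := by
  rw [Complex.norm_real, Real.norm_eq_abs]
  unfold Pool.Agent.Helper78.SM.Phi
  have h1 := Pool.Agent.Helper78.SM.abs_csn_le x
  have hpi := Real.pi_pos
  calc |2 + 2 * π * b * csn x| ≤ |(2 : ℝ)| + |2 * π * b * csn x| := abs_add_le _ _
    _ = 2 + 2 * π * (|b| * |csn x|) := by
      rw [abs_mul, abs_mul, abs_of_pos (by positivity : (0 : ℝ) < 2 * π), abs_of_pos (by norm_num : (0 : ℝ) < 2)]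
      ring
    _ ≤ 2 + 2 * π * (B * 1) := by
      have h2 : |b| * |csn x| ≤ B * 1 :=
        mul_le_mul hb h1 (abs_nonneg _) ((abs_nonneg _).trans hb)
      have h3 := mul_le_mul_of_nonneg_left h2 (by positivity : (0 : ℝ) ≤ 2 * π)
      linarith
    _ = 2 + 2 * π * B := by ring

/-- the function `ψ` and its norms -/
private lemma psi6 {b B : ℝ} (hB : 0 ≤ B) (hb : |b| ≤ B) {θ : Z → Z}
    (hθ : MeasurePreserving θ μ μ) {S : Finset (ℤ × ℤ)} (hS : Cone S) {c : ℤ × ℤ → Z → ℂ}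
    (hc : ∀ ξ, BM (c ξ)) :
    C2 (fun w : T2 × Z => tp S (cm (fun ξ => 1 / (ξ.1 : ℝ)) c) (sf b w.1, θ w.2))
      (fun w => (Phi b w.1.1 : ℂ) * tp S c (sf b w.1, θ w.2) + tp S (cm Lr c) (sf b w.1, θ w.2))
      (fun w => -tp S c (sf b w.1, θ w.2)) ∧
    N2 ((volume : Measure T2).prod μ)
      (fun w : T2 × Z => tp S (cm (fun ξ => 1 / (ξ.1 : ℝ)) c) (sf b w.1, θ w.2)) ≤
      (3 + 2 * π * B) * Real.sqrt (ns μ S c) ∧
    N2 ((volume : Measure T2).prod μ) (fun w : T2 × Z =>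
      (Phi b w.1.1 : ℂ) * tp S c (sf b w.1, θ w.2) + tp S (cm Lr c) (sf b w.1, θ w.2)) ≤
      (3 + 2 * π * B) * Real.sqrt (ns μ S c) ∧
    N2 ((volume : Measure T2).prod μ) (fun w : T2 × Z => -tp S c (sf b w.1, θ w.2)) ≤
      (3 + 2 * π * B) * Real.sqrt (ns μ S c) := by
  have hpi : 0 ≤ 2 * π * B := by positivity
  have hs0 := Real.sqrt_nonneg (ns μ S c)
  have hmeas : Measurable (fun w : T2 × Z => ((sf b w.1, θ w.2) : T2 × Z)) :=
    ((continuous_sf b).measurable.comp measurable_fst).prodMk (hθ.measurable.comp measurable_snd)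
  have hcm : ∀ {r : ℤ × ℤ → ℝ}, (∀ ξ ∈ S, |r ξ| ≤ 1) →
      N2 ((volume : Measure T2).prod μ) (fun w : T2 × Z => tp S (cm r c) (sf b w.1, θ w.2)) ≤
        Real.sqrt (ns μ S c) := by
    intro r hr
    have hBM : ∀ ξ, BM (cm r c ξ) := BM_cm hc
    rw [N2_sf b hθ (BM_tp S fun ξ _ => hBM ξ), ← sqrt_ns S fun ξ _ => hBM ξ]
    refine Real.sqrt_le_sqrt ?_
    have h1 := ns_cm_le (μ := μ) hc (R := 1) zero_le_one hr
    rwa [one_pow, one_mul] at h1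
  have h1 : N2 ((volume : Measure T2).prod μ)
      (fun w : T2 × Z => tp S (cm (fun ξ => 1 / (ξ.1 : ℝ)) c) (sf b w.1, θ w.2)) ≤
      Real.sqrt (ns μ S c) := by
    refine hcm fun ξ hξ => ?_
    have h2 : (1 : ℝ) ≤ |(ξ.1 : ℝ)| := by
      have h3 := Int.one_le_abs (hS ξ hξ).1
      exact_mod_cast h3
    rw [abs_div, abs_one]
    exact div_le_one_of_le₀ h2 (abs_nonneg _)
  have h2 : N2 ((volume : Measure T2).prod μ)
      (fun w : T2 × Z => tp S (cm Lr c) (sf b w.1, θ w.2)) ≤ Real.sqrt (ns μ S c) := by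
    refine hcm fun ξ hξ => ?_
    unfold Lr
    rw [abs_div]
    refine div_le_one_of_le₀ ?_ (abs_nonneg _)
    exact_mod_cast (hS ξ hξ).2
  have hX : BM (fun w : T2 × Z => tp S c (sf b w.1, θ w.2)) := (BM_tp S fun ξ _ => hc ξ).comp hmeas
  have hY : BM (fun w : T2 × Z => tp S (cm Lr c) (sf b w.1, θ w.2)) :=
    (BM_tp S fun ξ _ => BM_cm hc ξ).comp hmeas
  have h3 : N2 ((volume : Measure T2).prod μ) (fun w : T2 × Z => tp S c (sf b w.1, θ w.2)) =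
      Real.sqrt (ns μ S c) := by
    rw [N2_sf b hθ (BM_tp S fun ξ _ => hc ξ), ← sqrt_ns S fun ξ _ => hc ξ]
  have hP : BM (fun w : T2 × Z => (Phi b w.1.1 : ℂ)) := (C1.PhiX b).b.1
  refine ⟨(C2.prim hS hc).comp b hθ.measurable, ?_, ?_, ?_⟩
  · nlinarith
  · refine (N2_add_le (hP.mul hX) hY).trans ?_
    have h4 := N2_mul_le (μ := (volume : Measure T2).prod μ) hX hP
      (fun w => norm_Phi6 hb w.1.1)
    rw [h3] at h4
    linarith
  · have h4 : N2 ((volume : Measure T2).prod μ) (fun w : T2 × Z => -tp S c (sf b w.1, θ w.2)) =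
        N2 ((volume : Measure T2).prod μ) (fun w : T2 × Z => tp S c (sf b w.1, θ w.2)) := by
      unfold N2
      simp only [norm_neg]
    rw [h4, h3]
    nlinarith

/-- all three from `KK`, with `ψ = (tp S (c/k)) ∘ Ŝ` (`C2.prim`, `C2.comp`; all norms at most
`(3 + 2πB) √ns`): e1 from `KK` for `g₂ ∘ sw` (`CM.swp`), e2 from `KK` for `g₂`, e3 from
`kk_transport` -/
lemma est_of_kk {a b B : ℝ} (hB : 0 ≤ B) (ha : |a| ≤ B) (hb : |b| ≤ B) {θ₁ θ : Z → Z}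
    (hθ₁ : MeasurePreserving θ₁ μ μ) (hθ : MeasurePreserving θ μ μ) {g₁ g₂ : T2 × Z → ℂ}
    (hg₁ : BM g₁) (hg₂ : BM g₂) {e ε : ℝ} (he : 0 ≤ e) (hε : 0 ≤ ε)
    (h : rl μ g₂ g₁ (sf a) θ₁ e) (hK₁ : KK μ g₁ ε) (hK₂ : KK μ g₂ ε)
    (hK₂' : KK μ (fun w => g₂ (sw w)) ε) :
    Est μ g₂ a b θ ((3 + 2 * π * B) ^ 3 * (ε + e)) := by
  obtain ⟨z0⟩ : Nonempty Z := by
    by_contra hcon
    rw [not_nonempty_iff] at hcon
    have := measure_univ (μ := μ)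
    rw [Set.univ_eq_empty_iff.2 hcon, measure_empty] at this
    exact zero_ne_one this
  have hne : Nonempty Z := ⟨z0⟩
  have hpi : 0 ≤ 2 * π * B := by positivity
  have hfin : ∀ K s : ℝ, 0 ≤ K → 0 ≤ s → ε * (K * ((3 + 2 * π * B) * s)) ≤
      (3 + 2 * π * B) ^ 3 * (ε + e) * (K * s) := by
    intro K s hK hs
    have h1 : 0 ≤ K * s := mul_nonneg hK hs
    have h2 : (3 + 2 * π * B) ≤ (3 + 2 * π * B) ^ 3 := by
      have : (1 : ℝ) ≤ 3 + 2 * π * B := by linarith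
      calc (3 + 2 * π * B) = (3 + 2 * π * B) ^ 1 := (pow_one _).symm
        _ ≤ _ := pow_le_pow_right₀ this (by norm_num)
    have h3 : ε * (3 + 2 * π * B) ≤ (3 + 2 * π * B) ^ 3 * (ε + e) := by
      have h4 : ε * (3 + 2 * π * B) ≤ (ε + e) * (3 + 2 * π * B) ^ 3 :=
        mul_le_mul (by linarith) h2 (by linarith) (by linarith)
      linarith
    have h5 := mul_le_mul_of_nonneg_right h3 h1
    have h6 : ε * (K * ((3 + 2 * π * B) * s)) = ε * (3 + 2 * π * B) * (K * s) := by ring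
    linarith
  refine ⟨?_, ?_, ?_⟩
  · intro S c hS hc M K hM
    obtain ⟨hC2, n0, n1, n2⟩ := psi6 (μ := μ) hB hb hθ hS hc
    obtain ⟨ψxy, hCM⟩ := hC2.toCM
    have hBM0 := hCM.c.b.1
    have hBMx := hCM.c.bx.1
    have hBMy := hCM.c.by'.1
    have h1 := hK₂' (fun w => M (sw w)) K (Mu_sw6 hM) _ _ _ _ hCM.swp _
      (le_of_eq_of_le (N2_comp (g := fun w : T2 × Z => tp S (cm (fun ξ => 1 / (ξ.1 : ℝ)) c)
        (sf b w.1, θ w.2)) mp_sw hBM0.1) n0)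
      (le_of_eq_of_le (N2_comp (g := fun w : T2 × Z => -tp S c (sf b w.1, θ w.2)) mp_sw hBMy.1) n2)
      (le_of_eq_of_le (N2_comp (g := fun w : T2 × Z => (Phi b w.1.1 : ℂ) * tp S c (sf b w.1, θ w.2) +
        tp S (cm Lr c) (sf b w.1, θ w.2)) mp_sw hBMx.1) n1)
    have hMm : Measurable M := by
      obtain ⟨Mx, My, h2, -⟩ := hM
      exact h2.b.1.1
    have hcs : Measurable (fun w : T2 × Z => (csn w.1.1 : ℂ)) := (C1.csnX).b.1.1
    have h2 : IP ((volume : Measure T2).prod μ) (fun w => g₂ (sw w))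
        (fun w : T2 × Z => (fun v : T2 × Z => (csn v.1.1 : ℂ) *
          (M v * (-tp S c (sf b v.1, θ v.2)))) (sw w)) =
        IP ((volume : Measure T2).prod μ) g₂ (fun v : T2 × Z => (csn v.1.1 : ℂ) *
          (M v * (-tp S c (sf b v.1, θ v.2)))) :=
      IP_comp mp_sw hg₂.1 (hcs.mul (hMm.mul hBMy.1))
    have h3 : ‖IP ((volume : Measure T2).prod μ) g₂ (fun v : T2 × Z => (csn v.1.1 : ℂ) *
          (M v * (-tp S c (sf b v.1, θ v.2))))‖ ≤
        ε * (K * ((3 + 2 * π * B) * Real.sqrt (ns μ S c))) := by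
      rw [← h2]
      exact h1
    have h4 : ‖IP ((volume : Measure T2).prod μ) g₂ (fun w => (csn w.1.1 : ℂ) *
        (M w * tp S c (sf b w.1, θ w.2)))‖ =
        ‖IP ((volume : Measure T2).prod μ) g₂ (fun v : T2 × Z => (csn v.1.1 : ℂ) *
          (M v * (-tp S c (sf b v.1, θ v.2))))‖ := by
      have h5 : (fun w : T2 × Z => (csn w.1.1 : ℂ) * (M w * tp S c (sf b w.1, θ w.2))) =
          fun w : T2 × Z => (-1 : ℂ) * ((fun v : T2 × Z => (csn v.1.1 : ℂ) *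
          (M v * (-tp S c (sf b v.1, θ v.2)))) w) := by
        funext w
        ring
      rw [h5, IP_smul_right, norm_mul]
      simp
    rw [h4]
    exact h3.trans (hfin K _ hM.nonneg (Real.sqrt_nonneg _))
  · intro S c hS hc M K hM
    obtain ⟨hC2, n0, n1, n2⟩ := psi6 (μ := μ) hB hb hθ hS hc
    obtain ⟨ψxy, hCM⟩ := hC2.toCM
    exact (hK₂ M K hM _ _ _ _ hCM _ n0 n1 n2).trans (hfin K _ hM.nonneg (Real.sqrt_nonneg _))
  · intro S c hS hc M K hM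
    obtain ⟨hC2, n0, n1, n2⟩ := psi6 (μ := μ) hB hb hθ hS hc
    have h1 := kk_transport hB ha hθ₁ hg₁ hg₂ h hK₁ hM hC2 n0 n1 n2
    refine le_trans (le_of_eq ?_) (h1.trans (le_of_eq ?_))
    · congr 2
    · ring

end Pool.Agent.Helper95.RP
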