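import Mathlib
import Pool.Agent.Helper95.RP.MuA

/-! RP-MUB: the special multipliers. `bb a y = 2y + a sin 2πy`. -/

set_option autoImplicit false
open MeasureTheory Real Set Filter Topology
open scoped ComplexConjugate ENNReal

namespace Pool.Agent.Helper95.RP

open Pool.Agent.Helper95.RX

attribute [local instance] Pool.Agent.Helper53.SM.instProbU Pool.Agent.Helper53.SM.instProbT2

variable {Z : Type} [MeasurableSpace Z]

private lemma bb_coe38 (a t : ℝ) : bb a (t : UnitAddCircle) =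
    ((t + t + a * Real.sin (2 * π * t) : ℝ) : UnitAddCircle) := by
  unfold bb
  rw [snn_coe]
  rfl

private lemma cont_csn38 : Continuous csn := Pool.Agent.Helper78.SM.continuous_csn

private lemma cont_snn38 : Continuous snn := by
  unfold Pool.Agent.Helper78.SM.snn
  have h : Continuous (fun z : Circle => (z : ℂ)) := by fun_prop
  exact Complex.continuous_im.comp (h.comp AddCircle.continuous_toCircle)

private lemma cont_Phi38 (a : ℝ) : Continuous (Phi a) := by
  unfold Pool.Agent.Helper78.SM.Phi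
  exact continuous_const.add (continuous_const.mul cont_csn38)

private lemma abs_csn38 (θ : UnitAddCircle) : |csn θ| ≤ 1 := Pool.Agent.Helper78.SM.abs_csn_le θ

private lemma abs_snn38 (θ : UnitAddCircle) : |snn θ| ≤ 1 := by
  obtain ⟨x, rfl⟩ := QuotientAddGroup.mk_surjective θ
  have h := snn_coe x
  rw [show ((x : ℝ) : UnitAddCircle) = QuotientAddGroup.mk x from rfl] at h
  rw [h]
  exact Real.abs_sin_le_one _

private lemma abs_Phi38 {a B : ℝ} (ha : |a| ≤ B) (θ : UnitAddCircle) : |Phi a θ| ≤ 2 + 2 * π * B := by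
  unfold Pool.Agent.Helper78.SM.Phi
  have hπ := Real.pi_pos
  have h1 : |2 * π * a * csn θ| ≤ 2 * π * B := by
    rw [abs_mul, abs_mul, abs_of_pos (by positivity : (0 : ℝ) < 2 * π)]
    have h2 := abs_csn38 θ
    have h3 : |a| * |csn θ| ≤ B * 1 := mul_le_mul ha h2 (abs_nonneg _) ((abs_nonneg _).trans ha)
    calc 2 * π * |a| * |csn θ| = 2 * π * (|a| * |csn θ|) := by ring
      _ ≤ 2 * π * (B * 1) := mul_le_mul_of_nonneg_left h3 (by positivity)
      _ = 2 * π * B := by ring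
  calc |2 + 2 * π * a * csn θ| ≤ |(2 : ℝ)| + |2 * π * a * csn θ| := abs_add_le _ _
    _ ≤ 2 + 2 * π * B := by
      rw [abs_of_pos (by norm_num : (0 : ℝ) < 2)]
      linarith

private lemma hd_b38 (a t : ℝ) : HasDerivAt (fun t : ℝ => t + t + a * Real.sin (2 * π * t))
    (Pool.Agent.Helper78.SM.phi a t) t := by
  have h1 : HasDerivAt (fun t : ℝ => 2 * π * t) (2 * π) t := by
    simpa using (hasDerivAt_id t).const_mul (2 * π)
  have h2 := (h1.sin).const_mul a
  have h3 := ((hasDerivAt_id' t).add (hasDerivAt_id' t)).add h2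
  refine h3.congr_deriv ?_
  unfold Pool.Agent.Helper78.SM.phi
  ring

private lemma hd_cos38 (a s t : ℝ) : HasDerivAt
    (fun t : ℝ => ((Real.cos (2 * π * (t + t + a * Real.sin (2 * π * t) - s)) : ℝ) : ℂ))
    (2 * π * Complex.I * (Complex.I *
      ((Real.sin (2 * π * (t + t + a * Real.sin (2 * π * t) - s)) : ℝ) : ℂ) *
        ((Pool.Agent.Helper78.SM.phi a t : ℝ) : ℂ))) t := by
  have h1 := ((hd_b38 a t).sub_const s).const_mul (2 * π)
  have h2 := (h1.cos).ofReal_comp
  refine h2.congr_deriv ?_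
  push_cast
  linear_combination (-2 * (π : ℂ) *
    Complex.sin (2 * π * (t + t + a * Complex.sin (2 * π * t) - s)) *
      ((Pool.Agent.Helper78.SM.phi a t : ℝ) : ℂ)) * Complex.I_sq

private lemma hd_sin38 (a s t : ℝ) : HasDerivAt
    (fun t : ℝ => ((Real.sin (2 * π * (t + t + a * Real.sin (2 * π * t) - s)) : ℝ) : ℂ))
    (2 * π * Complex.I * (-Complex.I *
      ((Real.cos (2 * π * (t + t + a * Real.sin (2 * π * t) - s)) : ℝ) : ℂ) *
        ((Pool.Agent.Helper78.SM.phi a t : ℝ) : ℂ))) t := by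
  have h1 := ((hd_b38 a t).sub_const s).const_mul (2 * π)
  have h2 := (h1.sin).ofReal_comp
  refine h2.congr_deriv ?_
  push_cast
  linear_combination (2 * (π : ℂ) *
    Complex.cos (2 * π * (t + t + a * Complex.sin (2 * π * t) - s)) *
      ((Pool.Agent.Helper78.SM.phi a t : ℝ) : ℂ)) * Complex.I_sq

private lemma hd_cosx38 (b x : ℝ) : HasDerivAt
    (fun x : ℝ => ((Real.cos (2 * π * (b - x)) : ℝ) : ℂ))
    (2 * π * Complex.I * (-Complex.I *
      ((Real.sin (2 * π * (b - x)) : ℝ) : ℂ))) x := by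
  have h1 := ((hasDerivAt_id' x).const_sub b).const_mul (2 * π)
  have h2 := (h1.cos).ofReal_comp
  refine h2.congr_deriv ?_
  push_cast
  linear_combination (2 * (π : ℂ) * Complex.sin (2 * π * (b - x))) * Complex.I_sq

private lemma norm_I38 (r : ℝ) : ‖Complex.I * (r : ℂ)‖ = |r| := by
  rw [norm_mul, Complex.norm_I, one_mul, Complex.norm_real, Real.norm_eq_abs]

private lemma norm_nI38 (r : ℝ) : ‖-Complex.I * (r : ℂ)‖ = |r| := by
  rw [norm_mul, norm_neg, Complex.norm_I, one_mul, Complex.norm_real, Real.norm_eq_abs]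

private lemma norm_IP38 {a B : ℝ} (ha : |a| ≤ B) (θ : UnitAddCircle) {r : ℝ} (hr : |r| ≤ 1) :
    ‖Complex.I * (r : ℂ) * (Phi a θ : ℂ)‖ ≤ 2 + 2 * π * B := by
  rw [norm_mul, norm_I38, Complex.norm_real, Real.norm_eq_abs]
  have h := abs_Phi38 ha θ
  calc |r| * |Phi a θ| ≤ 1 * (2 + 2 * π * B) := mul_le_mul hr h (abs_nonneg _) zero_le_one
    _ = 2 + 2 * π * B := one_mul _

private lemma norm_nIP38 {a B : ℝ} (ha : |a| ≤ B) (θ : UnitAddCircle) {r : ℝ} (hr : |r| ≤ 1) :
    ‖-Complex.I * (r : ℂ) * (Phi a θ : ℂ)‖ ≤ 2 + 2 * π * B := by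
  rw [norm_mul, norm_nI38, Complex.norm_real, Real.norm_eq_abs]
  have h := abs_Phi38 ha θ
  calc |r| * |Phi a θ| ≤ 1 * (2 + 2 * π * B) := mul_le_mul hr h (abs_nonneg _) zero_le_one
    _ = 2 + 2 * π * B := one_mul _

private lemma one_le38 {a B : ℝ} (ha : |a| ≤ B) : 1 ≤ 2 + 2 * π * B := by
  have hπ := Real.pi_pos
  have hB : 0 ≤ B := (abs_nonneg _).trans ha
  have : 0 ≤ 2 * π * B := by positivity
  linarith

/-- `P = cos 2π(bb a y)`, derivative `i sin(...) Phi a y` (chain rule on the real line) -/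
lemma Mu.P {a B : ℝ} (ha : |a| ≤ B) : Mu (2 + 2 * π * B)
    (fun w : T2 × Z => (csn (bb a w.1.2) : ℂ)) := by
  have hc2 : Continuous fun p : T2 => bb a p.2 := (continuous_bb a).comp continuous_snd
  refine ⟨fun _ => 0, fun w => Complex.I * (snn (bb a w.1.2) : ℂ) * (Phi a w.1.2 : ℂ),
    ⟨?_, ?_, ?_, ?_, ?_⟩, ?_⟩
  · exact CB.of_torus (f := fun p : T2 => (csn (bb a p.2) : ℂ))
      (Complex.continuous_ofReal.comp (cont_csn38.comp hc2))
  · exact CB.const 0
  · exact CB.of_torus (f := fun p : T2 => Complex.I * (snn (bb a p.2) : ℂ) * (Phi a p.2 : ℂ))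
      ((continuous_const.mul (Complex.continuous_ofReal.comp (cont_snn38.comp hc2))).mul
        (Complex.continuous_ofReal.comp ((cont_Phi38 a).comp continuous_snd)))
  · intro x y z
    exact (hasDerivAt_const x ((csn (bb a (y : UnitAddCircle)) : ℝ) : ℂ)).congr_deriv (by simp)
  · intro x y z
    have h := hd_cos38 a 0 y
    simp only [sub_zero] at h
    refine (h.congr_of_eventuallyEq (Filter.Eventually.of_forall fun t => ?_)).congr_deriv ?_
    · simp only [Pool.Agent.Helper78.SM.mk2]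
      rw [bb_coe38, csn_coe]
    · simp only [Pool.Agent.Helper78.SM.mk2]
      rw [bb_coe38, snn_coe, Phi_coe]
  · intro w
    have h1 := one_le38 ha
    refine ⟨?_, ?_, norm_IP38 ha _ (abs_snn38 _)⟩
    · simp only [Complex.norm_real, Real.norm_eq_abs]
      exact (abs_csn38 _).trans h1
    · simp only [norm_zero]
      linarith

lemma Mu.Q {a B : ℝ} (ha : |a| ≤ B) : Mu (2 + 2 * π * B)
    (fun w : T2 × Z => (snn (bb a w.1.2) : ℂ)) := by
  have hc2 : Continuous fun p : T2 => bb a p.2 := (continuous_bb a).comp continuous_snd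
  refine ⟨fun _ => 0, fun w => -Complex.I * (csn (bb a w.1.2) : ℂ) * (Phi a w.1.2 : ℂ),
    ⟨?_, ?_, ?_, ?_, ?_⟩, ?_⟩
  · exact CB.of_torus (f := fun p : T2 => (snn (bb a p.2) : ℂ))
      (Complex.continuous_ofReal.comp (cont_snn38.comp hc2))
  · exact CB.const 0
  · exact CB.of_torus (f := fun p : T2 => -Complex.I * (csn (bb a p.2) : ℂ) * (Phi a p.2 : ℂ))
      ((continuous_const.mul (Complex.continuous_ofReal.comp (cont_csn38.comp hc2))).mul
        (Complex.continuous_ofReal.comp ((cont_Phi38 a).comp continuous_snd)))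
  · intro x y z
    exact (hasDerivAt_const x ((snn (bb a (y : UnitAddCircle)) : ℝ) : ℂ)).congr_deriv (by simp)
  · intro x y z
    have h := hd_sin38 a 0 y
    simp only [sub_zero] at h
    refine (h.congr_of_eventuallyEq (Filter.Eventually.of_forall fun t => ?_)).congr_deriv ?_
    · simp only [Pool.Agent.Helper78.SM.mk2]
      rw [bb_coe38, snn_coe]
    · simp only [Pool.Agent.Helper78.SM.mk2]
      rw [bb_coe38, csn_coe, Phi_coe]
  · intro w
    have h1 := one_le38 ha
    refine ⟨?_, ?_, norm_nIP38 ha _ (abs_csn38 _)⟩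
    · simp only [Complex.norm_real, Real.norm_eq_abs]
      exact (abs_snn38 _).trans h1
    · simp only [norm_zero]
      linarith

private lemma coe_sub38 (b x : ℝ) : ((b : ℝ) : UnitAddCircle) - ((x : ℝ) : UnitAddCircle) =
    ((b - x : ℝ) : UnitAddCircle) := rfl

/-- `c₃ = cos 2π(bb a y - x)` -/
lemma Mu.c3 {a B : ℝ} (ha : |a| ≤ B) : Mu (2 + 2 * π * B)
    (fun w : T2 × Z => (csn (bb a w.1.2 - w.1.1) : ℂ)) := by
  have hc2 : Continuous fun p : T2 => bb a p.2 - p.1 :=
    ((continuous_bb a).comp continuous_snd).sub continuous_fst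
  refine ⟨fun w => -Complex.I * (snn (bb a w.1.2 - w.1.1) : ℂ),
    fun w => Complex.I * (snn (bb a w.1.2 - w.1.1) : ℂ) * (Phi a w.1.2 : ℂ),
    ⟨?_, ?_, ?_, ?_, ?_⟩, ?_⟩
  · exact CB.of_torus (f := fun p : T2 => (csn (bb a p.2 - p.1) : ℂ))
      (Complex.continuous_ofReal.comp (cont_csn38.comp hc2))
  · exact CB.of_torus (f := fun p : T2 => -Complex.I * (snn (bb a p.2 - p.1) : ℂ))
      (continuous_const.mul (Complex.continuous_ofReal.comp (cont_snn38.comp hc2)))
  · exact CB.of_torus (f := fun p : T2 => Complex.I * (snn (bb a p.2 - p.1) : ℂ) * (Phi a p.2 : ℂ))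
      ((continuous_const.mul (Complex.continuous_ofReal.comp (cont_snn38.comp hc2))).mul
        (Complex.continuous_ofReal.comp ((cont_Phi38 a).comp continuous_snd)))
  · intro x y z
    have h := hd_cosx38 (y + y + a * Real.sin (2 * π * y)) x
    refine (h.congr_of_eventuallyEq (Filter.Eventually.of_forall fun t => ?_)).congr_deriv ?_
    · simp only [Pool.Agent.Helper78.SM.mk2]
      rw [bb_coe38, coe_sub38, csn_coe]
    · simp only [Pool.Agent.Helper78.SM.mk2]
      rw [bb_coe38, coe_sub38, snn_coe]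
  · intro x y z
    have h := hd_cos38 a x y
    refine (h.congr_of_eventuallyEq (Filter.Eventually.of_forall fun t => ?_)).congr_deriv ?_
    · simp only [Pool.Agent.Helper78.SM.mk2]
      rw [bb_coe38, coe_sub38, csn_coe]
    · simp only [Pool.Agent.Helper78.SM.mk2]
      rw [bb_coe38, coe_sub38, snn_coe, Phi_coe]
  · intro w
    have h1 := one_le38 ha
    refine ⟨?_, ?_, norm_IP38 ha _ (abs_snn38 _)⟩
    · simp only [Complex.norm_real, Real.norm_eq_abs]
      exact (abs_csn38 _).trans h1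
    · simp only [norm_nI38]
      exact (abs_snn38 _).trans h1

/-- `Q² + c₂²` is bounded below: if `|cos 2πy| < τ = s/(8 + 4πB)` then
`sin 2π(bb a y) = sin 4πy cos(2πa sin 2πy) + cos 4πy sin(2πa sin 2πy)` with `|sin 4πy| ≤ 2τ`,
`|cos 4πy| ≥ 1 - 2τ²`, `|sin(2πa sin 2πy)| ≥ |sin 2πa| - 2π|a|τ²`, so it is `≥ s/2` in absolute value -/
lemma lower {a B s : ℝ} (hB : 0 ≤ B) (hs : 0 < s) (hs1 : s ≤ 1) (ha : |a| ≤ B)
    (h : s ≤ |Real.sin (2 * π * a)|) (θ : UnitAddCircle) :
    (s / (8 + 4 * π * B)) ^ 2 ≤ snn (bb a θ) ^ 2 + csn θ ^ 2 := by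
  obtain ⟨y, rfl⟩ := QuotientAddGroup.mk_surjective θ
  rw [show (QuotientAddGroup.mk y : UnitAddCircle) = ((y : ℝ) : UnitAddCircle) from rfl,
    bb_coe38, snn_coe, csn_coe]
  have hπ := Real.pi_pos
  have hD : 0 < 8 + 4 * π * B := by positivity
  set τ : ℝ := s / (8 + 4 * π * B) with hτ
  have hτ0 : 0 < τ := by positivity
  have hτs : τ * (8 + 4 * π * B) = s := by
    rw [hτ]; field_simp
  have hτB : 0 ≤ τ * (4 * π * B) := by positivity
  have hτ8 : 8 * τ ≤ s := by nlinarith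
  have hτ4 : τ * (4 * π * B) ≤ s := by nlinarith
  set c := Real.cos (2 * π * y) with hc
  set σ := Real.sin (2 * π * y) with hσ
  have hcs : σ ^ 2 + c ^ 2 = 1 := Real.sin_sq_add_cos_sq _
  by_cases hcτ : τ ≤ |c|
  · have h1 : τ ^ 2 ≤ c ^ 2 := by
      rw [← sq_abs c]
      exact pow_le_pow_left₀ hτ0.le hcτ 2
    nlinarith [sq_nonneg (Real.sin (2 * π * (y + y + a * σ)))]
  · push Not at hcτ
    have hc2 : c ^ 2 ≤ τ ^ 2 := by
      rw [← sq_abs c]
      exact pow_le_pow_left₀ (abs_nonneg _) hcτ.le 2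
    have hσ1 : |σ| ≤ 1 := Real.abs_sin_le_one _
    have hσ2 : 1 - |σ| ≤ τ ^ 2 := by
      have h1 : |σ| ^ 2 = σ ^ 2 := sq_abs σ
      nlinarith [abs_nonneg σ]
    have e1 : Real.sin (2 * π * (y + y + a * σ)) =
        (2 * σ * c) * Real.cos (2 * π * a * σ) + (2 * c ^ 2 - 1) * Real.sin (2 * π * a * σ) := by
      rw [show 2 * π * (y + y + a * σ) = 2 * (2 * π * y) + 2 * π * a * σ by ring, Real.sin_add,
        Real.sin_two_mul, Real.cos_two_mul]
    have e2 : |Real.sin (2 * π * a * σ)| = |Real.sin (2 * π * a * |σ|)| := by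
      rcases le_total 0 σ with h0 | h0
      · rw [abs_of_nonneg h0]
      · rw [abs_of_nonpos h0, mul_neg, Real.sin_neg, abs_neg]
    have e3 : |Real.sin (2 * π * a) - Real.sin (2 * π * a * |σ|)| ≤ 2 * π * B * τ ^ 2 := by
      have h1 := Real.abs_sin_sub_sin_le (2 * π * a) (2 * π * a * |σ|)
      refine h1.trans ?_
      rw [show 2 * π * a - 2 * π * a * |σ| = 2 * π * a * (1 - |σ|) by ring, abs_mul, abs_mul,
        abs_of_pos (by positivity : (0 : ℝ) < 2 * π), abs_of_nonneg (by linarith : 0 ≤ 1 - |σ|)]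
      have h2 : |a| * (1 - |σ|) ≤ B * τ ^ 2 := mul_le_mul ha hσ2 (by linarith) hB
      calc 2 * π * |a| * (1 - |σ|) = 2 * π * (|a| * (1 - |σ|)) := by ring
        _ ≤ 2 * π * (B * τ ^ 2) := mul_le_mul_of_nonneg_left h2 (by positivity)
        _ = 2 * π * B * τ ^ 2 := by ring
    have e4 : s - 2 * π * B * τ ^ 2 ≤ |Real.sin (2 * π * a * σ)| := by
      rw [e2]
      have h1 := abs_sub_abs_le_abs_sub (Real.sin (2 * π * a)) (Real.sin (2 * π * a * |σ|))
      linarith
    have e5 : 2 * π * B * τ ^ 2 ≤ s / 16 := by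
      have h1 : 2 * π * B * τ ^ 2 = τ * (τ * (4 * π * B)) / 2 := by ring
      rw [h1]
      have h2 : τ * (τ * (4 * π * B)) ≤ (1 / 8) * s :=
        mul_le_mul (by linarith) hτ4 hτB (by norm_num)
      linarith
    have e6 : 15 / 16 * s ≤ |Real.sin (2 * π * a * σ)| := by linarith
    have e7 : 31 / 32 ≤ |2 * c ^ 2 - 1| := by
      have h1 : c ^ 2 ≤ 1 / 64 := by nlinarith
      rw [abs_sub_comm, abs_of_nonneg (by linarith)]
      linarith
    have e8 : |(2 * σ * c) * Real.cos (2 * π * a * σ)| ≤ s / 4 := by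
      rw [abs_mul, abs_mul, abs_mul, abs_of_pos (by norm_num : (0 : ℝ) < 2)]
      have h1 : |σ| * |c| ≤ 1 * τ := mul_le_mul hσ1 hcτ.le (abs_nonneg _) zero_le_one
      have h2 : (2 * |σ| * |c|) * |Real.cos (2 * π * a * σ)| ≤ (2 * τ) * 1 :=
        mul_le_mul (by nlinarith) (Real.abs_cos_le_one _) (abs_nonneg _) (by positivity)
      linarith
    have e9 : 31 / 32 * (15 / 16 * s) ≤ |(2 * c ^ 2 - 1) * Real.sin (2 * π * a * σ)| := by
      rw [abs_mul]
      exact mul_le_mul e7 e6 (by positivity) (abs_nonneg _)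
    have e10 : τ ≤ |Real.sin (2 * π * (y + y + a * σ))| := by
      rw [e1]
      have h1 := abs_sub_abs_le_abs_sub ((2 * c ^ 2 - 1) * Real.sin (2 * π * a * σ))
        (-((2 * σ * c) * Real.cos (2 * π * a * σ)))
      rw [abs_neg, sub_neg_eq_add] at h1
      rw [add_comm]
      linarith
    have e11 : τ ^ 2 ≤ Real.sin (2 * π * (y + y + a * σ)) ^ 2 := by
      rw [← sq_abs (Real.sin (2 * π * (y + y + a * σ)))]
      exact pow_le_pow_left₀ hτ0.le e10 2
    nlinarith [sq_nonneg c]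

/-- `Q² = c₃² + c₁ (c₁ - 2 c₃ P)` -/
lemma Q_sq (a : ℝ) (w : T2 × Z) :
    snn (bb a w.1.2) ^ 2 = csn (bb a w.1.2 - w.1.1) ^ 2 +
      csn w.1.1 * (csn w.1.1 - 2 * csn (bb a w.1.2 - w.1.1) * csn (bb a w.1.2)) := by
  obtain ⟨b, hb⟩ := QuotientAddGroup.mk_surjective (bb a w.1.2)
  obtain ⟨x, hx⟩ := QuotientAddGroup.mk_surjective w.1.1
  rw [← hb, ← hx]
  rw [show (QuotientAddGroup.mk b : UnitAddCircle) = ((b : ℝ) : UnitAddCircle) from rfl,
    show (QuotientAddGroup.mk x : UnitAddCircle) = ((x : ℝ) : UnitAddCircle) from rfl,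
    coe_sub38, snn_coe, csn_coe, csn_coe, csn_coe, mul_sub, Real.cos_sub]
  have h1 := Real.sin_sq_add_cos_sq (2 * π * b)
  have h2 := Real.sin_sq_add_cos_sq (2 * π * x)
  set P := Real.cos (2 * π * b)
  set Q := Real.sin (2 * π * b)
  set c := Real.cos (2 * π * x)
  set t := Real.sin (2 * π * x)
  linear_combination (c ^ 2) * h1 + (-Q ^ 2) * h2

end Pool.Agent.Helper95.RP
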