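import Mathlib
import Pool.Agent.Helper95.RP.MuB

/-! RP-MUC: the six multipliers of the algebra, with uniform bounds. -/

set_option autoImplicit false
open MeasureTheory Real Set Filter Topology
open scoped ComplexConjugate ENNReal

namespace Pool.Agent.Helper95.RP

open Pool.Agent.Helper95.RX

attribute [local instance] Pool.Agent.Helper53.SM.instProbU Pool.Agent.Helper53.SM.instProbT2

/-- `m = 1/(Q² + c₂²)` -/
noncomputable def mm (a : ℝ) (θ : UnitAddCircle) : ℝ := 1 / (snn (bb a θ) ^ 2 + csn θ ^ 2)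

private lemma inv_bd62 {κ v : ℝ} (hκ : 0 < κ) (h : κ ≤ v) (n : ℕ) :
    ‖((1 / v ^ n : ℝ) : ℂ)‖ ≤ 1 / κ ^ n := by
  have h3 : κ ^ n ≤ v ^ n := pow_le_pow_left₀ hκ.le h n
  have h4 : 0 < κ ^ n := pow_pos hκ n
  have h5 : 0 < v ^ n := lt_of_lt_of_le h4 h3
  rw [Complex.norm_real, Real.norm_of_nonneg (one_div_pos.2 h5).le]
  exact one_div_le_one_div_of_le h4 h3

/-- `C1.inv`, `lower` -/
lemma Mu_mm {B s : ℝ} (hB : 0 ≤ B) (hs : 0 < s) (hs1 : s ≤ 1) : ∃ K : ℝ, 0 ≤ K ∧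
    ∀ {Z : Type} [MeasurableSpace Z] (a : ℝ), |a| ≤ B → s ≤ |Real.sin (2 * π * a)| →
      Mu K (fun w : T2 × Z => (mm a w.1.2 : ℂ)) := by
  have hπ := Real.pi_pos
  have hP0 : 0 ≤ 2 + 2 * π * B := by positivity
  have hκ : 0 < (s / (8 + 4 * π * B)) ^ 2 := by positivity
  generalize hκd : (s / (8 + 4 * π * B)) ^ 2 = κ at hκ
  have hK1 : 0 ≤ 2 * (2 + 2 * π * B) * (2 + 2 * π * B) + 2 * 1 * 1 := by positivity
  generalize hK1d : 2 * (2 + 2 * π * B) * (2 + 2 * π * B) + 2 * 1 * 1 = K1 at hK1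
  refine ⟨1 / κ ^ 1 + K1 * (1 / κ ^ 2), by positivity, ?_⟩
  intro Z _ a ha hsa
  have hM : Mu K1 (fun w : T2 × Z => ((snn (bb a w.1.2) ^ 2 + csn w.1.2 ^ 2 : ℝ) : ℂ)) := by
    rw [← hK1d]
    refine Mu.congr ((Mu.mul hP0 hP0 (Mu.Q ha) (Mu.Q ha)).add
      (Mu.mul zero_le_one zero_le_one Mu.csnY Mu.csnY)) fun w => ?_
    push_cast
    ring
  obtain ⟨Mx, My, h1, h2⟩ := hM
  have hlow : ∀ w : T2 × Z, κ ≤ snn (bb a w.1.2) ^ 2 + csn w.1.2 ^ 2 := fun w => by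
    rw [← hκd]
    exact lower hB hs hs1 ha hsa w.1.2
  have h3 := C1.inv (f := fun w : T2 × Z => snn (bb a w.1.2) ^ 2 + csn w.1.2 ^ 2) h1 hκ hlow
  refine ⟨_, _, h3, fun w => ⟨?_, ?_, ?_⟩⟩
  · have h4 := inv_bd62 hκ (hlow w) 1
    simp only [pow_one] at h4 ⊢
    exact h4.trans (le_add_of_nonneg_right (by positivity))
  · rw [norm_neg, norm_mul]
    exact (mul_le_mul (h2 w).2.1 (inv_bd62 hκ (hlow w) 2) (norm_nonneg _) hK1).trans
      (le_add_of_nonneg_left (by positivity))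
  · rw [norm_neg, norm_mul]
    exact (mul_le_mul (h2 w).2.2 (inv_bd62 hκ (hlow w) 2) (norm_nonneg _) hK1).trans
      (le_add_of_nonneg_left (by positivity))

/-- the six multipliers (`Mu.mul`, `Mu.add`, ...; `a = a₁`, `b = a₂`) -/
lemma Mu_six {B s : ℝ} (hB : 0 ≤ B) (hs : 0 < s) (hs1 : s ≤ 1) : ∃ K : ℝ, 0 ≤ K ∧
    ∀ {Z : Type} [MeasurableSpace Z] (a b : ℝ), |a| ≤ B → |b| ≤ B → s ≤ |Real.sin (2 * π * a)| →
      Mu K (fun w : T2 × Z => ((mm a w.1.2 * csn w.1.2 : ℝ) : ℂ)) ∧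
      Mu K (fun w : T2 × Z => ((2 * π * b * (mm a w.1.2 * csn w.1.2 ^ 2) : ℝ) : ℂ)) ∧
      Mu K (fun w : T2 × Z => ((mm a w.1.2 * (csn w.1.1 -
        2 * csn (bb a w.1.2 - w.1.1) * csn (bb a w.1.2)) : ℝ) : ℂ)) ∧
      Mu K (fun w : T2 × Z => ((mm a w.1.2 * csn (bb a w.1.2 - w.1.1) : ℝ) : ℂ)) ∧
      Mu K (fun w : T2 × Z => ((2 * (2 * π * b) * (mm a w.1.2 *
        csn (bb a w.1.2 - w.1.1) ^ 2) : ℝ) : ℂ)) ∧
      Mu K (fun w : T2 × Z => ((2 * π * a * (mm a w.1.2 *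
        csn (bb a w.1.2 - w.1.1) ^ 2) : ℝ) : ℂ)) := by
  have hπ := Real.pi_pos
  obtain ⟨K1, hK1, hmm⟩ := Mu_mm hB hs hs1
  have hP0 : 0 ≤ 2 + 2 * π * B := by positivity
  generalize hPd : 2 + 2 * π * B = P at hP0
  have hP1 : ∀ {Z : Type} [MeasurableSpace Z] {a : ℝ}, |a| ≤ B →
      Mu P (fun w : T2 × Z => (csn (bb a w.1.2) : ℂ)) := fun {Z} _ {a} ha => by
    rw [← hPd]
    exact Mu.P ha
  have hP3 : ∀ {Z : Type} [MeasurableSpace Z] {a : ℝ}, |a| ≤ B →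
      Mu P (fun w : T2 × Z => (csn (bb a w.1.2 - w.1.1) : ℂ)) := fun {Z} _ {a} ha => by
    rw [← hPd]
    exact Mu.c3 ha
  have hn : ∀ r : ℝ, |r| ≤ B → ‖((2 * π * r : ℝ) : ℂ)‖ ≤ 2 * π * B := fun r hr => by
    rw [Complex.norm_real, Real.norm_eq_abs, abs_mul, abs_of_pos (by positivity : 0 < 2 * π)]
    exact mul_le_mul_of_nonneg_left hr (by positivity)
  have hn2 : ∀ r : ℝ, |r| ≤ B → ‖((2 * (2 * π * r) : ℝ) : ℂ)‖ ≤ 2 * (2 * π * B) := fun r hr => by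
    rw [Complex.norm_real, Real.norm_eq_abs, abs_mul, abs_mul,
      abs_of_pos (by positivity : 0 < 2 * π), abs_of_pos (by norm_num : (0 : ℝ) < 2)]
    exact mul_le_mul_of_nonneg_left (mul_le_mul_of_nonneg_left hr (by positivity)) (by norm_num)
  have e1 : 0 ≤ 2 * K1 * 1 := by positivity
  have e2 : 0 ≤ 2 * π * B * (2 * K1 * (2 * 1 * 1)) := by positivity
  have e3 : 0 ≤ 2 * K1 * (1 + ‖(2 : ℂ)‖ * (2 * P * P)) := by positivity
  have e4 : 0 ≤ 2 * K1 * P := by positivity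
  have e5 : 0 ≤ 2 * (2 * π * B) * (2 * K1 * (2 * P * P)) := by positivity
  have e6 : 0 ≤ 2 * π * B * (2 * K1 * (2 * P * P)) := by positivity
  refine ⟨2 * K1 * 1 + 2 * π * B * (2 * K1 * (2 * 1 * 1)) +
    2 * K1 * (1 + ‖(2 : ℂ)‖ * (2 * P * P)) + 2 * K1 * P +
    2 * (2 * π * B) * (2 * K1 * (2 * P * P)) + 2 * π * B * (2 * K1 * (2 * P * P)),
    by positivity, ?_⟩
  intro Z _ a b ha hb hsa
  have m1 : Mu K1 (fun w : T2 × Z => (mm a w.1.2 : ℂ)) := hmm a ha hsa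
  have m2 : Mu 1 (fun w : T2 × Z => (csn w.1.2 : ℂ)) := Mu.csnY
  have m3 : Mu 1 (fun w : T2 × Z => (csn w.1.1 : ℂ)) := Mu.csnX
  have m4 : Mu P (fun w : T2 × Z => (csn (bb a w.1.2) : ℂ)) := hP1 ha
  have m5 : Mu P (fun w : T2 × Z => (csn (bb a w.1.2 - w.1.1) : ℂ)) := hP3 ha
  have q2 := Mu.mul zero_le_one zero_le_one m2 m2
  have q5 := Mu.mul hP0 hP0 m5 m5
  have r2 := Mu.mul hK1 (by norm_num) m1 q2
  have r5 := Mu.mul hK1 (by positivity) m1 q5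
  have q45 := Mu.smul (2 : ℂ) (Mu.mul hP0 hP0 m5 m4)
  refine ⟨?_, ?_, ?_, ?_, ?_, ?_⟩
  · refine ((Mu.mul hK1 zero_le_one m1 m2).mono (by linarith)).congr fun w => ?_
    push_cast
    ring
  · refine ((Mu.smul ((2 * π * b : ℝ) : ℂ) r2).mono ?_).congr fun w => ?_
    · have := mul_le_mul_of_nonneg_right (hn b hb)
        (by positivity : 0 ≤ 2 * K1 * (2 * 1 * 1))
      linarith
    · push_cast
      ring
  · refine ((Mu.mul hK1 (by positivity) m1 (m3.sub q45)).mono (by linarith)).congr fun w => ?_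
    push_cast
    ring
  · refine ((Mu.mul hK1 hP0 m1 m5).mono (by linarith)).congr fun w => ?_
    push_cast
    ring
  · refine ((Mu.smul ((2 * (2 * π * b) : ℝ) : ℂ) r5).mono ?_).congr fun w => ?_
    · have := mul_le_mul_of_nonneg_right (hn2 b hb)
        (by positivity : 0 ≤ 2 * K1 * (2 * P * P))
      linarith
    · push_cast
      ring
  · refine ((Mu.smul ((2 * π * a : ℝ) : ℂ) r5).mono ?_).congr fun w => ?_
    · have := mul_le_mul_of_nonneg_right (hn a ha)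
        (by positivity : 0 ≤ 2 * K1 * (2 * P * P))
      linarith
    · push_cast
      ring

end Pool.Agent.Helper95.RP
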