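import Mathlib
import Pool.Agent.Helper95.RP.Est
import Pool.Agent.Helper95.RP.MuC

/-! RP-ALG: the algebra. -/

set_option autoImplicit false
open MeasureTheory Real Set Filter Topology
open scoped ComplexConjugate ENNReal

namespace Pool.Agent.Helper95.RP

open Pool.Agent.Helper95.RX

attribute [local instance] Pool.Agent.Helper53.SM.instProbU Pool.Agent.Helper53.SM.instProbT2

/-- pointwise identity (`W = [w]`, `LW = [Lw]`, `V = 3W + 2LW = 2W' + LW'`): with `c₁, c₂, c₃, P, Q`,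
`α = 2πa`, `β = 2πb`, `u = (2 + βc₁)W + LW`, `u' = (2 + βc₁)W' + LW'`, `T = (2 + αc₂)u - W`,
`m (Q² + c₂²) = 1`, `Q² = c₃² + c₁(c₁ - 2c₃P)`. -/
lemma alg_id {c₁ c₂ c₃ P Q2 m α β W LW V W' LW' u u' T : ℂ} (hm : m * (Q2 + c₂ ^ 2) = 1)
    (hQ : Q2 = c₃ ^ 2 + c₁ * (c₁ - 2 * c₃ * P)) (hV : V = 3 * W + 2 * LW)
    (hV' : V = 2 * W' + LW') (hu : u = (2 + β * c₁) * W + LW)
    (hu' : u' = (2 + β * c₁) * W' + LW') (hT : T = (2 + α * c₂) * u - W) :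
    V = c₂ * ((m * c₂) * u') - c₁ * ((β * (m * c₂ ^ 2)) * W') +
      c₁ * ((m * (c₁ - 2 * c₃ * P)) * V) + c₃ * ((m * c₃) * T) -
      c₁ * ((2 * β * (m * c₃ ^ 2)) * W) - c₂ * ((α * (m * c₃ ^ 2)) * u) := by
  have e1 : u' - β * c₁ * W' = V := by rw [hu', hV']; ring
  have e2 : T - 2 * β * c₁ * W - α * c₂ * u = V := by rw [hT, hu, hV]; ring
  linear_combination (-V) * hm + m * V * hQ - m * c₂ ^ 2 * e1 - m * c₃ ^ 2 * e2

section aux

variable {X : Type} [MeasurableSpace X] {ρ : Measure X} [IsProbabilityMeasure ρ]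

private lemma IP_sub_right65 {f g h : X → ℂ} (hf : BM f) (hg : BM g) (hh : BM h) :
    IP ρ f (fun w => g w - h w) = IP ρ f g - IP ρ f h := by
  have e : (fun w => g w - h w) = fun w => g w + (-1) * h w := by
    funext w; ring
  rw [e, IP_add_right hf hg (hh.smul (-1)), IP_smul_right]
  simp only [map_neg, map_one]
  ring

private lemma IP_six65 {f f1 f2 f3 f4 f5 f6 v : X → ℂ} (hf : BM f) (h1 : BM f1) (h2 : BM f2)
    (h3 : BM f3) (h4 : BM f4) (h5 : BM f5) (h6 : BM f6)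
    (hv : ∀ w, v w = f1 w - f2 w + f3 w + f4 w - f5 w - f6 w) {x : ℝ}
    (i1 : ‖IP ρ f f1‖ ≤ x) (i2 : ‖IP ρ f f2‖ ≤ x) (i3 : ‖IP ρ f f3‖ ≤ x) (i4 : ‖IP ρ f f4‖ ≤ x)
    (i5 : ‖IP ρ f f5‖ ≤ x) (i6 : ‖IP ρ f f6‖ ≤ x) : ‖IP ρ f v‖ ≤ 6 * x := by
  have e : v = fun w => f1 w - f2 w + f3 w + f4 w - f5 w - f6 w := funext hv
  rw [e, IP_sub_right65 hf (((((h1.sub h2).add h3).add h4).sub h5)) h6,
    IP_sub_right65 hf ((((h1.sub h2).add h3).add h4)) h5,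
    IP_add_right hf (((h1.sub h2).add h3)) h4, IP_add_right hf (h1.sub h2) h3,
    IP_sub_right65 hf h1 h2]
  have t1 := norm_sub_le (IP ρ f f1 - IP ρ f f2 + IP ρ f f3 + IP ρ f f4 - IP ρ f f5) (IP ρ f f6)
  have t2 := norm_sub_le (IP ρ f f1 - IP ρ f f2 + IP ρ f f3 + IP ρ f f4) (IP ρ f f5)
  have t3 := norm_add_le (IP ρ f f1 - IP ρ f f2 + IP ρ f f3) (IP ρ f f4)
  have t4 := norm_add_le (IP ρ f f1 - IP ρ f f2) (IP ρ f f3)
  have t5 := norm_sub_le (IP ρ f f1) (IP ρ f f2)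
  linarith

end aux

private lemma Lr_le65 {S : Finset (ℤ × ℤ)} (hS : Cone S) {ξ : ℤ × ℤ} (hξ : ξ ∈ S) :
    |Lr ξ| ≤ 1 := by
  obtain ⟨h1, h2⟩ := hS ξ hξ
  unfold Lr
  rw [abs_div]
  have h3 : (0 : ℝ) < |(ξ.1 : ℝ)| := abs_pos.2 (by exact_mod_cast h1)
  rw [div_le_one h3]
  exact_mod_cast h2

section aux2

variable {Z : Type}

private lemma tp_V65 {S : Finset (ℤ × ℤ)} (hS : Cone S) (c : ℤ × ℤ → Z → ℂ) (w : T2 × Z) :
    tp S c w = 3 * tp S (cm (fun ξ => 1 / (3 + 2 * Lr ξ)) c) w +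
      2 * tp S (cm Lr (cm (fun ξ => 1 / (3 + 2 * Lr ξ)) c)) w := by
  unfold tp
  rw [Finset.mul_sum, Finset.mul_sum, ← Finset.sum_add_distrib]
  refine Finset.sum_congr rfl fun ξ hξ => ?_
  have hL := Lr_le65 hS hξ
  have h1 : (3 + 2 * Lr ξ : ℝ) ≠ 0 := by
    have := (abs_le.1 hL).1
    intro h0
    linarith
  have h2 : (3 + 2 * (Lr ξ : ℂ)) ≠ 0 := by
    exact_mod_cast h1
  unfold cm
  push_cast
  field_simp

private lemma tp_V65' {S : Finset (ℤ × ℤ)} (hS : Cone S) (c : ℤ × ℤ → Z → ℂ) (w : T2 × Z) :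
    tp S c w = 2 * tp S (cm (fun ξ => 1 / (2 + Lr ξ)) c) w +
      tp S (cm Lr (cm (fun ξ => 1 / (2 + Lr ξ)) c)) w := by
  unfold tp
  rw [Finset.mul_sum, ← Finset.sum_add_distrib]
  refine Finset.sum_congr rfl fun ξ hξ => ?_
  have hL := Lr_le65 hS hξ
  have h1 : (2 + Lr ξ : ℝ) ≠ 0 := by
    have := (abs_le.1 hL).1
    intro h0
    linarith
  have h2 : (2 + (Lr ξ : ℂ)) ≠ 0 := by
    exact_mod_cast h1
  unfold cm
  push_cast
  field_simp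

end aux2

/-- `⟨g, [w]⟩` is small: apply `alg_id` with `w` replaced by `(3 + 2L)⁻¹ w` and
`w' = (2 + L)⁻¹ w` (so `V = [w]`), `Est`, `Mu_six`; all coefficients are bounded (`|L| ≤ 1` on the
cone, `tp_cm_add`, `ns_cm_le`) -/
theorem alg {B s : ℝ} (hB : 0 ≤ B) (hs : 0 < s) (hs1 : s ≤ 1) : ∃ K : ℝ, 0 < K ∧
    ∀ {Z : Type} [MeasurableSpace Z] (μ : Measure Z) [IsProbabilityMeasure μ] (g : T2 × Z → ℂ)
      (a b : ℝ) (θ : Z → Z) (δ : ℝ), BM g → MeasurePreserving θ μ μ → 0 ≤ δ → |a| ≤ B →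
      |b| ≤ B → s ≤ |Real.sin (2 * π * a)| → Est μ g a b θ δ →
      ∀ (S : Finset (ℤ × ℤ)) (c : ℤ × ℤ → Z → ℂ), Cone S → (∀ ξ, BM (c ξ)) →
      ‖IP ((volume : Measure T2).prod μ) g (fun w => tp S c (sf b w.1, θ w.2))‖ ≤
        K * δ * Real.sqrt (ns μ S c) := by
  obtain ⟨K, hK, hMu⟩ := Mu_six hB hs hs1
  refine ⟨6 * K + 1, by positivity, ?_⟩
  intro Z _ μ _ g a b θ δ hg hθ hδ ha hb hsa hE S c hS hc
  obtain ⟨m1, m2, m3, m4, m5, m6⟩ := hMu (Z := Z) a b ha hb hsa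
  have hc1 : ∀ ξ, BM (cm (fun ξ => 1 / (3 + 2 * Lr ξ)) c ξ) := BM_cm hc
  have hc2 : ∀ ξ, BM (cm (fun ξ => 1 / (2 + Lr ξ)) c ξ) := BM_cm hc
  have n1 : Real.sqrt (ns μ S (cm (fun ξ => 1 / (3 + 2 * Lr ξ)) c)) ≤ Real.sqrt (ns μ S c) := by
    apply Real.sqrt_le_sqrt
    have := ns_cm_le (μ := μ) (S := S) hc (r := fun ξ => 1 / (3 + 2 * Lr ξ)) (R := 1) zero_le_one
      (fun ξ hξ => by
        have hL := (abs_le.1 (Lr_le65 hS hξ)).1
        rw [abs_of_nonneg (by apply div_nonneg zero_le_one; linarith)]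
        rw [div_le_one (by linarith)]
        linarith)
    simpa using this
  have n2 : Real.sqrt (ns μ S (cm (fun ξ => 1 / (2 + Lr ξ)) c)) ≤ Real.sqrt (ns μ S c) := by
    apply Real.sqrt_le_sqrt
    have := ns_cm_le (μ := μ) (S := S) hc (r := fun ξ => 1 / (2 + Lr ξ)) (R := 1) zero_le_one
      (fun ξ hξ => by
        have hL := (abs_le.1 (Lr_le65 hS hξ)).1
        rw [abs_of_nonneg (by apply div_nonneg zero_le_one; linarith)]
        rw [div_le_one (by linarith)]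
        linarith)
    simpa using this
  have hφ : Measurable (fun w : T2 × Z => (sf b w.1, θ w.2)) :=
    ((continuous_sf b).measurable.comp measurable_fst).prodMk (hθ.measurable.comp measurable_snd)
  have btp : ∀ {c' : ℤ × ℤ → Z → ℂ}, (∀ ξ, BM (c' ξ)) →
      BM (fun w : T2 × Z => tp S c' (sf b w.1, θ w.2)) := fun {c'} hc' =>
    BM.comp hφ (BM_tp S (fun ξ _ => hc' ξ))
  have bmu : ∀ {M : T2 × Z → ℂ}, Mu K M → BM M := fun {M} hM => by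
    obtain ⟨_, _, h, _⟩ := hM
    exact h.b.1
  have bX : BM (fun w : T2 × Z => (csn w.1.1 : ℂ)) := C1.csnX.b.1
  have bY : BM (fun w : T2 × Z => (csn w.1.2 : ℂ)) := C1.csnY.b.1
  have b3 : BM (fun w : T2 × Z => (csn (bb a w.1.2 - w.1.1) : ℂ)) := by
    obtain ⟨_, _, h, _⟩ := Mu.c3 (Z := Z) ha
    exact h.b.1
  have bPb : BM (fun w : T2 × Z => (Phi b w.1.1 : ℂ)) := (C1.PhiX b).b.1
  have bPa : BM (fun w : T2 × Z => (Phi a w.1.2 : ℂ)) :=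
    (CB.swp (C1.PhiX (Z := Z) a).b).1
  have bu : ∀ {c' : ℤ × ℤ → Z → ℂ}, (∀ ξ, BM (c' ξ)) →
      BM (fun w : T2 × Z => (Phi b w.1.1 : ℂ) * tp S c' (sf b w.1, θ w.2) +
        tp S (cm Lr c') (sf b w.1, θ w.2)) := fun {c'} hc' =>
    (bPb.mul (btp hc')).add (btp (BM_cm hc'))
  have key := IP_six65 (ρ := (volume : Measure T2).prod μ) hg
    (bY.mul ((bmu m1).mul (bu hc2)))
    (bX.mul ((bmu m2).mul (btp hc2)))
    (bX.mul ((bmu m3).mul (btp hc)))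
    (b3.mul ((bmu m4).mul ((bPa.mul (bu hc1)).sub (btp hc1))))
    (bX.mul ((bmu m5).mul (btp hc1)))
    (bY.mul ((bmu m6).mul (bu hc1)))
    (v := fun w => tp S c (sf b w.1, θ w.2)) (x := δ * (K * Real.sqrt (ns μ S c))) ?_
    ((hE.e2 S _ hS hc2 _ K m1).trans ?_) ((hE.e1 S _ hS hc2 _ K m2).trans ?_)
    (hE.e1 S _ hS hc _ K m3) ((hE.e3 S _ hS hc1 _ K m4).trans ?_)
    ((hE.e1 S _ hS hc1 _ K m5).trans ?_) ((hE.e2 S _ hS hc1 _ K m6).trans ?_)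
  · refine key.trans ?_
    have h1 : 0 ≤ δ * Real.sqrt (ns μ S c) := by positivity
    nlinarith
  · intro w
    have hlow := lower hB hs hs1 ha hsa w.1.2
    have hpos : 0 < snn (bb a w.1.2) ^ 2 + csn w.1.2 ^ 2 := lt_of_lt_of_le (by positivity) hlow
    have hm : (mm a w.1.2 : ℂ) * ((snn (bb a w.1.2) ^ 2 : ℂ) + (csn w.1.2 : ℂ) ^ 2) = 1 := by
      have h1 : mm a w.1.2 * (snn (bb a w.1.2) ^ 2 + csn w.1.2 ^ 2) = 1 := by
        unfold mm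
        field_simp
      exact_mod_cast h1
    have hQ : (snn (bb a w.1.2) ^ 2 : ℂ) = (csn (bb a w.1.2 - w.1.1) : ℂ) ^ 2 +
        (csn w.1.1 : ℂ) * ((csn w.1.1 : ℂ) - 2 * (csn (bb a w.1.2 - w.1.1) : ℂ) *
          (csn (bb a w.1.2) : ℂ)) := by
      exact_mod_cast Q_sq a w
    have hPb : (Phi b w.1.1 : ℂ) = 2 + (2 * π * b) * (csn w.1.1 : ℂ) := by
      unfold Phi
      push_cast
      ring
    have hPa : (Phi a w.1.2 : ℂ) = 2 + (2 * π * a) * (csn w.1.2 : ℂ) := by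
      unfold Phi
      push_cast
      ring
    have h := alg_id (α := 2 * π * a) (β := 2 * π * b) hm hQ
      (tp_V65 hS c (sf b w.1, θ w.2)) (tp_V65' hS c (sf b w.1, θ w.2)) rfl rfl rfl
    refine h.trans ?_
    rw [hPb, hPa]
    push_cast
    ring
  all_goals exact mul_le_mul_of_nonneg_left (mul_le_mul_of_nonneg_left (by assumption) hK) hδ

end Pool.Agent.Helper95.RP
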