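import Mathlib
import Pool.Agent.Helper95.RX.Sum
import Pool.Agent.Helper95.RX.Near

/-! RP-AVGG: averaging along the orbit of a nearly invariant function (compare `RX.Sum`, `RX.Avg`,
where this is done for trigonometric polynomials). -/

set_option autoImplicit false
open MeasureTheory Real Set Filter Topology
open scoped ComplexConjugate ENNReal

namespace Pool.Agent.Helper95.RP

open Pool.Agent.Helper95.RX

attribute [local instance] Pool.Agent.Helper53.SM.instProbU Pool.Agent.Helper53.SM.instProbT2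

/-- general averaging: `⟨g, F⟩ = ⟨g ∘ h^j, F ∘ h^j⟩` and `‖g ∘ h^j - g‖ ≤ j e`, so
`|⟨g, F⟩| ≤ |⟨g, (1/J) ∑_{j<J} F ∘ h^j⟩| + (J e / 2) C`;
`|∑_{j<J} F ∘ h^j|² = ∑_{j,j'} ⟨F ∘ h^j, F ∘ h^j'⟩ ≤ J C² + 2 J ∑_{1≤m<J} b C² / m`, and
`∑_{1≤m<J} 1/m ≤ 1 + log J` -/
lemma avg_gen {W : Type} [MeasurableSpace W] {M : Measure W} [IsProbabilityMeasure M] {h : W → W}
    (hmp : MeasurePreserving h M M) {g F : W → ℂ} (hg : BM g) (hg1 : N2 M g ≤ 1) (hF : BM F)
    {e C b : ℝ} (he : N2 M (fun w => g (h w) - g w) ≤ e) (hC : N2 M F ≤ C) (hb : 0 ≤ b)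
    (hcorr : ∀ m : ℕ, 1 ≤ m → ‖IP M (fun w => F (h^[m] w)) F‖ ≤ b * C ^ 2 / m) {J : ℕ}
    (hJ : 1 ≤ J) :
    ‖IP M g F‖ ≤ (Real.sqrt ((1 + 2 * b * (1 + Real.log J)) / J) + J * e / 2) * C := by
  have hmpj : ∀ j : ℕ, MeasurePreserving (h^[j]) M M := fun j => hmp.iterate j
  have hC0 : 0 ≤ C := (N2_nonneg _).trans hC
  have he0 : 0 ≤ e := (N2_nonneg _).trans he
  have hgh : ∀ j : ℕ, BM (fun w => g (h^[j] w)) := fun j => hg.comp (hmpj j).measurable
  have hu : ∀ j : ℕ, BM (fun w => F (h^[j] w)) := fun j => hF.comp (hmpj j).measurable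
  -- near invariance of the iterates
  have hit : ∀ j : ℕ, N2 M (fun w => g (h^[j] w) - g w) ≤ j * e := by
    intro j
    induction j with
    | zero =>
      unfold N2
      simp
    | succ j ih =>
      have hgh1 : BM (fun w => g (h w)) := hg.comp hmp.measurable
      have h1 := N2_tri (μ := M) (hgh (j + 1)) hgh1 hg
      have h2 := N2_comp (g := fun w => g (h^[j] w) - g w) hmp ((hgh j).sub hg).1
      have h3 : N2 M (fun w => g (h^[j + 1] w) - g (h w)) =
          N2 M (fun w => g (h^[j] w) - g w) := by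
        rw [← h2]
        rfl
      rw [h3] at h1
      push_cast
      linarith
  have hN : ∀ j : ℕ, N2 M (fun w => F (h^[j] w)) ≤ C := by
    intro j
    rw [N2_comp (hmpj j) hF.1]
    exact hC
  -- off the diagonal
  have hoff : ∀ j m : ℕ, 1 ≤ m →
      ‖IP M (fun w => F (h^[j + m] w)) (fun w => F (h^[j] w))‖ ≤ b * C ^ 2 * (1 / m) := by
    intro j m hm1
    have h1 : IP M (fun w => F (h^[j + m] w)) (fun w => F (h^[j] w)) =
        IP M (fun w => F (h^[m] w)) F := by
      rw [← IP_comp (hmpj j) (hu m).1 hF.1]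
      congr 1
      funext w
      rw [add_comm j m, Function.iterate_add_apply]
    rw [h1]
    refine (hcorr m hm1).trans (le_of_eq ?_)
    ring
  have hall : ∀ i j : ℕ, ‖IP M (fun w => F (h^[i] w)) (fun w => F (h^[j] w))‖ ≤
      (if i = j then C ^ 2 else 0) +
        b * C ^ 2 * (if i = j then (0 : ℝ) else 1 / |(i : ℝ) - j|) := by
    intro i j
    rcases lt_trichotomy i j with h0 | h0 | h0
    · rw [if_neg h0.ne, if_neg h0.ne, zero_add]
      obtain ⟨m, rfl⟩ := Nat.exists_eq_add_of_lt h0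
      have h1 := hoff i (m + 1) (by omega)
      rw [IP_conj, RCLike.norm_conj]
      have h2 : |(i : ℝ) - ((i + m + 1 : ℕ) : ℝ)| = ((m + 1 : ℕ) : ℝ) := by
        push_cast
        rw [abs_of_nonpos]
        · ring
        · have : (0 : ℝ) ≤ m := by positivity
          linarith
      rw [h2]
      exact h1
    · subst h0
      rw [if_pos rfl, if_pos rfl, mul_zero, add_zero, IP_self, Complex.norm_real,
        Real.norm_of_nonneg (sq_nonneg _)]
      exact pow_le_pow_left₀ (N2_nonneg _) (hN i) 2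
    · rw [if_neg h0.ne', if_neg h0.ne', zero_add]
      obtain ⟨m, rfl⟩ := Nat.exists_eq_add_of_lt h0
      have h1 := hoff j (m + 1) (by omega)
      have h2 : |((j + m + 1 : ℕ) : ℝ) - (j : ℝ)| = ((m + 1 : ℕ) : ℝ) := by
        push_cast
        rw [abs_of_nonneg]
        · ring
        · have : (0 : ℝ) ≤ m := by positivity
          linarith
      rw [h2]
      exact h1
  have hJ0 : (0 : ℝ) < J := by exact_mod_cast hJ
  have hlog : 0 ≤ Real.log J := Real.log_natCast_nonneg J
  obtain ⟨B, hB⟩ : ∃ B : ℝ, B = 1 + 2 * b * (1 + Real.log J) := ⟨_, rfl⟩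
  have hB0 : 0 ≤ B := by
    rw [hB]
    positivity
  have hbC : 0 ≤ b * C ^ 2 := by positivity
  have hsq : N2 M (fun w => ∑ j ∈ Finset.range J, F (h^[j] w)) ^ 2 ≤ J * B * C ^ 2 := by
    refine (N2_sum_sq (Finset.range J) fun j _ => hu j).trans ?_
    calc ∑ i ∈ Finset.range J, ∑ j ∈ Finset.range J,
          ‖IP M (fun w => F (h^[i] w)) (fun w => F (h^[j] w))‖
        ≤ ∑ i ∈ Finset.range J, (C ^ 2 + b * C ^ 2 * (2 * (1 + Real.log J))) := by
          refine Finset.sum_le_sum fun i hi => ?_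
          refine (Finset.sum_le_sum fun j _ => hall i j).trans ?_
          rw [Finset.sum_add_distrib, ← Finset.mul_sum]
          refine add_le_add ?_
            (mul_le_mul_of_nonneg_left (sum_dist_le (Finset.mem_range.1 hi)) hbC)
          rw [Finset.sum_ite_eq, if_pos hi]
      _ = J * B * C ^ 2 := by
          rw [Finset.sum_const, Finset.card_range, nsmul_eq_mul, hB]
          ring
  have key : ∀ j : ℕ, ‖IP M g F - IP M g (fun w => F (h^[j] w))‖ ≤ j * e * C := by
    intro j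
    rw [← IP_comp (hmpj j) hg.1 hF.1, ← IP_sub_left (hgh j) hg (hu j)]
    refine (IP_le ((hgh j).sub hg) (hu j)).trans ?_
    exact mul_le_mul (hit j) (hN j) (N2_nonneg _) (by positivity)
  have hsum : IP M g (fun w => ∑ j ∈ Finset.range J, F (h^[j] w)) =
      ∑ j ∈ Finset.range J, IP M g (fun w => F (h^[j] w)) :=
    IP_sum_right (Finset.range J) hg (fun j _ => hu j)
  have hsqrt : Real.sqrt (J * B * C ^ 2) = J * (Real.sqrt (B / J) * C) := by
    have e1 : J * B * C ^ 2 = (J * C) ^ 2 * (B / J) := by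
      field_simp
    rw [e1, Real.sqrt_mul (sq_nonneg _), Real.sqrt_sq (by positivity)]
    ring
  have h1 : ‖IP M g (fun w => ∑ j ∈ Finset.range J, F (h^[j] w))‖ ≤
      J * (Real.sqrt (B / J) * C) := by
    refine (IP_le hg (BM.sum _ fun j _ => hu j)).trans ?_
    have h3 : N2 M (fun w => ∑ j ∈ Finset.range J, F (h^[j] w)) ≤ J * (Real.sqrt (B / J) * C) := by
      rw [← hsqrt]
      exact Real.le_sqrt_of_sq_le hsq
    calc N2 M g * N2 M (fun w => ∑ j ∈ Finset.range J, F (h^[j] w))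
        ≤ 1 * (J * (Real.sqrt (B / J) * C)) := mul_le_mul hg1 h3 (N2_nonneg _) zero_le_one
      _ = _ := one_mul _
  have h2 : ‖(J : ℂ) * IP M g F‖ ≤ J * (Real.sqrt (B / J) * C) + J * (J * e / 2) * C := by
    have e1 : (J : ℂ) * IP M g F = IP M g (fun w => ∑ j ∈ Finset.range J, F (h^[j] w)) +
        ∑ j ∈ Finset.range J, (IP M g F - IP M g (fun w => F (h^[j] w))) := by
      rw [hsum, Finset.sum_sub_distrib, Finset.sum_const, Finset.card_range, nsmul_eq_mul]
      ring
    rw [e1]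
    refine (norm_add_le _ _).trans (add_le_add h1 ?_)
    refine (norm_sum_le _ _).trans ?_
    refine (Finset.sum_le_sum fun j _ => key j).trans ?_
    rw [← Finset.sum_mul, ← Finset.sum_mul]
    refine mul_le_mul_of_nonneg_right ?_ hC0
    have e2 : (∑ j ∈ Finset.range J, (j : ℝ)) ≤ J * (J / 2) := by
      have h3 := Finset.sum_range_id_mul_two J
      have h4 : (∑ j ∈ Finset.range J, (j : ℝ)) * 2 ≤ J * J := by
        have h5 : (∑ j ∈ Finset.range J, j) * 2 ≤ J * J := by
          rw [h3]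
          exact Nat.mul_le_mul_left _ (Nat.sub_le _ _)
        have h6 := (Nat.cast_le (α := ℝ)).2 h5
        push_cast at h6
        exact h6
      linarith
    calc (∑ j ∈ Finset.range J, (j : ℝ)) * e ≤ J * (J / 2) * e :=
          mul_le_mul_of_nonneg_right e2 he0
      _ = J * (J * e / 2) := by ring
  rw [norm_mul, Complex.norm_natCast] at h2
  have h4 : J * ‖IP M g F‖ ≤ J * ((Real.sqrt (B / J) + J * e / 2) * C) := by
    refine h2.trans (le_of_eq ?_)
    ring
  rw [← hB]
  exact le_of_mul_le_mul_left h4 hJ0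

end Pool.Agent.Helper95.RP
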