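import Mathlib
import Pool.Agent.Helper95.RP.Cal

/-! RP-IBP: integration by parts on the torus. -/

set_option autoImplicit false
open MeasureTheory Real Set Filter Topology
open scoped ComplexConjugate ENNReal

namespace Pool.Agent.Helper95.RP

open Pool.Agent.Helper95.RX

attribute [local instance] Pool.Agent.Helper53.SM.instProbU Pool.Agent.Helper53.SM.instProbT2

variable {Z : Type} [MeasurableSpace Z] {μ : Measure Z} [IsProbabilityMeasure μ]

private lemma int_BM {W : Type} [MeasurableSpace W] {ν : Measure W} [IsProbabilityMeasure ν]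
    {g : W → ℂ} (hg : BM g) : Integrable g ν := by
  obtain ⟨C, hC⟩ := hg.2
  exact Integrable.of_bound hg.1.aestronglyMeasurable C (Filter.Eventually.of_forall hC)

private lemma bm_mul_conj {W : Type} [MeasurableSpace W] {g h : W → ℂ} (hg : BM g) (hh : BM h) :
    BM (fun w => g w * conj (h w)) := by
  obtain ⟨C, hC⟩ := hg.2
  obtain ⟨D, hD⟩ := hh.2
  refine ⟨hg.1.mul (Complex.continuous_conj.measurable.comp hh.1), |C| * |D|, fun w => ?_⟩
  rw [norm_mul, RCLike.norm_conj]
  exact mul_le_mul ((hC w).trans (le_abs_self C)) ((hD w).trans (le_abs_self D)) (norm_nonneg _)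
    (abs_nonneg _)

private lemma circle_zero {f : ℝ → ℂ} {G : UnitAddCircle → ℂ}
    (hd : ∀ t : ℝ, HasDerivAt f (2 * π * Complex.I * G (t : UnitAddCircle)) t)
    (hc : Continuous fun t : ℝ => G (t : UnitAddCircle)) (hp : f 1 = f 0) :
    ∫ x : UnitAddCircle, G x = 0 := by
  rw [← UnitAddCircle.intervalIntegral_preimage 0 G]
  have h1 : ∫ t in (0 : ℝ)..(0 + 1), (2 * π * Complex.I * G (t : UnitAddCircle)) = 0 := by
    rw [intervalIntegral.integral_eq_sub_of_hasDerivAt (f := f) (fun t _ => hd t)
      ((continuous_const.mul hc).intervalIntegrable _ _), zero_add, hp, sub_self]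
  rw [intervalIntegral.integral_const_mul] at h1
  rcases mul_eq_zero.1 h1 with h2 | h2
  · exfalso
    have : (2 * π * Complex.I : ℂ) ≠ 0 := Complex.two_pi_I_ne_zero
    exact this h2
  · exact h2

private lemma cont_torus {F : T2 × Z → ℂ} (bF : CB F) (z : Z) {u : ℝ → T2} (hu : Continuous u) :
    Continuous fun t : ℝ => F (u t, z) := (bF.2 z).comp hu

private lemma hasDerivAt_conj' {f : ℝ → ℂ} {f' : ℂ} {x : ℝ} (h : HasDerivAt f f' x) :
    HasDerivAt (fun t => conj (f t)) (conj f') x := by
  exact h.star_conj

/-- `(2πi)⁻¹ ∂x` is symmetric: Fubini and one integration by parts on `[0, 1]` (the boundary terms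
cancel by periodicity) -/
lemma ibp_x {F F' H H' : T2 × Z → ℂ} (bF : CB F) (bF' : CB F') (bH : CB H) (bH' : CB H')
    (hF : HX F F') (hH : HX H H') :
    IP ((volume : Measure T2).prod μ) F' H = IP ((volume : Measure T2).prod μ) F H' := by
  unfold IP
  have i1 : Integrable (fun w => F' w * conj (H w)) ((volume : Measure T2).prod μ) :=
    int_BM (bm_mul_conj bF'.1 bH.1)
  have i2 : Integrable (fun w => F w * conj (H' w)) ((volume : Measure T2).prod μ) :=
    int_BM (bm_mul_conj bF.1 bH'.1)
  rw [← sub_eq_zero, ← integral_sub i1 i2]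
  have i3 : Integrable (fun w => F' w * conj (H w) - F w * conj (H' w))
      ((volume : Measure T2).prod μ) := i1.sub i2
  rw [integral_prod_symm _ i3]
  have key : ∀ z : Z, ∫ p : T2, (F' (p, z) * conj (H (p, z)) - F (p, z) * conj (H' (p, z))) = 0 := by
    intro z
    have hcont : Continuous fun p : T2 =>
        (F' (p, z) * conj (H (p, z)) - F (p, z) * conj (H' (p, z))) :=
      ((bF'.2 z).mul (Complex.continuous_conj.comp (bH.2 z))).sub
        ((bF.2 z).mul (Complex.continuous_conj.comp (bH'.2 z)))
    have hint : Integrable (fun p : T2 =>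
        (F' (p, z) * conj (H (p, z)) - F (p, z) * conj (H' (p, z)))) volume := by
      obtain ⟨C, hC⟩ := (bm_mul_conj bF'.1 bH.1).2
      obtain ⟨D, hD⟩ := (bm_mul_conj bF.1 bH'.1).2
      exact Integrable.of_bound hcont.aestronglyMeasurable (C + D)
        (Filter.Eventually.of_forall fun p =>
          (norm_sub_le _ _).trans (add_le_add (hC (p, z)) (hD (p, z))))
    rw [Measure.volume_eq_prod] at hint ⊢
    rw [integral_prod_symm _ hint]
    have key2 : ∀ y : UnitAddCircle, ∫ x : UnitAddCircle,
        (F' ((x, y), z) * conj (H ((x, y), z)) - F ((x, y), z) * conj (H' ((x, y), z))) = 0 := by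
      intro y
      obtain ⟨y0, rfl⟩ := QuotientAddGroup.mk_surjective y
      have hu : Continuous fun t : ℝ => (mk2 (t, y0) : T2) := by
        show Continuous fun t : ℝ => ((t : UnitAddCircle), (y0 : UnitAddCircle))
        exact (AddCircle.continuous_mk' (1 : ℝ)).prodMk continuous_const
      refine circle_zero (f := fun t => F (mk2 (t, y0), z) * conj (H (mk2 (t, y0), z)))
        (G := fun x => (F' ((x, (y0 : UnitAddCircle)), z) * conj (H ((x, (y0 : UnitAddCircle)), z)) -
          F ((x, (y0 : UnitAddCircle)), z) * conj (H' ((x, (y0 : UnitAddCircle)), z)))) ?_ ?_ ?_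
      · intro t
        have h1 := (hF t y0 z).mul (hasDerivAt_conj' (hH t y0 z))
        refine h1.congr_deriv ?_
        simp only [map_mul, Complex.conj_I, Complex.conj_ofReal, map_ofNat,
          Pool.Agent.Helper78.SM.mk2]
        ring
      · exact ((cont_torus bF' z hu).mul (Complex.continuous_conj.comp (cont_torus bH z hu))).sub
          ((cont_torus bF z hu).mul (Complex.continuous_conj.comp (cont_torus bH' z hu)))
      · have h0 : (mk2 ((1 : ℝ), y0) : T2) = mk2 ((0 : ℝ), y0) := by
          unfold Pool.Agent.Helper78.SM.mk2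
          have : ((1 : ℝ) : UnitAddCircle) = ((0 : ℝ) : UnitAddCircle) := by
            rw [AddCircle.coe_period 1]
            simp
          simp only [this]
        simp only [h0]
    simp only [key2, integral_zero]
  simp only [key, integral_zero]

lemma ibp_y {F F' H H' : T2 × Z → ℂ} (bF : CB F) (bF' : CB F') (bH : CB H) (bH' : CB H')
    (hF : HY F F') (hH : HY H H') :
    IP ((volume : Measure T2).prod μ) F' H = IP ((volume : Measure T2).prod μ) F H' := by
  unfold IP
  have i1 : Integrable (fun w => F' w * conj (H w)) ((volume : Measure T2).prod μ) :=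
    int_BM (bm_mul_conj bF'.1 bH.1)
  have i2 : Integrable (fun w => F w * conj (H' w)) ((volume : Measure T2).prod μ) :=
    int_BM (bm_mul_conj bF.1 bH'.1)
  rw [← sub_eq_zero, ← integral_sub i1 i2]
  have i3 : Integrable (fun w => F' w * conj (H w) - F w * conj (H' w))
      ((volume : Measure T2).prod μ) := i1.sub i2
  rw [integral_prod_symm _ i3]
  have key : ∀ z : Z, ∫ p : T2, (F' (p, z) * conj (H (p, z)) - F (p, z) * conj (H' (p, z))) = 0 := by
    intro z
    have hcont : Continuous fun p : T2 =>
        (F' (p, z) * conj (H (p, z)) - F (p, z) * conj (H' (p, z))) :=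
      ((bF'.2 z).mul (Complex.continuous_conj.comp (bH.2 z))).sub
        ((bF.2 z).mul (Complex.continuous_conj.comp (bH'.2 z)))
    have hint : Integrable (fun p : T2 =>
        (F' (p, z) * conj (H (p, z)) - F (p, z) * conj (H' (p, z)))) volume := by
      obtain ⟨C, hC⟩ := (bm_mul_conj bF'.1 bH.1).2
      obtain ⟨D, hD⟩ := (bm_mul_conj bF.1 bH'.1).2
      exact Integrable.of_bound hcont.aestronglyMeasurable (C + D)
        (Filter.Eventually.of_forall fun p =>
          (norm_sub_le _ _).trans (add_le_add (hC (p, z)) (hD (p, z))))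
    rw [Measure.volume_eq_prod] at hint ⊢
    rw [integral_prod _ hint]
    have key2 : ∀ x : UnitAddCircle, ∫ y : UnitAddCircle,
        (F' ((x, y), z) * conj (H ((x, y), z)) - F ((x, y), z) * conj (H' ((x, y), z))) = 0 := by
      intro x
      obtain ⟨x0, rfl⟩ := QuotientAddGroup.mk_surjective x
      have hu : Continuous fun t : ℝ => (mk2 (x0, t) : T2) := by
        show Continuous fun t : ℝ => ((x0 : UnitAddCircle), (t : UnitAddCircle))
        exact continuous_const.prodMk (AddCircle.continuous_mk' (1 : ℝ))
      refine circle_zero (f := fun t => F (mk2 (x0, t), z) * conj (H (mk2 (x0, t), z)))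
        (G := fun y => (F' (((x0 : UnitAddCircle), y), z) * conj (H (((x0 : UnitAddCircle), y), z)) -
          F (((x0 : UnitAddCircle), y), z) * conj (H' (((x0 : UnitAddCircle), y), z)))) ?_ ?_ ?_
      · intro t
        have h1 := (hF x0 t z).mul (hasDerivAt_conj' (hH x0 t z))
        refine h1.congr_deriv ?_
        simp only [map_mul, Complex.conj_I, Complex.conj_ofReal, map_ofNat,
          Pool.Agent.Helper78.SM.mk2]
        ring
      · exact ((cont_torus bF' z hu).mul (Complex.continuous_conj.comp (cont_torus bH z hu))).sub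
          ((cont_torus bF z hu).mul (Complex.continuous_conj.comp (cont_torus bH' z hu)))
      · have h0 : (mk2 (x0, (1 : ℝ)) : T2) = mk2 (x0, (0 : ℝ)) := by
          unfold Pool.Agent.Helper78.SM.mk2
          have : ((1 : ℝ) : UnitAddCircle) = ((0 : ℝ) : UnitAddCircle) := by
            rw [AddCircle.coe_period 1]
            simp
          simp only [this]
        simp only [h0]
    simp only [key2, integral_zero]
  simp only [key, integral_zero]

end Pool.Agent.Helper95.RP
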