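import Mathlib
import Pool.Agent.Helper95.RP.Ibp
import Pool.Agent.Helper95.RP.Curve
import Pool.Agent.Helper95.RP.AvgG

/-! RP-HM: correlations along a horizontal shear. -/

set_option autoImplicit false
open MeasureTheory Real Set Filter Topology
open scoped ComplexConjugate ENNReal

namespace Pool.Agent.Helper95.RP

open Pool.Agent.Helper95.RX

attribute [local instance] Pool.Agent.Helper53.SM.instProbU Pool.Agent.Helper53.SM.instProbT2

variable {Z : Type} [MeasurableSpace Z] {μ : Measure Z} [IsProbabilityMeasure μ]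

private lemma cont_snn93 : Continuous (fun x : UnitAddCircle => snn x) := by
  have h : Continuous (fun z : Circle => (z : ℂ)) := by fun_prop
  exact Complex.continuous_im.comp (h.comp AddCircle.continuous_toCircle)

private lemma cont_hm93 (D : ℝ) : Continuous (hm D 0) := by
  refine Continuous.prodMk (continuous_fst.add ?_) continuous_snd
  exact (AddCircle.continuous_mk' 1).comp
    (continuous_const.mul (cont_snn93.comp (continuous_snd.add continuous_const)))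

private lemma hm_mk2_93 (D : ℝ) (m : ℕ) (x y : ℝ) :
    (hm D 0)^[m] (mk2 (x, y)) = mk2 (x + m * (D * Real.sin (2 * π * y)), y) := by
  rw [hm_iter]
  unfold Pool.Agent.Helper78.SM.mk2
  simp only [add_zero, snn_coe, AddCircle.coe_add]

/-- `H^m (X, Y) = (X + m D sin 2πY, Y)` (`hm_iter`).  By the chain rule (`hasDerivAt_curve`)
`∂Y (φ ∘ H^m) = 2π D m csn(Y) (φx ∘ H^m) + φy ∘ H^m`, so
`csn(Y) φx ∘ H^m = (2π D m)⁻¹ (∂Y (φ ∘ H^m) - φy ∘ H^m)`.  Insert this in the inner product with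
`csn(Y) φx` and integrate by parts (`ibp_y`):
`⟨∂Y (φ ∘ H^m), csn φx⟩ = ⟨φ ∘ H^m, i snn φx + csn φxy⟩` and
`⟨φ ∘ H^m, csn φxy⟩ = ⟨φx ∘ H^m, csn φy⟩` (`ibp_x`; `∂X (φ ∘ H^m) = φx ∘ H^m`).
Three terms, each at most `C²`. -/
lemma corr_cm {D : ℝ} (hD : D ≠ 0) {θ : Z → Z} (hθ : MeasurePreserving θ μ μ)
    {φ φx φy φxy : T2 × Z → ℂ} (h : CM φ φx φy φxy) {C : ℝ}
    (h0 : N2 ((volume : Measure T2).prod μ) φ ≤ C) (h1 : N2 ((volume : Measure T2).prod μ) φx ≤ C)
    (h2 : N2 ((volume : Measure T2).prod μ) φy ≤ C) {m : ℕ} (hm1 : 1 ≤ m) :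
    ‖IP ((volume : Measure T2).prod μ)
        (fun w => (csn w.1.2 : ℂ) * φx ((hm D 0)^[m] w.1, θ w.2))
        (fun w => (csn w.1.2 : ℂ) * φx w)‖ ≤ 3 / (2 * π * |D|) * C ^ 2 / m := by
  have cH : Continuous ((hm D 0)^[m]) := (cont_hm93 D).iterate m
  have mpT : MeasurePreserving (fun w : T2 × Z => ((hm D 0)^[m] w.1, θ w.2))
      ((volume : Measure T2).prod μ) ((volume : Measure T2).prod μ) :=
    ((mp_hm D 0).iterate m).prod hθ
  have hC0 : 0 ≤ C := (N2_nonneg _).trans h0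
  have bA : CB (fun w : T2 × Z => φ ((hm D 0)^[m] w.1, θ w.2)) := CB.comp cH hθ.measurable h.c.b
  have bAx : CB (fun w : T2 × Z => φx ((hm D 0)^[m] w.1, θ w.2)) :=
    CB.comp cH hθ.measurable h.c.bx
  have bAy : CB (fun w : T2 × Z => φy ((hm D 0)^[m] w.1, θ w.2)) :=
    CB.comp cH hθ.measurable h.c.by'
  have bcs : CB (fun w : T2 × Z => (csn w.1.2 : ℂ)) := (C1.csnY).b
  have bsn : CB (fun w : T2 × Z => Complex.I * (snn w.1.2 : ℂ)) := (C1.csnY).by'
  have hcs1 : ∀ w : T2 × Z, ‖(csn w.1.2 : ℂ)‖ ≤ 1 := by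
    intro w
    rw [Complex.norm_real]
    exact Pool.Agent.Helper78.SM.abs_csn_le _
  have hsn1 : ∀ w : T2 × Z, ‖Complex.I * (snn w.1.2 : ℂ)‖ ≤ 1 := by
    intro w
    rw [norm_mul, Complex.norm_I, one_mul, Complex.norm_real]
    obtain ⟨y, hy⟩ := QuotientAddGroup.mk_surjective w.1.2
    rw [← hy, Real.norm_eq_abs]
    have := snn_coe y
    rw [show ((QuotientAddGroup.mk y : UnitAddCircle)) = ((y : ℝ) : UnitAddCircle) from rfl, this]
    exact Real.abs_sin_le_one _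
  -- derivatives of `A`
  have hAx : HX (fun w : T2 × Z => φ ((hm D 0)^[m] w.1, θ w.2))
      (fun w => φx ((hm D 0)^[m] w.1, θ w.2)) := by
    intro x y z
    have h1 := hasDerivAt_curve h.c (x := fun t => t + m * (D * Real.sin (2 * π * y)))
      (y := fun _ => y) (t := x) (x' := 1) (y' := 0)
      ((hasDerivAt_id x).add_const _) (hasDerivAt_const x y) (θ z)
    simp only [hm_mk2_93]
    refine h1.congr_deriv ?_
    push_cast
    ring
  have hAy : HY (fun w : T2 × Z => φ ((hm D 0)^[m] w.1, θ w.2))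
      (fun w => ((2 * π * D * m : ℝ) : ℂ) *
        ((csn w.1.2 : ℂ) * φx ((hm D 0)^[m] w.1, θ w.2)) + φy ((hm D 0)^[m] w.1, θ w.2)) := by
    intro x y z
    have hs : HasDerivAt (fun t : ℝ => x + m * (D * Real.sin (2 * π * t)))
        (m * (D * (Real.cos (2 * π * y) * (2 * π * 1)))) y :=
      (((((hasDerivAt_id y).const_mul (2 * π)).sin).const_mul D).const_mul (m : ℝ)).const_add x
    have h1 := hasDerivAt_curve h.c hs (hasDerivAt_id y) (θ z)
    simp only [hm_mk2_93]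
    refine h1.congr_deriv ?_
    have h2 : csn (mk2 (x, y)).2 = Real.cos (2 * π * y) := csn_coe y
    simp only [id] 
    rw [h2]
    push_cast
    ring
  -- derivatives of `B`
  have bB : CB (fun w : T2 × Z => (csn w.1.2 : ℂ) * φx w) := bcs.mul h.c.bx
  have bBs : CB (fun w : T2 × Z => (Complex.I * (snn w.1.2 : ℂ)) * φx w) := bsn.mul h.c.bx
  have bBc : CB (fun w : T2 × Z => (csn w.1.2 : ℂ) * φxy w) := bcs.mul h.bxy
  have bG : CB (fun w : T2 × Z => (csn w.1.2 : ℂ) * φy w) := bcs.mul h.c.by'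
  have hBy : HY (fun w : T2 × Z => (csn w.1.2 : ℂ) * φx w)
      (fun w => (Complex.I * (snn w.1.2 : ℂ)) * φx w + (csn w.1.2 : ℂ) * φxy w) := by
    intro x y z
    refine (((C1.csnY (Z := Z)).hy x y z).mul (h.hxy x y z)).congr_deriv ?_
    ring
  have hGx : HX (fun w : T2 × Z => (csn w.1.2 : ℂ) * φy w)
      (fun w => (csn w.1.2 : ℂ) * φxy w) := by
    intro x y z
    refine (((C1.csnY (Z := Z)).hx x y z).mul (h.hyx x y z)).congr_deriv ?_
    ring
  have bP : CB (fun w : T2 × Z => (csn w.1.2 : ℂ) * φx ((hm D 0)^[m] w.1, θ w.2)) := bcs.mul bAx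
  have bAY : CB (fun w : T2 × Z => ((2 * π * D * m : ℝ) : ℂ) *
        ((csn w.1.2 : ℂ) * φx ((hm D 0)^[m] w.1, θ w.2)) + φy ((hm D 0)^[m] w.1, θ w.2)) :=
    (CB.smul _ bP).add bAy
  have e1 := ibp_y (μ := μ) bA bAY bB (bBs.add bBc) hAy hBy
  have e2 := ibp_x (μ := μ) bA bAx bG bBc hAx hGx
  rw [IP_add_right bA.1 bBs.1 bBc.1, ← e2] at e1
  -- solve for the inner product
  have e3 : IP ((volume : Measure T2).prod μ) (fun w : T2 × Z => ((2 * π * D * m : ℝ) : ℂ) *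
        ((csn w.1.2 : ℂ) * φx ((hm D 0)^[m] w.1, θ w.2)) + φy ((hm D 0)^[m] w.1, θ w.2))
        (fun w => (csn w.1.2 : ℂ) * φx w) =
      ((2 * π * D * m : ℝ) : ℂ) * IP ((volume : Measure T2).prod μ)
        (fun w => (csn w.1.2 : ℂ) * φx ((hm D 0)^[m] w.1, θ w.2))
        (fun w => (csn w.1.2 : ℂ) * φx w) +
      IP ((volume : Measure T2).prod μ) (fun w => φy ((hm D 0)^[m] w.1, θ w.2))
        (fun w => (csn w.1.2 : ℂ) * φx w) := by
    rw [IP_conj, IP_add_right bB.1 (CB.smul _ bP).1 bAy.1, IP_smul_right, map_add, map_mul,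
      ← IP_conj, ← IP_conj, Complex.conj_conj]
  rw [e3] at e1
  have n1 : ‖IP ((volume : Measure T2).prod μ) (fun w : T2 × Z => φ ((hm D 0)^[m] w.1, θ w.2))
      (fun w => (Complex.I * (snn w.1.2 : ℂ)) * φx w)‖ ≤ C * C := by
    refine (IP_le bA.1 bBs.1).trans (mul_le_mul ?_ ?_ (N2_nonneg _) hC0)
    · rw [N2_comp mpT h.c.b.1.1]
      exact h0
    · refine (N2_mul_le h.c.bx.1 bsn.1 hsn1).trans ?_
      rw [one_mul]
      exact h1
  have n2 : ‖IP ((volume : Measure T2).prod μ) (fun w : T2 × Z => φx ((hm D 0)^[m] w.1, θ w.2))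
      (fun w => (csn w.1.2 : ℂ) * φy w)‖ ≤ C * C := by
    refine (IP_le bAx.1 bG.1).trans (mul_le_mul ?_ ?_ (N2_nonneg _) hC0)
    · rw [N2_comp mpT h.c.bx.1.1]
      exact h1
    · refine (N2_mul_le h.c.by'.1 bcs.1 hcs1).trans ?_
      rw [one_mul]
      exact h2
  have n3 : ‖IP ((volume : Measure T2).prod μ) (fun w : T2 × Z => φy ((hm D 0)^[m] w.1, θ w.2))
      (fun w => (csn w.1.2 : ℂ) * φx w)‖ ≤ C * C := by
    refine (IP_le bAy.1 bB.1).trans (mul_le_mul ?_ ?_ (N2_nonneg _) hC0)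
    · rw [N2_comp mpT h.c.by'.1.1]
      exact h2
    · refine (N2_mul_le h.c.bx.1 bcs.1 hcs1).trans ?_
      rw [one_mul]
      exact h1
  have e4 := eq_sub_of_add_eq e1
  have n4 : ‖((2 * π * D * m : ℝ) : ℂ) * IP ((volume : Measure T2).prod μ)
        (fun w => (csn w.1.2 : ℂ) * φx ((hm D 0)^[m] w.1, θ w.2))
        (fun w => (csn w.1.2 : ℂ) * φx w)‖ ≤ 3 * C ^ 2 := by
    rw [e4]
    refine (norm_sub_le _ _).trans ?_
    have := norm_add_le (IP ((volume : Measure T2).prod μ)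
      (fun w : T2 × Z => φ ((hm D 0)^[m] w.1, θ w.2))
      (fun w => (Complex.I * (snn w.1.2 : ℂ)) * φx w))
      (IP ((volume : Measure T2).prod μ) (fun w : T2 × Z => φx ((hm D 0)^[m] w.1, θ w.2))
      (fun w => (csn w.1.2 : ℂ) * φy w))
    nlinarith
  have hm0 : (0 : ℝ) < m := by exact_mod_cast hm1
  have hD0 : 0 < |D| := abs_pos.2 hD
  rw [norm_mul, Complex.norm_real, Real.norm_eq_abs, abs_mul, abs_mul,
    abs_of_pos (by positivity : (0:ℝ) < 2 * π), abs_of_pos hm0] at n4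
  have hpos : 0 < 2 * π * |D| * m := by positivity
  calc _ ≤ 3 * C ^ 2 / (2 * π * |D| * m) := by
        rw [le_div_iff₀ hpos]
        linarith
    _ = 3 / (2 * π * |D|) * C ^ 2 / m := by
        field_simp

end Pool.Agent.Helper95.RP
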