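import Mathlib
import Pool.Agent.Helper95.RP.Hm

/-! RP-HME: near invariance under a horizontal shear gives `HH`. -/

set_option autoImplicit false
open MeasureTheory Real Set Filter Topology
open scoped ComplexConjugate ENNReal

namespace Pool.Agent.Helper95.RP

open Pool.Agent.Helper95.RX

attribute [local instance] Pool.Agent.Helper53.SM.instProbU Pool.Agent.Helper53.SM.instProbT2

private lemma exists_J50 {b ε : ℝ} (hε : 0 < ε) : ∃ J : ℕ, 1 ≤ J ∧
    Real.sqrt ((1 + 2 * b * (1 + Real.log J)) / J) ≤ ε / 2 := by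
  have h1 : Tendsto (fun x : ℝ => Real.log x / x) atTop (𝓝 0) :=
    Real.isLittleO_log_id_atTop.tendsto_div_nhds_zero
  have h2 : Tendsto (fun x : ℝ => (1 + 2 * b) * x⁻¹ + 2 * b * (Real.log x / x)) atTop (𝓝 0) := by
    have h3 := (tendsto_inv_atTop_zero.const_mul (1 + 2 * b)).add (h1.const_mul (2 * b))
    simpa using h3
  have h4 := h2.comp tendsto_natCast_atTop_atTop
  have h5 : ∀ᶠ n : ℕ in atTop, ((fun x : ℝ => (1 + 2 * b) * x⁻¹ + 2 * b * (Real.log x / x)) ∘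
      (Nat.cast : ℕ → ℝ)) n < (ε / 2) ^ 2 := h4.eventually_lt_const (by positivity)
  obtain ⟨J, hJ1, hJ2⟩ := (h5.and (eventually_ge_atTop 1)).exists
  refine ⟨J, hJ2, ?_⟩
  have hJ0 : (0 : ℝ) < J := by exact_mod_cast hJ2
  have h6 : (1 + 2 * b * (1 + Real.log J)) / J =
      (1 + 2 * b) * (J : ℝ)⁻¹ + 2 * b * (Real.log J / J) := by
    field_simp
    ring
  rw [h6]
  have h7 : (1 + 2 * b) * (J : ℝ)⁻¹ + 2 * b * (Real.log J / J) ≤ (ε / 2) ^ 2 := hJ1.le
  calc Real.sqrt ((1 + 2 * b) * (J : ℝ)⁻¹ + 2 * b * (Real.log J / J))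
      ≤ Real.sqrt ((ε / 2) ^ 2) := Real.sqrt_le_sqrt h7
    _ = ε / 2 := Real.sqrt_sq (by positivity)

private lemma iter_prod50 {A B : Type} (f : A → A) (g : B → B) (m : ℕ) (w : A × B) :
    (fun w : A × B => (f w.1, g w.2))^[m] w = (f^[m] w.1, g^[m] w.2) := by
  induction m generalizing w with
  | zero => rfl
  | succ m ih =>
    rw [Function.iterate_succ_apply, ih]
    rfl

/-- `avg_gen` with `F = csn(Y) φx`, `h = hm D 0 × θ`, `b = 3/(2π|D|) ≤ 3/(2πs)` and `corr_cm`; choose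
`J` with `√((1 + 2b(1 + log J))/J) ≤ ε/2` (the left side tends to zero), then `e = ε/J` -/
theorem hh_of_nr {s ε : ℝ} (hs : 0 < s) (hε : 0 < ε) : ∃ e : ℝ, 0 < e ∧
    ∀ {Z : Type} [MeasurableSpace Z] (μ : Measure Z) [IsProbabilityMeasure μ] (g : T2 × Z → ℂ)
      (D : ℝ), BM g → N2 ((volume : Measure T2).prod μ) g ≤ 1 → s ≤ |D| →
      nr μ g (hm D 0) e → HH μ g ε := by
  have hb : (0 : ℝ) ≤ 3 / (2 * π * s) := by positivity
  obtain ⟨J, hJ1, hJ2⟩ := exists_J50 (b := 3 / (2 * π * s)) hε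
  have hJ0 : (0 : ℝ) < J := by exact_mod_cast hJ1
  refine ⟨ε / J, by positivity, ?_⟩
  intro Z _ μ _ g D hg hg1 hsD hnr φ φx φy φxy hcm C h0 h1 h2
  obtain ⟨θ, hθ, hrl⟩ := hnr
  have hD : D ≠ 0 := by
    intro h
    rw [h, abs_zero] at hsD
    linarith
  have hDs : 0 < |D| := lt_of_lt_of_le hs hsD
  have hC0 : 0 ≤ C := (N2_nonneg _).trans h0
  have hmp : MeasurePreserving (fun w : T2 × Z => (hm D 0 w.1, θ w.2))
      ((volume : Measure T2).prod μ) ((volume : Measure T2).prod μ) := (mp_hm D 0).prod hθ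
  have hcsn : ∀ w : T2 × Z, ‖(csn w.1.2 : ℂ)‖ ≤ 1 := by
    intro w
    rw [Complex.norm_real]
    exact Pool.Agent.Helper78.SM.abs_csn_le _
  have bcsn : BM (fun w : T2 × Z => (csn w.1.2 : ℂ)) :=
    ⟨Complex.measurable_ofReal.comp (Pool.Agent.Helper78.SM.measurable_csn.comp
      (measurable_snd.comp measurable_fst)), 1, hcsn⟩
  have bx : BM φx := hcm.c.bx.1
  have bF : BM (fun w : T2 × Z => (csn w.1.2 : ℂ) * φx w) := bcsn.mul bx
  have hFC : N2 ((volume : Measure T2).prod μ) (fun w : T2 × Z => (csn w.1.2 : ℂ) * φx w) ≤ C := by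
    have := N2_mul_le (μ := (volume : Measure T2).prod μ) bx bcsn hcsn
    rw [one_mul] at this
    exact this.trans h1
  have hcorr : ∀ m : ℕ, 1 ≤ m → ‖IP ((volume : Measure T2).prod μ)
      (fun w => (fun w : T2 × Z => (csn w.1.2 : ℂ) * φx w)
        ((fun w : T2 × Z => (hm D 0 w.1, θ w.2))^[m] w))
      (fun w : T2 × Z => (csn w.1.2 : ℂ) * φx w)‖ ≤ 3 / (2 * π * s) * C ^ 2 / m := by
    intro m hm1
    have hm0 : (0 : ℝ) < m := by exact_mod_cast hm1
    have k1 := corr_cm (μ := μ) hD (hθ.iterate m) hcm h0 h1 h2 hm1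
    have k2 : (fun w => (fun w : T2 × Z => (csn w.1.2 : ℂ) * φx w)
        ((fun w : T2 × Z => (hm D 0 w.1, θ w.2))^[m] w)) =
        fun w : T2 × Z => (csn w.1.2 : ℂ) * φx ((hm D 0)^[m] w.1, θ^[m] w.2) := by
      funext w
      simp only
      rw [iter_prod50 (hm D 0) θ m w]
      simp only
      rw [hm_iter_snd]
    rw [k2]
    refine k1.trans ?_
    have k3 : 3 / (2 * π * |D|) ≤ 3 / (2 * π * s) := by
      apply div_le_div_of_nonneg_left (by norm_num) (by positivity)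
      exact mul_le_mul_of_nonneg_left hsD (by positivity)
    have k4 : 0 ≤ C ^ 2 := sq_nonneg C
    exact div_le_div_of_nonneg_right (mul_le_mul_of_nonneg_right k3 k4) hm0.le
  have key := avg_gen (M := (volume : Measure T2).prod μ) hmp hg hg1 bF (e := ε / J) (C := C)
    (b := 3 / (2 * π * s)) hrl hFC hb hcorr hJ1
  refine key.trans ?_
  have k5 : (J : ℝ) * (ε / J) / 2 = ε / 2 := by
    field_simp
  rw [k5]
  exact mul_le_mul_of_nonneg_right (by linarith) hC0

end Pool.Agent.Helper95.RP
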