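import Mathlib
import Pool.Agent.Helper95.RP.Cal

/-! RP-J0: the mean over `x` and the primitive in `x`. -/

set_option autoImplicit false
open MeasureTheory Real Set Filter Topology
open scoped ComplexConjugate ENNReal

namespace Pool.Agent.Helper95.RP

open Pool.Agent.Helper95.RX

attribute [local instance] Pool.Agent.Helper53.SM.instProbU Pool.Agent.Helper53.SM.instProbT2

variable {Z : Type} [MeasurableSpace Z]

/-- mean over `x` -/
noncomputable def Z0 (F : T2 × Z → ℂ) (w : T2 × Z) : ℂ := ∫ x : UnitAddCircle, F ((x, w.1.2), w.2)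

/-- primitive in `x` of `F - Z0 F`: convolution with `2πi (1/2 - t)` -/
noncomputable def JJ (F : T2 × Z → ℂ) (w : T2 × Z) : ℂ :=
  ∫ t in (0:ℝ)..1, (2 * π * Complex.I * (1 / 2 - t)) * F ((w.1.1 - (t : UnitAddCircle), w.1.2), w.2)

/-- the kernel -/
lemma kern_le {t : ℝ} (h : t ∈ Ioc (0:ℝ) 1) : ‖(2 * π * Complex.I * (1 / 2 - t) : ℂ)‖ ≤ π := by
  have h1 : ((1:ℂ) / 2 - t) = ((1 / 2 - t : ℝ) : ℂ) := by push_cast; rfl
  rw [h1, norm_mul, norm_mul, norm_mul, Complex.norm_I, Complex.norm_real, Complex.norm_real,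
    Complex.norm_two, Real.norm_eq_abs, Real.norm_eq_abs, abs_of_pos Real.pi_pos]
  have h2 : |1 / 2 - t| ≤ 1 / 2 := by
    rw [abs_le]
    constructor <;> linarith [h.1, h.2]
  nlinarith [Real.pi_pos]

lemma kern_meas : Measurable (fun t : ℝ => (2 * π * Complex.I * (1 / 2 - t) : ℂ)) := by
  fun_prop

omit [MeasurableSpace Z] in
lemma JJ_eq (F : T2 × Z → ℂ) (w : T2 × Z) : JJ F w = ∫ t in Ioc (0:ℝ) 1,
    (2 * π * Complex.I * (1 / 2 - t)) * F ((w.1.1 - (t : UnitAddCircle), w.1.2), w.2) := by
  unfold JJ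
  rw [intervalIntegral.integral_of_le zero_le_one]

lemma JJ_int {F : T2 × Z → ℂ} (hF : CB F) (w : T2 × Z) : Integrable (fun t : ℝ =>
    (2 * π * Complex.I * (1 / 2 - t)) * F ((w.1.1 - (t : UnitAddCircle), w.1.2), w.2))
      (volume.restrict (Ioc (0:ℝ) 1)) := by
  obtain ⟨⟨hm, C, hC⟩, hc⟩ := hF
  refine Integrable.of_bound (C := π * C) ?_ ?_
  · refine (kern_meas.mul (hm.comp ?_)).aestronglyMeasurable
    have h1 : Measurable (fun t : ℝ => (t : UnitAddCircle)) :=
      (AddCircle.continuous_mk' 1).measurable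
    exact ((measurable_const.sub h1).prodMk measurable_const).prodMk measurable_const
  · rw [ae_restrict_iff' measurableSet_Ioc]
    refine Eventually.of_forall fun t ht => ?_
    rw [norm_mul]
    exact mul_le_mul (kern_le ht) (hC _) (norm_nonneg _) Real.pi_pos.le

lemma Z0_int {F : T2 × Z → ℂ} (hF : CB F) (w : T2 × Z) :
    Integrable (fun x : UnitAddCircle => F ((x, w.1.2), w.2)) := by
  obtain ⟨⟨hm, C, hC⟩, hc⟩ := hF
  refine Integrable.of_bound (C := C) ?_ (Eventually.of_forall fun x => hC _)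
  exact (hm.comp ((measurable_id.prodMk measurable_const).prodMk
    measurable_const)).aestronglyMeasurable

lemma CB_Z0 {F : T2 × Z → ℂ} (hF : CB F) : CB (Z0 F) := by
  obtain ⟨⟨hm, C, hC⟩, hc⟩ := hF
  refine ⟨⟨?_, C, fun w => ?_⟩, fun z => ?_⟩
  · have h1 : Measurable (fun q : (T2 × Z) × UnitAddCircle => F ((q.2, q.1.1.2), q.1.2)) := by
      refine hm.comp ?_
      exact (measurable_snd.prodMk measurable_fst.fst.snd).prodMk measurable_fst.snd
    exact (h1.stronglyMeasurable.integral_prod_right' (ν := (volume : Measure UnitAddCircle))).measurable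
  · have h2 := norm_integral_le_of_norm_le_const (μ := (volume : Measure UnitAddCircle))
      (f := fun x : UnitAddCircle => F ((x, w.1.2), w.2)) (C := C)
      (Eventually.of_forall fun x => hC _)
    unfold Z0
    simpa using h2
  · refine continuous_of_dominated (bound := fun _ => C) (fun p => ?_)
      (fun p => Eventually.of_forall fun x => hC _) (integrable_const _)
      (Eventually.of_forall fun x => ?_)
    · exact (hm.comp ((measurable_id.prodMk measurable_const).prodMk
        measurable_const)).aestronglyMeasurable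
    · exact (hc z).comp (continuous_const.prodMk continuous_snd)

lemma CB_JJ {F : T2 × Z → ℂ} (hF : CB F) : CB (JJ F) := by
  have hJ := hF
  obtain ⟨⟨hm, C, hC⟩, hc⟩ := hF
  have hmk : Measurable (fun t : ℝ => (t : UnitAddCircle)) :=
    (AddCircle.continuous_mk' 1).measurable
  have hb : ∀ w : T2 × Z, ∀ᵐ t : ℝ ∂(volume.restrict (Ioc (0:ℝ) 1)),
      ‖(2 * π * Complex.I * (1 / 2 - t)) * F ((w.1.1 - (t : UnitAddCircle), w.1.2), w.2)‖ ≤
        π * C := by
    intro w
    rw [ae_restrict_iff' measurableSet_Ioc]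
    refine Eventually.of_forall fun t ht => ?_
    rw [norm_mul]
    exact mul_le_mul (kern_le ht) (hC _) (norm_nonneg _) Real.pi_pos.le
  refine ⟨⟨?_, π * C, fun w => ?_⟩, fun z => ?_⟩
  · have h1 : Measurable (fun q : (T2 × Z) × ℝ => (2 * π * Complex.I * (1 / 2 - (q.2 : ℂ))) *
        F ((q.1.1.1 - (q.2 : UnitAddCircle), q.1.1.2), q.1.2)) := by
      refine (kern_meas.comp measurable_snd).mul (hm.comp ?_)
      exact ((measurable_fst.fst.fst.sub (hmk.comp measurable_snd)).prodMk
        measurable_fst.fst.snd).prodMk measurable_fst.snd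
    have h2 := (h1.stronglyMeasurable.integral_prod_right'
      (ν := (volume.restrict (Ioc (0:ℝ) 1)))).measurable
    have h3 : JJ F = fun w : T2 × Z => ∫ t in Ioc (0:ℝ) 1,
        (2 * π * Complex.I * (1 / 2 - t)) * F ((w.1.1 - (t : UnitAddCircle), w.1.2), w.2) :=
      funext fun w => JJ_eq F w
    rw [h3]
    exact h2
  · rw [JJ_eq]
    have h2 := norm_integral_le_of_norm_le_const (hb w)
    simpa using h2
  · have h3 : (fun p : T2 => JJ F (p, z)) = fun p : T2 => ∫ t in Ioc (0:ℝ) 1,
        (2 * π * Complex.I * (1 / 2 - t)) * F ((p.1 - (t : UnitAddCircle), p.2), z) :=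
      funext fun p => JJ_eq F (p, z)
    rw [h3]
    refine continuous_of_dominated (bound := fun _ => π * C) (fun p => ?_)
      (fun p => hb (p, z)) (integrable_const _)
      (Eventually.of_forall fun t => ?_)
    · exact (JJ_int hJ (p, z)).aestronglyMeasurable
    · exact continuous_const.mul ((hc z).comp
        ((continuous_fst.sub continuous_const).prodMk continuous_snd))

lemma Z0_add {F G : T2 × Z → ℂ} (hF : CB F) (hG : CB G) (w : T2 × Z) :
    Z0 (fun w => F w + G w) w = Z0 F w + Z0 G w := by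
  unfold Z0
  exact integral_add (Z0_int hF w) (Z0_int hG w)

lemma JJ_add {F G : T2 × Z → ℂ} (hF : CB F) (hG : CB G) (w : T2 × Z) :
    JJ (fun w => F w + G w) w = JJ F w + JJ G w := by
  rw [JJ_eq, JJ_eq, JJ_eq, ← integral_add (JJ_int hF w) (JJ_int hG w)]
  refine integral_congr_ae (Eventually.of_forall fun t => ?_)
  simp only [mul_add]

end Pool.Agent.Helper95.RP
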