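import Mathlib
import Pool.Agent.Helper95.RP.J0

/-! RP-J1: derivatives in `x` of the primitive. -/

set_option autoImplicit false
open MeasureTheory Real Set Filter Topology
open scoped ComplexConjugate ENNReal

namespace Pool.Agent.Helper95.RP

open Pool.Agent.Helper95.RX

attribute [local instance] Pool.Agent.Helper53.SM.instProbU Pool.Agent.Helper53.SM.instProbT2

variable {Z : Type} [MeasurableSpace Z]

/-- the slice in `x` is continuous -/
lemma CB.slx {F : T2 × Z → ℂ} (hF : CB F) (y : ℝ) (z : Z) :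
    Continuous (fun u : ℝ => F (mk2 (u, y), z)) := by
  have h1 : Continuous (fun u : ℝ => (mk2 (u, y) : T2)) := by
    have h2 : Continuous (fun u : ℝ => (u : UnitAddCircle)) := AddCircle.continuous_mk' 1
    have h3 : Continuous (fun _ : ℝ => (y : UnitAddCircle)) := continuous_const
    exact h2.prodMk h3
  exact (hF.2 z).comp h1

omit [MeasurableSpace Z] in
lemma slx_per (F : T2 × Z → ℂ) (x y : ℝ) (z : Z) : F (mk2 (x - 1, y), z) = F (mk2 (x, y), z) := by
  have h1 : (mk2 (x - 1, y) : T2) = mk2 (x, y) := by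
    unfold mk2
    have h2 : ((x - 1 : ℝ) : UnitAddCircle) = (x : UnitAddCircle) := by
      rw [AddCircle.coe_sub]
      have h3 : ((1 : ℝ) : UnitAddCircle) = 0 := AddCircle.coe_period 1
      rw [h3, sub_zero]
    simp only [h2]
  rw [h1]

omit [MeasurableSpace Z] in
lemma Z0_mk2 (F : T2 × Z → ℂ) (x y : ℝ) (z : Z) :
    Z0 F (mk2 (x, y), z) = ∫ u in (x - 1)..x, F (mk2 (u, y), z) := by
  have h1 := UnitAddCircle.intervalIntegral_preimage (x - 1)
    (fun a : UnitAddCircle => F ((a, (y : UnitAddCircle)), z))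
  rw [sub_add_cancel] at h1
  exact h1.symm

omit [MeasurableSpace Z] in
lemma JJ_mk2 (F : T2 × Z → ℂ) (x y : ℝ) (z : Z) :
    JJ F (mk2 (x, y), z) = ∫ u in (0:ℝ)..1, (2 * π * Complex.I * (1 / 2 - u)) *
      F (mk2 (x - u, y), z) := by
  rfl

omit [MeasurableSpace Z] in
lemma JJ_mk2' (F : T2 × Z → ℂ) (x y : ℝ) (z : Z) :
    JJ F (mk2 (x, y), z) = ∫ u in (x - 1)..x, (2 * π * Complex.I * (1 / 2 - (x - u))) *
      F (mk2 (u, y), z) := by
  rw [JJ_mk2]
  have h1 := intervalIntegral.integral_comp_sub_left (a := 0) (b := 1)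
    (fun u : ℝ => (2 * π * Complex.I * (1 / 2 - ((x : ℂ) - u))) * F (mk2 (u, y), z)) x
  rw [sub_zero] at h1
  rw [← h1]
  refine intervalIntegral.integral_congr fun u _ => ?_
  simp only [Complex.ofReal_sub, sub_sub_cancel]

/-- derivative of a moving integral -/
lemma hasDerivAt_move {f : ℝ → ℂ} (hf : Continuous f) (x : ℝ) :
    HasDerivAt (fun t : ℝ => ∫ u in (t - 1)..t, f u) (f x - f (x - 1)) x := by
  have h1 : (fun t : ℝ => ∫ u in (t - 1)..t, f u) =
      fun t : ℝ => (∫ u in (0:ℝ)..t, f u) - ∫ u in (0:ℝ)..(t - 1), f u := by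
    funext t
    rw [intervalIntegral.integral_interval_sub_left (hf.intervalIntegrable _ _)
      (hf.intervalIntegrable _ _)]
  rw [h1]
  have h2 : ∀ s : ℝ, HasDerivAt (fun t : ℝ => ∫ u in (0:ℝ)..t, f u) (f s) s := fun s =>
    intervalIntegral.integral_hasDerivAt_right (hf.intervalIntegrable _ _)
      hf.aestronglyMeasurable.stronglyMeasurableAtFilter hf.continuousAt
  refine (h2 x).sub ?_
  exact (h2 (x - 1)).comp_sub_const x 1

/-- with `f t = F ((t, y), z)` (1-periodic, continuous):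
`JJ F = 2πi ((1/2 - x) ∫_{x-1}^x f + ∫_{x-1}^x u f(u) du)`, derivative `2πi (f(x) - ∫_{x-1}^x f)` -/
lemma HX_JJ {F : T2 × Z → ℂ} (hF : CB F) : HX (JJ F) (fun w => F w - Z0 F w) := by
  intro x y z
  have hf := hF.slx y z
  set f : ℝ → ℂ := fun u => F (mk2 (u, y), z) with hfd
  have h1 : (fun t : ℝ => JJ F (mk2 (t, y), z)) = fun t : ℝ => 2 * π * Complex.I *
      ((1 / 2 - (t : ℂ)) * (∫ u in (t - 1)..t, f u) + ∫ u in (t - 1)..t, (u : ℂ) * f u) := by
    funext t
    have e1 : IntervalIntegrable (fun u : ℝ => (1 / 2 - (t : ℂ)) * f u) volume (t - 1) t :=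
      (continuous_const.mul hf).intervalIntegrable _ _
    have e2 : IntervalIntegrable (fun u : ℝ => (u : ℂ) * f u) volume (t - 1) t :=
      (Complex.continuous_ofReal.mul hf).intervalIntegrable _ _
    rw [JJ_mk2', ← intervalIntegral.integral_const_mul, ← intervalIntegral.integral_add e1 e2,
      ← intervalIntegral.integral_const_mul]
    refine intervalIntegral.integral_congr fun u _ => ?_
    simp only [hfd]
    ring
  rw [h1]
  have h2 := hasDerivAt_move hf x
  have h3 := hasDerivAt_move (f := fun u : ℝ => (u : ℂ) * f u)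
    (Complex.continuous_ofReal.mul hf) x
  have h4 : HasDerivAt (fun t : ℝ => (1 / 2 - (t : ℂ))) (0 - 1) x :=
    (hasDerivAt_const x (1 / 2 : ℂ)).sub (Complex.ofRealCLM.hasDerivAt (x := x))
  have h5 := ((h4.mul h2).add h3).const_mul (2 * π * Complex.I)
  refine h5.congr_deriv ?_
  have h6 : f (x - 1) = f x := slx_per F x y z
  have h7 : Z0 F (mk2 (x, y), z) = ∫ u in (x - 1)..x, f u := Z0_mk2 F x y z
  simp only []
  rw [h7, h6]
  push_cast
  simp only [hfd]
  ring

lemma HX_Z0 (F : T2 × Z → ℂ) : HX (Z0 F) (fun _ => 0) := by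
  intro x y z
  rw [mul_zero]
  exact hasDerivAt_const x (Z0 F (mk2 (x, y), z))

/-- the primitive of a derivative (integration by parts on `[0, 1]`) -/
lemma JJ_dx {G G' : T2 × Z → ℂ} (hG : CB G) (hG' : CB G') (h : HX G G') (w : T2 × Z) :
    JJ G' w = G w - Z0 G w := by
  obtain ⟨⟨a, b⟩, z⟩ := w
  induction a using QuotientAddGroup.induction_on with
  | _ x =>
  induction b using QuotientAddGroup.induction_on with
  | _ y =>
  have hg := hG.slx y z
  have hg' := hG'.slx y z
  have hd : ∀ t : ℝ, HasDerivAt (fun u : ℝ => G (mk2 (x - u, y), z))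
      (-(2 * π * Complex.I * G' (mk2 (x - t, y), z))) t := by
    intro t
    have h1 := (h (x - t) y z).comp_const_sub x t
    exact h1
  have hu : ∀ t : ℝ, HasDerivAt (fun t : ℝ => (1 / 2 - (t : ℂ))) (-1) t := by
    intro t
    have := (hasDerivAt_const t (1 / 2 : ℂ)).sub (Complex.ofRealCLM.hasDerivAt (x := t))
    refine this.congr_deriv ?_
    simp
  have h2 := intervalIntegral.integral_mul_deriv_eq_deriv_mul (a := 0) (b := 1)
    (u := fun t : ℝ => (1 / 2 - (t : ℂ))) (v := fun u : ℝ => G (mk2 (x - u, y), z))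
    (fun t _ => hu t) (fun t _ => hd t) (continuous_const.intervalIntegrable _ _)
    ((((hg'.comp (continuous_const.sub continuous_id)).const_mul
      (2 * π * Complex.I)).neg).intervalIntegrable _ _)
  have h3 : JJ G' (mk2 (x, y), z) =
      -∫ t in (0:ℝ)..1, (1 / 2 - (t : ℂ)) * (-(2 * π * Complex.I * G' (mk2 (x - t, y), z))) := by
    rw [JJ_mk2, ← intervalIntegral.integral_neg]
    refine intervalIntegral.integral_congr fun u _ => ?_
    ring
  have h4 : Z0 G (mk2 (x, y), z) = ∫ t in (0:ℝ)..1, G (mk2 (x - t, y), z) := by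
    rw [Z0_mk2]
    have h5 := intervalIntegral.integral_comp_sub_left (a := 0) (b := 1)
      (fun u : ℝ => G (mk2 (u, y), z)) x
    rw [h5, sub_zero]
  show JJ G' (mk2 (x, y), z) = G (mk2 (x, y), z) - Z0 G (mk2 (x, y), z)
  rw [h3, h2, h4, sub_zero, slx_per G]
  simp only [neg_mul, one_mul, intervalIntegral.integral_neg]
  push_cast
  ring

lemma Z0_dx {G G' : T2 × Z → ℂ} (hG : CB G) (hG' : CB G') (h : HX G G') (w : T2 × Z) :
    Z0 G' w = 0 := by
  obtain ⟨⟨a, b⟩, z⟩ := w
  induction a using QuotientAddGroup.induction_on with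
  | _ x =>
  induction b using QuotientAddGroup.induction_on with
  | _ y =>
  have hg' := hG'.slx y z
  show Z0 G' (mk2 (x, y), z) = 0
  rw [Z0_mk2]
  have h1 := intervalIntegral.integral_eq_sub_of_hasDerivAt (a := x - 1) (b := x)
    (f := fun u : ℝ => G (mk2 (u, y), z)) (f' := fun u : ℝ => 2 * π * Complex.I *
      G' (mk2 (u, y), z)) (fun u _ => h u y z) ((hg'.const_mul _).intervalIntegrable _ _)
  rw [slx_per G, sub_self, intervalIntegral.integral_const_mul] at h1
  have h2 : (2 * π * Complex.I : ℂ) ≠ 0 := Complex.two_pi_I_ne_zero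
  exact (mul_eq_zero.1 h1).resolve_left h2

end Pool.Agent.Helper95.RP
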