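import Mathlib
import Pool.Agent.Helper95.RP.J0

/-! RP-J2: derivatives in `y` of the mean and the primitive (differentiation under the integral). -/

set_option autoImplicit false
open MeasureTheory Real Set Filter Topology
open scoped ComplexConjugate ENNReal

namespace Pool.Agent.Helper95.RP

open Pool.Agent.Helper95.RX

attribute [local instance] Pool.Agent.Helper53.SM.instProbU Pool.Agent.Helper53.SM.instProbT2

variable {Z : Type} [MeasurableSpace Z]

omit [MeasurableSpace Z] in
/-- `HY` at a general point of the circle in `x` -/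
lemma HY.pt {F F' : T2 × Z → ℂ} (h : HY F F') (a : UnitAddCircle) (y : ℝ) (z : Z) :
    HasDerivAt (fun t : ℝ => F ((a, (t : UnitAddCircle)), z))
      (2 * π * Complex.I * F' ((a, (y : UnitAddCircle)), z)) y := by
  induction a using QuotientAddGroup.induction_on with
  | _ x => exact h x y z

lemma HY_Z0 {F F' : T2 × Z → ℂ} (hF : CB F) (hF' : CB F') (h : HY F F') : HY (Z0 F) (Z0 F') := by
  intro x y z
  obtain ⟨⟨hm', C, hC⟩, hc'⟩ := id hF'
  have hm := hF.1.1
  have h1 := hasDerivAt_integral_of_dominated_loc_of_deriv_le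
    (μ := (volume : Measure UnitAddCircle)) (𝕜 := ℝ) (x₀ := y) (s := univ)
    (F := fun (t : ℝ) (a : UnitAddCircle) => F ((a, (t : UnitAddCircle)), z))
    (F' := fun (t : ℝ) (a : UnitAddCircle) =>
      2 * π * Complex.I * F' ((a, (t : UnitAddCircle)), z))
    (bound := fun _ => ‖(2 * π * Complex.I : ℂ)‖ * C) univ_mem
    (Eventually.of_forall fun t => (hm.comp ((measurable_id.prodMk measurable_const).prodMk
        measurable_const)).aestronglyMeasurable)
    (Z0_int hF ((0, (y : UnitAddCircle)), z))
    ((hm'.comp ((measurable_id.prodMk measurable_const).prodMk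
        measurable_const)).const_mul _).aestronglyMeasurable
    (Eventually.of_forall fun a t _ => by
      rw [norm_mul]
      exact mul_le_mul_of_nonneg_left (hC _) (norm_nonneg _))
    (integrable_const _)
    (Eventually.of_forall fun a t _ => h.pt a t z)
  have h2 := h1.2
  rw [integral_const_mul] at h2
  exact h2

lemma HY_JJ {F F' : T2 × Z → ℂ} (hF : CB F) (hF' : CB F') (h : HY F F') : HY (JJ F) (JJ F') := by
  intro x y z
  obtain ⟨⟨hm', C, hC⟩, hc'⟩ := id hF'
  have hm := hF.1.1
  have h1 := hasDerivAt_integral_of_dominated_loc_of_deriv_le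
    (μ := (volume : Measure ℝ).restrict (Ioc (0:ℝ) 1)) (𝕜 := ℝ) (x₀ := y) (s := univ)
    (F := fun (t : ℝ) (u : ℝ) => (2 * π * Complex.I * (1 / 2 - u)) *
      F (((x : UnitAddCircle) - (u : UnitAddCircle), (t : UnitAddCircle)), z))
    (F' := fun (t : ℝ) (u : ℝ) => 2 * π * Complex.I * ((2 * π * Complex.I * (1 / 2 - u)) *
      F' (((x : UnitAddCircle) - (u : UnitAddCircle), (t : UnitAddCircle)), z)))
    (bound := fun _ => ‖(2 * π * Complex.I : ℂ)‖ * (π * C)) univ_mem
    (Eventually.of_forall fun t =>
      (JJ_int hF (((x : UnitAddCircle), (t : UnitAddCircle)), z)).aestronglyMeasurable)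
    (JJ_int hF (((x : UnitAddCircle), (y : UnitAddCircle)), z))
    ((JJ_int hF' (((x : UnitAddCircle), (y : UnitAddCircle)), z)).const_mul _).aestronglyMeasurable
    (by
      rw [ae_restrict_iff' measurableSet_Ioc]
      refine Eventually.of_forall fun u hu t _ => ?_
      rw [norm_mul, norm_mul (2 * π * Complex.I * (1 / 2 - (u:ℂ)))]
      exact mul_le_mul_of_nonneg_left
        (mul_le_mul (kern_le hu) (hC _) (norm_nonneg _) Real.pi_pos.le) (norm_nonneg _))
    (integrable_const _)
    (Eventually.of_forall fun u t _ => by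
      have h2 := (h.pt ((x : UnitAddCircle) - (u : UnitAddCircle)) t z).const_mul
        (2 * π * Complex.I * (1 / 2 - (u:ℂ)))
      refine h2.congr_deriv ?_
      ring)
  have h2 := h1.2
  rw [integral_const_mul] at h2
  have h3 : (fun t : ℝ => JJ F (mk2 (x, t), z)) = fun t : ℝ => ∫ u in Ioc (0:ℝ) 1,
      (2 * π * Complex.I * (1 / 2 - u)) *
      F (((x : UnitAddCircle) - (u : UnitAddCircle), (t : UnitAddCircle)), z) :=
    funext fun t => JJ_eq F (mk2 (x, t), z)
  rw [h3, JJ_eq]
  exact h2

end Pool.Agent.Helper95.RP
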