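import Mathlib
import Pool.Agent.Helper95.RX.Var
import Pool.Agent.Helper95.RP.J0

/-! RP-J3: norms of the mean and the primitive. -/

set_option autoImplicit false
open MeasureTheory Real Set Filter Topology
open scoped ComplexConjugate ENNReal

namespace Pool.Agent.Helper95.RP

open Pool.Agent.Helper95.RX

attribute [local instance] Pool.Agent.Helper53.SM.instProbU Pool.Agent.Helper53.SM.instProbT2

variable {Z : Type} [MeasurableSpace Z] {μ : Measure Z} [IsProbabilityMeasure μ]

/-- translation in `x` -/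
noncomputable def trx (t : ℝ) (w : T2 × Z) : T2 × Z := ((w.1.1 - (t : UnitAddCircle), w.1.2), w.2)

lemma meas_trx : Measurable (fun q : ℝ × (T2 × Z) => trx q.1 q.2) := by
  have hmk : Measurable (fun t : ℝ => (t : UnitAddCircle)) :=
    (AddCircle.continuous_mk' 1).measurable
  unfold trx
  exact ((measurable_snd.fst.fst.sub (hmk.comp measurable_fst)).prodMk
    measurable_snd.fst.snd).prodMk measurable_snd.snd

omit [IsProbabilityMeasure μ] in
lemma mp_trx [SFinite μ] (t : ℝ) : MeasurePreserving (trx (Z := Z) t)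
    ((volume : Measure T2).prod μ) ((volume : Measure T2).prod μ) := by
  have h1 : MeasurePreserving (fun a : UnitAddCircle => a - (t : UnitAddCircle))
    volume volume := measurePreserving_sub_right volume _
  have h2 : MeasurePreserving (fun p : T2 => ((p.1 - (t : UnitAddCircle), p.2) : T2))
      (volume : Measure T2) volume := h1.prod (MeasurePreserving.id _)
  exact h2.prod (MeasurePreserving.id μ)

lemma probI : IsProbabilityMeasure ((volume : Measure ℝ).restrict (Ioc (0:ℝ) 1)) :=
  ⟨by simp⟩

omit [MeasurableSpace Z] in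
lemma Z0_Qop (F : T2 × Z → ℂ) :
    Z0 F = Qop (trx (Z := Z)) ((volume : Measure ℝ).restrict (Ioc (0:ℝ) 1)) F := by
  funext w
  have h1 := UnitAddCircle.integral_preimage 0
    (fun b : UnitAddCircle => F ((w.1.1 - b, w.1.2), w.2))
  have h2 := integral_sub_left_eq_self (μ := (volume : Measure UnitAddCircle))
    (fun b : UnitAddCircle => F ((b, w.1.2), w.2)) w.1.1
  rw [zero_add] at h1
  unfold Z0 Qop trx
  rw [← h2, ← h1]

lemma N2_mono_c {g h : T2 × Z → ℂ} (hg : BM g) (hh : BM h) {C : ℝ} (hC0 : 0 ≤ C)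
    (hC : ∀ w, ‖g w‖ ≤ C * ‖h w‖) :
    N2 ((volume : Measure T2).prod μ) g ≤ C * N2 ((volume : Measure T2).prod μ) h := by
  unfold N2
  have h1 : C * Real.sqrt (∫ w, ‖h w‖ ^ 2 ∂((volume : Measure T2).prod μ)) =
      Real.sqrt (∫ w, C ^ 2 * ‖h w‖ ^ 2 ∂((volume : Measure T2).prod μ)) := by
    rw [integral_const_mul, Real.sqrt_mul (sq_nonneg _), Real.sqrt_sq hC0]
  rw [h1]
  apply Real.sqrt_le_sqrt
  apply integral_mono hg.integrable_sq (hh.integrable_sq.const_mul _)
  intro w
  show ‖g w‖ ^ 2 ≤ C ^ 2 * ‖h w‖ ^ 2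
  rw [← mul_pow]
  exact pow_le_pow_left₀ (norm_nonneg _) (hC w) 2

/-- Cauchy–Schwarz and Fubini -/
lemma N2_Z0_le {F : T2 × Z → ℂ} (hF : CB F) :
    N2 ((volume : Measure T2).prod μ) (Z0 F) ≤ N2 ((volume : Measure T2).prod μ) F := by
  have hp := probI
  rw [Z0_Qop]
  exact N2_Qop_le meas_trx mp_trx hF.1

/-- the kernel is bounded by `π` -/
lemma N2_JJ_le {F : T2 × Z → ℂ} (hF : CB F) :
    N2 ((volume : Measure T2).prod μ) (JJ F) ≤ 4 * N2 ((volume : Measure T2).prod μ) F := by
  have hp := probI
  have hbF : BM (fun w => ((‖F w‖ : ℝ) : ℂ)) := by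
    obtain ⟨⟨hm, C, hC⟩, hc⟩ := hF
    refine ⟨Complex.measurable_ofReal.comp hm.norm, C, fun w => ?_⟩
    rw [Complex.norm_real, norm_norm]
    exact hC w
  have h1 := N2_Qop_le (μ := (volume : Measure T2).prod μ)
    (ν := (volume : Measure ℝ).restrict (Ioc (0:ℝ) 1)) (meas_trx (Z := Z)) mp_trx hbF
  have h2 : N2 ((volume : Measure T2).prod μ) (fun w => ((‖F w‖ : ℝ) : ℂ)) =
      N2 ((volume : Measure T2).prod μ) F := by
    unfold N2
    simp only [Complex.norm_real, norm_norm]
  rw [h2] at h1
  have h3 := N2_mono_c (μ := μ) (CB_JJ hF).1 (BM_Qop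
    (ν := (volume : Measure ℝ).restrict (Ioc (0:ℝ) 1)) (meas_trx (Z := Z)) hbF)
    (C := 4) (by norm_num) (fun w => by
      rw [JJ_eq]
      unfold Qop
      rw [integral_complex_ofReal, Complex.norm_real, Real.norm_eq_abs,
        abs_of_nonneg (integral_nonneg fun _ => norm_nonneg _)]
      refine (norm_integral_le_integral_norm _).trans ?_
      rw [← integral_const_mul]
      refine integral_mono_ae (JJ_int hF w).norm ?_ ?_
      · refine Integrable.const_mul ?_ _
        have h4 := hF.1
        obtain ⟨hm, C, hC⟩ := h4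
        refine Integrable.of_bound (C := C) ?_ (Eventually.of_forall fun t => ?_)
        · have h5 : Measurable (fun t : ℝ => trx t w) :=
            meas_trx.comp (measurable_id.prodMk measurable_const)
          exact (hm.comp h5).norm.aestronglyMeasurable
        · rw [norm_norm]
          exact hC _
      · rw [EventuallyLE, ae_restrict_iff' measurableSet_Ioc]
        refine Eventually.of_forall fun t ht => ?_
        rw [norm_mul]
        refine mul_le_mul ((kern_le ht).trans ?_) le_rfl (norm_nonneg _) (by norm_num)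
        exact Real.pi_lt_four.le)
  linarith

end Pool.Agent.Helper95.RP
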