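import Mathlib
import Pool.Agent.Helper95.RP.J1
import Pool.Agent.Helper95.RP.J2
import Pool.Agent.Helper95.RP.J3

/-! RP-KH: smooth multipliers. -/

set_option autoImplicit false
open MeasureTheory Real Set Filter Topology
open scoped ComplexConjugate ENNReal

namespace Pool.Agent.Helper95.RP

open Pool.Agent.Helper95.RX

attribute [local instance] Pool.Agent.Helper53.SM.instProbU Pool.Agent.Helper53.SM.instProbT2

variable {Z : Type} [MeasurableSpace Z] {μ : Measure Z} [IsProbabilityMeasure μ]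

/-- `φ = JJ (M ψx)`.  With `F = M ψx`, `G = M ψy`, `E = My ψx - Mx ψy` one has `Fy = E + Gx`, so
`φx = F - Z0 F`, `φy = JJ Fy = JJ E + G - Z0 G`, `φxy = Fy - Z0 Fy` (`Z0 Gx = 0`). -/
lemma CM_JJ {M Mx My ψ ψx ψy ψxy : T2 × Z → ℂ} (hM : C1 M Mx My) (hψ : CM ψ ψx ψy ψxy) :
    CM (JJ (fun w => M w * ψx w)) (fun w => M w * ψx w - Z0 (fun w => M w * ψx w) w)
      (fun w => JJ (fun w => My w * ψx w - Mx w * ψy w) w + M w * ψy w -
        Z0 (fun w => M w * ψy w) w)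
      (fun w => (My w * ψx w + M w * ψxy w) - Z0 (fun w => My w * ψx w + M w * ψxy w) w) := by
  have bF : CB (fun w => M w * ψx w) := hM.b.mul hψ.c.bx
  have bG : CB (fun w => M w * ψy w) := hM.b.mul hψ.c.by'
  have bE : CB (fun w => My w * ψx w - Mx w * ψy w) :=
    (hM.by'.mul hψ.c.bx).sub (hM.bx.mul hψ.c.by')
  have bFy : CB (fun w => My w * ψx w + M w * ψxy w) :=
    (hM.by'.mul hψ.c.bx).add (hM.b.mul hψ.bxy)
  have bGx : CB (fun w => Mx w * ψy w + M w * ψxy w) :=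
    (hM.bx.mul hψ.c.by').add (hM.b.mul hψ.bxy)
  have hFy : HY (fun w => M w * ψx w) (fun w => My w * ψx w + M w * ψxy w) := by
    intro x y z
    refine ((hM.hy x y z).mul (hψ.hxy x y z)).congr_deriv ?_
    ring
  have hGx : HX (fun w => M w * ψy w) (fun w => Mx w * ψy w + M w * ψxy w) := by
    intro x y z
    refine ((hM.hx x y z).mul (hψ.hyx x y z)).congr_deriv ?_
    ring
  have hsum : (fun w => My w * ψx w + M w * ψxy w) =
      fun w => (My w * ψx w - Mx w * ψy w) + (Mx w * ψy w + M w * ψxy w) := by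
    funext w
    ring
  -- `JJ Fy = JJ E + G - Z0 G`
  have hJ : JJ (fun w => My w * ψx w + M w * ψxy w) =
      fun w => JJ (fun w => My w * ψx w - Mx w * ψy w) w + M w * ψy w -
        Z0 (fun w => M w * ψy w) w := by
    funext w
    rw [hsum, JJ_add bE bGx, JJ_dx bG bGx hGx]
    ring
  have bφy : CB (fun w => JJ (fun w => My w * ψx w - Mx w * ψy w) w + M w * ψy w -
        Z0 (fun w => M w * ψy w) w) := ((CB_JJ bE).add bG).sub (CB_Z0 bG)
  refine ⟨⟨CB_JJ bF, bF.sub (CB_Z0 bF), bφy, HX_JJ bF, ?_⟩, bFy.sub (CB_Z0 bFy), ?_, ?_⟩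
  · rw [← hJ]
    exact HY_JJ bF bFy hFy
  · intro x y z
    have h1 := (hFy x y z).sub (HY_Z0 bF bFy hFy x y z)
    refine h1.congr_deriv ?_
    ring
  · rw [← hJ]
    exact HX_JJ bFy

/-- `csn F = csn φx + csn Z0 F`; the first term by `HH` with `10 K C`, the second is a function of
`(y, z)`, so by `ZZ` for `g ∘ sw` -/
theorem kk_of_hh {g : T2 × Z → ℂ} (hg : BM g) {ε ε' : ℝ} (hε : 0 ≤ ε) (hε' : 0 ≤ ε')
    (h1 : HH μ g ε) (h2 : ZZ μ (fun w => g (sw w)) ε') : KK μ g (10 * ε + ε') := by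
  intro M K hMu ψ ψx ψy ψxy hψ C hC0 hC1 hC2
  obtain ⟨Mx, My, hM, hK⟩ := hMu
  have bF : CB (fun w => M w * ψx w) := hM.b.mul hψ.c.bx
  have bG : CB (fun w => M w * ψy w) := hM.b.mul hψ.c.by'
  have bE1 : CB (fun w => My w * ψx w) := hM.by'.mul hψ.c.bx
  have bE2 : CB (fun w => Mx w * ψy w) := hM.bx.mul hψ.c.by'
  have bE : CB (fun w => My w * ψx w - Mx w * ψy w) := bE1.sub bE2
  have hCn : 0 ≤ C := (N2_nonneg _).trans hC0
  have hne : Nonempty (T2 × Z) := by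
    by_contra hcon
    rw [not_nonempty_iff] at hcon
    have := measure_univ (μ := (volume : Measure T2).prod μ)
    rw [Set.univ_eq_empty_iff.2 hcon, measure_empty] at this
    exact zero_ne_one this
  obtain ⟨w0⟩ := hne
  have hKn : 0 ≤ K := (norm_nonneg _).trans (hK w0).1
  have hKC : 0 ≤ K * C := mul_nonneg hKn hCn
  -- norms
  have nF : N2 ((volume : Measure T2).prod μ) (fun w => M w * ψx w) ≤ K * C :=
    (N2_mul_le hψ.c.bx.1 hM.b.1 fun w => (hK w).1).trans (mul_le_mul_of_nonneg_left hC1 hKn)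
  have nG : N2 ((volume : Measure T2).prod μ) (fun w => M w * ψy w) ≤ K * C :=
    (N2_mul_le hψ.c.by'.1 hM.b.1 fun w => (hK w).1).trans (mul_le_mul_of_nonneg_left hC2 hKn)
  have nE1 : N2 ((volume : Measure T2).prod μ) (fun w => My w * ψx w) ≤ K * C :=
    (N2_mul_le hψ.c.bx.1 hM.by'.1 fun w => (hK w).2.2).trans (mul_le_mul_of_nonneg_left hC1 hKn)
  have nE2 : N2 ((volume : Measure T2).prod μ) (fun w => Mx w * ψy w) ≤ K * C :=
    (N2_mul_le hψ.c.by'.1 hM.bx.1 fun w => (hK w).2.1).trans (mul_le_mul_of_nonneg_left hC2 hKn)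
  have nE : N2 ((volume : Measure T2).prod μ) (fun w => My w * ψx w - Mx w * ψy w) ≤ 2 * (K * C) :=
    (N2_sub_le bE1.1 bE2.1).trans (by linarith)
  have nJE := (N2_JJ_le (μ := μ) bE).trans (mul_le_mul_of_nonneg_left nE (by norm_num : (0:ℝ) ≤ 4))
  have nJF := (N2_JJ_le (μ := μ) bF).trans (mul_le_mul_of_nonneg_left nF (by norm_num : (0:ℝ) ≤ 4))
  have nZF := (N2_Z0_le (μ := μ) bF).trans nF
  have nZG := (N2_Z0_le (μ := μ) bG).trans nG
  have n0 : N2 ((volume : Measure T2).prod μ) (JJ (fun w => M w * ψx w)) ≤ 10 * (K * C) := by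
    linarith
  have n1 : N2 ((volume : Measure T2).prod μ)
      (fun w => M w * ψx w - Z0 (fun w => M w * ψx w) w) ≤ 10 * (K * C) :=
    (N2_sub_le bF.1 (CB_Z0 bF).1).trans (by linarith)
  have n2 : N2 ((volume : Measure T2).prod μ)
      (fun w => JJ (fun w => My w * ψx w - Mx w * ψy w) w + M w * ψy w -
        Z0 (fun w => M w * ψy w) w) ≤ 10 * (K * C) := by
    refine (N2_sub_le ((CB_JJ bE).add bG).1 (CB_Z0 bG).1).trans ?_
    have := N2_add_le (μ := (volume : Measure T2).prod μ) (CB_JJ bE).1 bG.1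
    linarith
  have hH := h1 _ _ _ _ (CM_JJ hM hψ) (10 * (K * C)) n0 n1 n2
  -- the function of `(y, z)`
  have bcs : CB (fun w : T2 × Z => (csn w.1.2 : ℂ)) := (C1.csnY).b
  have bρ : CB (fun w : T2 × Z => (csn w.1.2 : ℂ) * Z0 (fun w => M w * ψx w) w) :=
    bcs.mul (CB_Z0 bF)
  have hcs1 : ∀ w : T2 × Z, ‖(csn w.1.2 : ℂ)‖ ≤ 1 := by
    intro w
    rw [Complex.norm_real]
    exact Pool.Agent.Helper78.SM.abs_csn_le _
  have hZ := h2 (fun w => (fun w : T2 × Z => (csn w.1.2 : ℂ) * Z0 (fun w => M w * ψx w) w) (sw w))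
    bρ.swp (fun x y y' z => rfl)
  have hmpsw : MeasurePreserving (sw : T2 × Z → T2 × Z) ((volume : Measure T2).prod μ)
      ((volume : Measure T2).prod μ) := mp_sw
  rw [IP_comp hmpsw hg.1 bρ.1.1, N2_comp hmpsw bρ.1.1] at hZ
  have nρ : N2 ((volume : Measure T2).prod μ)
      (fun w : T2 × Z => (csn w.1.2 : ℂ) * Z0 (fun w => M w * ψx w) w) ≤ K * C := by
    refine (N2_mul_le (CB_Z0 bF).1 bcs.1 hcs1).trans ?_
    rw [one_mul]
    exact nZF
  have hZ' := hZ.trans (mul_le_mul_of_nonneg_left nρ hε')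
  have hdec : (fun w : T2 × Z => (csn w.1.2 : ℂ) * (M w * ψx w)) =
      fun w => (csn w.1.2 : ℂ) * (M w * ψx w - Z0 (fun w => M w * ψx w) w) +
        (csn w.1.2 : ℂ) * Z0 (fun w => M w * ψx w) w := by
    funext w
    ring
  rw [hdec, IP_add_right hg (bcs.mul (bF.sub (CB_Z0 bF))).1 bρ.1]
  calc _ ≤ _ := norm_add_le _ _
    _ ≤ ε * (10 * (K * C)) + ε' * (K * C) := add_le_add hH hZ'
    _ = (10 * ε + ε') * (K * C) := by ring

end Pool.Agent.Helper95.RP
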