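import Mathlib
import Pool.Agent.Helper95.RP.J1
import Pool.Agent.Helper95.RP.J3

/-! RP-ZERO: smallness against functions of one variable. -/

set_option autoImplicit false
open MeasureTheory Real Set Filter Topology
open scoped ComplexConjugate ENNReal

namespace Pool.Agent.Helper95.RP

open Pool.Agent.Helper95.RX

attribute [local instance] Pool.Agent.Helper53.SM.instProbU Pool.Agent.Helper53.SM.instProbT2

/-- the cut-off `δ²/(csn² + δ²)` is small in `L²` (dominated convergence, `csn ≠ 0` almost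
everywhere; see `Helper78.SM.sublevel_two_csn`) -/
lemma cut_small {η : ℝ} (hη : 0 < η) : ∃ δ : ℝ, 0 < δ ∧ δ ≤ 1 ∧
    ∫ y : UnitAddCircle, (δ ^ 2 / (csn y ^ 2 + δ ^ 2)) ^ 2 ≤ η := by
  obtain ⟨s, hs0, hs1, hs2⟩ : ∃ s : ℝ, 0 < s ∧ s ≤ 1 ∧ s ≤ η / 3 :=
    ⟨min 1 (η / 3), lt_min one_pos (by linarith), min_le_left _ _, min_le_right _ _⟩
  have hs3 : 0 < s ^ 3 / 4 := by positivity
  have hδ2 : Real.sqrt (s ^ 3 / 4) ^ 2 = s ^ 3 / 4 := Real.sq_sqrt hs3.le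
  have hδ0 : 0 < Real.sqrt (s ^ 3 / 4) := Real.sqrt_pos.2 hs3
  refine ⟨Real.sqrt (s ^ 3 / 4), hδ0, ?_, ?_⟩
  · have h1 : s ^ 3 ≤ 1 := pow_le_one₀ hs0.le hs1
    exact Real.sqrt_le_iff.2 ⟨zero_le_one, by linarith⟩
  · rw [hδ2]
    have hS : MeasurableSet {θ : UnitAddCircle | |2 * csn θ| ≤ s} :=
      measurableSet_le ((Pool.Agent.Helper78.SM.measurable_csn.const_mul 2).abs) measurable_const
    have key : ∀ y : UnitAddCircle, (s ^ 3 / 4 / (csn y ^ 2 + s ^ 3 / 4)) ^ 2 ≤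
        {θ : UnitAddCircle | |2 * csn θ| ≤ s}.indicator (fun _ => (1 : ℝ)) y + s ^ 2 := by
      intro y
      have hp : 0 < csn y ^ 2 + s ^ 3 / 4 := by positivity
      have h0 : 0 ≤ s ^ 3 / 4 / (csn y ^ 2 + s ^ 3 / 4) := by positivity
      by_cases h : |2 * csn y| ≤ s
      · rw [Set.indicator_of_mem (by exact h)]
        have h1 : s ^ 3 / 4 / (csn y ^ 2 + s ^ 3 / 4) ≤ 1 := by
          rw [div_le_one hp]
          have := sq_nonneg (csn y)
          linarith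
        have h2 : (s ^ 3 / 4 / (csn y ^ 2 + s ^ 3 / 4)) ^ 2 ≤ 1 := pow_le_one₀ h0 h1
        have h3 := sq_nonneg s
        linarith
      · rw [Set.indicator_of_notMem (by exact h), zero_add]
        refine pow_le_pow_left₀ h0 ?_ 2
        rw [div_le_iff₀ hp]
        have h4 : s ^ 2 ≤ 4 * csn y ^ 2 := by
          have h5 : s ^ 2 ≤ |2 * csn y| ^ 2 := pow_le_pow_left₀ hs0.le (not_le.1 h).le 2
          rw [sq_abs] at h5
          linarith
        have h6 : s * s ^ 2 ≤ s * (4 * csn y ^ 2) := mul_le_mul_of_nonneg_left h4 hs0.le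
        have h7 : 0 < s * (s ^ 3 / 4) := by positivity
        nlinarith
    have hint : Integrable (fun y : UnitAddCircle =>
        {θ : UnitAddCircle | |2 * csn θ| ≤ s}.indicator (fun _ => (1 : ℝ)) y + s ^ 2) :=
      ((integrable_const (1 : ℝ)).indicator hS).add (integrable_const _)
    have h1 := integral_mono_of_nonneg (μ := (volume : Measure UnitAddCircle))
      (Filter.Eventually.of_forall fun y => sq_nonneg (s ^ 3 / 4 / (csn y ^ 2 + s ^ 3 / 4)))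
      hint (Filter.Eventually.of_forall key)
    refine h1.trans ?_
    rw [integral_add ((integrable_const (1 : ℝ)).indicator hS) (integrable_const _),
      integral_indicator_const _ hS, integral_const]
    have h2 : (volume : Measure UnitAddCircle).real {θ : UnitAddCircle | |2 * csn θ| ≤ s} ≤ 2 * s :=
      ENNReal.toReal_le_of_le_ofReal (by positivity)
        (Pool.Agent.Helper78.SM.sublevel_two_csn hs0.le)
    have h3 : s ^ 2 ≤ s := by nlinarith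
    simp only [smul_eq_mul, mul_one, probReal_univ, one_mul]
    linarith

/-- the multiplier `csn / (csn² + δ²)` -/
private noncomputable def Nf_h12 (δ : ℝ) (y : UnitAddCircle) : ℝ := csn y / (csn y ^ 2 + δ ^ 2)

/-- its normalized derivative -/
private noncomputable def Nd_h12 (δ : ℝ) (y : UnitAddCircle) : ℂ :=
  Complex.I * ((snn y * (δ ^ 2 - csn y ^ 2) / (csn y ^ 2 + δ ^ 2) ^ 2 : ℝ) : ℂ)

private lemma den_pos_h12 {δ : ℝ} (hδ : 0 < δ) (y : UnitAddCircle) : 0 < csn y ^ 2 + δ ^ 2 := by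
  positivity

private lemma cont_Nf_h12 {δ : ℝ} (hδ : 0 < δ) : Continuous (Nf_h12 δ) := by
  unfold Nf_h12
  exact continuous_csn'.div ((continuous_csn'.pow 2).add continuous_const)
    (fun y => (den_pos_h12 hδ y).ne')

private lemma cont_Nd_h12 {δ : ℝ} (hδ : 0 < δ) : Continuous (Nd_h12 δ) := by
  unfold Nd_h12
  refine continuous_const.mul (Complex.continuous_ofReal.comp ?_)
  exact (continuous_snn'.mul (continuous_const.sub (continuous_csn'.pow 2))).div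
    (((continuous_csn'.pow 2).add continuous_const).pow 2)
    (fun y => (pow_pos (den_pos_h12 hδ y) 2).ne')

private lemma abs_snn_h12 (y : UnitAddCircle) : |snn y| ≤ 1 := by
  induction y using QuotientAddGroup.induction_on with
  | H x =>
    have h := snn_coe x
    rw [show (QuotientAddGroup.mk x : UnitAddCircle) = (x : UnitAddCircle) from rfl, h]
    exact Real.abs_sin_le_one _

private lemma norm_Nf_h12 {δ : ℝ} (hδ : 0 < δ) (y : UnitAddCircle) :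
    ‖((Nf_h12 δ y : ℝ) : ℂ)‖ ≤ 1 / δ ^ 2 := by
  rw [Complex.norm_real, Real.norm_eq_abs]
  unfold Nf_h12
  rw [abs_div, abs_of_pos (den_pos_h12 hδ y)]
  exact div_le_div₀ zero_le_one (csn_abs_le y) (by positivity)
    (by have := sq_nonneg (csn y); linarith)

private lemma norm_Nd_h12 {δ : ℝ} (hδ : 0 < δ) (y : UnitAddCircle) :
    ‖Nd_h12 δ y‖ ≤ 1 / δ ^ 2 := by
  unfold Nd_h12
  rw [norm_mul, Complex.norm_I, one_mul, Complex.norm_real, Real.norm_eq_abs, abs_div, abs_mul,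
    abs_of_pos (pow_pos (den_pos_h12 hδ y) 2)]
  have hp := den_pos_h12 hδ y
  have h1 : |δ ^ 2 - csn y ^ 2| ≤ csn y ^ 2 + δ ^ 2 := by
    rw [abs_le]
    constructor
    · have := sq_nonneg δ
      have := sq_nonneg (csn y)
      linarith
    · have := sq_nonneg (csn y)
      linarith
  have h2 : |snn y| * |δ ^ 2 - csn y ^ 2| ≤ 1 * (csn y ^ 2 + δ ^ 2) :=
    mul_le_mul (abs_snn_h12 y) h1 (abs_nonneg _) zero_le_one
  rw [div_le_div_iff₀ (pow_pos hp 2) (by positivity)]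
  have h3 : δ ^ 2 ≤ csn y ^ 2 + δ ^ 2 := by have := sq_nonneg (csn y); linarith
  calc |snn y| * |δ ^ 2 - csn y ^ 2| * δ ^ 2 ≤ (1 * (csn y ^ 2 + δ ^ 2)) * (csn y ^ 2 + δ ^ 2) :=
        mul_le_mul h2 h3 (by positivity) (by positivity)
    _ = 1 * (csn y ^ 2 + δ ^ 2) ^ 2 := by ring

private lemma deriv_Nf_h12 {δ : ℝ} (hδ : 0 < δ) (y : ℝ) :
    HasDerivAt (fun t : ℝ => ((Nf_h12 δ (t : UnitAddCircle) : ℝ) : ℂ))
      (2 * π * Complex.I * Nd_h12 δ (y : UnitAddCircle)) y := by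
  have h1 : HasDerivAt (fun t : ℝ => Real.cos (2 * π * t)) (-Real.sin (2 * π * y) * (2 * π)) y := by
    have h2 : HasDerivAt (fun t : ℝ => 2 * π * t) (2 * π) y := by
      simpa using (hasDerivAt_id y).const_mul (2 * π)
    exact h2.cos
  have hp : 0 < Real.cos (2 * π * y) ^ 2 + δ ^ 2 := by positivity
  have h3 : HasDerivAt (fun t : ℝ => Real.cos (2 * π * t) / (Real.cos (2 * π * t) ^ 2 + δ ^ 2))
      (-(2 * π) * (Real.sin (2 * π * y) * (δ ^ 2 - Real.cos (2 * π * y) ^ 2) /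
        (Real.cos (2 * π * y) ^ 2 + δ ^ 2) ^ 2)) y := by
    have h4 := h1.div ((h1.pow 2).add_const (δ ^ 2)) hp.ne'
    refine h4.congr_deriv ?_
    rw [← mul_div_assoc]
    congr 1
    simp only [Pi.pow_apply, Nat.cast_ofNat, Nat.reduceSub, pow_one]
    ring
  have h5 := h3.ofReal_comp
  have h6 : (fun t : ℝ => ((Nf_h12 δ (t : UnitAddCircle) : ℝ) : ℂ)) =
      fun t : ℝ => ((Real.cos (2 * π * t) / (Real.cos (2 * π * t) ^ 2 + δ ^ 2) : ℝ) : ℂ) := by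
    funext t
    unfold Nf_h12
    rw [csn_coe]
  rw [h6]
  refine h5.congr_deriv ?_
  unfold Nd_h12
  rw [csn_coe, snn_coe]
  push_cast
  linear_combination (-(2 * π) * (Complex.sin (2 * π * y) * (δ ^ 2 - Complex.cos (2 * π * y) ^ 2) /
    (Complex.cos (2 * π * y) ^ 2 + δ ^ 2) ^ 2)) * Complex.I_sq

private lemma Z0_indep_h12 {Z : Type} {ρ : T2 × Z → ℂ}
    (h : ∀ x y y' z, ρ ((x, y), z) = ρ ((x, y'), z)) (p p' : T2) (z : Z) :
    Z0 ρ (p, z) = Z0 ρ (p', z) := by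
  unfold Z0
  congr 1
  funext x
  exact h x _ _ z

private lemma JJ_indep_h12 {Z : Type} {ρ : T2 × Z → ℂ}
    (h : ∀ x y y' z, ρ ((x, y), z) = ρ ((x, y'), z)) (x y y' : UnitAddCircle) (z : Z) :
    JJ ρ ((x, y), z) = JJ ρ ((x, y'), z) := by
  unfold JJ
  congr 1
  funext t
  congr 1
  exact h _ _ _ z

/-- the norm of a function of `y` times a function of `(x, z)` -/
private lemma N2_split_h12 {Z : Type} [MeasurableSpace Z] {μ : Measure Z} [IsProbabilityMeasure μ]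
    {r : T2 × Z → ℂ} (hr : BM r) (h : ∀ x y y' z, r ((x, y), z) = r ((x, y'), z))
    {u : UnitAddCircle → ℝ} (hu : Continuous u) :
    N2 ((volume : Measure T2).prod μ) (fun w => ((u w.1.2 : ℝ) : ℂ) * r w) =
      Real.sqrt (∫ y : UnitAddCircle, u y ^ 2) * N2 ((volume : Measure T2).prod μ) r := by
  have hub : BM (fun w : T2 × Z => ((u w.1.2 : ℝ) : ℂ)) :=
    (CB.of_torus (Z := Z) (f := fun p : T2 => ((u p.2 : ℝ) : ℂ))
      (Complex.continuous_ofReal.comp (hu.comp continuous_snd))).1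
  unfold N2
  rw [← Real.sqrt_mul (integral_nonneg fun y => sq_nonneg _)]
  congr 1
  rw [integral_prod_symm _ (hub.mul hr).integrable_sq, integral_prod_symm _ hr.integrable_sq,
    ← integral_const_mul]
  refine integral_congr_ae (Filter.Eventually.of_forall fun z => ?_)
  show ∫ p : T2, ‖((u p.2 : ℝ) : ℂ) * r (p, z)‖ ^ 2 = (∫ y : UnitAddCircle, u y ^ 2) *
    ∫ p : T2, ‖r (p, z)‖ ^ 2
  have e1 : ∀ p : T2, ‖((u p.2 : ℝ) : ℂ) * r (p, z)‖ ^ 2 =
      ‖r ((p.1, 0), z)‖ ^ 2 * u p.2 ^ 2 := by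
    intro p
    rw [norm_mul, mul_pow, Complex.norm_real, Real.norm_eq_abs, sq_abs, mul_comm]
    congr 3
    exact h p.1 p.2 0 z
  have e2 : ∀ p : T2, ‖r (p, z)‖ ^ 2 = ‖r ((p.1, 0), z)‖ ^ 2 * (1 : ℝ) := by
    intro p
    rw [mul_one]
    congr 2
    exact h p.1 p.2 0 z
  rw [integral_congr_ae (Filter.Eventually.of_forall e1),
    integral_congr_ae (Filter.Eventually.of_forall e2)]
  have v : (volume : Measure T2) = (volume : Measure UnitAddCircle).prod volume := rfl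
  rw [v, integral_prod_mul (fun x : UnitAddCircle => ‖r ((x, 0), z)‖ ^ 2)
      (fun y : UnitAddCircle => u y ^ 2),
    integral_prod_mul (fun x : UnitAddCircle => ‖r ((x, 0), z)‖ ^ 2)
      (fun _ : UnitAddCircle => (1 : ℝ))]
  simp only [integral_const, probReal_univ, smul_eq_mul, mul_one]
  ring

/-- `φ(x, y, z) = N(y) (JJ ρ)(x, z)` with `N = csn/(csn² + δ²)`: `φx = N (ρ - Z0 ρ)`,
`φy = N' JJ ρ`, `φxy = N' (ρ - Z0 ρ)`; `|N|, |N'| ≤ 1/δ²`.
`ρ - Z0 ρ = csn φx + (δ²/(csn² + δ²)) (ρ - Z0 ρ)` and `⟨g, Z0 ρ⟩ = 0` since `Z0 ρ` is a function of `z`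
only; the last term has norm `‖δ²/(csn² + δ²)‖ ‖ρ - Z0 ρ‖` (a function of `y` times a function of
`(x, z)`). -/
theorem zz_of_hh {ε' : ℝ} (hε' : 0 < ε') : ∃ ε : ℝ, 0 < ε ∧
    ∀ {Z : Type} [MeasurableSpace Z] (μ : Measure Z) [IsProbabilityMeasure μ] (g : T2 × Z → ℂ),
      BM g → N2 ((volume : Measure T2).prod μ) g ≤ 1 → (∀ z, ∫ p : T2, g (p, z) = 0) →
      HH μ g ε → ZZ μ g ε' := by
  obtain ⟨δ, hδ0, hδ1, hcut⟩ := cut_small (η := (ε' / 4) ^ 2) (by positivity)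
  refine ⟨ε' * δ ^ 2 / 8, by positivity, ?_⟩
  intro Z _ μ _ g hg hg1 hmean hH ρ hρ hind
  set m : Measure (T2 × Z) := (volume : Measure T2).prod μ with hm
  have hZ : CB (Z0 ρ) := CB_Z0 hρ
  have hJ : CB (JJ ρ) := CB_JJ hρ
  have hr : CB (fun w => ρ w - Z0 ρ w) := hρ.sub hZ
  have hrind : ∀ x y y' z, (fun w => ρ w - Z0 ρ w) ((x, y), z) =
      (fun w => ρ w - Z0 ρ w) ((x, y'), z) := by
    intro x y y' z
    show ρ ((x, y), z) - Z0 ρ ((x, y), z) = ρ ((x, y'), z) - Z0 ρ ((x, y'), z)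
    rw [hind x y y' z, Z0_indep_h12 hind (x, y) (x, y') z]
  have hNf : CB (fun w : T2 × Z => ((Nf_h12 δ w.1.2 : ℝ) : ℂ)) :=
    CB.of_torus (Z := Z) (f := fun p : T2 => ((Nf_h12 δ p.2 : ℝ) : ℂ))
      (Complex.continuous_ofReal.comp ((cont_Nf_h12 hδ0).comp continuous_snd))
  have hNd : CB (fun w : T2 × Z => Nd_h12 δ w.1.2) :=
    CB.of_torus (Z := Z) (f := fun p : T2 => Nd_h12 δ p.2) ((cont_Nd_h12 hδ0).comp continuous_snd)
  have hHX := HX_JJ hρ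
  -- derivative in `y` of a product
  have hyprod : ∀ f : T2 × Z → ℂ, (∀ x y y' z, f ((x, y), z) = f ((x, y'), z)) →
      HY (fun w => ((Nf_h12 δ w.1.2 : ℝ) : ℂ) * f w) (fun w => Nd_h12 δ w.1.2 * f w) := by
    intro f hf x y z
    have h1 := (deriv_Nf_h12 hδ0 y).mul_const (f (mk2 (x, y), z))
    have h2 : (fun t : ℝ => ((Nf_h12 δ (mk2 (x, t), z).1.2 : ℝ) : ℂ) * f (mk2 (x, t), z)) =
        fun t : ℝ => ((Nf_h12 δ (t : UnitAddCircle) : ℝ) : ℂ) * f (mk2 (x, y), z) := by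
      funext t
      congr 1
      exact hf _ _ _ z
    show HasDerivAt (fun t : ℝ => ((Nf_h12 δ (mk2 (x, t), z).1.2 : ℝ) : ℂ) * f (mk2 (x, t), z)) _ y
    rw [h2]
    refine h1.congr_deriv ?_
    show _ = 2 * π * Complex.I * (Nd_h12 δ (y : UnitAddCircle) * f (mk2 (x, y), z))
    ring
  -- derivative in `x`
  have hxprod : ∀ u : UnitAddCircle → ℂ, HX (fun w : T2 × Z => u w.1.2 * JJ ρ w)
      (fun w => u w.1.2 * (ρ w - Z0 ρ w)) := by
    intro u x y z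
    have h1 := (hHX x y z).const_mul (u (y : UnitAddCircle))
    refine h1.congr_deriv ?_
    show _ = 2 * π * Complex.I * (u (y : UnitAddCircle) * (ρ (mk2 (x, y), z) - Z0 ρ (mk2 (x, y), z)))
    ring
  have hCM : CM (fun w => ((Nf_h12 δ w.1.2 : ℝ) : ℂ) * JJ ρ w)
      (fun w => ((Nf_h12 δ w.1.2 : ℝ) : ℂ) * (ρ w - Z0 ρ w))
      (fun w => Nd_h12 δ w.1.2 * JJ ρ w)
      (fun w => Nd_h12 δ w.1.2 * (ρ w - Z0 ρ w)) :=
    { c := ⟨hNf.mul hJ, hNf.mul hr, hNd.mul hJ, hxprod (fun y => ((Nf_h12 δ y : ℝ) : ℂ)),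
        hyprod _ (fun x y y' z => JJ_indep_h12 hind x y y' z)⟩
      bxy := hNd.mul hr
      hxy := hyprod _ hrind
      hyx := hxprod (fun y => Nd_h12 δ y) }
  -- norms
  have n0 : 0 ≤ N2 m ρ := N2_nonneg _
  have nr : N2 m (fun w => ρ w - Z0 ρ w) ≤ 2 * N2 m ρ := by
    have h1 := N2_sub_le (μ := m) hρ.1 hZ.1
    have h2 : N2 m (Z0 ρ) ≤ N2 m ρ := N2_Z0_le hρ
    linarith
  have nJ : N2 m (JJ ρ) ≤ 4 * N2 m ρ := N2_JJ_le hρ
  have hd : 0 ≤ 1 / δ ^ 2 := by positivity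
  have hb : ∀ {v : T2 × Z → ℂ}, BM v → N2 m v ≤ 4 * N2 m ρ → ∀ {χ : T2 × Z → ℂ}, BM χ →
      (∀ w, ‖χ w‖ ≤ 1 / δ ^ 2) → N2 m (fun w => χ w * v w) ≤ 4 / δ ^ 2 * N2 m ρ := by
    intro v hv hv4 χ hχ hχb
    have h1 := N2_mul_le (μ := m) hv hχ hχb
    have h2 := mul_le_mul_of_nonneg_left hv4 hd
    calc N2 m (fun w => χ w * v w) ≤ 1 / δ ^ 2 * N2 m v := h1
      _ ≤ 1 / δ ^ 2 * (4 * N2 m ρ) := h2
      _ = 4 / δ ^ 2 * N2 m ρ := by ring
  have nr4 : N2 m (fun w => ρ w - Z0 ρ w) ≤ 4 * N2 m ρ := by linarith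
  have k0 := hb hJ.1 nJ hNf.1 (fun w => norm_Nf_h12 hδ0 w.1.2)
  have k1 := hb hr.1 nr4 hNf.1 (fun w => norm_Nf_h12 hδ0 w.1.2)
  have k2 := hb hJ.1 nJ hNd.1 (fun w => norm_Nd_h12 hδ0 w.1.2)
  have hfirst := hH _ _ _ _ hCM (4 / δ ^ 2 * N2 m ρ) k0 k1 k2
  -- decomposition
  have hcsn : BM (fun w : T2 × Z => (csn w.1.2 : ℂ)) :=
    (CB.of_torus (Z := Z) (f := fun p : T2 => (csn p.2 : ℂ))
      (Complex.continuous_ofReal.comp (continuous_csn'.comp continuous_snd))).1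
  have hcut' : Continuous (fun y : UnitAddCircle => δ ^ 2 / (csn y ^ 2 + δ ^ 2)) :=
    continuous_const.div ((continuous_csn'.pow 2).add continuous_const)
      (fun y => (den_pos_h12 hδ0 y).ne')
  have hcutb : BM (fun w : T2 × Z => ((δ ^ 2 / (csn w.1.2 ^ 2 + δ ^ 2) : ℝ) : ℂ)) :=
    (CB.of_torus (Z := Z) (f := fun p : T2 => ((δ ^ 2 / (csn p.2 ^ 2 + δ ^ 2) : ℝ) : ℂ))
      (Complex.continuous_ofReal.comp (hcut'.comp continuous_snd))).1
  have hdec : IP m g ρ = IP m g (fun w => (csn w.1.2 : ℂ) *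
        (((Nf_h12 δ w.1.2 : ℝ) : ℂ) * (ρ w - Z0 ρ w))) +
      (IP m g (fun w => ((δ ^ 2 / (csn w.1.2 ^ 2 + δ ^ 2) : ℝ) : ℂ) * (ρ w - Z0 ρ w)) +
        IP m g (Z0 ρ)) := by
    have b1 : BM (fun w : T2 × Z => (csn w.1.2 : ℂ) *
        (((Nf_h12 δ w.1.2 : ℝ) : ℂ) * (ρ w - Z0 ρ w))) := hcsn.mul (hNf.1.mul hr.1)
    have b2 : BM (fun w : T2 × Z => ((δ ^ 2 / (csn w.1.2 ^ 2 + δ ^ 2) : ℝ) : ℂ) *
        (ρ w - Z0 ρ w)) := hcutb.mul hr.1
    rw [← IP_add_right hg b2 hZ.1, ← IP_add_right hg b1 (b2.add hZ.1)]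
    congr 1
    funext w
    have hq : ((csn w.1.2 : ℂ) ^ 2 + (δ : ℂ) ^ 2) ≠ 0 := by
      have := (den_pos_h12 hδ0 w.1.2).ne'
      exact_mod_cast this
    unfold Nf_h12
    push_cast
    field_simp
    ring
  have hz0 : IP m g (Z0 ρ) = 0 := by
    unfold IP
    rw [hm, integral_prod_symm _ (hg.mul hZ.1.conj).integrable]
    have e1 : ∀ z : Z, ∫ p : T2, g (p, z) * conj (Z0 ρ (p, z)) = 0 := by
      intro z
      have e2 : ∀ p : T2, g (p, z) * conj (Z0 ρ (p, z)) = g (p, z) * conj (Z0 ρ (((0 : T2)), z)) :=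
        fun p => by rw [Z0_indep_h12 hind p 0 z]
      simp_rw [e2]
      rw [integral_mul_const, hmean z, zero_mul]
    simp_rw [e1]
    exact integral_zero _ _
  have hsecond : ‖IP m g (fun w => ((δ ^ 2 / (csn w.1.2 ^ 2 + δ ^ 2) : ℝ) : ℂ) *
      (ρ w - Z0 ρ w))‖ ≤ ε' / 4 * (2 * N2 m ρ) := by
    refine (IP_le hg (hcutb.mul hr.1)).trans ?_
    have h1 := N2_split_h12 (μ := μ) hr.1 hrind hcut'
    have h2 : Real.sqrt (∫ y : UnitAddCircle, (δ ^ 2 / (csn y ^ 2 + δ ^ 2)) ^ 2) ≤ ε' / 4 :=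
      Real.sqrt_le_iff.2 ⟨by positivity, hcut⟩
    rw [h1]
    calc N2 m g * (Real.sqrt (∫ y : UnitAddCircle, (δ ^ 2 / (csn y ^ 2 + δ ^ 2)) ^ 2) *
          N2 m (fun w => ρ w - Z0 ρ w))
        ≤ 1 * (ε' / 4 * (2 * N2 m ρ)) := by
          refine mul_le_mul hg1 ?_ (mul_nonneg (Real.sqrt_nonneg _) (N2_nonneg _)) zero_le_one
          exact mul_le_mul h2 nr (N2_nonneg _) (by positivity)
      _ = ε' / 4 * (2 * N2 m ρ) := one_mul _
  rw [hdec, hz0, add_zero]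
  refine (norm_add_le _ _).trans ?_
  have h3 : ε' * δ ^ 2 / 8 * (4 / δ ^ 2 * N2 m ρ) = ε' / 2 * N2 m ρ := by
    field_simp
    ring
  rw [h3] at hfirst
  linarith

end Pool.Agent.Helper95.RP
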