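import Mathlib
import Pool.Agent.Helper95.RP.HmE
import Pool.Agent.Helper95.RP.Zero
import Pool.Agent.Helper95.RP.Kh

/-! RP-KN: near invariance under a horizontal and a vertical shear gives `KK` in both directions. -/

set_option autoImplicit false
open MeasureTheory Real Set Filter Topology
open scoped ComplexConjugate ENNReal

namespace Pool.Agent.Helper95.RP

open Pool.Agent.Helper95.RX

attribute [local instance] Pool.Agent.Helper53.SM.instProbU Pool.Agent.Helper53.SM.instProbT2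

private lemma HH_mono55 {Z : Type} [MeasurableSpace Z] {μ : Measure Z} {g : T2 × Z → ℂ}
    {ε ε' : ℝ} (h : ε ≤ ε') (h1 : HH μ g ε) : HH μ g ε' := by
  intro φ φx φy φxy hφ C hC hCx hCy
  refine (h1 φ φx φy φxy hφ C hC hCx hCy).trans ?_
  exact mul_le_mul_of_nonneg_right h (le_trans (Real.sqrt_nonneg _) hC)

/-- `hh_of_nr` for `g` and for `g ∘ sw` (`nr_sw`), `zz_of_hh` for both, `kk_of_hh` for both
(`sw (sw w) = w`) -/
theorem kk_of_nr {s ε : ℝ} (hs : 0 < s) (hε : 0 < ε) : ∃ e : ℝ, 0 < e ∧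
    ∀ {Z : Type} [MeasurableSpace Z] (μ : Measure Z) [IsProbabilityMeasure μ] (g : T2 × Z → ℂ)
      (D D' : ℝ), BM g → N2 ((volume : Measure T2).prod μ) g ≤ 1 →
      (∀ z, ∫ p : T2, g (p, z) = 0) → s ≤ |D| → s ≤ |D'| → nr μ g (hm D 0) e →
      nr μ g (vm D' 0) e → KK μ g ε ∧ KK μ (fun w => g (sw w)) ε := by
  obtain ⟨εz, hεz, hz⟩ := zz_of_hh (half_pos hε)
  have hε1 : 0 < min (ε / 20) εz := lt_min (by positivity) hεz
  obtain ⟨e, he, hh⟩ := hh_of_nr hs hε1
  refine ⟨e, he, ?_⟩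
  intro Z _ μ _ g D D' hg hg1 hg0 hD hD' hn hn'
  have bg : BM (fun w => g (sw w)) := BM.comp (mp_sw (μ := μ)).measurable hg
  have n1 : N2 ((volume : Measure T2).prod μ) (fun w => g (sw w)) ≤ 1 := by
    rw [N2_comp (mp_sw (μ := μ)) hg.1]
    exact hg1
  have hg0' : ∀ z, ∫ p : T2, g (sw (p, z)) = 0 := by
    intro z
    have h1 : MeasurePreserving (Prod.swap : T2 → T2) volume volume :=
      Measure.measurePreserving_swap
    have h2 := h1.integral_comp (MeasurableEquiv.prodComm (α := UnitAddCircle)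
      (β := UnitAddCircle)).measurableEmbedding (fun p : T2 => g (p, z))
    rw [← hg0 z, ← h2]
    rfl
  have k1 : nr μ (fun w => g (sw w)) (hm D' 0) e := nr_sw hg (mp_vm D' 0) (fun p => rfl) hn'
  have a1 := hh μ g D hg hg1 hD hn
  have a2 := hh μ (fun w => g (sw w)) D' bg n1 hD' k1
  have b1 := hz μ g hg hg1 hg0 (HH_mono55 (min_le_right _ _) a1)
  have b2 := hz μ (fun w => g (sw w)) bg n1 hg0' (HH_mono55 (min_le_right _ _) a2)
  have c1 : HH μ g (ε / 20) := HH_mono55 (min_le_left _ _) a1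
  have c2 : HH μ (fun w => g (sw w)) (ε / 20) := HH_mono55 (min_le_left _ _) a2
  have hsum : 10 * (ε / 20) + ε / 2 = ε := by ring
  have p1 : 0 ≤ ε / 20 := by positivity
  have p2 : 0 ≤ ε / 2 := by positivity
  have r1 := kk_of_hh hg p1 p2 c1 b2
  have hss : (fun w => (fun w => g (sw w)) (sw w)) = g := by
    funext w
    rfl
  have b3 : ZZ μ (fun w => (fun w => g (sw w)) (sw w)) (ε / 2) := by rw [hss]; exact b1
  have r2 := kk_of_hh bg p1 p2 c2 b3
  rw [hsum] at r1 r2
  exact ⟨r1, r2⟩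

end Pool.Agent.Helper95.RP
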