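import Mathlib
import Pool.Agent.Helper95.RP.Alg
import Pool.Agent.Helper95.RP.Kn
import Pool.Agent.Helper95.RP.Words

/-! RP-CONE: the two cones. -/

set_option autoImplicit false
open MeasureTheory Real Set Filter Topology
open scoped ComplexConjugate ENNReal

namespace Pool.Agent.Helper95.RP

open Pool.Agent.Helper95.RX

attribute [local instance] Pool.Agent.Helper53.SM.instProbU Pool.Agent.Helper53.SM.instProbT2

/-- first cone: levels 0, 1, 2, 3 (steps with parameters `a₀, a₁, a₂`).  `kk_of_nr` at levels 1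
(`st_hm` of step 0, `st_vm` of step 1) and 2 (`st_hm` of step 1, `st_vm` of step 2), `est_of_kk` with
`a = a₁`, `b = a₂`, `alg`, and `IP_sf` from level 3 to level 2 -/
theorem cone_one {B s ε : ℝ} (hB : 0 ≤ B) (hs : 0 < s) (hs1 : s ≤ 1) (hε : 0 < ε) :
    ∃ e : ℝ, 0 < e ∧
    ∀ {Z : Type} [MeasurableSpace Z] (μ : Measure Z) [IsProbabilityMeasure μ]
      (g₀ g₁ g₂ g₃ : T2 × Z → ℂ) (a₀ a₀' a₁ a₁' a₂ a₂' : ℝ),
      St μ g₀ g₁ a₀ a₀' e → St μ g₁ g₂ a₁ a₁' e → St μ g₂ g₃ a₂ a₂' e →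
      s ≤ |a₀ - a₀'| → s ≤ |a₁ - a₁'| → s ≤ |a₂ - a₂'| → s ≤ |Real.sin (2 * π * a₁)| →
      |a₁| ≤ B → |a₂| ≤ B → N2 ((volume : Measure T2).prod μ) g₁ ≤ 1 →
      N2 ((volume : Measure T2).prod μ) g₂ ≤ 1 → (∀ z, ∫ p : T2, g₁ (p, z) = 0) →
      (∀ z, ∫ p : T2, g₂ (p, z) = 0) →
      ∀ (S : Finset (ℤ × ℤ)) (c : ℤ × ℤ → Z → ℂ), Cone S → (∀ ξ, BM (c ξ)) →
      ‖IP ((volume : Measure T2).prod μ) g₃ (tp S c)‖ ≤ ε * Real.sqrt (ns μ S c) := by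
  obtain ⟨K, hK, halg⟩ := alg hB hs hs1
  have hpi := Real.pi_pos
  set R : ℝ := 3 + 2 * π * B with hR
  have hR0 : 0 < R := by positivity
  have hKR : 0 < 4 * K * R ^ 3 := by positivity
  set ε₁ : ℝ := ε / (4 * K * R ^ 3) with hε₁
  have hε₁0 : 0 < ε₁ := by positivity
  obtain ⟨e₁, he₁, hkk⟩ := kk_of_nr (s := s) (ε := ε₁) hs hε₁0
  refine ⟨min (e₁ / 2) (min ε₁ (ε / 4)), lt_min (by positivity) (lt_min hε₁0 (by positivity)), ?_⟩
  set e : ℝ := min (e₁ / 2) (min ε₁ (ε / 4)) with he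
  have he0 : 0 ≤ e := (lt_min (by positivity) (lt_min hε₁0 (by positivity))).le
  have hee1 : 2 * e ≤ e₁ := by
    have := min_le_left (e₁ / 2) (min ε₁ (ε / 4))
    linarith
  have hee2 : e ≤ ε₁ := (min_le_right _ _).trans (min_le_left _ _)
  have hee3 : e ≤ ε / 4 := (min_le_right _ _).trans (min_le_right _ _)
  intro Z _ μ _ g₀ g₁ g₂ g₃ a₀ a₀' a₁ a₁' a₂ a₂' st0 st1 st2 d0 d1 d2 hsin hB1 hB2 n1 n2 z1 z2
    S c hS hc
  have bg1 : BM g₁ := st0.bm'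
  have bg2 : BM g₂ := st1.bm'
  have bg3 : BM g₃ := st2.bm'
  -- level 1
  have hm1 : nr μ g₁ (hm (a₀' - a₀) 0) e₁ := nr_mono (st_hm st0) hee1
  have vm1 : nr μ g₁ (vm (a₁ - a₁') 0) e₁ := nr_mono (st_vm st1) hee1
  have kk1 := hkk μ g₁ (a₀' - a₀) (a₁ - a₁') bg1 n1 z1 (by rw [abs_sub_comm]; exact d0) d1 hm1 vm1
  -- level 2
  have hm2 : nr μ g₂ (hm (a₁' - a₁) 0) e₁ := nr_mono (st_hm st1) hee1
  have vm2 : nr μ g₂ (vm (a₂ - a₂') 0) e₁ := nr_mono (st_vm st2) hee1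
  have kk2 := hkk μ g₂ (a₁' - a₁) (a₂ - a₂') bg2 n2 z2 (by rw [abs_sub_comm]; exact d1) d2 hm2 vm2
  obtain ⟨θ₁, hθ₁, r1⟩ := st1.ex
  obtain ⟨θ₂, hθ₂, r2⟩ := st2.ex
  have est := est_of_kk (a := a₁) (b := a₂) hB hB1 hB2 hθ₁ hθ₂ bg1 bg2 he0 hε₁0.le r1 kk1.1
    kk2.1 kk2.2
  have hδ : 0 ≤ R ^ 3 * (ε₁ + e) := by positivity
  have h1 := halg μ g₂ a₁ a₂ θ₂ (R ^ 3 * (ε₁ + e)) bg2 hθ₂ hδ hB1 hB2 hsin est S c hS hc
  have btp : BM (tp S c) := BM_tp S (fun ξ _ => hc ξ)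
  have h2 := IP_sf (a := a₂) hθ₂ bg2 bg3 btp r2
  have hN : N2 ((volume : Measure T2).prod μ) (tp S c) = Real.sqrt (ns μ S c) := by
    rw [← N2_tp (μ := μ) S (fun ξ _ => hc ξ), Real.sqrt_sq (N2_nonneg _)]
  rw [hN] at h2
  have h3 := norm_sub_norm_le (IP ((volume : Measure T2).prod μ) g₃ (tp S c))
    (IP ((volume : Measure T2).prod μ) g₂ (fun w => tp S c (sf a₂ w.1, θ₂ w.2)))
  have h4 : ‖IP ((volume : Measure T2).prod μ) g₃ (tp S c)‖ ≤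
      (K * (R ^ 3 * (ε₁ + e)) + e) * Real.sqrt (ns μ S c) := by
    linarith
  refine h4.trans (mul_le_mul_of_nonneg_right ?_ (Real.sqrt_nonneg _))
  have h5 : K * (R ^ 3 * (ε₁ + e)) ≤ K * (R ^ 3 * (ε₁ + ε₁)) := by gcongr
  have h6 : K * (R ^ 3 * (ε₁ + ε₁)) = ε / 2 := by
    have : 4 * K * R ^ 3 * ε₁ = ε := by
      rw [hε₁]
      exact mul_div_cancel₀ _ hKR.ne'
    nlinarith
  linarith

/-- six nearly exact steps make `g₃` small: `cone_one` with `ε = 1/2` for `g₀, …, g₃` and for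
`g₆ ∘ sw, …, g₃ ∘ sw` (`st_rev`; `IP (g ∘ sw) (h ∘ sw) = IP g h`, see the proof of `RX.cone_v`), then
`RX.comb` -/
theorem small_of_six {B s : ℝ} (hB : 0 ≤ B) (hs : 0 < s) (hs1 : s ≤ 1) :
    ∃ e : ℝ, 0 < e ∧
    ∀ {Z : Type} [MeasurableSpace Z] (μ : Measure Z) [IsProbabilityMeasure μ]
      (g : ℕ → T2 × Z → ℂ) (a a' : ℕ → ℝ),
      (∀ i, i < 6 → St μ (g i) (g (i + 1)) (a i) (a' i) e) →
      (∀ i, i < 6 → s ≤ |a i - a' i| ∧ s ≤ |Real.sin (2 * π * a i)| ∧ |a i| ≤ B) →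
      (∀ i, N2 ((volume : Measure T2).prod μ) (g i) ≤ 1) →
      (∀ i z, ∫ p : T2, g i (p, z) = 0) →
      N2 ((volume : Measure T2).prod μ) (g 3) ^ 2 ≤ 1 / 2 := by
  obtain ⟨e, he, h⟩ := cone_one hB hs hs1 (ε := 1 / 2) (by norm_num)
  refine ⟨e, he, ?_⟩
  intro Z _ μ _ g a a' st hst hn hz
  have hb : ∀ i, i ≤ 6 → BM (g i) := by
    intro i hi
    rcases Nat.lt_or_ge i 6 with h6 | h6
    · exact (st i h6).bm
    · have : i = 5 + 1 := by omega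
      rw [this]
      exact (st 5 (by norm_num)).bm'
  have hzs : ∀ i z, ∫ p : T2, (fun w : T2 × Z => g i (sw w)) (p, z) = 0 := by
    intro i z
    have h1 : MeasurePreserving (Prod.swap : T2 → T2) volume volume :=
      Measure.measurePreserving_swap
    have h2 := h1.integral_comp MeasurableEquiv.prodComm.measurableEmbedding
      (fun p : T2 => g i (p, z))
    exact h2.trans (hz i z)
  have hns : ∀ i, i ≤ 6 → N2 ((volume : Measure T2).prod μ) (fun w : T2 × Z => g i (sw w)) ≤ 1 := by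
    intro i hi
    rw [N2_comp (mp_sw (μ := μ)) (hb i hi).1]
    exact hn i
  have key1 := h μ (g 0) (g 1) (g 2) (g 3) (a 0) (a' 0) (a 1) (a' 1) (a 2) (a' 2)
    (st 0 (by norm_num)) (st 1 (by norm_num)) (st 2 (by norm_num)) (hst 0 (by norm_num)).1
    (hst 1 (by norm_num)).1 (hst 2 (by norm_num)).1 (hst 1 (by norm_num)).2.1
    (hst 1 (by norm_num)).2.2 (hst 2 (by norm_num)).2.2 (hn 1) (hn 2) (hz 1) (hz 2)
  have key2 := h μ (fun w => g 6 (sw w)) (fun w => g 5 (sw w)) (fun w => g 4 (sw w))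
    (fun w => g 3 (sw w)) (a 5) (a' 5) (a 4) (a' 4) (a 3) (a' 3)
    (st_rev (st 5 (by norm_num))) (st_rev (st 4 (by norm_num))) (st_rev (st 3 (by norm_num)))
    (hst 5 (by norm_num)).1 (hst 4 (by norm_num)).1 (hst 3 (by norm_num)).1
    (hst 4 (by norm_num)).2.1 (hst 4 (by norm_num)).2.2 (hst 3 (by norm_num)).2.2
    (hns 5 (by norm_num)) (hns 4 (by norm_num)) (hzs 5) (hzs 4)
  have hfin := comb (μ := μ) (hb 3 (by norm_num)) (hz 3) (R := 1 / 2) (by norm_num)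
    (fun S c hS hc => key1 S c hS hc) (fun S c hS hc => ?_)
  · norm_num at hfin ⊢
    exact hfin
  · have k := key2 (S.map (Equiv.prodComm ℤ ℤ).toEmbedding) (fun ξ => c ξ.swap)
      (fun ξ hξ => by
        obtain ⟨ξ', h3, rfl⟩ := Finset.mem_map.1 hξ
        exact hS ξ' h3) (fun ξ => hc _)
    have e1 : ns μ (S.map (Equiv.prodComm ℤ ℤ).toEmbedding) (fun ξ => c ξ.swap) = ns μ S c := by
      unfold ns
      rw [Finset.sum_map]
      rfl
    have e2 : tp (S.map (Equiv.prodComm ℤ ℤ).toEmbedding) (fun ξ => c ξ.swap) =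
        fun w => tp S c (sw w) := by
      funext w
      unfold tp
      rw [Finset.sum_map]
      apply Finset.sum_congr rfl
      intro ξ _
      simp only [Equiv.coe_toEmbedding, Equiv.prodComm_apply, Prod.swap_swap, Prod.fst_swap,
        Prod.snd_swap, sw]
      ring
    rw [e1, e2, IP_comp (mp_sw (μ := μ)) (hb 3 (by norm_num)).1 (BM_tp S (fun ξ _ => hc ξ)).1] at k
    exact k

end Pool.Agent.Helper95.RP
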