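import Mathlib
import Pool.Agent.Helper95.RP.Cone1
import Pool.Agent.Helper95.RP.SelG
import Pool.Agent.Helper95.RP.Pm

/-! RP-WIN: six steps contract (see `RX.Win`). -/

set_option autoImplicit false
open MeasureTheory Real Set Filter Topology
open scoped ComplexConjugate ENNReal

namespace Pool.Agent.Helper95.RP

open Pool.Agent.Helper95.RX

attribute [local instance] Pool.Agent.Helper53.SM.instProbU Pool.Agent.Helper53.SM.instProbT2

/-- the conclusion of `small_of_six` -/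
private def SixS (B s e : ℝ) : Prop :=
  ∀ {Z : Type} [MeasurableSpace Z] (μ : Measure Z) [IsProbabilityMeasure μ]
      (g : ℕ → T2 × Z → ℂ) (a a' : ℕ → ℝ),
      (∀ i, i < 6 → St μ (g i) (g (i + 1)) (a i) (a' i) e) →
      (∀ i, i < 6 → s ≤ |a i - a' i| ∧ s ≤ |Real.sin (2 * π * a i)| ∧ |a i| ≤ B) →
      (∀ i, N2 ((volume : Measure T2).prod μ) (g i) ≤ 1) →
      (∀ i z, ∫ p : T2, g i (p, z) = 0) →
      N2 ((volume : Measure T2).prod μ) (g 3) ^ 2 ≤ 1 / 2

private lemma six_one {B s q e η : ℝ} (he : 0 < e)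
    (hη4 : η ≤ 1 / 4) (hηq : 2 * η < q * e ^ 2) (hse : SixS B s e)
    {Z : Type} [MeasurableSpace Z] {μ : Measure Z} [IsProbabilityMeasure μ] (H : Sys Z μ)
    {ν : ℕ → Measure ℝ} (hν : ∀ i, IsProbabilityMeasure (ν i)) (hsp : ∀ i, Spr B s q (ν i))
    {g : T2 × Z → ℂ} (hg : BM g) (hmean : ∀ z, ∫ p : T2, g (p, z) = 0)
    (hg1 : N2 ((volume : Measure T2).prod μ) g = 1) :
    N2 ((volume : Measure T2).prod μ) (Qn 6 (pm H) ν g) ^ 2 ≤ 1 - η := by
  by_contra hcon
  push Not at hcon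
  have step : ∀ (i : ℕ) {f : T2 × Z → ℂ}, BM f →
      N2 ((volume : Measure T2).prod μ) (Qop (pm H i) (ν i) f) ≤
        N2 ((volume : Measure T2).prod μ) f := fun i f hf =>
    N2_Qop_le (ν := ν i) (meas_pm H i) (mp_pm H i) hf
  set G5 := Qop (pm H 5) (ν 5) g with hG5
  set G4 := Qop (pm H 4) (ν 4) G5 with hG4
  set G3 := Qop (pm H 3) (ν 3) G4 with hG3
  set G2 := Qop (pm H 2) (ν 2) G3 with hG2
  set G1 := Qop (pm H 1) (ν 1) G2 with hG1
  set G0 := Qop (pm H 0) (ν 0) G1 with hG0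
  have hcon' : 1 - η < N2 ((volume : Measure T2).prod μ) G0 ^ 2 := hcon
  have b5 : BM G5 := BM_Qop (meas_pm H 5) hg
  have b4 : BM G4 := BM_Qop (meas_pm H 4) b5
  have b3 : BM G3 := BM_Qop (meas_pm H 3) b4
  have b2 : BM G2 := BM_Qop (meas_pm H 2) b3
  have b1 : BM G1 := BM_Qop (meas_pm H 1) b2
  have n5 : N2 ((volume : Measure T2).prod μ) G5 ≤ N2 ((volume : Measure T2).prod μ) g := step 5 hg
  have n4 : N2 ((volume : Measure T2).prod μ) G4 ≤ N2 ((volume : Measure T2).prod μ) G5 := step 4 b5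
  have n3 : N2 ((volume : Measure T2).prod μ) G3 ≤ N2 ((volume : Measure T2).prod μ) G4 := step 3 b4
  have n2 : N2 ((volume : Measure T2).prod μ) G2 ≤ N2 ((volume : Measure T2).prod μ) G3 := step 2 b3
  have n1 : N2 ((volume : Measure T2).prod μ) G1 ≤ N2 ((volume : Measure T2).prod μ) G2 := step 1 b2
  have n0 : N2 ((volume : Measure T2).prod μ) G0 ≤ N2 ((volume : Measure T2).prod μ) G1 := step 0 b1
  have z0 : 0 ≤ N2 ((volume : Measure T2).prod μ) G0 := N2_nonneg _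
  have z1 : 0 ≤ N2 ((volume : Measure T2).prod μ) G1 := N2_nonneg _
  have z2 : 0 ≤ N2 ((volume : Measure T2).prod μ) G2 := N2_nonneg _
  have z3 : 0 ≤ N2 ((volume : Measure T2).prod μ) G3 := N2_nonneg _
  have z4 : 0 ≤ N2 ((volume : Measure T2).prod μ) G4 := N2_nonneg _
  have z5 : 0 ≤ N2 ((volume : Measure T2).prod μ) G5 := N2_nonneg _
  have q0 := pow_le_pow_left₀ z0 n0 2
  have q1 := pow_le_pow_left₀ z1 n1 2
  have q2 := pow_le_pow_left₀ z2 n2 2
  have q3 := pow_le_pow_left₀ z3 n3 2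
  have q4 := pow_le_pow_left₀ z4 n4 2
  have q5 := pow_le_pow_left₀ z5 n5 2
  have q6 : N2 ((volume : Measure T2).prod μ) g ^ 2 = 1 := by rw [hg1]; norm_num
  obtain ⟨c₅, c₅', s₅, h₅⟩ := st_of_select (η := η) H 5 (ν := ν 5) hg he (hsp 5)
    (by rw [← hG5]; linarith) hηq
  obtain ⟨c₄, c₄', s₄, h₄⟩ := st_of_select (η := η) H 4 (ν := ν 4) b5 he (hsp 4)
    (by rw [← hG4]; linarith) hηq
  obtain ⟨c₃, c₃', s₃, h₃⟩ := st_of_select (η := η) H 3 (ν := ν 3) b4 he (hsp 3)
    (by rw [← hG3]; linarith) hηq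
  obtain ⟨c₂, c₂', s₂, h₂⟩ := st_of_select (η := η) H 2 (ν := ν 2) b3 he (hsp 2)
    (by rw [← hG2]; linarith) hηq
  obtain ⟨c₁, c₁', s₁, h₁⟩ := st_of_select (η := η) H 1 (ν := ν 1) b2 he (hsp 1)
    (by rw [← hG1]; linarith) hηq
  obtain ⟨c₀, c₀', s₀, h₀⟩ := st_of_select (η := η) H 0 (ν := ν 0) b1 he (hsp 0)
    (by rw [← hG0]; linarith) hηq
  have m5 := mean_Qop H 5 (ν 5) hg hmean
  have m4 := mean_Qop H 4 (ν 4) b5 m5
  have m3 := mean_Qop H 3 (ν 3) b4 m4
  have m2 := mean_Qop H 2 (ν 2) b3 m3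
  have m1 := mean_Qop H 1 (ν 1) b2 m2
  have m0 := mean_Qop H 0 (ν 0) b1 m1
  have key := hse μ
    (fun i => match i with
      | 0 => G0 | 1 => G1 | 2 => G2 | 3 => G3 | 4 => G4 | 5 => G5 | _ + 6 => g)
    (fun i => match i with
      | 0 => c₀ | 1 => c₁ | 2 => c₂ | 3 => c₃ | 4 => c₄ | 5 => c₅ | _ + 6 => 0)
    (fun i => match i with
      | 0 => c₀' | 1 => c₁' | 2 => c₂' | 3 => c₃' | 4 => c₄' | 5 => c₅' | _ + 6 => 0)
    (by
      intro i hi
      match i, hi with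
      | 0, _ => exact h₀
      | 1, _ => exact h₁
      | 2, _ => exact h₂
      | 3, _ => exact h₃
      | 4, _ => exact h₄
      | 5, _ => exact h₅)
    (by
      intro i hi
      match i, hi with
      | 0, _ => exact s₀
      | 1, _ => exact s₁
      | 2, _ => exact s₂
      | 3, _ => exact s₃
      | 4, _ => exact s₄
      | 5, _ => exact s₅)
    (by
      intro i
      match i with
      | 0 => show N2 ((volume : Measure T2).prod μ) G0 ≤ 1; linarith
      | 1 => show N2 ((volume : Measure T2).prod μ) G1 ≤ 1; linarith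
      | 2 => show N2 ((volume : Measure T2).prod μ) G2 ≤ 1; linarith
      | 3 => show N2 ((volume : Measure T2).prod μ) G3 ≤ 1; linarith
      | 4 => show N2 ((volume : Measure T2).prod μ) G4 ≤ 1; linarith
      | 5 => show N2 ((volume : Measure T2).prod μ) G5 ≤ 1; linarith
      | _ + 6 => show N2 ((volume : Measure T2).prod μ) g ≤ 1; linarith)
    (by
      intro i
      match i with
      | 0 => exact m0
      | 1 => exact m1
      | 2 => exact m2
      | 3 => exact m3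
      | 4 => exact m4
      | 5 => exact m5
      | _ + 6 => exact hmean)
  have key' : N2 ((volume : Measure T2).prod μ) G3 ^ 2 ≤ 1 / 2 := key
  linarith

private lemma Qop_zsmul {W : Type} (F : ℝ → W → W) (ν : Measure ℝ) (c : ℂ) (g : W → ℂ) :
    Qop F ν (fun w => c * g w) = fun w => c * Qop F ν g w := by
  funext w
  exact integral_const_mul c _

private lemma Qn_smul {W : Type} (c : ℂ) (g : W → ℂ) (n : ℕ) (F : ℕ → ℝ → W → W)
    (ν : ℕ → Measure ℝ) : Qn n F ν (fun w => c * g w) = fun w => c * Qn n F ν g w := by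
  induction n generalizing F ν with
  | zero => rfl
  | succ n ih =>
    show Qop (F 0) (ν 0) (Qn n (fun i => F (i + 1)) (fun i => ν (i + 1)) (fun w => c * g w)) = _
    rw [ih]
    exact Qop_zsmul _ _ _ _

private lemma six {B s q e η : ℝ} (he : 0 < e)
    (hη4 : η ≤ 1 / 4) (hηq : 2 * η < q * e ^ 2) (hse : SixS B s e)
    {Z : Type} [MeasurableSpace Z] {μ : Measure Z} [IsProbabilityMeasure μ] (H : Sys Z μ)
    {ν : ℕ → Measure ℝ} (hν : ∀ i, IsProbabilityMeasure (ν i)) (hsp : ∀ i, Spr B s q (ν i))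
    {g : T2 × Z → ℂ} (hg : BM g) (hmean : ∀ z, ∫ p : T2, g (p, z) = 0) :
    N2 ((volume : Measure T2).prod μ) (Qn 6 (pm H) ν g) ^ 2 ≤
      (1 - η) * N2 ((volume : Measure T2).prod μ) g ^ 2 := by
  rcases (N2_nonneg (μ := (volume : Measure T2).prod μ) g).eq_or_lt with h0 | h0
  · have h1 := N2_Qn_le hν H hg 6
    have z0 := N2_nonneg (μ := (volume : Measure T2).prod μ) (Qn 6 (pm H) ν g)
    have : N2 ((volume : Measure T2).prod μ) (Qn 6 (pm H) ν g) = 0 := le_antisymm (by linarith) z0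
    rw [this, ← h0]
    norm_num
  · set r := N2 ((volume : Measure T2).prod μ) g with hr
    have hr0 : r ≠ 0 := h0.ne'
    have hcg : BM (fun w => ((r⁻¹ : ℝ) : ℂ) * g w) := BM.smul _ hg
    have hm' : ∀ z, ∫ p : T2, ((r⁻¹ : ℝ) : ℂ) * g (p, z) = 0 := by
      intro z
      rw [integral_const_mul, hmean z, mul_zero]
    have hn : N2 ((volume : Measure T2).prod μ) (fun w => ((r⁻¹ : ℝ) : ℂ) * g w) = 1 := by
      rw [N2_smul, ← hr]
      rw [Complex.norm_real, Real.norm_eq_abs, abs_of_pos (by positivity)]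
      exact inv_mul_cancel₀ hr0
    have key := six_one he hη4 hηq hse H hν hsp hcg hm' hn
    rw [Qn_smul, N2_smul, Complex.norm_real, Real.norm_eq_abs,
      abs_of_pos (by positivity), mul_pow] at key
    have hr2 : 0 < r ^ 2 := by positivity
    have h5 := mul_le_mul_of_nonneg_left key hr2.le
    have h6 : r ^ 2 * (r⁻¹ ^ 2 * N2 ((volume : Measure T2).prod μ) (Qn 6 (pm H) ν g) ^ 2) =
        N2 ((volume : Measure T2).prod μ) (Qn 6 (pm H) ν g) ^ 2 := by
      rw [← mul_assoc, ← mul_pow, mul_inv_cancel₀ hr0, one_pow, one_mul]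
    rw [h6] at h5
    linarith

/-- the gap: with `e` from `small_of_six`, `η = min (1/4) (q e² / 4)`.  If `N2 g = 1` and
`N2 (Q₀…Q₅ g)² > 1 - η`, then each of the six steps loses at most `η` (`N2_Qop_le`), so
`st_of_select` gives six steps and `N2 (Q₃Q₄Q₅ g)² ≤ 1/2`, a contradiction.  Then homogeneity, and
induction by blocks of six (`RX.decay`). -/
theorem gap {B s q : ℝ} (hB : 0 ≤ B) (hs : 0 < s) (hs1 : s ≤ 1) (hq : 0 < q) :
    ∃ η : ℝ, 0 < η ∧ η ≤ 1 / 2 ∧ ∀ ν : ℕ → Measure ℝ, (∀ i, IsProbabilityMeasure (ν i)) →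
      (∀ i, Spr B s q (ν i)) → Gap η ν := by
  obtain ⟨e, he, hse⟩ := small_of_six hB hs hs1
  have hse' : SixS B s e := fun {Z} _ μ _ g a a' => hse μ g a a'
  have hqe : 0 < q * e ^ 2 := by positivity
  have hη0 : 0 < min (1 / 4) (q * e ^ 2 / 4) := lt_min (by norm_num) (by positivity)
  have hη4 : min (1 / 4) (q * e ^ 2 / 4) ≤ 1 / 4 := min_le_left _ _
  have hηq : 2 * min (1 / 4) (q * e ^ 2 / 4) < q * e ^ 2 := by
    have := min_le_right (1 / 4) (q * e ^ 2 / 4)
    linarith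
  refine ⟨min (1 / 4) (q * e ^ 2 / 4), hη0, by linarith, ?_⟩
  generalize min (1 / 4) (q * e ^ 2 / 4) = η at hη0 hη4 hηq
  intro ν hν hsp Z _ μ _ H g hg hmean n
  induction n using Nat.strong_induction_on generalizing ν H with
  | _ n ih =>
  rcases Nat.lt_or_ge n 6 with hn | hn
  · rw [Nat.div_eq_of_lt hn, pow_zero, one_mul]
    exact pow_le_pow_left₀ (N2_nonneg _) (N2_Qn_le hν H hg n) 2
  · obtain ⟨m, rfl⟩ : ∃ m, n = m + 6 := ⟨n - 6, by omega⟩
    have h1 := ih m (by omega) (fun i => ν (i + 6)) (fun i => hν (i + 6)) (fun i => hsp (i + 6))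
      (H.shift 6)
    have h2 := BM_Qn (ν := fun i => ν (i + 6)) (fun i => hν (i + 6)) (H.shift 6) hg m
    have h3 := mean_Qn (ν := fun i => ν (i + 6)) (fun i => hν (i + 6)) (H.shift 6) hg hmean m
    have h4 := six he hη4 hηq hse' H hν hsp h2 h3
    have e : Qn (m + 6) (pm H) ν g =
        Qn 6 (pm H) ν (Qn m (pm (H.shift 6)) (fun i => ν (i + 6)) g) := rfl
    rw [e]
    refine h4.trans ?_
    have h5 : 0 ≤ 1 - η := by linarith
    rw [Nat.add_div_right _ (by norm_num : 0 < 6), pow_succ]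
    calc (1 - η) * N2 ((volume : Measure T2).prod μ)
          (Qn m (pm (H.shift 6)) (fun i => ν (i + 6)) g) ^ 2 ≤
        (1 - η) * ((1 - η) ^ (m / 6) * N2 ((volume : Measure T2).prod μ) g ^ 2) := by
          gcongr
      _ = _ := by ring

end Pool.Agent.Helper95.RP
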