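import Mathlib
import Pool.Agent.Helper95.RP.Lam
import Pool.Agent.Helper95.RP.LipB
import Pool.Agent.Helper95.RP.QL2
import Pool.Agent.Helper95.RP.Win
import Pool.Agent.Helper95.RP.Sh2
import Pool.Agent.Helper95.RP.Sh5

/-! RP-FINAL: the theorem (helper95). -/

set_option autoImplicit false
open MeasureTheory Real Set Filter Topology
open scoped ComplexConjugate ENNReal

namespace Pool.Agent.Helper95.RP

open Pool.Agent.Helper95.RX

/-- the standard map with parameter `a` in the plane -/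
noncomputable def step (a : ℝ) (z : ℝ × ℝ) : ℝ × ℝ :=
  (2 * z.1 - z.2 + a * Real.sin (2 * π * z.1), z.1)

/-- composition of the first `n` maps -/
noncomputable def orbit (a : ℕ → ℝ) : ℕ → ℝ × ℝ → ℝ × ℝ
  | 0, z => z
  | n + 1, z => step (a n) (orbit a n z)

attribute [local instance] Pool.Agent.Helper53.SM.instProbU Pool.Agent.Helper53.SM.instProbT2

lemma orbit_eq (a : ℕ → ℝ) (n : ℕ) : orbit a n = YL a n := by
  induction n with
  | zero => rfl
  | succ n ih =>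
    funext z
    show step (a n) (orbit a n z) = Pool.Agent.Helper78.SM.F (a n) (YL a n z)
    rw [ih]
    rfl

lemma X_eq {X : ℕ → (ℕ → ℝ) → UnitAddCircle × UnitAddCircle → UnitAddCircle × UnitAddCircle}
    (hX : ∀ n a (x y : ℝ), X n a ((x : UnitAddCircle), (y : UnitAddCircle)) =
      (((orbit a n (x, y)).1 : UnitAddCircle), ((orbit a n (x, y)).2 : UnitAddCircle)))
    (n : ℕ) (a : ℕ → ℝ) (p : UnitAddCircle × UnitAddCircle) : X n a p = XT a n p := by
  obtain ⟨x, y⟩ := p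
  induction x using QuotientAddGroup.induction_on with
  | H x =>
    induction y using QuotientAddGroup.induction_on with
    | H y =>
      have h1 := hX n a x y
      have h2 := mk2_YL a n (x, y)
      rw [orbit_eq] at h1
      exact h1.trans h2

lemma fderiv_orbit (a : ℕ → ℝ) (n : ℕ) (z : ℝ × ℝ) : fderiv ℝ (orbit a n) z = DY a n z := by
  rw [orbit_eq]
  exact (hasFDerivAt_YL a n z).fderiv

lemma sin_zero_iff (a : ℝ) : Real.sin (2 * π * a) = 0 ↔ ∃ m : ℤ, 2 * a = (m : ℝ) := by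
  rw [Real.sin_eq_zero_iff]
  constructor
  · rintro ⟨m, hm⟩
    refine ⟨m, ?_⟩
    have hp := Real.pi_pos
    have h1 : (m : ℝ) * π = 2 * a * π := by rw [hm]; ring
    exact (mul_right_cancel₀ hp.ne' h1).symm
  · rintro ⟨m, hm⟩
    refine ⟨m, ?_⟩
    rw [← hm]
    ring

lemma measurableSet_GG (B s : ℝ) : MeasurableSet (GG B s) := by
  have h1 : MeasurableSet {t : ℝ × ℝ | s ≤ |t.1 - t.2|} :=
    measurableSet_le measurable_const (measurable_fst.sub measurable_snd).abs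
  have h2 : MeasurableSet {t : ℝ × ℝ | s ≤ |Real.sin (2 * π * t.1)|} :=
    measurableSet_le measurable_const
      (Real.measurable_sin.comp (measurable_fst.const_mul (2 * π))).abs
  have h3 : MeasurableSet {t : ℝ × ℝ | |t.1| ≤ B} :=
    measurableSet_le measurable_fst.abs measurable_const
  exact h1.inter (h2.inter h3)

/-- a law which is neither a point mass nor carried by the half-integers is spread -/
lemma exists_spr {ν : Measure ℝ} [IsProbabilityMeasure ν] (h1 : ∀ a, ν {a} ≠ 1)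
    (h2 : ν {a : ℝ | ∃ m : ℤ, 2 * a = (m : ℝ)} ≠ 1) :
    ∃ B s q : ℝ, 0 ≤ B ∧ 0 < s ∧ s ≤ 1 ∧ 0 < q ∧ Spr B s q ν := by
  -- a good set of full type
  set G : Set (ℝ × ℝ) := {t | t.1 ≠ t.2 ∧ Real.sin (2 * π * t.1) ≠ 0} with hG
  have hcov : G ⊆ ⋃ k : ℕ, GG k (1 / ((k : ℝ) + 1)) := by
    rintro t ⟨ht1, ht2⟩
    have p1 : 0 < |t.1 - t.2| := abs_pos.2 (sub_ne_zero.2 ht1)
    have p2 : 0 < |Real.sin (2 * π * t.1)| := abs_pos.2 ht2
    obtain ⟨k1, hk1⟩ := exists_nat_one_div_lt p1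
    obtain ⟨k2, hk2⟩ := exists_nat_one_div_lt p2
    obtain ⟨k3, hk3⟩ := exists_nat_ge |t.1|
    rw [mem_iUnion]
    refine ⟨max (max k1 k2) k3, ?_, ?_, ?_⟩
    · refine le_trans ?_ hk1.le
      have : (k1 : ℝ) ≤ ((max (max k1 k2) k3 : ℕ) : ℝ) := by
        exact_mod_cast (le_max_left k1 k2).trans (le_max_left _ _)
      gcongr
    · refine le_trans ?_ hk2.le
      have : (k2 : ℝ) ≤ ((max (max k1 k2) k3 : ℕ) : ℝ) := by
        exact_mod_cast (le_max_right k1 k2).trans (le_max_left _ _)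
      gcongr
    · refine hk3.trans ?_
      exact_mod_cast le_max_right _ _
  have hGpos : (ν.prod ν) G ≠ 0 := by
    intro h0
    have hGm : MeasurableSet G := by
      have m1 : MeasurableSet {t : ℝ × ℝ | t.1 ≠ t.2} :=
        (measurableSet_eq_fun measurable_fst measurable_snd).compl
      have m2 : MeasurableSet {t : ℝ × ℝ | Real.sin (2 * π * t.1) ≠ 0} :=
        (measurableSet_eq_fun (Real.measurable_sin.comp (measurable_fst.const_mul (2 * π)))
          measurable_const).compl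
      exact m1.inter m2
    rw [Measure.measure_prod_null hGm] at h0
    have hS : ν {a : ℝ | ∃ m : ℤ, 2 * a = (m : ℝ)}ᶜ ≠ 0 := by
      intro h3
      apply h2
      have hm : MeasurableSet {a : ℝ | ∃ m : ℤ, 2 * a = (m : ℝ)} := by
        have : {a : ℝ | ∃ m : ℤ, 2 * a = (m : ℝ)} = {a : ℝ | Real.sin (2 * π * a) = 0} := by
          ext a
          exact (sin_zero_iff a).symm
        rw [this]
        exact measurableSet_eq_fun (Real.measurable_sin.comp (measurable_id.const_mul (2 * π)))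
          measurable_const
      exact (prob_compl_eq_zero_iff hm).1 h3
    have hex : ∃ a : ℝ, a ∉ {a : ℝ | ∃ m : ℤ, 2 * a = (m : ℝ)} ∧ ν (Prod.mk a ⁻¹' G) = 0 := by
      by_contra hcon
      push Not at hcon
      apply hS
      refine measure_mono_null (fun a ha => ?_) h0
      exact hcon a ha
    obtain ⟨a, ha, ha0⟩ := hex
    apply h1 a
    have : Prod.mk a ⁻¹' G = {a}ᶜ := by
      ext b
      simp only [mem_preimage, hG, mem_ofPred_eq, mem_compl_iff, mem_singleton_iff]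
      constructor
      · rintro ⟨h3, _⟩ h4
        exact h3 h4.symm
      · intro h3
        refine ⟨fun h4 => h3 h4.symm, fun h4 => ha ((sin_zero_iff a).1 h4)⟩
    rw [this] at ha0
    exact (prob_compl_eq_zero_iff (measurableSet_singleton a)).1 ha0
  obtain ⟨k, hk⟩ : ∃ k : ℕ, (ν.prod ν) (GG k (1 / ((k : ℝ) + 1))) ≠ 0 := by
    by_contra hcon
    push Not at hcon
    exact hGpos (measure_mono_null hcov (measure_iUnion_null hcon))
  refine ⟨k, 1 / ((k : ℝ) + 1), (ν.prod ν).real (GG k (1 / ((k : ℝ) + 1))), Nat.cast_nonneg k,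
    by positivity, ?_, ?_, le_refl _⟩
  · rw [div_le_one (by positivity)]
    linarith [(Nat.cast_nonneg k : (0:ℝ) ≤ k)]
  · rw [measureReal_def]
    exact ENNReal.toReal_pos hk (measure_ne_top _ _)

lemma Spr_mono {B s q B' s' : ℝ} {ν : Measure ℝ} [IsProbabilityMeasure ν] (hB : B ≤ B')
    (hs : s' ≤ s) (h : Spr B s q ν) : Spr B' s' q ν := by
  refine h.trans (measureReal_mono ?_)
  rintro t ⟨h1, h2, h3⟩
  exact ⟨hs.trans h1, hs.trans h2, h3.trans hB⟩

/-- `L²` bounds with a constant and a rate -/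
lemma not_gap {ν : Measure ℝ} [IsProbabilityMeasure ν] {C γ : ℝ} (hγ : 0 < γ)
    (h : ∀ φ ψ : T2 → ℝ, MemLp φ 2 volume → MemLp ψ 2 volume → ∀ n : ℕ,
      ∫ ω, ((∫ p : T2, φ (XT ω n p) * ψ p) - (∫ p, φ p) * ∫ p, ψ p) ^ 2 ∂(PP (fun _ => ν)) ≤
        C * Real.exp (-(γ * n)) * (∫ p, φ p ^ 2) * ∫ p, ψ p ^ 2) :
    (∀ a, ν {a} < 1) ∧ ν {a : ℝ | ∃ m : ℤ, 2 * a = (m : ℝ)} < 1 := by
  have key : ∃ n : ℕ, C * Real.exp (-(γ * n)) < 1 := by
    have h1 : Tendsto (fun n : ℕ => C * Real.exp (-(γ * n))) atTop (𝓝 (C * 0)) := by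
      apply Tendsto.const_mul
      have h2 : Tendsto (fun n : ℕ => γ * (n : ℝ)) atTop atTop :=
        tendsto_natCast_atTop_atTop.const_mul_atTop hγ
      exact Real.tendsto_exp_neg_atTop_nhds_zero.comp h2
    rw [mul_zero] at h1
    exact (h1.eventually_lt_const one_pos).exists
  obtain ⟨n, hn⟩ := key
  constructor
  · intro a
    refine lt_of_le_of_ne prob_le_one fun h1 => ?_
    have := sharp_dirac h1 n (fun φ ψ hφ hψ => h φ ψ hφ hψ n)
    linarith
  · refine lt_of_le_of_ne prob_le_one fun h1 => ?_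
    have h2 : ∀ᵐ c : ℝ ∂ν, ∃ m : ℤ, 2 * c = (m : ℝ) := by
      have hm : MeasurableSet {a : ℝ | ∃ m : ℤ, 2 * a = (m : ℝ)} := by
        have : {a : ℝ | ∃ m : ℤ, 2 * a = (m : ℝ)} = {a : ℝ | Real.sin (2 * π * a) = 0} := by
          ext a
          exact (sin_zero_iff a).symm
        rw [this]
        exact measurableSet_eq_fun (Real.measurable_sin.comp (measurable_id.const_mul (2 * π)))
          measurable_const
      rw [ae_iff]
      exact (prob_compl_eq_zero_iff hm).2 h1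
    have := sharp_half (ν := fun _ => ν) (fun _ => h2) n (fun φ ψ hφ hψ => h φ ψ hφ hψ n)
    linarith

theorem main
    (X : ℕ → (ℕ → ℝ) → UnitAddCircle × UnitAddCircle → UnitAddCircle × UnitAddCircle)
    (hX : ∀ n a (x y : ℝ), X n a ((x : UnitAddCircle), (y : UnitAddCircle)) =
      (((orbit a n (x, y)).1 : UnitAddCircle), ((orbit a n (x, y)).2 : UnitAddCircle))) :
    (∀ B s q : ℝ, 0 < s → 0 < q → ∃ γ : ℝ, 0 < γ ∧ ∀ (ν : ℕ → Measure ℝ)
      [∀ n, IsProbabilityMeasure (ν n)],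
      (∀ n, q ≤ ((ν n).prod (ν n)).real {t : ℝ × ℝ | s ≤ |t.1 - t.2| ∧
        s ≤ |Real.sin (2 * π * t.1)| ∧ |t.1| ≤ B}) →
      (∀ φ ψ : UnitAddCircle × UnitAddCircle → ℝ, MemLp φ 2 volume → MemLp ψ 2 volume → ∀ n : ℕ,
        ∫ a, ((∫ p, φ (X n a p) * ψ p) - (∫ p, φ p) * ∫ p, ψ p) ^ 2 ∂(Measure.infinitePi ν) ≤
          2 * Real.exp (-(γ * n)) * (∫ p, φ p ^ 2) * ∫ p, ψ p ^ 2) ∧
      (∀ᵐ a ∂(Measure.infinitePi ν), ∃ C : ℝ, ∀ (n : ℕ)
        (φ ψ : UnitAddCircle × UnitAddCircle → ℝ),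
        LipschitzWith 1 φ → LipschitzWith 1 ψ → (∀ p, |φ p| ≤ 1) → (∀ p, |ψ p| ≤ 1) →
        |(∫ p, φ (X n a p) * ψ p) - (∫ p, φ p) * ∫ p, ψ p| ≤ C * Real.exp (-(γ * n))) ∧
      (∀ᵐ a ∂(Measure.infinitePi ν), ∀ᵐ z : ℝ × ℝ, ∀ᶠ n : ℕ in atTop,
        Real.exp (γ * n) ≤ ‖fderiv ℝ (orbit a n) z‖) ∧
      ((∀ n, ν n = ν 0) →
        (∀ U V : Set ((ℕ → ℝ) × (UnitAddCircle × UnitAddCircle)), MeasurableSet U →
          MeasurableSet V → Tendsto (fun n : ℕ => ((Measure.infinitePi ν).prod volume)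
            (U ∩ {x | ((fun i => x.1 (i + n)), X n x.1 x.2) ∈ V})) atTop
            (𝓝 (((Measure.infinitePi ν).prod volume) U *
              ((Measure.infinitePi ν).prod volume) V))) ∧
        ((∃ b : ℝ, ∀ᵐ c ∂(ν 0), |c| ≤ b) → ∃ l : ℝ, γ ≤ l ∧
          ∀ᵐ a ∂(Measure.infinitePi ν), ∀ᵐ z : ℝ × ℝ,
            Tendsto (fun n : ℕ => Real.log ‖fderiv ℝ (orbit a n) z‖ / n) atTop (𝓝 l)))) ∧
    (∀ (ν : Measure ℝ) [IsProbabilityMeasure ν],
      (∃ C γ : ℝ, 0 < γ ∧ ∀ φ ψ : UnitAddCircle × UnitAddCircle → ℝ, MemLp φ 2 volume →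
        MemLp ψ 2 volume → ∀ n : ℕ,
        ∫ a, ((∫ p, φ (X n a p) * ψ p) - (∫ p, φ p) * ∫ p, ψ p) ^ 2
          ∂(Measure.infinitePi fun _ : ℕ => ν) ≤
          C * Real.exp (-(γ * n)) * (∫ p, φ p ^ 2) * ∫ p, ψ p ^ 2) ↔
      (∀ a, ν {a} < 1) ∧ ν {a : ℝ | ∃ m : ℤ, 2 * a = (m : ℝ)} < 1) := by
  have hXe : X = fun n a => XT a n := by
    funext n a p
    exact X_eq hX n a p
  subst hXe
  have part1 : ∀ B s q : ℝ, 0 < s → 0 < q → ∃ γ : ℝ, 0 < γ ∧ ∀ (ν : ℕ → Measure ℝ)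
      [∀ n, IsProbabilityMeasure (ν n)], (∀ n, Spr B s q (ν n)) →
      (∀ φ ψ : T2 → ℝ, MemLp φ 2 volume → MemLp ψ 2 volume → ∀ n : ℕ,
        ∫ a, ((∫ p, φ (XT a n p) * ψ p) - (∫ p, φ p) * ∫ p, ψ p) ^ 2 ∂(PP ν) ≤
          2 * Real.exp (-(γ * n)) * (∫ p, φ p ^ 2) * ∫ p, ψ p ^ 2) ∧
      (∀ᵐ a ∂(PP ν), ∃ C : ℝ, ∀ (n : ℕ) (φ ψ : T2 → ℝ),
        LipschitzWith 1 φ → LipschitzWith 1 ψ → (∀ p, |φ p| ≤ 1) → (∀ p, |ψ p| ≤ 1) →
        |(∫ p, φ (XT a n p) * ψ p) - (∫ p, φ p) * ∫ p, ψ p| ≤ C * Real.exp (-(γ * n))) ∧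
      (∀ᵐ a ∂(PP ν), ∀ᵐ z : ℝ × ℝ, ∀ᶠ n : ℕ in atTop,
        Real.exp (γ * n) ≤ ‖fderiv ℝ (orbit a n) z‖) ∧
      ((∀ n, ν n = ν 0) →
        (∀ U V : Set ((ℕ → ℝ) × T2), MeasurableSet U →
          MeasurableSet V → Tendsto (fun n : ℕ => ((PP ν).prod volume)
            (U ∩ {x | ((fun i => x.1 (i + n)), XT x.1 n x.2) ∈ V})) atTop
            (𝓝 (((PP ν).prod volume) U * ((PP ν).prod volume) V))) ∧
        ((∃ b : ℝ, ∀ᵐ c ∂(ν 0), |c| ≤ b) → ∃ l : ℝ, γ ≤ l ∧
          ∀ᵐ a ∂(PP ν), ∀ᵐ z : ℝ × ℝ,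
            Tendsto (fun n : ℕ => Real.log ‖fderiv ℝ (orbit a n) z‖ / n) atTop (𝓝 l))) := by
    intro B s q hs hq
    obtain ⟨η, hη0, hη1, hgap0⟩ := gap (B := max B 0) (s := min s 1) (q := q)
      (le_max_right _ _) (lt_min hs one_pos) (min_le_right _ _) hq
    refine ⟨2 * η / 3 / 64, by positivity, ?_⟩
    intro ν _ hν
    have hgap : Gap η ν := hgap0 ν (fun i => inferInstance)
      (fun i => Spr_mono (le_max_left _ _) (min_le_left _ _) (hν i))
    set g := 2 * η / 3 / 64 with hg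
    have hg0 : 0 < g := by rw [hg]; positivity
    refine ⟨?_, ?_, ?_, ?_⟩
    · intro φ ψ hφ hψ n
      refine (quench_L2 hη0 hη1 hgap hφ hψ n).trans ?_
      have h1 : rho η n ≤ 2 * Real.exp (-(g * n)) := by
        refine (rho_le hη0 hη1 n).trans ?_
        have h2 : Real.sqrt 2 ≤ 2 := by
          rw [Real.sqrt_le_left (by norm_num)]; norm_num
        have h3 : Real.exp (-(2 * η / 3 * n / 8)) ≤ Real.exp (-(g * n)) := by
          apply Real.exp_le_exp.2
          have hn : (0:ℝ) ≤ n := Nat.cast_nonneg n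
          have : g * n ≤ 2 * η / 3 / 8 * n := by
            apply mul_le_mul_of_nonneg_right _ hn
            rw [hg]
            linarith
          linarith
        gcongr
      have h4 : 0 ≤ ∫ p, φ p ^ 2 := integral_nonneg (fun p => sq_nonneg _)
      have h5 : 0 ≤ ∫ p, ψ p ^ 2 := integral_nonneg (fun p => sq_nonneg _)
      gcongr
    · exact quenched_lip hη0 hη1 hgap
    · filter_upwards [growth hη0 hη1 hgap] with t ht
      filter_upwards [ht] with z hz
      filter_upwards [hz] with n hn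
      rw [fderiv_orbit]
      exact hn
    · intro hν0
      obtain ⟨ρ, rfl⟩ : ∃ ρ, ν = fun _ => ρ := ⟨ν 0, funext hν0⟩
      have : IsProbabilityMeasure ρ := ‹∀ n, IsProbabilityMeasure ((fun _ => ρ) n)› 0
      refine ⟨?_, ?_⟩
      · intro U V hU hV
        have h1 := mixing_FS hη0 hη1 hgap hU hV
        have h2 := (ENNReal.continuous_ofReal.tendsto _).comp h1
        rw [ENNReal.ofReal_mul measureReal_nonneg, ofReal_measureReal, ofReal_measureReal] at h2
        refine h2.congr (fun n => ?_)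
        simp only [Function.comp]
        rw [ofReal_measureReal]
        congr 2
        ext x
        simp only [mem_preimage, mem_ofPred_eq]
        rw [FS_iter]
      · rintro ⟨b, hb⟩
        obtain ⟨l, hl, h⟩ := exists_lambda hη0 hη1 hgap (B := max b 0) (le_max_right _ _)
          (hb.mono fun c hc => hc.trans (le_max_left _ _))
        refine ⟨l, hl, ?_⟩
        filter_upwards [h] with t ht
        filter_upwards [ht] with z hz
        refine hz.congr (fun n => ?_)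
        rw [fderiv_orbit]
  refine ⟨part1, ?_⟩
  intro ν _
  constructor
  · rintro ⟨C, γ, hγ, h⟩
    exact not_gap hγ h
  · rintro ⟨h1, h2⟩
    obtain ⟨B, s, q, hB, hs, hs1, hq, hspr⟩ := exists_spr (fun a => (h1 a).ne) h2.ne
    obtain ⟨γ, hγ, h⟩ := part1 B s q hs hq
    exact ⟨2, γ, hγ, (h (fun _ => ν) (fun _ => hspr)).1⟩

end Pool.Agent.Helper95.RP
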